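import Mathlib

set_option autoImplicit false

/-! # Vanishing sums of roots of unity split into short cosets -/

namespace Pool.Agent.Helper477.Sph

open Polynomial

theorem pow_eq_of_modEq {G : Type*} [Monoid G] {x : G} {d a b : ℕ} (hx : x ^ d = 1)
    (h : a ≡ b [MOD d]) : x ^ a = x ^ b := by
  rw [← Nat.mod_add_div a d, ← Nat.mod_add_div b d, pow_add, pow_add, pow_mul, pow_mul, hx,
    one_pow, one_pow, h]

/-- Galois conjugation at a primitive root of unity. -/
theorem cyc_conj {d : ℕ} (hd : 0 < d) {ζ : ℂ} (hζ : IsPrimitiveRoot ζ d) (P : ℤ[X]) (t : ℕ)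
    (ht : t.Coprime d) (h : aeval ζ P = 0) : aeval (ζ ^ t) P = 0 := by
  have h1 : minpoly ℤ ζ ∣ P :=
    (minpoly.isIntegrallyClosed_dvd_iff (hζ.isIntegral hd) P).mp h
  rw [← cyclotomic_eq_minpoly hζ hd] at h1
  obtain ⟨Q, rfl⟩ := h1
  have h2 : aeval (ζ ^ t) (cyclotomic d ℤ) = 0 := by
    rw [aeval_def, eval₂_eq_eval_map, map_cyclotomic]
    exact (hζ.pow_of_coprime t ht).isRoot_cyclotomic hd
  rw [map_mul, h2, zero_mul]

/-- The same for sums of roots of unity. -/
theorem sum_conj {d : ℕ} (hd : 0 < d) {κ : Type*} (s : Finset κ) (c : κ → ℤ) (x : κ → ℂ)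
    (hx : ∀ k ∈ s, x k ^ d = 1) (t : ℕ) (ht : t.Coprime d) (h : ∑ k ∈ s, (c k : ℂ) * x k = 0) :
    ∑ k ∈ s, (c k : ℂ) * x k ^ t = 0 := by
  classical
  have hζ := Complex.isPrimitiveRoot_exp d hd.ne'
  set ζ := Complex.exp (2 * Real.pi * Complex.I / d) with hζd
  have : NeZero d := ⟨hd.ne'⟩
  have he : ∀ k : κ, ∃ e : ℕ, k ∈ s → ζ ^ e = x k := by
    intro k
    by_cases hk : k ∈ s
    · obtain ⟨e, _, he⟩ := hζ.eq_pow_of_pow_eq_one (hx k hk)
      exact ⟨e, fun _ => he⟩
    · exact ⟨0, fun h => absurd h hk⟩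
  choose e he using he
  have h1 := cyc_conj hd hζ (∑ k ∈ s, C (c k) * X ^ e k) t ht (by
    rw [map_sum, ← h]
    refine Finset.sum_congr rfl fun k hk => ?_
    rw [map_mul, map_pow, aeval_X, aeval_C, he k hk]
    rfl)
  rw [map_sum] at h1
  rw [← h1]
  refine Finset.sum_congr rfl fun k hk => ?_
  rw [map_mul, map_pow, aeval_X, aeval_C, ← he k hk, ← pow_mul, ← pow_mul, mul_comm t]
  rfl

/-- A long arithmetic progression of units. -/
theorem exists_ap (d M : ℕ) (hd : 0 < d) :
    ∃ t : ℕ, ∀ i < M, (t + i * M.factorial).Coprime d := by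
  classical
  set N := M.factorial with hN
  -- residues for the large primes
  have hr : ∀ p : ℕ, ∃ a : ℕ, p.Prime → M < p → ∀ i < M, ¬ p ∣ 1 + N * (a + i) := by
    intro p
    by_cases hp : p.Prime ∧ M < p
    · obtain ⟨hp, hMp⟩ := hp
      have hco : N.Coprime p := by
        rw [Nat.coprime_comm, hp.coprime_iff_not_dvd, hN, hp.dvd_factorial]
        omega
      -- pick r with p ∣ 1 + N r
      obtain ⟨r, hr⟩ : ∃ r : ℕ, p ∣ 1 + N * r := by
        have hpos : 0 < p := hp.pos
        have : Fact p.Prime := ⟨hp⟩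
        refine ⟨(-(N : ZMod p)⁻¹).val, ?_⟩
        rw [← CharP.cast_eq_zero_iff (ZMod p) p]
        push_cast
        rw [ZMod.natCast_val, ZMod.cast_id]
        have : (N : ZMod p) ≠ 0 := by
          intro h
          rw [CharP.cast_eq_zero_iff (ZMod p) p] at h
          exact (hp.coprime_iff_not_dvd.mp hco.symm) h
        field_simp
        simp
      refine ⟨r + 1, fun _ _ i hi hdvd => ?_⟩
      have h1 : 1 + N * (r + 1 + i) = (1 + N * r) + N * (1 + i) := by ring
      rw [h1, Nat.dvd_add_right hr] at hdvd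
      rcases (hp.dvd_mul).mp hdvd with h2 | h2
      · exact (hp.coprime_iff_not_dvd.mp hco.symm) h2
      · have := Nat.le_of_dvd (by omega) h2
        omega
    · exact ⟨0, fun h1 h2 => absurd ⟨h1, h2⟩ hp⟩
  choose a ha using hr
  obtain ⟨s, hs⟩ := Nat.chineseRemainderOfFinset a id (d.primeFactors) (by
    intro p hp
    exact (Nat.prime_of_mem_primeFactors hp).ne_zero) (by
    intro p hp q hq hpq
    exact (Nat.coprime_primes (Nat.prime_of_mem_primeFactors hp)
      (Nat.prime_of_mem_primeFactors hq)).mpr hpq)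
  refine ⟨1 + N * s, fun i hi => ?_⟩
  by_contra hcon
  obtain ⟨p, hp, hpt, hpd⟩ := Nat.Prime.not_coprime_iff_dvd.mp hcon
  have hps : p ∈ d.primeFactors := Nat.mem_primeFactors.mpr ⟨hp, hpd, hd.ne'⟩
  have h1 : 1 + N * s + i * N = 1 + N * (s + i) := by ring
  rw [h1] at hpt
  by_cases hMp : M < p
  · apply ha p hp hMp i hi
    have h2 := hs p hps
    rw [id] at h2
    have h3 : 1 + N * (a p + i) ≡ 1 + N * (s + i) [MOD p] :=
      Nat.ModEq.add_left 1 (Nat.ModEq.mul_left N (Nat.ModEq.add_right i h2.symm))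
    exact (Nat.modEq_zero_iff_dvd).mp (h3.trans ((Nat.modEq_zero_iff_dvd).mpr hpt))
  · have h2 : p ∣ N := by rw [hN, hp.dvd_factorial]; omega
    have h3 : p ∣ 1 := by
      rw [← Nat.dvd_add_right (Dvd.dvd.mul_right h2 (s + i)), add_comm]
      exact hpt
    exact hp.one_lt.ne' (Nat.dvd_one.mp h3)

/-- **Mann's lemma.** A vanishing integral combination of at most `M` roots of unity splits
according to the `M!`-th powers. -/
theorem mann {d : ℕ} (hd : 0 < d) {κ : Type*} (s : Finset κ) (M : ℕ) (hM : s.card ≤ M)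
    (c : κ → ℤ) (x : κ → ℂ) (hx : ∀ k ∈ s, x k ^ d = 1) (h : ∑ k ∈ s, (c k : ℂ) * x k = 0)
    (ω : ℂ) : ∑ k ∈ s with x k ^ M.factorial = ω, (c k : ℂ) * x k = 0 := by
  classical
  rcases s.eq_empty_or_nonempty with rfl | hne
  · simp
  have hMpos : 0 < M := lt_of_lt_of_le hne.card_pos hM
  obtain ⟨t, ht⟩ := exists_ap d M hd
  set N := M.factorial with hN
  by_cases hω : ω ∈ s.image (fun k => x k ^ N)
  · set Ω := (s.image (fun k => x k ^ N)).erase ω with hΩ
    set p : ℂ[X] := ∏ w ∈ Ω, (X - C w) with hp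
    have hdeg : p.natDegree < M := by
      rw [hp, natDegree_prod_of_monic _ _ (fun w _ => monic_X_sub_C w)]
      simp only [natDegree_X_sub_C, Finset.sum_const, smul_eq_mul, mul_one]
      rw [hΩ, Finset.card_erase_of_mem hω]
      have h1 : (s.image (fun k => x k ^ N)).card ≤ s.card := Finset.card_image_le
      have h2 : 0 < (s.image (fun k => x k ^ N)).card := Finset.card_pos.mpr ⟨_, hω⟩
      omega
    have hsum : ∑ k ∈ s, (c k : ℂ) * x k ^ t * p.eval (x k ^ N) = 0 := by
      simp only [eval_eq_sum_range, Finset.mul_sum]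
      rw [Finset.sum_comm]
      refine Finset.sum_eq_zero fun i hi => ?_
      have hi' : i < M := by
        have := Finset.mem_range.mp hi
        omega
      have h1 := sum_conj hd s c x hx (t + i * N) (ht i hi') h
      calc ∑ k ∈ s, (c k : ℂ) * x k ^ t * (p.coeff i * (x k ^ N) ^ i)
          = p.coeff i * ∑ k ∈ s, (c k : ℂ) * x k ^ (t + i * N) := by
            rw [Finset.mul_sum]
            refine Finset.sum_congr rfl fun k _ => ?_
            rw [pow_add, ← pow_mul, mul_comm N i]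
            ring
        _ = 0 := by rw [h1, mul_zero]
    have hp0 : ∀ w ∈ s.image (fun k => x k ^ N), w ≠ ω → p.eval w = 0 := by
      intro w hw hne'
      rw [hp, eval_prod]
      apply Finset.prod_eq_zero (i := w) (Finset.mem_erase.mpr ⟨hne', hw⟩)
      simp
    have hpω : p.eval ω ≠ 0 := by
      rw [hp, eval_prod, Finset.prod_ne_zero_iff]
      intro w hw
      rw [eval_sub, eval_X, eval_C, sub_ne_zero]
      exact (Finset.mem_erase.mp hw).1.symm
    have h2 : (∑ k ∈ s with x k ^ N = ω, (c k : ℂ) * x k ^ t) * p.eval ω = 0 := by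
      rw [← hsum, Finset.sum_mul, Finset.sum_filter]
      refine Finset.sum_congr rfl fun k hk => ?_
      by_cases hk' : x k ^ N = ω
      · rw [if_pos hk', hk']
      · rw [if_neg hk', hp0 _ (Finset.mem_image_of_mem _ hk) hk', mul_zero]
    have h3 : ∑ k ∈ s with x k ^ N = ω, (c k : ℂ) * x k ^ t = 0 :=
      (mul_eq_zero.mp h2).resolve_right hpω
    -- conjugate back
    have ht0 : t.Coprime d := by simpa using ht 0 hMpos
    obtain ⟨t', ht', ht'd⟩ : ∃ t' : ℕ, t * t' ≡ 1 [MOD d] ∧ t'.Coprime d := by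
      rcases Nat.eq_or_lt_of_le (Nat.succ_le_of_lt hd) with h1 | h1
      · refine ⟨1, ?_, ?_⟩
        · rw [← h1]; exact Nat.modEq_one
        · exact Nat.coprime_one_left d
      · obtain ⟨t', ht'⟩ := Nat.exists_mul_mod_eq_one_of_coprime ht0 h1
        refine ⟨t', ?_, ?_⟩
        · unfold Nat.ModEq
          rw [Nat.mod_eq_of_lt h1]
          exact ht'.2
        · have h2 : t * t' ≡ 1 [MOD d] := by
            unfold Nat.ModEq
            rw [Nat.mod_eq_of_lt h1]
            exact ht'.2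
          have h3 : (t * t').Coprime d := by
            rw [Nat.coprime_iff_gcd_eq_one, h2.gcd_eq, Nat.gcd_one_left]
          exact Nat.Coprime.coprime_mul_left h3
    have h4 := sum_conj hd (s.filter fun k => x k ^ N = ω) c (fun k => x k ^ t) (by
      intro k hk
      rw [← pow_mul, mul_comm, pow_mul, hx k (Finset.mem_filter.mp hk).1, one_pow]) t' ht'd h3
    rw [← h4]
    refine Finset.sum_congr rfl fun k hk => ?_
    congr 1
    have hk1 := hx k (Finset.mem_filter.mp hk).1
    have h5 : x k ^ (t * t') = x k ^ 1 := pow_eq_of_modEq hk1 ht'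
    rw [← pow_mul, h5, pow_one]
  · rw [Finset.filter_eq_empty_iff.mpr, Finset.sum_empty]
    intro k hk hk'
    exact hω (Finset.mem_image.mpr ⟨k, hk, hk'⟩)

end Pool.Agent.Helper477.Sph
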