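import Pool.Agent.Helper477.Sph.Bd9

set_option autoImplicit false

/-! # A finite freely acting orthogonal group has an element of large order -/

namespace Pool.Agent.Helper477.Sph

open scoped Matrix

variable {n : ℕ}

/-- The squared Frobenius norm. -/
def fs (A : Matrix (Fin n) (Fin n) ℝ) : ℝ := ∑ i, ∑ j, A i j ^ 2

theorem fs_nonneg (A : Matrix (Fin n) (Fin n) ℝ) : 0 ≤ fs A :=
  Finset.sum_nonneg fun _ _ => Finset.sum_nonneg fun _ _ => sq_nonneg _

theorem fs_eq_trace (A : Matrix (Fin n) (Fin n) ℝ) : fs A = (Aᵀ * A).trace := by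
  rw [fs, Finset.sum_comm, Matrix.trace]
  refine Finset.sum_congr rfl fun j _ => ?_
  rw [Matrix.diag_apply, Matrix.mul_apply]
  refine Finset.sum_congr rfl fun i _ => ?_
  rw [Matrix.transpose_apply, pow_two]

theorem fs_pos {A : Matrix (Fin n) (Fin n) ℝ} (hA : A ≠ 0) : 0 < fs A := by
  refine lt_of_le_of_ne (fs_nonneg A) fun h => hA ?_
  ext i j
  have h1 := (Finset.sum_eq_zero_iff_of_nonneg (fun i _ =>
    Finset.sum_nonneg fun j _ => sq_nonneg (A i j))).mp h.symm i (Finset.mem_univ i)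
  have h2 := (Finset.sum_eq_zero_iff_of_nonneg (fun j _ => sq_nonneg (A i j))).mp h1 j
    (Finset.mem_univ j)
  rw [Matrix.zero_apply]
  exact pow_eq_zero_iff (two_ne_zero) |>.mp h2

theorem fs_mul_le (A B : Matrix (Fin n) (Fin n) ℝ) : fs (A * B) ≤ fs A * fs B := by
  have h1 : ∀ i j, (A * B) i j ^ 2 ≤ (∑ k, A i k ^ 2) * ∑ k, B k j ^ 2 := by
    intro i j
    rw [Matrix.mul_apply]
    exact Finset.sum_mul_sq_le_sq_mul_sq _ _ _
  calc fs (A * B) ≤ ∑ i, ∑ j, (∑ k, A i k ^ 2) * ∑ k, B k j ^ 2 :=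
        Finset.sum_le_sum fun i _ => Finset.sum_le_sum fun j _ => h1 i j
    _ = fs A * fs B := by
        rw [fs, fs, Finset.sum_comm (f := fun k j => B k j ^ 2), Finset.sum_mul_sum]

theorem fs_sub_le (A B : Matrix (Fin n) (Fin n) ℝ) : fs (A - B) ≤ 2 * fs A + 2 * fs B := by
  rw [fs, fs, fs, Finset.mul_sum, Finset.mul_sum, ← Finset.sum_add_distrib]
  refine Finset.sum_le_sum fun i _ => ?_
  rw [Finset.mul_sum, Finset.mul_sum, ← Finset.sum_add_distrib]
  refine Finset.sum_le_sum fun j _ => ?_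
  rw [Matrix.sub_apply]
  nlinarith [sq_nonneg (A i j + B i j)]

theorem fs_neg (A : Matrix (Fin n) (Fin n) ℝ) : fs (-A) = fs A := by
  unfold fs
  simp

theorem fs_mul_left (g : Matrix.orthogonalGroup (Fin n) ℝ) (A : Matrix (Fin n) (Fin n) ℝ) :
    fs (g.1 * A) = fs A := by
  rw [fs_eq_trace, fs_eq_trace, Matrix.transpose_mul]
  congr 1
  calc Aᵀ * g.1ᵀ * (g.1 * A) = Aᵀ * ((g.1ᵀ * g.1) * A) := by simp only [Matrix.mul_assoc]
    _ = _ := by rw [orth_t, Matrix.one_mul]

theorem orth_t' (g : Matrix.orthogonalGroup (Fin n) ℝ) : g.1 * g.1ᵀ = 1 :=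
  (Matrix.mem_orthogonalGroup_iff _ _).mp g.2

theorem fs_mul_right (g : Matrix.orthogonalGroup (Fin n) ℝ) (A : Matrix (Fin n) (Fin n) ℝ) :
    fs (A * g.1) = fs A := by
  rw [fs_eq_trace, fs_eq_trace, Matrix.transpose_mul, Matrix.mul_assoc, Matrix.trace_mul_comm]
  congr 1
  calc Aᵀ * (A * g.1) * g.1ᵀ = Aᵀ * A * (g.1 * g.1ᵀ) := by simp only [Matrix.mul_assoc]
    _ = _ := by rw [orth_t', Matrix.mul_one]

theorem fs_sub_one (g : Matrix.orthogonalGroup (Fin n) ℝ) :
    fs (g.1 - 1) = 2 * n - 2 * g.1.trace := by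
  rw [fs_eq_trace, Matrix.transpose_sub, Matrix.transpose_one, Matrix.sub_mul, Matrix.mul_sub,
    Matrix.mul_sub, Matrix.mul_one, Matrix.one_mul, Matrix.one_mul, orth_t, Matrix.trace_sub,
    Matrix.trace_sub, Matrix.trace_sub, Matrix.trace_transpose, Matrix.trace_one,
    Fintype.card_fin]
  ring

theorem comm_small {Γ : Subgroup (Matrix.orthogonalGroup (Fin n) ℝ)} [Finite Γ] (hΓ : FreeOn Γ)
    (hn : 0 < n) : ∀ a b : Γ, fs (a.1.1 - 1) < 1 / 4 → fs (b.1.1 - 1) < 1 / 4 → a * b = b * a := by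
  classical
  have := Fintype.ofFinite Γ
  by_contra hcon
  push Not at hcon
  set Bad : Finset Γ := Finset.univ.filter fun b => fs (b.1.1 - 1) < 1 / 4 ∧
    ∃ a : Γ, fs (a.1.1 - 1) < 1 / 4 ∧ a * b ≠ b * a with hBad
  have hne : Bad.Nonempty := by
    obtain ⟨a, b, ha, hb, hab⟩ := hcon
    exact ⟨b, Finset.mem_filter.mpr ⟨Finset.mem_univ _, hb, a, ha, hab⟩⟩
  obtain ⟨b, hb, hmin⟩ := Bad.exists_min_image (fun b => fs (b.1.1 - 1)) hne
  obtain ⟨_, hb1, a, ha1, hab⟩ := Finset.mem_filter.mp hb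
  set c : Γ := a * b * a⁻¹ * b⁻¹ with hc
  have hcab : c * (b * a) = a * b := by rw [hc]; group
  have hb0 : 0 < fs (b.1.1 - 1) := by
    apply fs_pos
    intro h
    apply hab
    have : b = 1 := by
      apply Subtype.ext
      apply Subtype.ext
      exact sub_eq_zero.mp h
    rw [this, mul_one, one_mul]
  have hfc : fs (c.1.1 - 1) ≤ 4 * (fs (a.1.1 - 1) * fs (b.1.1 - 1)) := by
    have h1 : fs (c.1.1 - 1) = fs ((c.1.1 - 1) * (b * a).1.1) := (fs_mul_right (b * a).1 _).symm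
    have h2 : (c.1.1 - 1) * (b * a).1.1 =
        (a.1.1 - 1) * (b.1.1 - 1) - (b.1.1 - 1) * (a.1.1 - 1) := by
      have h3 : c.1.1 * (b * a).1.1 = a.1.1 * b.1.1 := congrArg (fun x : Γ => x.1.1) hcab
      have h4 : (b * a).1.1 = b.1.1 * a.1.1 := rfl
      rw [Matrix.sub_mul, h3, h4]
      noncomm_ring
    rw [h1, h2]
    have h5 := fs_sub_le ((a.1.1 - 1) * (b.1.1 - 1)) ((b.1.1 - 1) * (a.1.1 - 1))
    have h6 := fs_mul_le (a.1.1 - 1) (b.1.1 - 1)
    have h7 := fs_mul_le (b.1.1 - 1) (a.1.1 - 1)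
    nlinarith
  have hclt : fs (c.1.1 - 1) < fs (b.1.1 - 1) := by nlinarith [fs_nonneg (a.1.1 - 1)]
  have hca : c * a = a * c := by
    by_contra h
    have h1 : c ∈ Bad := Finset.mem_filter.mpr ⟨Finset.mem_univ _, hclt.trans hb1, a, ha1,
      fun h' => h h'.symm⟩
    exact absurd (hmin c h1) (not_le.mpr hclt)
  have hc1 : c.1 ≠ 1 := by
    intro h
    apply hab
    have : c = 1 := Subtype.ext h
    rw [← hcab, this, one_mul]
  have hk : ∀ k : ℕ, a ^ k * b * (a ^ k)⁻¹ = c ^ k * b := by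
    intro k
    induction k with
    | zero => simp
    | succ k ih =>
      have h1 : a ^ (k + 1) * b * (a ^ (k + 1))⁻¹ = a * (a ^ k * b * (a ^ k)⁻¹) * a⁻¹ := by
        rw [pow_succ']; group
      have h2 : a * c ^ k = c ^ k * a := by
        have : Commute a (c ^ k) := (Commute.pow_right hca.symm k)
        exact this
      have h3 : a * b * a⁻¹ = c * b := by rw [hc]; group
      rw [h1, ih, ← mul_assoc, h2, mul_assoc, mul_assoc, ← mul_assoc a, h3, ← mul_assoc, pow_succ]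
  have htr : ∀ k : ℕ, (c.1.1 ^ k * b.1.1).trace = b.1.1.trace := by
    intro k
    have h1 := trace_conj' (a ^ k).1 b.1
    have h2 : (a ^ k).1 * b.1 * ((a ^ k).1)⁻¹ = (c ^ k * b : Γ).1 := congrArg Subtype.val (hk k)
    rw [h2] at h1
    exact h1
  have hN : 0 < orderOf c.1 := pos_of_fin c
  have hz := norm_zero hΓ c.2 hc1 (orderOf c.1) (pow_orderOf_eq_one c.1)
  have h1 : (orderOf c.1 : ℝ) * b.1.1.trace = 0 := by
    have h2 : ((∑ i ∈ Finset.range (orderOf c.1), c.1.1 ^ i) * b.1.1).trace =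
        (orderOf c.1 : ℝ) * b.1.1.trace := by
      rw [Finset.sum_mul, Matrix.trace_sum, Finset.sum_congr rfl fun k _ => htr k,
        Finset.sum_const, Finset.card_range, nsmul_eq_mul]
    rw [← h2, hz, Matrix.zero_mul, Matrix.trace_zero]
  have h2 : b.1.1.trace = 0 := by
    rcases mul_eq_zero.mp h1 with h | h
    · exact absurd (by exact_mod_cast h) hN.ne'
    · exact h
  rw [fs_sub_one, h2] at hb1
  have h3 : (1 : ℝ) ≤ n := by exact_mod_cast hn
  linarith

theorem entry_le (g : Matrix.orthogonalGroup (Fin n) ℝ) (i j : Fin n) : |g.1 i j| ≤ 1 := by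
  have h1 := congrFun (congrFun (orth_t g) j) j
  rw [Matrix.mul_apply, Matrix.one_apply_eq] at h1
  have h2 : g.1 i j ^ 2 ≤ 1 := by
    rw [← h1]
    have h3 := Finset.single_le_sum (f := fun i => g.1ᵀ j i * g.1 i j) (fun k _ => by
      simp only [Matrix.transpose_apply]
      exact mul_self_nonneg _) (Finset.mem_univ i)
    simp only [Matrix.transpose_apply] at h3
    rw [pow_two]
    simpa only [Matrix.transpose_apply] using h3
  exact abs_le_one_iff_mul_self_le_one.mpr (by rw [← pow_two]; exact h2)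

/-- **Jordan's theorem for freely acting groups**: some element has order at least `|Γ| / J`. -/
theorem jordan (hn : 0 < n) : ∃ J : ℕ, ∀ Γ : Subgroup (Matrix.orthogonalGroup (Fin n) ℝ),
    Finite Γ → FreeOn Γ → ∃ a ∈ Γ, Nat.card Γ ≤ J * orderOf a := by
  classical
  set L : ℤ := 4 * n with hL
  refine ⟨Fintype.card (Fin n × Fin n → (Finset.Icc (-L) L)), fun Γ hfin hΓ => ?_⟩
  set A : Subgroup Γ := Subgroup.closure {g : Γ | fs (g.1.1 - 1) < 1 / 4} with hA
  have hcomm : ∀ x ∈ A, ∀ y ∈ A, x * y = y * x := by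
    have h1 : ∀ x ∈ {g : Γ | fs (g.1.1 - 1) < 1 / 4}, ∀ y ∈ {g : Γ | fs (g.1.1 - 1) < 1 / 4},
        x * y = y * x := fun x hx y hy => comm_small hΓ hn x y hx hy
    have h2 := (Subgroup.closureCommGroupOfComm h1).mul_comm
    intro x hx y hy
    exact congrArg Subtype.val (h2 ⟨x, hx⟩ ⟨y, hy⟩)
  have hcyc : IsCyclic A := cyclic_of_abelian hΓ hn A hcomm
  obtain ⟨a, ha⟩ := hcyc.exists_generator
  have hord : orderOf a.1.1 = Nat.card A := by
    rw [Subgroup.orderOf_coe, Subgroup.orderOf_coe, orderOf_eq_card_of_forall_mem_zpowers ha]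
  refine ⟨a.1.1, a.1.2, ?_⟩
  rw [hord, ← A.index_mul_card]
  apply Nat.mul_le_mul_right
  have hLpos : (0 : ℝ) < L := by
    rw [hL]
    push_cast
    have : (0 : ℝ) < n := by exact_mod_cast hn
    linarith
  let cell : Γ → (Fin n × Fin n → (Finset.Icc (-L) L)) := fun g ij =>
    ⟨⌊(L : ℝ) * g.1.1 ij.1 ij.2⌋, by
      have h1 := abs_le.mp (entry_le g.1 ij.1 ij.2)
      rw [Finset.mem_Icc]
      constructor
      · rw [Int.le_floor]
        push_cast
        nlinarith [h1.1]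
      · rw [← Int.cast_le (R := ℝ)]
        refine (Int.floor_le _).trans ?_
        nlinarith [h1.2]⟩
  have hinj : Function.Injective (fun q : Γ ⧸ A => cell q.out) := by
    intro q q' hqq
    simp only at hqq
    set g := q.out with hg
    set h := q'.out with hh
    have hclose : ∀ i j, (h.1.1 i j - g.1.1 i j) ^ 2 ≤ 1 / (16 * (n : ℝ) ^ 2) := by
      intro i j
      have h1 : ⌊(L : ℝ) * g.1.1 i j⌋ = ⌊(L : ℝ) * h.1.1 i j⌋ :=
        congrArg Subtype.val (congrFun hqq (i, j))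
      have h2 := Int.abs_sub_lt_one_of_floor_eq_floor h1
      have h3 : |(4 * (n : ℝ)) * (g.1.1 i j - h.1.1 i j)| < 1 := by
        have : (L : ℝ) = 4 * n := by rw [hL]; push_cast; ring
        rw [this] at h2
        rw [mul_sub]
        exact h2
      have hn' : (0 : ℝ) < n := by exact_mod_cast hn
      have h4 : ((4 * (n : ℝ)) * (g.1.1 i j - h.1.1 i j)) ^ 2 < 1 := by
        rw [← sq_abs]
        have := abs_nonneg ((4 * (n : ℝ)) * (g.1.1 i j - h.1.1 i j))
        nlinarith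
      rw [le_div_iff₀ (by positivity)]
      nlinarith
    have hfs : fs (h.1.1 - g.1.1) < 1 / 4 := by
      have hn' : (0 : ℝ) < n := by exact_mod_cast hn
      have h1 : fs (h.1.1 - g.1.1) ≤ ∑ i : Fin n, ∑ j : Fin n, 1 / (16 * (n : ℝ) ^ 2) :=
        Finset.sum_le_sum fun i _ => Finset.sum_le_sum fun j _ => by
          rw [Matrix.sub_apply]
          exact hclose i j
      rw [Finset.sum_const, Finset.sum_const, Finset.card_univ, Fintype.card_fin, nsmul_eq_mul,
        nsmul_eq_mul] at h1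
      have h2 : (n : ℝ) * (n * (1 / (16 * (n : ℝ) ^ 2))) = 1 / 16 := by
        field_simp
      rw [h2] at h1
      linarith
    have hmem : g⁻¹ * h ∈ A := by
      apply Subgroup.subset_closure
      change fs ((g⁻¹ * h).1.1 - 1) < 1 / 4
      have h1 : (g⁻¹ * h).1.1 - 1 = (g⁻¹).1.1 * (h.1.1 - g.1.1) := by
        have h2 : (g⁻¹).1.1 * g.1.1 = 1 := congrArg (fun x : Γ => x.1.1) (inv_mul_cancel g)
        rw [Matrix.mul_sub, h2]
        rfl
      rw [h1, fs_mul_left]
      exact hfs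
    have h1 : (QuotientGroup.mk g : Γ ⧸ A) = QuotientGroup.mk h := QuotientGroup.eq.mpr hmem
    rwa [hg, hh, QuotientGroup.out_eq', QuotientGroup.out_eq'] at h1
  rw [Subgroup.index, ← Nat.card_eq_fintype_card]
  exact Nat.card_le_card_of_injective _ hinj

end Pool.Agent.Helper477.Sph
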