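import Pool.Agent.Helper477.Sph.Bd10

set_option autoImplicit false

/-! # The canonical normal cyclic subgroup -/

namespace Pool.Agent.Helper477.Sph

variable {n : ℕ}

section
variable {G : Type*} [Group G]

theorem pow_fac_mem [Finite G] (D : Subgroup G) {J : ℕ} (h : D.index ≤ J) (x : G) :
    x ^ J.factorial ∈ D :=
  Subgroup.pow_mem_of_index_ne_zero_of_dvd Subgroup.FiniteIndex.index_ne_zero x
    fun _ hm hm' => Nat.dvd_factorial hm (hm'.trans h)

theorem mem_zpowers_pow {c y : G} (N : ℕ) (hc : 0 < orderOf c) (hy : y ∈ Subgroup.zpowers c)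
    (h : y ^ orderOf (c ^ N) = 1) : y ∈ Subgroup.zpowers (c ^ N) := by
  obtain ⟨k, rfl⟩ := Subgroup.mem_zpowers_iff.mp hy
  have hord := (orderOf_pos_iff.mp hc).orderOf_pow c N
  set d := orderOf c with hd
  set g := Nat.gcd d N with hg
  have hgd : g ∣ d := Nat.gcd_dvd_left d N
  have hg0 : 0 < g := Nat.gcd_pos_of_pos_left _ hc
  obtain ⟨β, hβ⟩ := hgd
  have hβ' : d / g = β := by rw [hβ, Nat.mul_div_cancel_left _ hg0]
  have hβ0 : 0 < β := by
    rcases Nat.eq_zero_or_pos β with h0 | h0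
    · rw [h0, mul_zero] at hβ; omega
    · exact h0
  rw [hord, hβ', ← zpow_natCast, ← zpow_mul] at h
  have h1 : (d : ℤ) ∣ k * β := by
    rw [hd]
    exact orderOf_dvd_iff_zpow_eq_one.mpr h
  have h2 : (g : ℤ) ∣ k := by
    obtain ⟨t, ht⟩ := h1
    refine ⟨t, ?_⟩
    have h3 : k * (β : ℤ) = (g * t) * β := by
      rw [ht, hβ]
      push_cast
      ring
    exact mul_right_cancel₀ (by exact_mod_cast hβ0.ne') h3
  obtain ⟨t, rfl⟩ := h2
  have h3 : c ^ (g : ℤ) ∈ Subgroup.zpowers (c ^ N) := by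
    have h4 : (g : ℤ) = d * Nat.gcdA d N + N * Nat.gcdB d N := Nat.gcd_eq_gcd_ab d N
    rw [h4, zpow_add, zpow_mul, zpow_mul, zpow_natCast, zpow_natCast, hd, pow_orderOf_eq_one,
      one_zpow, one_mul]
    exact Subgroup.zpow_mem _ (Subgroup.mem_zpowers _) _
  rw [zpow_mul]
  exact Subgroup.zpow_mem _ h3 t

theorem index_zpowers_le [Finite G] {c : G} {J : ℕ} (h : Nat.card G ≤ J * orderOf c) :
    (Subgroup.zpowers c).index ≤ J := by
  have h1 := (Subgroup.zpowers c).index_mul_card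
  rw [Nat.card_zpowers] at h1
  rw [← h1] at h
  exact Nat.le_of_mul_le_mul_right h (orderOf_pos c)

/-- The subgroup generated by `c ^ J!` lies in every cyclic subgroup of small index. -/
theorem canon_mem [Finite G] {c g : G} {J : ℕ} (hg : Nat.card G ≤ J * orderOf g) :
    c ^ J.factorial ∈ Subgroup.zpowers g :=
  pow_fac_mem _ (index_zpowers_le hg) c

theorem canon_normal [Finite G] {c : G} {J : ℕ} (hc : Nat.card G ≤ J * orderOf c) (x : G) :
    x * c ^ J.factorial * x⁻¹ ∈ Subgroup.zpowers (c ^ J.factorial) := by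
  have h1 : x * c ^ J.factorial * x⁻¹ = (x * c * x⁻¹) ^ J.factorial := by
    rw [conj_pow]
  apply mem_zpowers_pow _ (orderOf_pos c)
  · rw [h1]
    exact canon_mem hc
  · rw [conj_pow, pow_orderOf_eq_one, mul_one, mul_inv_cancel]

theorem canon_index [Finite G] {c : G} {J : ℕ} (hc : Nat.card G ≤ J * orderOf c) :
    (Subgroup.zpowers (c ^ J.factorial)).index ≤ J * J.factorial := by
  have h1 := (Subgroup.zpowers (c ^ J.factorial)).index_mul_card
  rw [Nat.card_zpowers] at h1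
  have hord := (isOfFinOrder_of_finite c).orderOf_pow c J.factorial
  set d := orderOf c with hd
  set g := Nat.gcd d J.factorial with hg
  have hgd : g ∣ d := Nat.gcd_dvd_left d _
  have hd0 : 0 < d := orderOf_pos c
  have hg0 : 0 < g := Nat.gcd_pos_of_pos_left _ hd0
  obtain ⟨β, hβ⟩ := hgd
  have hβ' : d / g = β := by rw [hβ, Nat.mul_div_cancel_left _ hg0]
  have hβ0 : 0 < β := by
    rcases Nat.eq_zero_or_pos β with h0 | h0
    · rw [h0, mul_zero] at hβ; omega
    · exact h0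
  rw [hord, hβ'] at h1
  rw [← h1, hβ, ← mul_assoc] at hc
  refine (Nat.le_of_mul_le_mul_right hc hβ0).trans (Nat.mul_le_mul_left J ?_)
  exact Nat.le_of_dvd (Nat.factorial_pos J) (Nat.gcd_dvd_right d _)

end

/-- The number of elements of order `d` with a given eigenvalue is bounded. -/
theorem Ez_card {Γ : Subgroup (Matrix.orthogonalGroup (Fin n) ℝ)} [Fintype Γ] (hΓ : FreeOn Γ)
    (hn : 0 < n) {J d : ℕ} {ζ : ℂ} (hJ : Nat.card Γ ≤ J * d) (hd : (Od Γ d).Nonempty) :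
    (Ez Γ d ζ).card ≤ n * (J * J.factorial) := by
  classical
  obtain ⟨c, hc⟩ := hd
  have hc' : orderOf c = d := by rw [← Subgroup.orderOf_coe]; exact mem_Od.mp hc
  set B := Subgroup.zpowers (c ^ J.factorial) with hB
  have hidx : B.index ≤ J * J.factorial := canon_index (by rw [hc']; exact hJ)
  have h1 := Finset.card_le_mul_card_image (f := fun g : Γ => (QuotientGroup.mk g : Γ ⧸ B))
    (Ez Γ d ζ) n (by
      intro q hq
      obtain ⟨g, hg, hgq⟩ := Finset.mem_image.mp hq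
      have hgo : orderOf g = d := by rw [← Subgroup.orderOf_coe]; exact (mem_Ez.mp hg).1
      have hcg : c ^ J.factorial ∈ Subgroup.zpowers g := canon_mem (by rw [hgo]; exact hJ)
      have hBg : B ≤ Subgroup.zpowers g := by
        rw [hB, Subgroup.zpowers_le]
        exact hcg
      apply Ez_zpowers_card hΓ g _ (Finset.filter_subset _ _)
      intro h hh
      obtain ⟨_, hhq⟩ := Finset.mem_filter.mp hh
      have h2 : g⁻¹ * h ∈ B := QuotientGroup.eq.mp (hgq.trans hhq.symm)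
      have h3 := hBg h2
      have h4 : h = g * (g⁻¹ * h) := by group
      rw [h4]
      exact Subgroup.mul_mem _ (Subgroup.mem_zpowers g) h3)
  refine h1.trans (Nat.mul_le_mul_left n ?_)
  refine le_trans ?_ hidx
  rw [Subgroup.index, Nat.card_eq_fintype_card]
  exact Finset.card_le_univ _

/-- In an isospectral family one finds elements of large order with eigenvalues in a bounded
set. -/
theorem key_general (hn : 0 < n) : ∃ J C : ℕ, ∀ Γ₁ : Subgroup (Matrix.orthogonalGroup (Fin n) ℝ),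
    Finite Γ₁ → FreeOn Γ₁ → ∃ (d : ℕ) (S : Finset ℂ), 0 < d ∧ S.card ≤ C ∧
      ∀ Γ₂ : Subgroup (Matrix.orthogonalGroup (Fin n) ℝ), Finite Γ₂ → FreeOn Γ₂ →
        hilb Γ₁ = hilb Γ₂ → Nat.card Γ₂ = Nat.card Γ₁ ∧ Nat.card Γ₂ ≤ J * d ∧
        ∃ g ∈ Γ₂, orderOf g = d ∧ ∀ j, Yc g.1 j ∈ S := by
  classical
  obtain ⟨J, hJ⟩ := jordan (n := n) hn
  obtain ⟨C, hC⟩ := key (n := n) hn (n * (J * J.factorial))
  refine ⟨J, C, fun Γ₁ hfin₁ hΓ₁ => ?_⟩
  have := Fintype.ofFinite Γ₁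
  obtain ⟨a, ha, haJ⟩ := hJ Γ₁ hfin₁ hΓ₁
  set d := orderOf a with hd
  have hd0 : 0 < d := pos_of_fin (⟨a, ha⟩ : Γ₁)
  have hne : (Od Γ₁ d).Nonempty := ⟨⟨a, ha⟩, mem_Od.mpr rfl⟩
  obtain ⟨S, hS, hkey⟩ := hC Γ₁ hΓ₁ d (Complex.exp (2 * Real.pi * Complex.I / d)) hd0
    (Complex.isPrimitiveRoot_exp d hd0.ne') hne (Ez_card hΓ₁ hn haJ hne)
  refine ⟨d, S, hd0, hS, fun Γ₂ hfin₂ hΓ₂ hh => ?_⟩
  have := Fintype.ofFinite Γ₂
  have hcard : Nat.card Γ₂ = Nat.card Γ₁ := by
    rw [Nat.card_eq_fintype_card, Nat.card_eq_fintype_card]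
    exact (sep hΓ₁ hΓ₂ hn hh).1.symm
  have hcJ : Nat.card Γ₂ ≤ J * d := by rw [hcard]; exact haJ
  have hne₂ : (Od Γ₂ d).Nonempty := by
    rw [← Finset.card_pos]
    have h1 := card_order_eq hΓ₁ hΓ₂ hn hh d hd0
    have h2 : ∀ (Γ : Subgroup (Matrix.orthogonalGroup (Fin n) ℝ)) [Fintype Γ],
        Od Γ d = (Finset.univ : Finset Γ).filter fun g => orderOf g = d := by
      intro Γ _
      ext g
      rw [mem_Od, Finset.mem_filter, Subgroup.orderOf_coe]
      simp
    rw [h2, ← h1, ← h2, Finset.card_pos]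
    exact hne
  obtain ⟨g, hg, hgS⟩ := hkey Γ₂ hΓ₂ hh (Ez_card hΓ₂ hn hcJ hne₂)
  exact ⟨hcard, hcJ, g.1, g.2, (mem_Ez.mp hg).1, hgS⟩

end Pool.Agent.Helper477.Sph
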