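import Mathlib

set_option autoImplicit false

/-! # Counting groups with a given normal cyclic subgroup: isomorphism types -/

namespace Pool.Agent.Helper477.Sph

/-- Every family in `S` which is pairwise unrelated has at most `K` members. -/
def Bdd {α : Type*} (S : Set α) (r : α → α → Prop) (K : ℕ) : Prop :=
  ∀ F : Finset α, (∀ a ∈ F, a ∈ S) → (∀ a ∈ F, ∀ b ∈ F, a ≠ b → ¬ r a b) → F.card ≤ K

theorem Bdd.of_map {α β : Type*} {S : Set α} {r : α → α → Prop} (f : α → β) (T : Finset β)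
    (hT : ∀ a ∈ S, f a ∈ T) (h : ∀ a ∈ S, ∀ b ∈ S, f a = f b → r a b) : Bdd S r T.card := by
  classical
  intro F hF hr
  apply Finset.card_le_card_of_injOn f
  · intro a ha
    exact hT a (hF a ha)
  · intro a ha b hb hab
    by_contra hne
    exact hr a ha b hb hne (h a (hF a ha) b (hF b hb) hab)

theorem Bdd.trans {α : Type*} {S : Set α} {r₁ r₂ : α → α → Prop} {K₁ K₂ : ℕ}
    (hrefl : ∀ a ∈ S, r₁ a a) (hsymm : ∀ a ∈ S, ∀ b ∈ S, r₁ a b → r₁ b a) (h₁ : Bdd S r₁ K₁)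
    (h₂ : ∀ a ∈ S, Bdd {b | b ∈ S ∧ r₁ a b} r₂ K₂) : Bdd S r₂ (K₁ * K₂) := by
  classical
  intro F hF hr
  set PP : Finset (Finset α) := F.powerset.filter fun T => ∀ a ∈ T, ∀ b ∈ T, a ≠ b → ¬ r₁ a b
    with hPP
  have hne : PP.Nonempty := ⟨∅, by
    rw [hPP, Finset.mem_filter]
    exact ⟨Finset.empty_mem_powerset F, fun a ha => absurd ha (Finset.notMem_empty a)⟩⟩
  obtain ⟨T, hT, hmax⟩ := PP.exists_max_image Finset.card hne
  obtain ⟨hTF, hTr⟩ := Finset.mem_filter.mp hT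
  rw [Finset.mem_powerset] at hTF
  have hTcard : T.card ≤ K₁ := h₁ T (fun a ha => hF a (hTF ha)) hTr
  have hcover : ∀ x ∈ F, ∃ a ∈ T, r₁ a x := by
    intro x hx
    by_contra hcon
    push Not at hcon
    have hxT : x ∉ T := fun h => hcon x h (hrefl x (hF x hx))
    have h3 : insert x T ∈ PP := by
      rw [hPP, Finset.mem_filter, Finset.mem_powerset]
      refine ⟨Finset.insert_subset hx hTF, ?_⟩
      intro a ha b hb hab
      rcases Finset.mem_insert.mp ha with rfl | ha'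
      · rcases Finset.mem_insert.mp hb with rfl | hb'
        · exact absurd rfl hab
        · intro h
          exact hcon b hb' (hsymm a (hF a hx) b (hF b (hTF hb')) h)
      · rcases Finset.mem_insert.mp hb with rfl | hb'
        · exact hcon a ha'
        · exact hTr a ha' b hb' hab
    have h4 := hmax _ h3
    rw [Finset.card_insert_of_notMem hxT] at h4
    omega
  have hsub : F ⊆ T.biUnion fun a => F.filter fun x => r₁ a x := by
    intro x hx
    obtain ⟨a, ha, hax⟩ := hcover x hx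
    exact Finset.mem_biUnion.mpr ⟨a, ha, Finset.mem_filter.mpr ⟨hx, hax⟩⟩
  calc F.card ≤ (T.biUnion fun a => F.filter fun x => r₁ a x).card := Finset.card_le_card hsub
    _ ≤ ∑ a ∈ T, (F.filter fun x => r₁ a x).card := Finset.card_biUnion_le
    _ ≤ ∑ _a ∈ T, K₂ := by
      refine Finset.sum_le_sum fun a ha => ?_
      apply h₂ a (hF a (hTF ha))
      · intro b hb
        obtain ⟨hb1, hb2⟩ := Finset.mem_filter.mp hb
        exact ⟨hF b hb1, hb2⟩
      · intro x hx y hy hxy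
        exact hr x (Finset.mem_filter.mp hx).1 y (Finset.mem_filter.mp hy).1 hxy
    _ = T.card * K₂ := by rw [Finset.sum_const, smul_eq_mul]
    _ ≤ K₁ * K₂ := Nat.mul_le_mul_right K₂ hTcard

theorem Bdd.mono {α : Type*} {S : Set α} {r : α → α → Prop} {K K' : ℕ} (h : Bdd S r K)
    (hK : K ≤ K') : Bdd S r K' := fun F h1 h2 => (h F h1 h2).trans hK

section
variable {G : Type*} [Group G]

/-- The graph of an isomorphism `Γ ≅ Γ'` fixing `b`. -/
def IsoRel (b : G) (Γ Γ' : Subgroup G) : Prop :=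
  ∃ H : Subgroup (G × G), (b, b) ∈ H ∧ (∀ x ∈ H, x.1 ∈ Γ ∧ x.2 ∈ Γ') ∧
    (∀ g ∈ Γ, ∃ x ∈ H, x.1 = g) ∧ (∀ g ∈ Γ', ∃ x ∈ H, x.2 = g) ∧
    (∀ x ∈ H, x.1 = 1 → x = 1) ∧ (∀ x ∈ H, x.2 = 1 → x = 1)

/-- A transversal of the subgroup generated by `b`, with its tables. -/
structure Frame (b : G) (q : ℕ) (Γ : Subgroup G) (s : Fin q → G) (m : Fin q → Fin q → Fin q)
    (f : Fin q → Fin q → ℤ) (u : Fin q → ℤ) : Prop where
  mem : ∀ i, s i ∈ Γ
  bmem : b ∈ Γ
  mul : ∀ i j, s i * s j = s (m i j) * b ^ f i j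
  comm : ∀ i, b * s i = s i * b ^ u i
  rcomm : ∀ i, ∃ v : ℤ, s i * b = b ^ v * s i
  cover : ∀ g ∈ Γ, ∃ i, ∃ k : ℤ, g = s i * b ^ k
  inj : ∀ i j, ∀ k : ℤ, s i = s j * b ^ k → i = j

namespace Frame
variable {b : G} {q : ℕ} {Γ : Subgroup G} {s : Fin q → G} {m : Fin q → Fin q → Fin q}
    {f : Fin q → Fin q → ℤ} {u : Fin q → ℤ}

theorem zcomm (h : Frame b q Γ s m f u) (i : Fin q) (k : ℤ) :
    b ^ k * s i = s i * b ^ (u i * k) := by
  have h1 : (s i)⁻¹ * b * s i = b ^ u i := by rw [mul_assoc, h.comm i]; group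
  have h2 : (s i)⁻¹ * b ^ k * s i = b ^ (u i * k) := by
    rw [zpow_mul, ← h1]
    have h3 := conj_zpow (i := k) (a := (s i)⁻¹) (b := b)
    rw [inv_inv] at h3
    exact h3.symm
  rw [← h2]; group

theorem zrcomm (h : Frame b q Γ s m f u) (i : Fin q) (k : ℤ) :
    ∃ v : ℤ, s i * b ^ k = b ^ v * s i := by
  obtain ⟨v, hv⟩ := h.rcomm i
  refine ⟨v * k, ?_⟩
  have h1 : s i * b * (s i)⁻¹ = b ^ v := by rw [hv]; group
  rw [zpow_mul, ← h1, conj_zpow]; group

theorem mul' (h : Frame b q Γ s m f u) (i j : Fin q) (k l : ℤ) :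
    (s i * b ^ k) * (s j * b ^ l) = s (m i j) * b ^ (f i j + u j * k + l) := by
  calc (s i * b ^ k) * (s j * b ^ l) = s i * (b ^ k * s j) * b ^ l := by group
    _ = (s i * s j) * b ^ (u j * k) * b ^ l := by rw [h.zcomm]; group
    _ = _ := by rw [h.mul]; group

theorem minj (h : Frame b q Γ s m f u) (j : Fin q) : Function.Injective fun i => m i j := by
  intro i i' hii
  simp only at hii
  have h1 := h.mul i j
  have h2 := h.mul i' j
  rw [hii] at h1
  obtain ⟨v, hv⟩ := h.zrcomm j (f i j - f i' j)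
  -- s i' ⁻¹ s i ∈ ⟨b⟩
  have h3 : s i = s i' * b ^ v := by
    have h4 : s i = s (m i' j) * b ^ f i j * (s j)⁻¹ := by rw [← h1]; group
    have h5 : s i' = s (m i' j) * b ^ f i' j * (s j)⁻¹ := by rw [← h2]; group
    have h6 : b ^ v = s j * b ^ (f i j - f i' j) * (s j)⁻¹ := by rw [hv]; group
    rw [h4, h6]
    conv_rhs => rw [h5]
    group
  exact h.inj i i' v h3

theorem cocycle (h : Frame b q Γ s m f u) (i j k : Fin q) :
    (orderOf b : ℤ) ∣ f (m i j) k + u k * f i j - (f i (m j k) + f j k) := by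
  have h1 : (s i * s j) * s k = s (m (m i j) k) * b ^ (f (m i j) k + u k * f i j) := by
    rw [h.mul]
    have h2 := h.mul' (m i j) k (f i j) 0
    rw [zpow_zero, mul_one] at h2
    rw [h2]
    congr 2
    ring
  have h2 : s i * (s j * s k) = s (m i (m j k)) * b ^ (f i (m j k) + f j k) := by
    rw [h.mul j k, ← mul_assoc, h.mul i (m j k), mul_assoc, ← zpow_add]
  rw [mul_assoc, h2] at h1
  have h3 : m i (m j k) = m (m i j) k := by
    apply h.inj _ _ (f (m i j) k + u k * f i j - (f i (m j k) + f j k))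
    rw [zpow_sub, ← mul_assoc, ← h1]
    group
  rw [h3] at h1
  have h4 := mul_left_cancel h1
  rw [orderOf_dvd_iff_zpow_eq_one, zpow_sub, ← h4, mul_inv_cancel]

theorem cocycle_sum (h : Frame b q Γ s m f u) (j k : Fin q) :
    (orderOf b : ℤ) ∣ (∑ i, f i k) + u k * (∑ i, f i j) - (∑ i, f i (m j k)) - q * f j k := by
  have h1 : (orderOf b : ℤ) ∣ ∑ i, (f (m i j) k + u k * f i j - (f i (m j k) + f j k)) :=
    Finset.dvd_sum fun i _ => h.cocycle i j k
  have h2 : ∑ i, f (m i j) k = ∑ i, f i k := by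
    have hb : Function.Bijective fun i => m i j := Finite.injective_iff_bijective.mp (h.minj j)
    exact hb.sum_comp (fun i => f i k)
  rw [Finset.sum_sub_distrib, Finset.sum_add_distrib, Finset.sum_add_distrib, h2,
    ← Finset.mul_sum, Finset.sum_const, Finset.card_univ, Fintype.card_fin, nsmul_eq_mul] at h1
  have h3 : ∑ i, f i k + u k * ∑ i, f i j - (∑ i, f i (m j k) + (q : ℤ) * f j k) =
      (∑ i, f i k) + u k * (∑ i, f i j) - (∑ i, f i (m j k)) - q * f j k := by ring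
  rw [← h3]
  exact h1

/-- Two groups with cohomologous tables are isomorphic over `b`. -/
theorem iso (h : Frame b q Γ s m f u) {Γ' : Subgroup G} {s' : Fin q → G}
    {f' : Fin q → Fin q → ℤ} (h' : Frame b q Γ' s' m f' u) [Finite Γ] [Finite Γ'] (x : Fin q → ℤ)
    (hx : ∀ i j, (orderOf b : ℤ) ∣ f i j - f' i j - (u j * x i + x j - x (m i j))) :
    IsoRel b Γ Γ' := by
  -- the translated transversal
  set t : Fin q → G := fun i => s' i * b ^ x i with ht
  have htmul : ∀ i j k l, (t i * b ^ k) * (t j * b ^ l) = t (m i j) * b ^ (f i j + u j * k + l) := by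
    intro i j k l
    have h1 : (t i * b ^ k) * (t j * b ^ l) = (s' i * b ^ (x i + k)) * (s' j * b ^ (x j + l)) := by
      simp only [ht]
      rw [mul_assoc (s' i), ← zpow_add, mul_assoc (s' j), ← zpow_add]
    rw [h1, h'.mul']
    simp only [ht]
    rw [mul_assoc, ← zpow_add]
    congr 1
    have h2 : b ^ (f i j - f' i j - (u j * x i + x j - x (m i j))) = 1 :=
      orderOf_dvd_iff_zpow_eq_one.mp (hx i j)
    have h3 : x (m i j) + (f i j + u j * k + l) =
        (f' i j + u j * (x i + k) + (x j + l)) +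
        (f i j - f' i j - (u j * x i + x j - x (m i j))) := by ring
    rw [h3, zpow_add b (f' i j + u j * (x i + k) + (x j + l)), h2, mul_one]
  have htmem : ∀ i, t i ∈ Γ' := fun i =>
    Γ'.mul_mem (h'.mem i) (Γ'.zpow_mem h'.bmem _)
  let T : Set (G × G) := {y | ∃ i, ∃ k : ℤ, y = (s i * b ^ k, t i * b ^ k)}
  have hTmul : ∀ y ∈ T, ∀ z ∈ T, y * z ∈ T := by
    rintro _ ⟨i, k, rfl⟩ _ ⟨j, l, rfl⟩
    refine ⟨m i j, f i j + u j * k + l, ?_⟩
    rw [Prod.mk_mul_mk, h.mul', htmul]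
  have hTpow : ∀ y ∈ T, ∀ N : ℕ, y ^ (N + 1) ∈ T := by
    intro y hy N
    induction N with
    | zero => simpa using hy
    | succ N ih => rw [pow_succ]; exact hTmul _ ih _ hy
  have hTfin : ∀ y ∈ T, IsOfFinOrder y := by
    rintro _ ⟨i, k, rfl⟩
    have h1 : IsOfFinOrder (s i * b ^ k) := by
      have : IsOfFinOrder (⟨s i * b ^ k, Γ.mul_mem (h.mem i) (Γ.zpow_mem h.bmem k)⟩ : Γ) :=
        isOfFinOrder_of_finite _
      exact Γ.subtype.isOfFinOrder this
    have h2 : IsOfFinOrder (t i * b ^ k) := by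
      have : IsOfFinOrder (⟨t i * b ^ k, Γ'.mul_mem (htmem i) (Γ'.zpow_mem h'.bmem k)⟩ : Γ') :=
        isOfFinOrder_of_finite _
      exact Γ'.subtype.isOfFinOrder this
    rw [isOfFinOrder_iff_pow_eq_one] at h1 h2 ⊢
    obtain ⟨a, ha, ha'⟩ := h1
    obtain ⟨c, hc, hc'⟩ := h2
    refine ⟨a * c, Nat.mul_pos ha hc, ?_⟩
    rw [Prod.pow_mk, pow_mul, ha', one_pow, mul_comm a c, pow_mul, hc', one_pow]
    rfl
  obtain ⟨i₀, _, _⟩ := h.cover 1 Γ.one_mem
  have h1T : (1 : G × G) ∈ T := by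
    have hy : (s i₀ * b ^ (0 : ℤ), t i₀ * b ^ (0 : ℤ)) ∈ T := ⟨i₀, 0, rfl⟩
    obtain ⟨a, ha, ha'⟩ := isOfFinOrder_iff_pow_eq_one.mp (hTfin _ hy)
    rw [← ha']
    obtain ⟨a', rfl⟩ : ∃ a', a = a' + 1 := ⟨a - 1, by omega⟩
    exact hTpow _ hy a'
  have hTinv : ∀ y ∈ T, y⁻¹ ∈ T := by
    intro y hy
    obtain ⟨a, ha, ha'⟩ := isOfFinOrder_iff_pow_eq_one.mp (hTfin _ hy)
    obtain ⟨a', rfl⟩ : ∃ a', a = a' + 1 := ⟨a - 1, by omega⟩
    rcases Nat.eq_zero_or_pos a' with h0 | h0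
    · rw [h0, zero_add, pow_one] at ha'
      rw [ha', inv_one]
      exact h1T
    · obtain ⟨a'', rfl⟩ : ∃ a'', a' = a'' + 1 := ⟨a' - 1, by omega⟩
      have : y⁻¹ = y ^ (a'' + 1) := by
        rw [inv_eq_iff_mul_eq_one, ← pow_succ']
        exact ha'
      rw [this]
      exact hTpow _ hy a''
  let H : Subgroup (G × G) :=
    { carrier := T
      mul_mem' := fun {a b} ha hb => hTmul a ha b hb
      one_mem' := h1T
      inv_mem' := fun {a} ha => hTinv a ha }
  have hmemH : ∀ y, y ∈ H ↔ y ∈ T := fun y => Iff.rfl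
  -- identity form
  obtain ⟨i₁, k₁, hi₁⟩ := h1T
  have hs1 : s i₁ * b ^ k₁ = 1 := (congrArg Prod.fst hi₁).symm
  have ht1 : t i₁ * b ^ k₁ = 1 := (congrArg Prod.snd hi₁).symm
  refine ⟨H, ?_, ?_, ?_, ?_, ?_, ?_⟩
  · refine ⟨i₁, k₁ + 1, ?_⟩
    rw [zpow_add, ← mul_assoc, ← mul_assoc, hs1, ht1, zpow_one, one_mul]
  · rintro _ ⟨i, k, rfl⟩
    exact ⟨Γ.mul_mem (h.mem i) (Γ.zpow_mem h.bmem k), Γ'.mul_mem (htmem i) (Γ'.zpow_mem h'.bmem k)⟩
  · intro g hg
    obtain ⟨i, k, rfl⟩ := h.cover g hg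
    exact ⟨_, ⟨i, k, rfl⟩, rfl⟩
  · intro g hg
    obtain ⟨i, k, rfl⟩ := h'.cover g hg
    refine ⟨_, ⟨i, k - x i, rfl⟩, ?_⟩
    simp only [ht]
    rw [mul_assoc, ← zpow_add]
    congr 2
    ring
  · rintro _ ⟨i, k, rfl⟩ hy
    simp only at hy
    have h3 : i = i₁ := by
      apply h.inj i i₁ (k₁ - k)
      have : s i = b ^ (-k) := by rw [zpow_neg]; exact eq_inv_of_mul_eq_one_left hy
      rw [zpow_sub, ← mul_assoc, hs1, one_mul, this, zpow_neg]
    subst h3
    have h4 : b ^ k = b ^ k₁ := mul_left_cancel (hy.trans hs1.symm)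
    rw [h4, hs1, ht1]
    rfl
  · rintro _ ⟨i, k, rfl⟩ hy
    simp only at hy
    have h3 : i = i₁ := by
      apply h'.inj i i₁ (x i₁ + k₁ - k - x i)
      have h5 : s' i * b ^ (x i + k) = 1 := by
        rw [zpow_add, ← mul_assoc]; exact hy
      have h6 : s' i₁ * b ^ (x i₁ + k₁) = 1 := by
        rw [zpow_add, ← mul_assoc]; exact ht1
      have h7 : s' i = b ^ (-(x i + k)) := by rw [zpow_neg]; exact eq_inv_of_mul_eq_one_left h5
      have h8 : s' i₁ = b ^ (-(x i₁ + k₁)) := by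
        rw [zpow_neg]; exact eq_inv_of_mul_eq_one_left h6
      rw [h7, h8, ← zpow_add]
      congr 1
      ring
    subst h3
    have h4 : b ^ k = b ^ k₁ := mul_left_cancel (hy.trans ht1.symm)
    rw [h4, hs1, ht1]
    rfl

end Frame

/-- A fixed logarithm to base `b`. -/
noncomputable def lg (b y : G) : ℤ :=
  open Classical in if h : ∃ k : ℤ, y = b ^ k then h.choose else 0

theorem lg_spec {b y : G} (h : y ∈ Subgroup.zpowers b) : y = b ^ lg b y := by
  have h' : ∃ k : ℤ, y = b ^ k := by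
    obtain ⟨k, hk⟩ := Subgroup.mem_zpowers_iff.mp h
    exact ⟨k, hk.symm⟩
  unfold lg
  rw [dif_pos h']
  exact h'.choose_spec

theorem exists_frame {b : G} {Γ : Subgroup G} [Finite Γ] (hb : b ∈ Γ) {q : ℕ}
    (hq : Nat.card Γ = q * orderOf b)
    (hnorm : ∀ x ∈ Γ, x * b * x⁻¹ ∈ Subgroup.zpowers b) :
    ∃ (s : Fin q → G) (m : Fin q → Fin q → Fin q) (f : Fin q → Fin q → ℤ),
      Frame b q Γ s m f (fun i => lg b ((s i)⁻¹ * b * s i)) := by
  classical
  set b' : Γ := ⟨b, hb⟩ with hb'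
  set B : Subgroup Γ := Subgroup.zpowers b' with hB
  have hord : orderOf b' = orderOf b := (Subgroup.orderOf_coe b').symm
  have hpos : 0 < orderOf b := by rw [← hord]; exact orderOf_pos b'
  have hidx : B.index = q := by
    have h1 := B.index_mul_card
    rw [Nat.card_zpowers, hord, hq] at h1
    exact Nat.eq_of_mul_eq_mul_right hpos h1
  have hcardq : Nat.card (Γ ⧸ B) = q := hidx
  have e : (Γ ⧸ B) ≃ Fin q := Finite.equivFinOfCardEq hcardq
  set s : Fin q → G := fun i => ((e.symm i).out : Γ).1 with hs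
  have hsmem : ∀ i, s i ∈ Γ := fun i => ((e.symm i).out : Γ).2
  have hcover : ∀ g ∈ Γ, ∃ i, ∃ k : ℤ, g = s i * b ^ k := by
    intro g hg
    set Q : Γ ⧸ B := QuotientGroup.mk ⟨g, hg⟩ with hQ
    refine ⟨e Q, ?_⟩
    have h1 : (QuotientGroup.mk (Q.out : Γ) : Γ ⧸ B) = QuotientGroup.mk ⟨g, hg⟩ :=
      QuotientGroup.out_eq' Q
    have h2 := QuotientGroup.eq.mp h1
    obtain ⟨k, hk⟩ := Subgroup.mem_zpowers_iff.mp h2
    refine ⟨k, ?_⟩
    have h3 : b ^ k = (Q.out : Γ).1⁻¹ * g := congrArg Subtype.val hk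
    simp only [hs]
    rw [Equiv.symm_apply_apply, h3]
    group
  have hinj : ∀ i j, ∀ k : ℤ, s i = s j * b ^ k → i = j := by
    intro i j k hk
    apply e.symm.injective
    have h1 : (QuotientGroup.mk ((e.symm j).out : Γ) : Γ ⧸ B) =
        QuotientGroup.mk ((e.symm i).out : Γ) := by
      rw [QuotientGroup.eq]
      refine Subgroup.mem_zpowers_iff.mpr ⟨k, ?_⟩
      apply Subtype.ext
      change b ^ k = (s j)⁻¹ * s i
      rw [hk]; group
    rw [QuotientGroup.out_eq', QuotientGroup.out_eq'] at h1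
    exact h1.symm
  have hmul : ∀ i j, ∃ p : Fin q × ℤ, s i * s j = s p.1 * b ^ p.2 := by
    intro i j
    obtain ⟨l, k, h⟩ := hcover (s i * s j) (Γ.mul_mem (hsmem i) (hsmem j))
    exact ⟨(l, k), h⟩
  choose p hp using hmul
  refine ⟨s, fun i j => (p i j).1, fun i j => (p i j).2, ⟨hsmem, hb, hp, ?_, ?_, hcover, hinj⟩⟩
  · intro i
    have h1 : (s i)⁻¹ * b * s i ∈ Subgroup.zpowers b := by
      have := hnorm (s i)⁻¹ (Γ.inv_mem (hsmem i))
      rwa [inv_inv] at this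
    rw [← lg_spec h1]
    group
  · intro i
    obtain ⟨v, hv⟩ := Subgroup.mem_zpowers_iff.mp (hnorm (s i) (hsmem i))
    refine ⟨v, ?_⟩
    rw [hv]
    group

end

end Pool.Agent.Helper477.Sph
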