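import Pool.Agent.Helper477.Sph.Bd12

set_option autoImplicit false

/-! # Boundedly many isomorphism types over a normal cyclic subgroup of given index -/

namespace Pool.Agent.Helper477.Sph

variable {G : Type*} [Group G]

theorem IsoRel.refl {b : G} {Γ : Subgroup G} (hb : b ∈ Γ) : IsoRel b Γ Γ := by
  refine ⟨Γ.map ((MonoidHom.id G).prod (MonoidHom.id G)), ?_, ?_, ?_, ?_, ?_, ?_⟩
  · exact ⟨b, hb, rfl⟩
  · rintro _ ⟨x, hx, rfl⟩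
    exact ⟨hx, hx⟩
  · intro g hg
    exact ⟨_, ⟨g, hg, rfl⟩, rfl⟩
  · intro g hg
    exact ⟨_, ⟨g, hg, rfl⟩, rfl⟩
  · rintro _ ⟨x, hx, rfl⟩ h
    have h1 : x = 1 := h
    rw [h1]
    rfl
  · rintro _ ⟨x, hx, rfl⟩ h
    have h1 : x = 1 := h
    rw [h1]
    rfl

theorem IsoRel.symm {b : G} {Γ Γ' : Subgroup G} (h : IsoRel b Γ Γ') : IsoRel b Γ' Γ := by
  obtain ⟨H, h1, h2, h3, h4, h5, h6⟩ := h
  refine ⟨H.map ((MonoidHom.snd G G).prod (MonoidHom.fst G G)), ?_, ?_, ?_, ?_, ?_, ?_⟩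
  · exact ⟨(b, b), h1, rfl⟩
  · rintro _ ⟨x, hx, rfl⟩
    exact ⟨(h2 x hx).2, (h2 x hx).1⟩
  · intro g hg
    obtain ⟨x, hx, hxg⟩ := h4 g hg
    exact ⟨_, ⟨x, hx, rfl⟩, hxg⟩
  · intro g hg
    obtain ⟨x, hx, hxg⟩ := h3 g hg
    exact ⟨_, ⟨x, hx, rfl⟩, hxg⟩
  · rintro _ ⟨x, hx, rfl⟩ h
    rw [h6 x hx h, map_one]
  · rintro _ ⟨x, hx, rfl⟩ h
    rw [h5 x hx h, map_one]

theorem stepI (G : Type*) [Group G] (q : ℕ) (hq : 0 < q) (N : ℕ) :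
    ∃ K : ℕ, ∀ (b : G) (U : Finset G), U.card ≤ N → 0 < orderOf b → ∀ S : Set (Subgroup G),
      (∀ Γ ∈ S, Finite Γ ∧ b ∈ Γ ∧ Nat.card Γ = q * orderOf b ∧
        (∀ x ∈ Γ, x * b * x⁻¹ ∈ Subgroup.zpowers b) ∧ ∀ x ∈ Γ, x⁻¹ * b * x ∈ U) →
      Bdd S (IsoRel b) K := by
  classical
  have : NeZero q := ⟨hq.ne'⟩
  refine ⟨(Fintype.card (Fin q → Fin q → Fin q) * (N ^ q * Fintype.card (Fin q → ZMod q))) *
    Fintype.card (Fin q → Fin q → ZMod q), ?_⟩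
  intro b U hU hb S hS
  -- frames
  have hex : ∀ Γ : Subgroup G, ∃ p : (Fin q → G) × (Fin q → Fin q → Fin q) ×
      (Fin q → Fin q → ℤ), Γ ∈ S →
      Frame b q Γ p.1 p.2.1 p.2.2 (fun i => lg b ((p.1 i)⁻¹ * b * p.1 i)) := by
    intro Γ
    by_cases hΓ : Γ ∈ S
    · obtain ⟨h1, h2, h3, h4, _⟩ := hS Γ hΓ
      obtain ⟨s, m, f, h⟩ := exists_frame h2 h3 h4
      exact ⟨(s, m, f), fun _ => h⟩
    · exact ⟨(fun _ => 1, fun i _ => i, fun _ _ => 0), fun h => absurd h hΓ⟩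
  choose p hp using hex
  set D : Subgroup G → (Fin q → Fin q → Fin q) × (Fin q → G) × (Fin q → ZMod q) := fun Γ =>
    ((p Γ).2.1, fun i => ((p Γ).1 i)⁻¹ * b * (p Γ).1 i,
      fun j => ((∑ i, (p Γ).2.2 i j : ℤ) : ZMod q)) with hD
  have h1 : Bdd S (fun Γ Γ' => D Γ = D Γ')
      (Fintype.card (Fin q → Fin q → Fin q) * (N ^ q * Fintype.card (Fin q → ZMod q))) := by
    refine Bdd.mono (Bdd.of_map D (Finset.univ ×ˢ ((Fintype.piFinset fun _ : Fin q => U) ×ˢ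
      Finset.univ)) ?_ ?_) ?_
    · intro Γ hΓ
      rw [Finset.mem_product, Finset.mem_product]
      refine ⟨Finset.mem_univ _, ?_, Finset.mem_univ _⟩
      rw [Fintype.mem_piFinset]
      intro i
      exact (hS Γ hΓ).2.2.2.2 _ ((hp Γ hΓ).mem i)
    · intro Γ _ Γ' _ h
      exact h
    · rw [Finset.card_product, Finset.card_product, Finset.card_univ, Finset.card_univ,
        Fintype.card_piFinset, Finset.prod_const, Finset.card_univ, Fintype.card_fin]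
      exact Nat.mul_le_mul_left _ (Nat.mul_le_mul_right _ (Nat.pow_le_pow_left hU q))
  refine Bdd.trans (r₁ := fun Γ Γ' => D Γ = D Γ') (fun Γ _ => rfl) (fun Γ _ Γ' _ h => h.symm) h1 ?_
  intro Γ₁ hΓ₁
  -- second invariant
  have hF₁ := hp Γ₁ hΓ₁
  set m := (p Γ₁).2.1 with hm
  set f₁ := (p Γ₁).2.2 with hf₁
  set u : Fin q → ℤ := fun i => lg b (((p Γ₁).1 i)⁻¹ * b * (p Γ₁).1 i) with hu
  have hF : ∀ Γ ∈ {Γ | Γ ∈ S ∧ D Γ₁ = D Γ}, Frame b q Γ (p Γ).1 m (p Γ).2.2 u := by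
    rintro Γ ⟨hΓ, hDD⟩
    have h2 := hp Γ hΓ
    have e1 : m = (p Γ).2.1 := by
      have e0 : (D Γ₁).1 = (D Γ).1 := by rw [hDD]
      exact e0
    have e2 : u = fun i => lg b (((p Γ).1 i)⁻¹ * b * (p Γ).1 i) := by
      have e0 : (D Γ₁).2.1 = (D Γ).2.1 := by rw [hDD]
      rw [hu]
      funext i
      exact congrArg (lg b) (congrFun e0 i)
    rw [e1, e2]
    exact h2
  have ht : ∀ Γ ∈ {Γ | Γ ∈ S ∧ D Γ₁ = D Γ}, ∀ j, ∃ t : ℤ,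
      (∑ i, (p Γ).2.2 i j) - (∑ i, f₁ i j) = q * t := by
    rintro Γ ⟨hΓ, hDD⟩ j
    have h2 : ((∑ i, (p Γ₁).2.2 i j : ℤ) : ZMod q) = ((∑ i, (p Γ).2.2 i j : ℤ) : ZMod q) := by
      have e0 : (D Γ₁).2.2 = (D Γ).2.2 := by rw [hDD]
      exact congrFun e0 j
    rw [eq_comm, ← sub_eq_zero, ← Int.cast_sub, ZMod.intCast_zmod_eq_zero_iff_dvd] at h2
    exact h2
  have ht' : ∀ Γ : Subgroup G, ∃ t : Fin q → ℤ, Γ ∈ {Γ | Γ ∈ S ∧ D Γ₁ = D Γ} →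
      ∀ j, (∑ i, (p Γ).2.2 i j) - (∑ i, f₁ i j) = q * t j := by
    intro Γ
    by_cases hΓ : Γ ∈ {Γ | Γ ∈ S ∧ D Γ₁ = D Γ}
    · choose t ht using ht Γ hΓ
      exact ⟨t, fun _ => ht⟩
    · exact ⟨fun _ => 0, fun h => absurd h hΓ⟩
  choose t htt using ht'
  set h : Subgroup G → Fin q → Fin q → ℤ := fun Γ j k =>
    (p Γ).2.2 j k - f₁ j k - (u k * t Γ j + t Γ k - t Γ (m j k)) with hh
  have hdiv : ∀ Γ ∈ {Γ | Γ ∈ S ∧ D Γ₁ = D Γ}, ∀ j k, (orderOf b : ℤ) ∣ q * h Γ j k := by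
    intro Γ hΓ j k
    have a1 := (hF Γ hΓ).cocycle_sum j k
    have a2 := hF₁.cocycle_sum j k
    have a3 := dvd_sub a2 a1
    have e1 := htt Γ hΓ j
    have e2 := htt Γ hΓ k
    have e3 := htt Γ hΓ (m j k)
    have a4 : (q : ℤ) * h Γ j k = ∑ i, f₁ i k + u k * ∑ i, f₁ i j - ∑ i, f₁ i (m j k) -
        (q : ℤ) * f₁ j k - (∑ i, (p Γ).2.2 i k + u k * ∑ i, (p Γ).2.2 i j -
        ∑ i, (p Γ).2.2 i (m j k) - (q : ℤ) * (p Γ).2.2 j k) := by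
      rw [hh]
      simp only
      linear_combination e2 + u k * e1 - e3
    rw [a4]
    exact a3
  have hw' : ∀ Γ : Subgroup G, ∃ w : Fin q → Fin q → ℤ, Γ ∈ {Γ | Γ ∈ S ∧ D Γ₁ = D Γ} →
      ∀ j k, (q : ℤ) * h Γ j k = orderOf b * w j k := by
    intro Γ
    by_cases hΓ : Γ ∈ {Γ | Γ ∈ S ∧ D Γ₁ = D Γ}
    · choose w hw using hdiv Γ hΓ
      exact ⟨w, fun _ => hw⟩
    · exact ⟨fun _ _ => 0, fun h => absurd h hΓ⟩
  choose w hw using hw'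
  refine Bdd.mono (Bdd.of_map (fun Γ => fun j k => ((w Γ j k : ℤ) : ZMod q)) Finset.univ
    (fun Γ _ => Finset.mem_univ _) ?_) (le_of_eq Finset.card_univ)
  intro Γ hΓ Γ' hΓ' hww
  have := (hS Γ hΓ.1).1
  have := (hS Γ' hΓ'.1).1
  refine (hF Γ hΓ).iso (hF Γ' hΓ') (fun i => t Γ i - t Γ' i) ?_
  intro i j
  have e1 : ((w Γ i j : ℤ) : ZMod q) = ((w Γ' i j : ℤ) : ZMod q) := congrFun (congrFun hww i) j
  rw [← sub_eq_zero, ← Int.cast_sub, ZMod.intCast_zmod_eq_zero_iff_dvd] at e1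
  obtain ⟨r, hr⟩ := e1
  have e2 := hw Γ hΓ i j
  have e3 := hw Γ' hΓ' i j
  have e4 : (q : ℤ) * (h Γ i j - h Γ' i j) = q * (orderOf b * r) := by
    linear_combination e2 - e3 + (orderOf b : ℤ) * hr
  have hq0 : (q : ℤ) ≠ 0 := by exact_mod_cast hq.ne'
  have e5 := mul_left_cancel₀ hq0 e4
  refine ⟨r, ?_⟩
  rw [← e5, hh]
  simp only
  ring

end Pool.Agent.Helper477.Sph
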