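import Pool.Agent.Helper477.Sph.Bd11
import Pool.Agent.Helper477.Sph.Bd13

set_option autoImplicit false

/-! # Boundedly many free representations over a given one of the cyclic subgroup -/

namespace Pool.Agent.Helper477.Sph

variable {n : ℕ}

theorem IsoRel.hom {G : Type*} [Group G] {b : G} {Γ₀ Γ : Subgroup G} (hb : b ∈ Γ₀)
    (h : IsoRel b Γ₀ Γ) : ∃ ρ : Γ₀ →* G, ρ ⟨b, hb⟩ = b ∧ (∀ x, ρ x ∈ Γ) ∧
      (∀ g ∈ Γ, ∃ x, ρ x = g) ∧ Nat.card Γ = Nat.card Γ₀ := by
  obtain ⟨H, h1, h2, h3, h4, h5, h6⟩ := h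
  let φ : H →* Γ₀ := ((MonoidHom.fst G G).comp H.subtype).codRestrict Γ₀ (fun x => (h2 x.1 x.2).1)
  have hφ : Function.Bijective φ := by
    constructor
    · rw [injective_iff_map_eq_one]
      intro x hx
      apply Subtype.ext
      apply h5 x.1 x.2
      exact congrArg Subtype.val hx
    · intro g
      obtain ⟨x, hx, hxg⟩ := h3 g.1 g.2
      exact ⟨⟨x, hx⟩, Subtype.ext hxg⟩
  let e : H ≃* Γ₀ := MulEquiv.ofBijective φ hφ
  let ψ : H →* Γ := ((MonoidHom.snd G G).comp H.subtype).codRestrict Γ (fun x => (h2 x.1 x.2).2)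
  have hψ : Function.Bijective ψ := by
    constructor
    · rw [injective_iff_map_eq_one]
      intro x hx
      apply Subtype.ext
      apply h6 x.1 x.2
      exact congrArg Subtype.val hx
    · intro g
      obtain ⟨x, hx, hxg⟩ := h4 g.1 g.2
      exact ⟨⟨x, hx⟩, Subtype.ext hxg⟩
  refine ⟨((MonoidHom.snd G G).comp H.subtype).comp e.symm.toMonoidHom, ?_, ?_, ?_, ?_⟩
  · have h7 : e.symm ⟨b, hb⟩ = ⟨(b, b), h1⟩ := by
      rw [MulEquiv.symm_apply_eq]
      rfl
    change (e.symm ⟨b, hb⟩).1.2 = b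
    rw [h7]
  · intro x
    exact (h2 _ (e.symm x).2).2
  · intro g hg
    obtain ⟨x, hx, hxg⟩ := h4 g hg
    refine ⟨e ⟨x, hx⟩, ?_⟩
    change (e.symm (e ⟨x, hx⟩)).1.2 = g
    rw [MulEquiv.symm_apply_apply]
    exact hxg
  · rw [← Nat.card_congr (Equiv.ofBijective ψ hψ), ← Nat.card_congr e.toEquiv]

/-- Joint eigenvalues of two commuting elements of a freely acting group. -/
theorem joint {Γ : Subgroup (Matrix.orthogonalGroup (Fin n) ℝ)} [Finite Γ] (hΓ : FreeOn Γ)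
    (hn : 0 < n) {x b : Matrix.orthogonalGroup (Fin n) ℝ} (hx : x ∈ Γ) (hb : b ∈ Γ)
    (hxb : x * b = b * x) : ∃ Y : Fin n → ℂ × ℂ,
      (∀ k : ℕ, (((x * b ^ k).1.trace : ℝ) : ℂ) = ∑ j, (Y j).2 * (Y j).1 ^ k) ∧
      (∀ j, HasEig b.1 (Y j).1) ∧
      ∀ N e : ℕ, x ^ N = b ^ e → ∀ j, (Y j).2 ^ N = (Y j).1 ^ e := by
  set x' : Γ := ⟨x, hx⟩ with hx'
  set b' : Γ := ⟨b, hb⟩ with hb'
  set A : Subgroup Γ := Subgroup.closure {x', b'} with hA
  have hc : x' * b' = b' * x' := Subtype.ext hxb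
  have hcomm : ∀ y ∈ A, ∀ z ∈ A, y * z = z * y := by
    have h1 : ∀ y ∈ ({x', b'} : Set Γ), ∀ z ∈ ({x', b'} : Set Γ), y * z = z * y := by
      intro y hy z hz
      rcases hy with rfl | hy
      · rcases hz with rfl | hz
        · rfl
        · rw [Set.mem_singleton_iff.mp hz]; exact hc
      · rw [Set.mem_singleton_iff.mp hy]
        rcases hz with rfl | hz
        · exact hc.symm
        · rw [Set.mem_singleton_iff.mp hz]
    have h2 := (Subgroup.isMulCommutative_closure h1)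
    intro y hy z hz
    exact congrArg Subtype.val (h2.is_comm.comm ⟨y, hy⟩ ⟨z, hz⟩)
  have hcyc : IsCyclic A := cyclic_of_abelian hΓ hn A hcomm
  obtain ⟨y, hy⟩ := hcyc.exists_generator
  have hxA : x' ∈ A := Subgroup.subset_closure (by simp)
  have hbA : b' ∈ A := Subgroup.subset_closure (by simp)
  obtain ⟨α, hα⟩ := mem_powers_iff_mem_zpowers.mpr (hy ⟨x', hxA⟩)
  obtain ⟨γ, hγ⟩ := mem_powers_iff_mem_zpowers.mpr (hy ⟨b', hbA⟩)
  set w : Matrix.orthogonalGroup (Fin n) ℝ := y.1.1 with hw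
  have hwx : x = w ^ α := by
    have := congrArg (fun t : A => t.1.1) hα
    exact this.symm
  have hwb : b = w ^ γ := by
    have := congrArg (fun t : A => t.1.1) hγ
    exact this.symm
  have hwo : 0 < orderOf w := pos_of_fin y.1
  have hD : Diag w.1 (Yc w.1) := Yc_spec hwo
  refine ⟨fun j => (Yc w.1 j ^ γ, Yc w.1 j ^ α), ?_, ?_, ?_⟩
  · intro k
    have h1 : x * b ^ k = w ^ (α + γ * k) := by
      rw [hwx, hwb, ← pow_mul, ← pow_add]
    rw [h1, coe_pow', (hD.pow _).trace]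
    refine Finset.sum_congr rfl fun j _ => ?_
    simp only
    rw [pow_add, pow_mul]
  · intro j
    rw [hwb, coe_pow']
    exact ((hD.pow γ).hasEig_iff _).mpr ⟨j, rfl⟩
  · intro N e hNe j
    simp only
    rw [hwx, hwb, ← pow_mul, ← pow_mul, pow_eq_pow_iff_modEq] at hNe
    rw [← pow_mul, ← pow_mul]
    exact pow_eq_of_modEq (hD.prim hΓ y.1.2 hwo j).pow_eq_one hNe

theorem trace_zero {Γ : Subgroup (Matrix.orthogonalGroup (Fin n) ℝ)} [Finite Γ] (hΓ : FreeOn Γ)
    {x b : Matrix.orthogonalGroup (Fin n) ℝ} (hb : b ∈ Γ) {u : ℤ}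
    (hu : x⁻¹ * b * x = b ^ u) (hxb : x * b ≠ b * x) : x.1.trace = 0 := by
  set w := b ^ (1 - u) with hw
  have hwΓ : w ∈ Γ := Γ.zpow_mem hb _
  have hw1 : w ≠ 1 := by
    intro h
    apply hxb
    have h1 : b = b ^ u := by
      rw [hw, zpow_sub, zpow_one, mul_inv_eq_one] at h
      exact h
    rw [← h1] at hu
    calc x * b = x * (x⁻¹ * b * x) := by rw [hu]
      _ = b * x := by group
  have hconj : ∀ k : ℕ, (b ^ k)⁻¹ * x * b ^ k = x * w ^ k := by
    intro k
    have h1 : x⁻¹ * (b ^ k)⁻¹ * x = b ^ (-(u * k)) := by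
      have h2 := conj_zpow (i := (-(k : ℤ))) (a := x⁻¹) (b := b)
      rw [inv_inv, hu, ← zpow_mul] at h2
      rw [zpow_neg, zpow_natCast] at h2
      rw [← h2]
      congr 1
      ring
    calc (b ^ k)⁻¹ * x * b ^ k = x * (x⁻¹ * (b ^ k)⁻¹ * x) * b ^ k := by group
      _ = x * (b ^ (-(u * k)) * b ^ (k : ℤ)) := by rw [h1, zpow_natCast]; group
      _ = x * w ^ k := by
        rw [← zpow_add, hw, ← zpow_natCast, ← zpow_mul]
        congr 2
        ring
  have htr : ∀ k : ℕ, (x.1 * w.1 ^ k).trace = x.1.trace := by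
    intro k
    have h1 := trace_conj' ((b ^ k)⁻¹) x
    rw [inv_inv, hconj] at h1
    exact h1
  have hwo : 0 < orderOf w := pos_of_fin (⟨w, hwΓ⟩ : Γ)
  have hz := norm_zero hΓ hwΓ hw1 (orderOf w) (pow_orderOf_eq_one w)
  have h1 : (orderOf w : ℝ) * x.1.trace = 0 := by
    have h2 : (x.1 * (∑ i ∈ Finset.range (orderOf w), w.1 ^ i)).trace =
        (orderOf w : ℝ) * x.1.trace := by
      rw [Finset.mul_sum, Matrix.trace_sum, Finset.sum_congr rfl fun k _ => htr k,
        Finset.sum_const, Finset.card_range, nsmul_eq_mul]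
    rw [← h2, hz, Matrix.mul_zero, Matrix.trace_zero]
  rcases mul_eq_zero.mp h1 with h | h
  · exact absurd (by exact_mod_cast h) hwo.ne'
  · exact h

/-- Freely acting finite groups isomorphic to `Γ₀` over `b`. -/
def SII (b : Matrix.orthogonalGroup (Fin n) ℝ)
    (Γ₀ : Subgroup (Matrix.orthogonalGroup (Fin n) ℝ)) :
    Set (Subgroup (Matrix.orthogonalGroup (Fin n) ℝ)) :=
  {Γ : Subgroup (Matrix.orthogonalGroup (Fin n) ℝ) | Finite Γ ∧ FreeOn Γ ∧ IsoRel b Γ₀ Γ}

theorem stepII (hn : 0 < n) (q : ℕ) : ∃ K : ℕ, ∀ b : Matrix.orthogonalGroup (Fin n) ℝ,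
    ∀ Γ₀ : Subgroup (Matrix.orthogonalGroup (Fin n) ℝ), Finite Γ₀ → b ∈ Γ₀ →
      Nat.card Γ₀ = q * orderOf b → (∀ x ∈ Γ₀, x * b * x⁻¹ ∈ Subgroup.zpowers b) →
      Bdd (SII b Γ₀) Conj K := by
  classical
  refine ⟨((n * q.factorial + 1) ^ n) ^ q, ?_⟩
  intro b Γ₀ hfin₀ hb hcard hnorm
  obtain ⟨s, m, f, hF⟩ := exists_frame hb hcard hnorm
  have hbo : 0 < orderOf b := pos_of_fin (⟨b, hb⟩ : Γ₀)
  have hDb : Diag b.1 (Yc b.1) := Yc_spec hbo
  -- exponents
  have hidx : (Subgroup.zpowers (⟨b, hb⟩ : Γ₀)).index ≤ q := by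
    have h1 := (Subgroup.zpowers (⟨b, hb⟩ : Γ₀)).index_mul_card
    rw [Nat.card_zpowers, ← Subgroup.orderOf_coe, hcard] at h1
    exact le_of_eq (Nat.eq_of_mul_eq_mul_right hbo h1)
  have he : ∀ i, ∃ e : ℕ, (s i) ^ q.factorial = b ^ e := by
    intro i
    have h1 := pow_fac_mem (Subgroup.zpowers (⟨b, hb⟩ : Γ₀)) hidx ⟨s i, hF.mem i⟩
    obtain ⟨e, he⟩ := mem_powers_iff_mem_zpowers.mpr h1
    exact ⟨e, (congrArg Subtype.val he).symm⟩
  choose e he using he
  set P : Fin q → Finset (ℂ × ℂ) := fun i => Finset.univ.biUnion fun j : Fin n =>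
    ((Polynomial.nthRoots q.factorial (Yc b.1 j ^ e i)).toFinset).image
      fun η => (Yc b.1 j, η) with hP
  have hPcard : ∀ i, (P i).card ≤ n * q.factorial := by
    intro i
    rw [hP]
    refine Finset.card_biUnion_le.trans ?_
    have h1 : ∀ j ∈ (Finset.univ : Finset (Fin n)),
        (((Polynomial.nthRoots q.factorial (Yc b.1 j ^ e i)).toFinset).image
          fun η => (Yc b.1 j, η)).card ≤ q.factorial := fun j _ =>
      Finset.card_image_le.trans ((Multiset.toFinset_card_le _).trans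
        (Polynomial.card_nthRoots _ _))
    refine (Finset.sum_le_sum h1).trans ?_
    rw [Finset.sum_const, Finset.card_univ, Fintype.card_fin, smul_eq_mul]
  -- homomorphisms
  have hex : ∀ Γ : Subgroup (Matrix.orthogonalGroup (Fin n) ℝ),
      ∃ ρ : Γ₀ →* Matrix.orthogonalGroup (Fin n) ℝ,
      Γ ∈ SII b Γ₀ → (ρ ⟨b, hb⟩ = b ∧ (∀ x, ρ x ∈ Γ) ∧
      (∀ g ∈ Γ, ∃ x, ρ x = g) ∧ Nat.card Γ = Nat.card Γ₀) := by
    intro Γ
    by_cases hΓ : Γ ∈ SII b Γ₀
    · obtain ⟨ρ, hρ⟩ := hΓ.2.2.hom hb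
      exact ⟨ρ, fun _ => hρ⟩
    · exact ⟨1, fun h => absurd h hΓ⟩
  choose ρ hρ using hex
  set c : Fin q → Prop := fun i => s i * b = b * s i with hc
  have hdata : ∀ (Γ : Subgroup (Matrix.orthogonalGroup (Fin n) ℝ)) (i : Fin q),
      ∃ Y : Fin n → ℂ × ℂ, Γ ∈ SII b Γ₀ →
        ((c i → (∀ k : ℕ, (((ρ Γ ⟨s i, hF.mem i⟩ * b ^ k).1.trace : ℝ) : ℂ) =
          ∑ j, (Y j).2 * (Y j).1 ^ k) ∧ ∀ j, Y j ∈ P i) ∧ (¬ c i → Y = fun _ => (0, 0))) := by
    intro Γ i
    by_cases hΓ : Γ ∈ SII b Γ₀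
    · by_cases hci : c i
      · obtain ⟨hρb, hρmem, _, _⟩ := hρ Γ hΓ
        have := hΓ.1
        have hbΓ : b ∈ Γ := by rw [← hρb]; exact hρmem _
        have hcm : ρ Γ ⟨s i, hF.mem i⟩ * b = b * ρ Γ ⟨s i, hF.mem i⟩ := by
          have h1 : (⟨s i, hF.mem i⟩ : Γ₀) * ⟨b, hb⟩ = ⟨b, hb⟩ * ⟨s i, hF.mem i⟩ :=
            Subtype.ext hci
          have h2 := congrArg (ρ Γ) h1
          rwa [map_mul, map_mul, hρb] at h2
        obtain ⟨Y, hY1, hY2, hY3⟩ := joint hΓ.2.1 hn (hρmem ⟨s i, hF.mem i⟩) hbΓ hcm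
        refine ⟨Y, fun _ => ⟨fun _ => ⟨hY1, fun j => ?_⟩, fun h => absurd hci h⟩⟩
        have h3 : ρ Γ ⟨s i, hF.mem i⟩ ^ q.factorial = b ^ e i := by
          have h1 : (⟨s i, hF.mem i⟩ : Γ₀) ^ q.factorial = ⟨b, hb⟩ ^ e i :=
            Subtype.ext (he i)
          have h2 := congrArg (ρ Γ) h1
          rwa [map_pow, map_pow, hρb] at h2
        have h4 := hY3 _ _ h3 j
        obtain ⟨j', hj'⟩ := (hDb.hasEig_iff _).mp (hY2 j)
        rw [hP]
        simp only
        rw [Finset.mem_biUnion]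
        refine ⟨j', Finset.mem_univ _, ?_⟩
        rw [Finset.mem_image]
        refine ⟨(Y j).2, ?_, ?_⟩
        · rw [Multiset.mem_toFinset, Polynomial.mem_nthRoots (Nat.factorial_pos q), h4, hj']
        · rw [hj']
      · exact ⟨fun _ => (0, 0), fun _ => ⟨fun h => absurd h hci, fun _ => rfl⟩⟩
    · exact ⟨fun _ => (0, 0), fun h => absurd h hΓ⟩
  choose Y hY using hdata
  have hT : ∀ Γ ∈ SII b Γ₀, Y Γ ∈
      Fintype.piFinset fun i : Fin q => Fintype.piFinset fun _ : Fin n => insert (0, 0) (P i) := by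
    intro Γ hΓ
    rw [Fintype.mem_piFinset]
    intro i
    rw [Fintype.mem_piFinset]
    intro j
    by_cases hci : c i
    · exact Finset.mem_insert_of_mem (((hY Γ i hΓ).1 hci).2 j)
    · rw [(hY Γ i hΓ).2 hci]
      exact Finset.mem_insert_self _ _
  refine Bdd.mono (Bdd.of_map Y _ hT ?_) ?_
  · intro Γ hΓ Γ' hΓ' hYY
    have := hΓ.1
    have := hΓ'.1
    have := Fintype.ofFinite Γ₀
    obtain ⟨hρb, hρmem, hρs, hρc⟩ := hρ Γ hΓ
    obtain ⟨hρb', hρmem', hρs', hρc'⟩ := hρ Γ' hΓ'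
    have hbΓ : b ∈ Γ := by rw [← hρb]; exact hρmem _
    have hbΓ' : b ∈ Γ' := by rw [← hρb']; exact hρmem' _
    obtain ⟨A, hA⟩ := char_conj (ρ Γ) (ρ Γ') (by
      intro g
      obtain ⟨i, k, hgk⟩ := hF.cover g.1 g.2
      by_cases hci : c i
      · have hk : b ^ k ∈ Submonoid.powers b :=
          (orderOf_pos_iff.mp hbo).mem_powers_iff_mem_zpowers.mpr ⟨k, rfl⟩
        obtain ⟨k', hk'⟩ := hk
        have hg : g = ⟨s i, hF.mem i⟩ * ⟨b, hb⟩ ^ k' := by
          apply Subtype.ext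
          rw [hgk, ← hk']
          rfl
        rw [hg, map_mul, map_mul, map_pow, map_pow, hρb, hρb']
        have h1 := ((hY Γ i hΓ).1 hci).1 k'
        have h2 := ((hY Γ' i hΓ').1 hci).1 k'
        rw [← hYY] at h2
        exact_mod_cast h1.trans h2.symm
      · have hgb : g.1 * b ≠ b * g.1 := by
          intro h
          apply hci
          rw [hgk] at h
          change s i * b = b * s i
          have h3 : s i * b * b ^ k = b * s i * b ^ k := by
            calc s i * b * b ^ k = s i * b ^ k * b := by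
                  rw [mul_assoc, mul_assoc, (Commute.self_zpow b k).eq]
              _ = b * (s i * b ^ k) := h
              _ = _ := by rw [mul_assoc]
          exact mul_right_cancel h3
        have hz : ∀ Γ ∈ SII b Γ₀, (ρ Γ g).1.trace = 0 := by
          intro Γ hΓ
          have := hΓ.1
          obtain ⟨hρb, hρmem, hρs, hρc⟩ := hρ Γ hΓ
          have hbΓ : b ∈ Γ := by rw [← hρb]; exact hρmem _
          have h1 : (g.1)⁻¹ * b * g.1 ∈ Subgroup.zpowers b := by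
            have := hnorm (g.1)⁻¹ (Γ₀.inv_mem g.2)
            rwa [inv_inv] at this
          obtain ⟨u, hu⟩ := Subgroup.mem_zpowers_iff.mp h1
          have h2 : g⁻¹ * ⟨b, hb⟩ * g = (⟨b, hb⟩ : Γ₀) ^ u := by
            apply Subtype.ext
            exact hu.symm
          have h3 := congrArg (ρ Γ) h2
          rw [map_mul, map_mul, map_inv, map_zpow, hρb] at h3
          apply trace_zero hΓ.2.1 hbΓ h3
          intro h4
          apply hgb
          have h5 : u = u := rfl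
          -- b ^ u = b in the image, hence in the source
          have h6 : (ρ Γ g)⁻¹ * b * ρ Γ g = b := by
            rw [mul_assoc, ← h4]; group
          rw [h6] at h3
          rw [← h3] at hu
          calc g.1 * b = g.1 * ((g.1)⁻¹ * b * g.1) := by rw [← hu]
            _ = b * g.1 := by group
        rw [hz Γ hΓ, hz Γ' hΓ'])
    refine conj_of_subset A ?_ (hρc.trans hρc'.symm)
    intro g hg
    obtain ⟨x, rfl⟩ := hρs g hg
    rw [hA x]
    have : ρ Γ' x * A * A⁻¹ = ρ Γ' x := by group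
    rw [this]
    exact hρmem' x
  · rw [Fintype.card_piFinset]
    have h1 : ∀ i ∈ (Finset.univ : Finset (Fin q)),
        (Fintype.piFinset fun _ : Fin n => insert ((0 : ℂ), (0 : ℂ)) (P i)).card ≤
          (n * q.factorial + 1) ^ n := by
      intro i _
      rw [Fintype.card_piFinset, Finset.prod_const, Finset.card_univ, Fintype.card_fin]
      apply Nat.pow_le_pow_left
      exact (Finset.card_insert_le _ _).trans (Nat.add_le_add_right (hPcard i) 1)
    calc _ ≤ ∏ i : Fin q, (n * q.factorial + 1) ^ n := Finset.prod_le_prod' h1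
      _ = _ := by rw [Finset.prod_const, Finset.card_univ, Fintype.card_fin]

end Pool.Agent.Helper477.Sph
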