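import Pool.Agent.Helper477.Sph.Bd14

set_option autoImplicit false

/-! # Isospectral families of spherical space forms are bounded -/

namespace Pool.Agent.Helper477.Sph

variable {n : ℕ}

theorem Bdd.subset {α : Type*} {S S' : Set α} {r : α → α → Prop} {K : ℕ} (h : Bdd S r K)
    (hS : S' ⊆ S) : Bdd S' r K := fun F h1 h2 => h F (fun a ha => hS (h1 a ha)) h2

theorem HasEig.of_conj {x b y : Matrix.orthogonalGroup (Fin n) ℝ} (h : x⁻¹ * b * x = y) {c : ℂ}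
    (hy : HasEig y.1 c) : HasEig b.1 c := by
  obtain ⟨v, hv, hc⟩ := hy
  have h1 : b * x = x * y := by rw [← h]; group
  have h2 : cx b.1 * cx x.1 = cx x.1 * cx y.1 := by
    rw [← cx_mul, ← cx_mul]
    exact congrArg (fun t : Matrix.orthogonalGroup (Fin n) ℝ => cx t.1) h1
  have h3 : cx (x⁻¹).1 * cx x.1 = 1 := by
    rw [← cx_mul]
    have : (x⁻¹).1 * x.1 = 1 := congrArg Subtype.val (inv_mul_cancel x)
    rw [this, cx_one]
  refine ⟨(cx x.1).mulVec v, ?_, ?_⟩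
  · intro h0
    apply hv
    have h4 : (cx (x⁻¹).1).mulVec ((cx x.1).mulVec v) = v := by
      rw [Matrix.mulVec_mulVec, h3, Matrix.one_mulVec]
    rw [← h4, h0, Matrix.mulVec_zero]
  · rw [Matrix.mulVec_mulVec, h2, ← Matrix.mulVec_mulVec, hc, Matrix.mulVec_smul]

/-- Freely acting groups of order `N` containing `c`. -/
def SC (c : Matrix.orthogonalGroup (Fin n) ℝ) (N : ℕ) :
    Set (Subgroup (Matrix.orthogonalGroup (Fin n) ℝ)) :=
  {Γ : Subgroup (Matrix.orthogonalGroup (Fin n) ℝ) |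
    Finite Γ ∧ FreeOn Γ ∧ c ∈ Γ ∧ Nat.card Γ = N}

theorem count (hn : 0 < n) (J : ℕ) : ∃ K : ℕ, ∀ c : Matrix.orthogonalGroup (Fin n) ℝ,
    ∀ N : ℕ, N ≤ J * orderOf c → Bdd (SC c N) Conj K := by
  classical
  have hI : ∀ q : ℕ, ∃ K : ℕ, 0 < q → ∀ (b : Matrix.orthogonalGroup (Fin n) ℝ)
      (U : Finset (Matrix.orthogonalGroup (Fin n) ℝ)), U.card ≤ n → 0 < orderOf b →
      ∀ S : Set (Subgroup (Matrix.orthogonalGroup (Fin n) ℝ)),
      (∀ Γ ∈ S, Finite Γ ∧ b ∈ Γ ∧ Nat.card Γ = q * orderOf b ∧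
        (∀ x ∈ Γ, x * b * x⁻¹ ∈ Subgroup.zpowers b) ∧ ∀ x ∈ Γ, x⁻¹ * b * x ∈ U) →
      Bdd S (IsoRel b) K := by
    intro q
    by_cases hq : 0 < q
    · obtain ⟨K, hK⟩ := stepI (Matrix.orthogonalGroup (Fin n) ℝ) q hq n
      exact ⟨K, fun _ => hK⟩
    · exact ⟨0, fun h => absurd h hq⟩
  choose KI hKI using hI
  choose KII hKII using fun q : ℕ => stepII (n := n) hn q
  refine ⟨∑ q ∈ Finset.range (J * J.factorial + 1), KI q * KII q, ?_⟩
  intro c N hN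
  by_cases hne : (SC c N).Nonempty
  · obtain ⟨Γ₁, hΓ₁⟩ := hne
    have hfin₁ := hΓ₁.1
    have hcΓ₁ : c ∈ Γ₁ := hΓ₁.2.2.1
    have hcard₁ : Nat.card Γ₁ = N := hΓ₁.2.2.2
    have hc0 : 0 < orderOf c := pos_of_fin (⟨c, hcΓ₁⟩ : Γ₁)
    set b := c ^ J.factorial with hb
    have hbΓ : ∀ Γ ∈ SC c N, b ∈ Γ := fun Γ hΓ => Γ.pow_mem hΓ.2.2.1 _
    have hb0 : 0 < orderOf b := pos_of_fin (⟨b, hbΓ Γ₁ hΓ₁⟩ : Γ₁)
    have hbcoe : ∀ Γ ∈ SC c N, ∀ h : c ∈ Γ, ((⟨c, h⟩ : Γ) ^ J.factorial).1 = b := by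
      intro Γ _ h
      rfl
    obtain ⟨q, hq⟩ : ∃ q, N = q * orderOf b := by
      have h1 : orderOf b ∣ N := by
        rw [← hcard₁]
        have := orderOf_dvd_natCard (⟨b, hbΓ Γ₁ hΓ₁⟩ : Γ₁)
        rwa [← Subgroup.orderOf_coe] at this
      obtain ⟨q, hq⟩ := h1
      exact ⟨q, by rw [hq, mul_comm]⟩
    have hNpos : 0 < N := by
      rw [← hcard₁]
      exact Nat.card_pos
    have hq0 : 0 < q := by
      rcases Nat.eq_zero_or_pos q with h0 | h0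
      · rw [h0, zero_mul] at hq; omega
      · exact h0
    have hqle : q ≤ J * J.factorial := by
      have h1 := canon_index (G := Γ₁) (c := ⟨c, hcΓ₁⟩) (J := J) (by
        rw [hcard₁, ← Subgroup.orderOf_coe]
        exact hN)
      have h2 := (Subgroup.zpowers ((⟨c, hcΓ₁⟩ : Γ₁) ^ J.factorial)).index_mul_card
      rw [Nat.card_zpowers, ← Subgroup.orderOf_coe, hcard₁, hbcoe Γ₁ hΓ₁ hcΓ₁] at h2
      have h3 : (Subgroup.zpowers ((⟨c, hcΓ₁⟩ : Γ₁) ^ J.factorial)).index = q :=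
        Nat.eq_of_mul_eq_mul_right hb0 (h2.trans hq)
      rwa [h3] at h1
    have hKle : KI q * KII q ≤ ∑ q ∈ Finset.range (J * J.factorial + 1), KI q * KII q :=
      Finset.single_le_sum (f := fun q => KI q * KII q) (fun _ _ => Nat.zero_le _)
        (Finset.mem_range.mpr (by omega))
    refine Bdd.mono ?_ hKle
    have hnorm : ∀ Γ ∈ SC c N, ∀ x ∈ Γ, x * b * x⁻¹ ∈ Subgroup.zpowers b := by
      intro Γ hΓ x hx
      have := hΓ.1
      have hcΓ : c ∈ Γ := hΓ.2.2.1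
      have h1 := canon_normal (G := Γ) (c := ⟨c, hcΓ⟩) (J := J) (by
        rw [← Subgroup.orderOf_coe, hΓ.2.2.2]
        exact hN) ⟨x, hx⟩
      obtain ⟨k, hk⟩ := Subgroup.mem_zpowers_iff.mp h1
      rw [Subgroup.mem_zpowers_iff]
      exact ⟨k, congrArg Subtype.val hk⟩
    -- the possible conjugates of b
    set l0 : ℂ := Yc b.1 ⟨0, hn⟩ with hl0
    set U : Finset (Matrix.orthogonalGroup (Fin n) ℝ) := Finset.univ.image fun j : Fin n =>
      if h : ∃ k : ℕ, l0 ^ k = Yc b.1 j then b ^ h.choose else 1 with hU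
    have hUcard : U.card ≤ n := by
      rw [hU]
      refine Finset.card_image_le.trans ?_
      rw [Finset.card_univ, Fintype.card_fin]
    have hDb : Diag b.1 (Yc b.1) := Yc_spec hb0
    have hUmem : ∀ Γ ∈ SC c N, ∀ x ∈ Γ, x⁻¹ * b * x ∈ U := by
      intro Γ hΓ x hx
      have := hΓ.1
      have hl : IsPrimitiveRoot l0 (orderOf b) := hDb.prim hΓ.2.1 (hbΓ Γ hΓ) hb0 ⟨0, hn⟩
      have h1 : x⁻¹ * b * x ∈ Subgroup.zpowers b := by
        have := hnorm Γ hΓ x⁻¹ (Γ.inv_mem hx)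
        rwa [inv_inv] at this
      obtain ⟨k, hk⟩ := (orderOf_pos_iff.mp hb0).mem_powers_iff_mem_zpowers.mpr h1
      simp only at hk
      have h2 : HasEig (b ^ k).1 (l0 ^ k) := by
        rw [coe_pow']
        exact ((hDb.pow k).hasEig_iff _).mpr ⟨⟨0, hn⟩, rfl⟩
      have h3 : HasEig b.1 (l0 ^ k) := HasEig.of_conj hk.symm h2
      obtain ⟨j, hj⟩ := (hDb.hasEig_iff _).mp h3
      have h4 : ∃ k : ℕ, l0 ^ k = Yc b.1 j := ⟨k, hj.symm⟩
      rw [hU, Finset.mem_image]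
      refine ⟨j, Finset.mem_univ _, ?_⟩
      rw [dif_pos h4, ← hk]
      have h5 := h4.choose_spec.trans hj
      rw [← pow_eq_of_modEq hl.pow_eq_one (Nat.mod_modEq h4.choose _),
        ← pow_eq_of_modEq hl.pow_eq_one (Nat.mod_modEq k _)] at h5
      have h6 := hl.pow_inj (Nat.mod_lt _ hb0) (Nat.mod_lt _ hb0) h5
      exact pow_eq_of_modEq (pow_orderOf_eq_one b) h6
    have h1 := hKI q hq0 b U hUcard hb0 (SC c N) (fun Γ hΓ => ⟨hΓ.1, hbΓ Γ hΓ,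
      hΓ.2.2.2.trans hq, hnorm Γ hΓ, hUmem Γ hΓ⟩)
    refine Bdd.trans (r₁ := IsoRel b) (fun Γ hΓ => IsoRel.refl (hbΓ Γ hΓ))
      (fun Γ _ Γ' _ h => h.symm) h1 ?_
    intro Γ₀ hΓ₀
    refine Bdd.subset (hKII q b Γ₀ hΓ₀.1 (hbΓ Γ₀ hΓ₀) (hΓ₀.2.2.2.trans hq) (hnorm Γ₀ hΓ₀)) ?_
    rintro Γ ⟨hΓ, hiso⟩
    exact ⟨hΓ.1, hΓ.2.1, hiso⟩
  · intro F hF _
    rcases F.eq_empty_or_nonempty with rfl | ⟨Γ, hΓ⟩
    · simp
    · exact absurd ⟨Γ, hF Γ hΓ⟩ hne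

theorem Conj.symm' {Γ Γ' : Subgroup (Matrix.orthogonalGroup (Fin n) ℝ)} (h : Conj Γ Γ') :
    Conj Γ' Γ := by
  obtain ⟨A, hA⟩ := h
  refine ⟨A⁻¹, fun g => ?_⟩
  rw [hA]
  have : A * (A⁻¹ * g * A⁻¹⁻¹) * A⁻¹ = g := by group
  rw [this]

theorem Conj.trans' {Γ Γ' Γ'' : Subgroup (Matrix.orthogonalGroup (Fin n) ℝ)} (h : Conj Γ Γ')
    (h' : Conj Γ' Γ'') : Conj Γ Γ'' := by
  obtain ⟨A, hA⟩ := h
  obtain ⟨B, hB⟩ := h'
  refine ⟨B * A, fun g => ?_⟩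
  rw [hA, hB]
  have : B * (A * g * A⁻¹) * B⁻¹ = B * A * g * (B * A)⁻¹ := by group
  rw [this]

/-- The conjugate of a subgroup. -/
def cj (A : Matrix.orthogonalGroup (Fin n) ℝ)
    (Γ : Subgroup (Matrix.orthogonalGroup (Fin n) ℝ)) :
    Subgroup (Matrix.orthogonalGroup (Fin n) ℝ) := Γ.map (MulAut.conj A).toMonoidHom

theorem mem_cj {A g : Matrix.orthogonalGroup (Fin n) ℝ}
    {Γ : Subgroup (Matrix.orthogonalGroup (Fin n) ℝ)} : A * g * A⁻¹ ∈ cj A Γ ↔ g ∈ Γ := by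
  constructor
  · rintro ⟨x, hx, hxg⟩
    have h1 : A * x * A⁻¹ = A * g * A⁻¹ := hxg
    rw [← mul_left_cancel (mul_right_cancel h1)]
    exact hx
  · intro h
    exact ⟨g, h, rfl⟩

theorem conj_cj (A : Matrix.orthogonalGroup (Fin n) ℝ)
    (Γ : Subgroup (Matrix.orthogonalGroup (Fin n) ℝ)) : Conj Γ (cj A Γ) :=
  ⟨A, fun _ => mem_cj.symm⟩

theorem free_cj {A : Matrix.orthogonalGroup (Fin n) ℝ}
    {Γ : Subgroup (Matrix.orthogonalGroup (Fin n) ℝ)} (h : FreeOn Γ) : FreeOn (cj A Γ) := by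
  rintro _ ⟨g, hg, rfl⟩ hne v hv
  have hg1 : g ≠ 1 := by
    rintro rfl
    exact hne (map_one _)
  have h1 : (A * g * A⁻¹).1.mulVec v = v := hv
  have h2 : (A * g * A⁻¹).1 = A.1 * g.1 * (A⁻¹).1 := rfl
  have h3 : (A⁻¹).1 * A.1 = 1 := congrArg Subtype.val (inv_mul_cancel A)
  have h3' : A.1 * (A⁻¹).1 = 1 := congrArg Subtype.val (mul_inv_cancel A)
  have h4 : g.1.mulVec ((A⁻¹).1.mulVec v) = (A⁻¹).1.mulVec v := by
    have h5 := congrArg (fun w => (A⁻¹).1.mulVec w) h1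
    rw [h2, Matrix.mulVec_mulVec] at h5
    rw [Matrix.mulVec_mulVec]
    rw [← h5]
    congr 1
    calc g.1 * (A⁻¹).1 = ((A⁻¹).1 * A.1) * g.1 * (A⁻¹).1 := by rw [h3, Matrix.one_mul]
      _ = _ := by simp only [Matrix.mul_assoc]
  have h5 := h g hg hg1 _ h4
  have h6 : A.1.mulVec ((A⁻¹).1.mulVec v) = v := by
    rw [Matrix.mulVec_mulVec, h3', Matrix.one_mulVec]
  rw [← h6, h5, Matrix.mulVec_zero]

theorem bounded (hn : 0 < n) : ∃ C : ℕ,
    ∀ F : Finset (Subgroup (Matrix.orthogonalGroup (Fin n) ℝ)),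
      (∀ Γ ∈ F, Finite Γ ∧ FreeOn Γ) →
      (∀ Γ ∈ F, ∀ Γ' ∈ F, Γ ≠ Γ' → hilb Γ = hilb Γ' ∧ ¬ Conj Γ Γ') → F.card ≤ C := by
  classical
  obtain ⟨J, C, hC⟩ := key_general (n := n) hn
  obtain ⟨K, hK⟩ := count (n := n) hn J
  refine ⟨K * C ^ n, fun F hF hpair => ?_⟩
  rcases F.eq_empty_or_nonempty with rfl | ⟨Γ₀, hΓ₀⟩
  · simp
  obtain ⟨hfin₀, hfree₀⟩ := hF Γ₀ hΓ₀
  obtain ⟨d, S, hd0, hS, hkey⟩ := hC Γ₀ hfin₀ hfree₀
  have hex : ∀ Γ : Subgroup (Matrix.orthogonalGroup (Fin n) ℝ),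
      ∃ g : Matrix.orthogonalGroup (Fin n) ℝ, Γ ∈ F →
      (Nat.card Γ = Nat.card Γ₀ ∧ Nat.card Γ ≤ J * d ∧ g ∈ Γ ∧ orderOf g = d ∧
        ∀ j, Yc g.1 j ∈ S) := by
    intro Γ
    by_cases hΓ : Γ ∈ F
    · obtain ⟨hfin, hfree⟩ := hF Γ hΓ
      have hh : hilb Γ₀ = hilb Γ := by
        by_cases h : Γ₀ = Γ
        · rw [h]
        · exact (hpair Γ₀ hΓ₀ Γ hΓ h).1
      obtain ⟨h1, h2, g, hg, hgo, hgS⟩ := hkey Γ hfin hfree hh
      exact ⟨g, fun _ => ⟨h1, h2, hg, hgo, hgS⟩⟩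
    · exact ⟨1, fun h => absurd h hΓ⟩
  choose g hg using hex
  have h1 := Finset.card_le_mul_card_image_of_maps_to (f := fun Γ => Yc (g Γ).1) (s := F)
    (t := Fintype.piFinset fun _ : Fin n => S) (fun Γ hΓ => by
      rw [Fintype.mem_piFinset]
      exact (hg Γ hΓ).2.2.2.2) K (by
      intro Y _
      set E := F.filter fun Γ => Yc (g Γ).1 = Y with hE
      rcases E.eq_empty_or_nonempty with h0 | ⟨Γ₁, hΓ₁⟩
      · rw [h0]; simp
      obtain ⟨hΓ₁F, hY₁⟩ := Finset.mem_filter.mp hΓ₁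
      set c := g Γ₁ with hc
      have hco : orderOf c = d := (hg Γ₁ hΓ₁F).2.2.2.1
      have hA : ∀ Γ : Subgroup (Matrix.orthogonalGroup (Fin n) ℝ),
          ∃ A : Matrix.orthogonalGroup (Fin n) ℝ, Γ ∈ E → A * g Γ = c * A := by
        intro Γ
        by_cases hΓ : Γ ∈ E
        · obtain ⟨hΓF, hYΓ⟩ := Finset.mem_filter.mp hΓ
          have hgo := (hg Γ hΓF).2.2.2.1
          obtain ⟨A, hA⟩ := conj_elem (g := g Γ) (h := c) (by rw [hgo]; exact hd0)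
            (by rw [hco]; exact hd0) (Y := Y) (by
              rw [← hYΓ]
              exact Yc_spec (by rw [hgo]; exact hd0)) (by
              rw [← hY₁]
              exact Yc_spec (by rw [hco]; exact hd0))
          exact ⟨A, fun _ => hA⟩
        · exact ⟨1, fun h => absurd h hΓ⟩
      choose A hA using hA
      have hinj : Set.InjOn (fun Γ => cj (A Γ) Γ) (E : Set (Subgroup _)) := by
        intro Γ hΓ Γ' hΓ' hcc
        simp only at hcc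
        by_contra hne
        have hΓF := (Finset.mem_filter.mp (Finset.mem_coe.mp hΓ)).1
        have hΓF' := (Finset.mem_filter.mp (Finset.mem_coe.mp hΓ')).1
        apply (hpair Γ hΓF Γ' hΓF' hne).2
        have e1 := conj_cj (A Γ) Γ
        have e2 := conj_cj (A Γ') Γ'
        rw [hcc] at e1
        exact e1.trans' e2.symm'
      rw [← Finset.card_image_of_injOn hinj]
      apply hK c (Nat.card Γ₁) (by rw [hco]; exact (hg Γ₁ hΓ₁F).2.1)
      · intro Δ hΔ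
        obtain ⟨Γ, hΓ, rfl⟩ := Finset.mem_image.mp hΔ
        have hΓF := (Finset.mem_filter.mp hΓ).1
        obtain ⟨hfin, hfree⟩ := hF Γ hΓF
        have hcard : Nat.card (cj (A Γ) Γ) = Nat.card Γ :=
          Nat.card_congr (Γ.equivMapOfInjective _ (MulAut.conj (A Γ)).injective).symm.toEquiv
        refine ⟨?_, free_cj hfree, ?_, ?_⟩
        · exact Finite.of_equiv Γ
            (Γ.equivMapOfInjective _ (MulAut.conj (A Γ)).injective).toEquiv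
        · have h2 : c = A Γ * g Γ * (A Γ)⁻¹ := by rw [hA Γ hΓ]; group
          rw [h2]
          exact mem_cj.mpr (hg Γ hΓF).2.2.1
        · rw [hcard, (hg Γ hΓF).1, (hg Γ₁ hΓ₁F).1]
      · intro Δ hΔ Δ' hΔ' hne
        obtain ⟨Γ, hΓ, rfl⟩ := Finset.mem_image.mp hΔ
        obtain ⟨Γ', hΓ', rfl⟩ := Finset.mem_image.mp hΔ'
        have hΓF := (Finset.mem_filter.mp hΓ).1
        have hΓF' := (Finset.mem_filter.mp hΓ').1
        have hne' : Γ ≠ Γ' := by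
          rintro rfl
          exact hne rfl
        intro hcj
        apply (hpair Γ hΓF Γ' hΓF' hne').2
        exact ((conj_cj (A Γ) Γ).trans' hcj).trans' (conj_cj (A Γ') Γ').symm')
  refine h1.trans (Nat.mul_le_mul_left K ?_)
  rw [Fintype.card_piFinset, Finset.prod_const, Finset.card_univ, Fintype.card_fin]
  exact Nat.pow_le_pow_left hS n

end Pool.Agent.Helper477.Sph
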