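import Mathlib

set_option autoImplicit false

/-! # Functionals respecting the small multiplicative relations -/

namespace Pool.Agent.Helper477.Sph

/-- A bounded power of `w` is a product of bounded powers of the `v i`, `i ∈ P`. -/
def InR {I : Type*} (R : ℕ) (v : I → ℂ) (P : Finset I) (w : ℂ) : Prop :=
  ∃ (n : ℕ) (a : I → ℤ), 1 ≤ n ∧ n ≤ R ∧ (∀ i ∈ P, |a i| ≤ R) ∧ w ^ n = ∏ i ∈ P, v i ^ a i

theorem zpow_sum' {α : Type*} {x : ℂ} (hx : x ≠ 0) (s : Finset α) (f : α → ℤ) :
    x ^ (∑ a ∈ s, f a) = ∏ a ∈ s, x ^ f a := by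
  classical
  induction s using Finset.induction_on with
  | empty => simp
  | insert a s ha ih => rw [Finset.sum_insert ha, Finset.prod_insert ha, zpow_add₀ hx, ih]

theorem clear_den {Z : Type*} (s : Finset Z) (q : Z → ℚ) :
    ∃ (n : ℕ) (b : Z → ℤ), 1 ≤ n ∧ ∀ z ∈ s, (n : ℚ) * q z = b z := by
  classical
  refine ⟨∏ z ∈ s, (q z).den, fun z => ((∏ y ∈ s.erase z, (q y).den : ℕ) : ℤ) * (q z).num,
    Nat.one_le_iff_ne_zero.mpr (Finset.prod_ne_zero_iff.mpr fun z _ => (q z).den_nz), ?_⟩
  intro z hz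
  rw [← Finset.mul_prod_erase s _ hz]
  push_cast
  have h1 : ((q z).den : ℚ) * q z = (q z).num := by
    rw [mul_comm]
    exact Rat.mul_den_eq_num (q z)
  calc ((q z).den : ℚ) * (∏ y ∈ s.erase z, ((q y).den : ℚ)) * q z
      = (∏ y ∈ s.erase z, ((q y).den : ℚ)) * (((q z).den : ℚ) * q z) := by ring
    _ = _ := by rw [h1]

theorem exists_mu (I : Type*) [Fintype I] [DecidableEq I] (R : ℕ) :
    ∃ R' : ℕ, ∀ v : I → ℂ, (∀ i, v i ≠ 0) → ∀ P J : Finset I,
      (∀ j ∈ J, ¬ InR R' v P (v j)) →
      ∃ μ : I → ℚ, (∀ i ∈ P, μ i = 0) ∧ (∀ j ∈ J, μ j ≠ 0) ∧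
        ∀ c : I → ℤ, (∀ i, |c i| ≤ R) → ∏ i, v i ^ c i = 1 → ∑ i, (c i : ℚ) * μ i = 0 := by
  classical
  set e : I → I → ℚ := fun i => Pi.single i 1 with he
  set w : (I → ℤ) ⊕ I → (I → ℚ) := fun z => Sum.elim (fun c i => (c i : ℚ)) e z with hw
  set S : Finset (I → ℤ) → Finset I → Submodule ℚ (I → ℚ) := fun C P =>
    Submodule.span ℚ (w '' (C.disjSum P : Finset ((I → ℤ) ⊕ I))) with hS
  have key : ∀ (C : Finset (I → ℤ)) (P : Finset I) (j : I), ∃ (n : ℕ) (a : I → ℤ),
      e j ∈ S C P → (1 ≤ n ∧ ∀ v : I → ℂ, (∀ i, v i ≠ 0) → (∀ c ∈ C, ∏ i, v i ^ c i = 1) →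
        v j ^ n = ∏ i ∈ P, v i ^ a i) := by
    intro C P j
    by_cases hj : e j ∈ S C P
    · rw [hS] at hj
      simp only at hj
      rw [Submodule.mem_span_image_finset_iff_exists_fun'] at hj
      obtain ⟨q, hq⟩ := hj
      obtain ⟨n, b, hn, hb⟩ := clear_den (C.disjSum P) q
      refine ⟨n, fun i => b (Sum.inr i), fun _ => ⟨hn, fun v hv hC => ?_⟩⟩
      have h1 : ∀ i, (if i = j then (n : ℤ) else 0) = ∑ c ∈ C, b (Sum.inl c) * c i +
          if i ∈ P then b (Sum.inr i) else 0 := by
        intro i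
        have h2 := congrFun hq i
        rw [Finset.sum_apply, Finset.sum_disjSum] at h2
        have h3 : (n : ℚ) * (e j i) = ∑ c ∈ C, (b (Sum.inl c) : ℚ) * (c i : ℚ) +
            if i ∈ P then (b (Sum.inr i) : ℚ) else 0 := by
          rw [← h2, mul_add, Finset.mul_sum, Finset.mul_sum]
          congr 1
          · refine Finset.sum_congr rfl fun c hc => ?_
            rw [← hb _ (Finset.inl_mem_disjSum.mpr hc), Pi.smul_apply, smul_eq_mul, mul_assoc]
            rfl
          · have h4 : ∀ k ∈ P, (n : ℚ) * (q (Sum.inr k) • w (Sum.inr k)) i =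
                if i = k then (b (Sum.inr k) : ℚ) else 0 := by
              intro k hk
              rw [← hb _ (Finset.inr_mem_disjSum.mpr hk), Pi.smul_apply, smul_eq_mul, ← mul_assoc]
              have h5 : w (Sum.inr k) i = if i = k then 1 else 0 := by
                rw [hw]
                simp only [Sum.elim_inr, he]
                rw [Pi.single_apply]
              rw [h5]
              split_ifs <;> simp
            rw [Finset.sum_congr rfl h4, Finset.sum_ite_eq]
        have h4 : e j i = if i = j then 1 else 0 := by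
          rw [he]
          simp only
          rw [Pi.single_apply]
        rw [h4] at h3
        have h5 : (((if i = j then (n : ℤ) else 0 : ℤ)) : ℚ) = ((∑ c ∈ C, b (Sum.inl c) * c i +
          if i ∈ P then b (Sum.inr i) else 0 : ℤ) : ℚ) := by
          push_cast
          rw [← h3]
          split_ifs <;> simp
        exact_mod_cast h5
      have h2 : ∏ i, v i ^ (if i = j then (n : ℤ) else 0) = v j ^ n := by
        rw [Finset.prod_eq_single j]
        · rw [if_pos rfl, zpow_natCast]
        · intro i _ hi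
          rw [if_neg hi, zpow_zero]
        · intro h; exact absurd (Finset.mem_univ _) h
      rw [← h2]
      have h3 : ∀ i, v i ^ (if i = j then (n : ℤ) else 0) =
          (∏ c ∈ C, (v i ^ c i) ^ b (Sum.inl c)) *
            (if i ∈ P then v i ^ b (Sum.inr i) else 1) := by
        intro i
        rw [h1, zpow_add₀ (hv i)]
        congr 1
        · rw [zpow_sum' (hv i)]
          refine Finset.prod_congr rfl fun c _ => ?_
          rw [mul_comm, zpow_mul]
        · split_ifs <;> simp
      rw [Finset.prod_congr rfl fun i _ => h3 i, Finset.prod_mul_distrib, Finset.prod_comm]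
      have h4 : ∏ c ∈ C, ∏ i, (v i ^ c i) ^ b (Sum.inl c) = 1 := by
        apply Finset.prod_eq_one
        intro c hc
        rw [Finset.prod_zpow, hC c hc, one_zpow]
      rw [h4, one_mul, Finset.prod_ite_mem, Finset.univ_inter]
    · exact ⟨0, 0, fun h => absurd h hj⟩
  choose n a hna using key
  set box : Finset (I → ℤ) := Fintype.piFinset fun _ => Finset.Icc (-(R : ℤ)) R with hbox
  refine ⟨∑ C ∈ box.powerset, ∑ P : Finset I, ∑ j : I, (n C P j + ∑ i, (a C P j i).natAbs), ?_⟩
  intro v hv P J hJ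
  set C := box.filter (fun c => ∏ i, v i ^ c i = 1) with hC
  have hCbox : C ∈ box.powerset := Finset.mem_powerset.mpr (Finset.filter_subset _ _)
  have hnot : ∀ j ∈ J, e j ∉ S C P := by
    intro j hj hmem
    apply hJ j hj
    have hle : n C P j + ∑ i, (a C P j i).natAbs ≤
        ∑ C ∈ box.powerset, ∑ P : Finset I, ∑ j : I, (n C P j + ∑ i, (a C P j i).natAbs) := by
      refine le_trans ?_ (Finset.single_le_sum (f := fun C => ∑ P : Finset I, ∑ j : I,
        (n C P j + ∑ i, (a C P j i).natAbs)) (fun _ _ => Nat.zero_le _) hCbox)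
      refine le_trans ?_ (Finset.single_le_sum (f := fun P => ∑ j : I,
        (n C P j + ∑ i, (a C P j i).natAbs)) (fun _ _ => Nat.zero_le _) (Finset.mem_univ P))
      exact Finset.single_le_sum (f := fun j => (n C P j + ∑ i, (a C P j i).natAbs))
        (fun _ _ => Nat.zero_le _) (Finset.mem_univ j)
    obtain ⟨h1, h2⟩ := hna C P j hmem
    refine ⟨n C P j, a C P j, h1, by omega, fun i _ => ?_, h2 v hv fun c hc =>
      (Finset.mem_filter.mp hc).2⟩
    have h3 : (a C P j i).natAbs ≤ ∑ i, (a C P j i).natAbs :=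
      Finset.single_le_sum (f := fun i => (a C P j i).natAbs) (fun _ _ => Nat.zero_le _)
        (Finset.mem_univ i)
    rw [Int.abs_eq_natAbs]
    exact_mod_cast (by omega : (a C P j i).natAbs ≤ _)
  obtain ⟨f, hf⟩ := Module.exists_dual_forall_apply_ne_zero (K := ℚ)
    (fun j : J => (S C P).mkQ (e j)) (fun j => by
      rw [Ne, Submodule.mkQ_apply, Submodule.Quotient.mk_eq_zero]
      exact hnot j.1 j.2)
  refine ⟨fun i => f ((S C P).mkQ (e i)), ?_, ?_, ?_⟩
  · intro i hi
    have h1 : e i ∈ S C P := by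
      apply Submodule.subset_span
      exact ⟨Sum.inr i, Finset.mem_coe.mpr (Finset.inr_mem_disjSum.mpr hi), rfl⟩
    simp only
    rw [Submodule.mkQ_apply, (Submodule.Quotient.mk_eq_zero (S C P)).mpr h1, map_zero]
  · intro j hj
    exact hf ⟨j, hj⟩
  · intro c hc hrel
    have h1 : (fun i => (c i : ℚ)) ∈ S C P := by
      apply Submodule.subset_span
      refine ⟨Sum.inl c, Finset.mem_coe.mpr (Finset.inl_mem_disjSum.mpr ?_), rfl⟩
      rw [hC, Finset.mem_filter, hbox, Fintype.mem_piFinset]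
      refine ⟨fun i => ?_, hrel⟩
      rw [Finset.mem_Icc]
      exact abs_le.mp (hc i)
    have h2 : (fun i => (c i : ℚ)) = ∑ i, (c i : ℚ) • e i := by
      funext k
      rw [Finset.sum_apply, Finset.sum_eq_single k]
      · rw [he]; simp
      · intro b _ hb
        rw [he]
        simp [hb.symm]
      · intro h; exact absurd (Finset.mem_univ _) h
    have h3 : f ((S C P).mkQ (fun i => (c i : ℚ))) = 0 := by
      rw [Submodule.mkQ_apply, (Submodule.Quotient.mk_eq_zero (S C P)).mpr h1, map_zero]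
    rw [h2, map_sum, map_sum] at h3
    rw [← h3]
    refine Finset.sum_congr rfl fun i _ => ?_
    rw [map_smul, map_smul, smul_eq_mul]

theorem inR_finite (I : Type*) [Fintype I] [DecidableEq I] (R : ℕ) :
    ∃ K : ℕ, ∀ (v : I → ℂ) (P : Finset I), ∃ S : Finset ℂ, S.card ≤ K ∧
      ∀ w, InR R v P w → w ∈ S := by
  classical
  set box : Finset (I → ℤ) := Fintype.piFinset fun _ => Finset.Icc (-(R : ℤ)) R with hbox
  refine ⟨∑ n ∈ Finset.Icc 1 R, ∑ a ∈ box, R, fun v P => ?_⟩
  refine ⟨(Finset.Icc 1 R).biUnion fun n => box.biUnion fun a =>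
    (Polynomial.nthRoots n (∏ i ∈ P, v i ^ a i)).toFinset, ?_, ?_⟩
  · refine Finset.card_biUnion_le.trans (Finset.sum_le_sum fun n hn => ?_)
    refine Finset.card_biUnion_le.trans (Finset.sum_le_sum fun a _ => ?_)
    exact (Multiset.toFinset_card_le _).trans ((Polynomial.card_nthRoots _ _).trans
      (Finset.mem_Icc.mp hn).2)
  · rintro w ⟨n, a, h1, h2, h3, h4⟩
    rw [Finset.mem_biUnion]
    refine ⟨n, Finset.mem_Icc.mpr ⟨h1, h2⟩, ?_⟩
    rw [Finset.mem_biUnion]
    refine ⟨fun i => if i ∈ P then a i else 0, ?_, ?_⟩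
    · rw [hbox, Fintype.mem_piFinset]
      intro i
      rw [Finset.mem_Icc]
      split_ifs with hi
      · exact abs_le.mp (h3 i hi)
      · constructor
        · have : (0 : ℤ) ≤ R := Int.natCast_nonneg R
          omega
        · exact Int.natCast_nonneg R
    · rw [Multiset.mem_toFinset, Polynomial.mem_nthRoots (by omega), h4]
      refine Finset.prod_congr rfl fun i hi => ?_
      simp only
      rw [if_pos hi]

end Pool.Agent.Helper477.Sph
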