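import Pool.Agent.Helper477.Sph.Bd1
import Pool.Agent.Helper477.Sph.Bd2

set_option autoImplicit false

/-! # Deforming the solutions of integral polynomial equations in roots of unity -/

namespace Pool.Agent.Helper477.Sph

open MvPolynomial

/-- `μ` kills all multiplicative relations of height at most `R` between the `z i`. -/
def Resp {I : Type*} [Fintype I] (R : ℕ) (z : I → ℂ) (μ : I → ℚ) : Prop :=
  ∀ c : I → ℤ, (∀ i, |c i| ≤ R) → ∏ i, z i ^ c i = 1 → ∑ i, (c i : ℚ) * μ i = 0

theorem Resp.mono {I : Type*} [Fintype I] {R R' : ℕ} (h : R ≤ R') {z : I → ℂ} {μ : I → ℚ}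
    (hμ : Resp R' z μ) : Resp R z μ := by
  intro c hc hz
  exact hμ c (fun i => (hc i).trans (by exact_mod_cast h)) hz

/-- The deformation of a point. -/
noncomputable def defo {I : Type*} (z : I → ℂ) (μ : I → ℚ) (s : ℝ) : I → ℂ :=
  fun i => z i * ((Real.exp (s * (μ i : ℝ)) : ℝ) : ℂ)

theorem poly_deform {I : Type*} [Fintype I] [DecidableEq I] (E : MvPolynomial I ℤ) :
    ∃ R : ℕ, ∀ d : ℕ, 0 < d → ∀ z : I → ℂ, (∀ i, z i ^ d = 1) → aeval z E = 0 →
      ∀ μ : I → ℚ, Resp R z μ → ∀ s : ℝ, aeval (defo z μ s) E = 0 := by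
  classical
  set M := E.support.card with hM
  refine ⟨M.factorial * (∑ α ∈ E.support, ∑ i, α i), ?_⟩
  intro d hd z hz hE μ hμ s
  have hz0 : ∀ i, z i ≠ 0 := by
    intro i h
    have := hz i
    rw [h, zero_pow hd.ne'] at this
    exact zero_ne_one this
  set x : (I →₀ ℕ) → ℂ := fun α => ∏ i, z i ^ α i with hx
  have hxd : ∀ α ∈ E.support, x α ^ d = 1 := by
    intro α _
    rw [hx]
    simp only
    rw [← Finset.prod_pow]
    apply Finset.prod_eq_one
    intro i _
    rw [← pow_mul, mul_comm, pow_mul, hz i, one_pow]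
  have haev : ∀ y : I → ℂ, aeval y E = ∑ α ∈ E.support, ((coeff α E : ℤ) : ℂ) * ∏ i, y i ^ α i := by
    intro y
    rw [aeval_def, eval₂_eq']
    rfl
  have h0 : ∑ α ∈ E.support, ((coeff α E : ℤ) : ℂ) * x α = 0 := by
    rw [← hE, haev]
  have hmann := mann hd E.support M le_rfl (fun α => coeff α E) x hxd h0
  set ℓ : (I →₀ ℕ) → ℚ := fun α => ∑ i, (α i : ℚ) * μ i with hℓ
  have hconst : ∀ α ∈ E.support, ∀ β ∈ E.support, x α ^ M.factorial = x β ^ M.factorial →
      ℓ α = ℓ β := by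
    intro α hα β hβ hαβ
    have hN : (M.factorial : ℚ) ≠ 0 := by exact_mod_cast (Nat.factorial_pos M).ne'
    have hb : ∀ γ ∈ E.support, ∀ i, γ i ≤ ∑ α ∈ E.support, ∑ i, α i := by
      intro γ hγ i
      refine le_trans ?_ (Finset.single_le_sum (f := fun α : I →₀ ℕ => ∑ i, α i)
        (fun _ _ => Nat.zero_le _) hγ)
      exact Finset.single_le_sum (f := fun i => γ i) (fun _ _ => Nat.zero_le _) (Finset.mem_univ i)
    have h1 := hμ (fun i => (M.factorial : ℤ) * ((α i : ℤ) - (β i : ℤ))) (by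
      intro i
      rw [abs_mul, Nat.abs_cast]
      push_cast
      apply mul_le_mul_of_nonneg_left _ (Int.natCast_nonneg _)
      have h2 := hb α hα i
      have h3 := hb β hβ i
      have h4 : ((∑ α ∈ E.support, ∑ i, α i : ℕ) : ℤ) =
        ∑ α ∈ E.support, ∑ i, (α i : ℤ) := by push_cast; rfl
      rw [abs_le]
      constructor
      · have : (β i : ℤ) ≤ ((∑ α ∈ E.support, ∑ i, α i : ℕ) : ℤ) := by exact_mod_cast h3
        rw [h4] at this
        have : (0 : ℤ) ≤ α i := Int.natCast_nonneg _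
        omega
      · have : (α i : ℤ) ≤ ((∑ α ∈ E.support, ∑ i, α i : ℕ) : ℤ) := by exact_mod_cast h2
        rw [h4] at this
        have : (0 : ℤ) ≤ β i := Int.natCast_nonneg _
        omega) (by
      have h2 : ∀ i, z i ^ ((M.factorial : ℤ) * ((α i : ℤ) - (β i : ℤ))) =
          (z i ^ α i) ^ M.factorial * ((z i ^ β i) ^ M.factorial)⁻¹ := by
        intro i
        rw [mul_comm, zpow_mul, zpow_sub₀ (hz0 i), zpow_natCast, zpow_natCast, zpow_natCast,
          div_pow, div_eq_mul_inv]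
      rw [Finset.prod_congr rfl fun i _ => h2 i, Finset.prod_mul_distrib,
        Finset.prod_pow, Finset.prod_inv_distrib, Finset.prod_pow]
      have h3 : (∏ i, z i ^ α i) ^ M.factorial = (∏ i, z i ^ β i) ^ M.factorial := hαβ
      rw [h3, mul_inv_cancel₀]
      exact pow_ne_zero _ (Finset.prod_ne_zero_iff.mpr fun i _ => pow_ne_zero _ (hz0 i)))
    have h2 : (M.factorial : ℚ) * (ℓ α - ℓ β) = 0 := by
      rw [← h1, hℓ]
      simp only
      rw [← Finset.sum_sub_distrib, Finset.mul_sum]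
      refine Finset.sum_congr rfl fun i _ => ?_
      push_cast
      ring
    exact sub_eq_zero.mp ((mul_eq_zero.mp h2).resolve_left hN)
  rw [haev]
  have hpt : ∀ α : I →₀ ℕ, ∏ i, defo z μ s i ^ α i = x α * ((Real.exp (s * (ℓ α : ℝ)) : ℝ) : ℂ) := by
    intro α
    rw [hx, hℓ]
    simp only [defo, mul_pow]
    rw [Finset.prod_mul_distrib]
    congr 1
    push_cast
    rw [Finset.mul_sum, Complex.exp_sum]
    refine Finset.prod_congr rfl fun i _ => ?_
    rw [← Complex.exp_nat_mul]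
    congr 1
    ring
  simp only [hpt]
  -- group according to the value of x ^ M!
  rw [← Finset.sum_fiberwise_of_maps_to (g := fun α => x α ^ M.factorial)
    (t := E.support.image fun α => x α ^ M.factorial)
    (fun α hα => Finset.mem_image_of_mem _ hα)]
  apply Finset.sum_eq_zero
  intro ω hω
  obtain ⟨β, hβ, hβω⟩ := Finset.mem_image.mp hω
  calc ∑ α ∈ E.support with x α ^ M.factorial = ω,
        ((coeff α E : ℤ) : ℂ) * (x α * ((Real.exp (s * (ℓ α : ℝ)) : ℝ) : ℂ))
      = ∑ α ∈ E.support with x α ^ M.factorial = ω,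
        (((coeff α E : ℤ) : ℂ) * x α) * ((Real.exp (s * (ℓ β : ℝ)) : ℝ) : ℂ) := by
        refine Finset.sum_congr rfl fun α hα => ?_
        obtain ⟨hα1, hα2⟩ := Finset.mem_filter.mp hα
        rw [hconst α hα1 β hβ (hα2.trans hβω.symm), mul_assoc]
    _ = 0 := by rw [← Finset.sum_mul, hmann ω, zero_mul]

end Pool.Agent.Helper477.Sph
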