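import Pool.Agent.Helper477.Sph.Bd3

set_option autoImplicit false

/-! # Local factors and their deformation -/

namespace Pool.Agent.Helper477.Sph

/-- The local factor `y / (1 - c (1 - y))`. -/
noncomputable def Lf (c : ℂ) : PowerSeries ℂ :=
  if c = 1 then 1 else PowerSeries.X * PowerSeries.mk fun r => (-c) ^ r / (1 - c) ^ (r + 1)

theorem Lf_one : Lf 1 = 1 := if_pos rfl

theorem Lf_ne {c : ℂ} (hc : c ≠ 1) :
    Lf c = PowerSeries.X * PowerSeries.mk fun r => (-c) ^ r / (1 - c) ^ (r + 1) := if_neg hc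

theorem mk_mul_den {c : ℂ} (hc : c ≠ 1) :
    PowerSeries.mk (fun r => (-c) ^ r / (1 - c) ^ (r + 1)) *
      (PowerSeries.C (1 - c) + PowerSeries.C c * PowerSeries.X) = 1 := by
  have h1 : (1 - c) ≠ 0 := sub_ne_zero.mpr hc.symm
  refine PowerSeries.ext fun k => ?_
  rw [mul_add, map_add, mul_left_comm, PowerSeries.coeff_C_mul, mul_comm _ (PowerSeries.C (1 - c)),
    PowerSeries.coeff_C_mul]
  rcases k with _ | k
  · simp [h1]
  · rw [PowerSeries.coeff_succ_mul_X, PowerSeries.coeff_mk, PowerSeries.coeff_mk,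
      PowerSeries.coeff_one, if_neg (Nat.succ_ne_zero k)]
    field_simp
    ring

theorem Lf_mul (c : ℂ) : Lf c * (1 - PowerSeries.C c * (1 - PowerSeries.X)) = PowerSeries.X := by
  by_cases hc : c = 1
  · rw [hc, Lf_one, map_one]
    ring
  · have h2 : (1 - PowerSeries.C c * (1 - PowerSeries.X) : PowerSeries ℂ) =
        PowerSeries.C (1 - c) + PowerSeries.C c * PowerSeries.X := by
      rw [map_sub, map_one]
      ring
    rw [Lf_ne hc, h2, mul_assoc, mk_mul_den hc, mul_one]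

theorem X_dvd_Lf {c : ℂ} (hc : c ≠ 1) : PowerSeries.X ∣ Lf c := by
  rw [Lf_ne hc]
  exact dvd_mul_right _ _

/-- The signed sum of products of local factors. -/
noncomputable def FF {κ : Type*} [Fintype κ] {m : ℕ} (ε : κ → SignType) (z : κ × Fin m → ℂ) :
    PowerSeries ℂ := ∑ k, PowerSeries.C ((ε k : ℤ) : ℂ) * ∏ j, Lf (z (k, j))

section
variable {κ : Type*} [Fintype κ] [DecidableEq κ] {m : ℕ}

/-- Denominators. -/
noncomputable def DT (T : Finset (κ × Fin m)) (i : κ × Fin m) :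
    Polynomial (MvPolynomial (κ × Fin m) ℤ) :=
  if i ∈ T then 1 else Polynomial.C (1 - MvPolynomial.X i) +
    Polynomial.C (MvPolynomial.X i) * Polynomial.X

/-- Numerators. -/
noncomputable def NT (T : Finset (κ × Fin m)) (i : κ × Fin m) :
    Polynomial (MvPolynomial (κ × Fin m) ℤ) :=
  if i ∈ T then 1 else Polynomial.X

/-- The cleared sum. -/
noncomputable def GG (ε : κ → SignType) (T : Finset (κ × Fin m)) :
    Polynomial (MvPolynomial (κ × Fin m) ℤ) :=
  ∑ k, Polynomial.C (MvPolynomial.C (ε k : ℤ)) * ((∏ j, NT T (k, j)) *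
    ∏ k' ∈ Finset.univ.erase k, ∏ j, DT T (k', j))

/-- Evaluation at a point. -/
noncomputable def ph (z : κ × Fin m → ℂ) :
    Polynomial (MvPolynomial (κ × Fin m) ℤ) →+* PowerSeries ℂ :=
  (Polynomial.coeToPowerSeries.ringHom (R := ℂ)).comp
    (Polynomial.mapRingHom (MvPolynomial.aeval z : MvPolynomial (κ × Fin m) ℤ →ₐ[ℤ] ℂ).toRingHom)

theorem ph_X (z : κ × Fin m → ℂ) : ph z Polynomial.X = PowerSeries.X := by
  rw [ph, RingHom.comp_apply, Polynomial.coe_mapRingHom, Polynomial.map_X]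
  exact Polynomial.coe_X

theorem ph_C (z : κ × Fin m → ℂ) (a : MvPolynomial (κ × Fin m) ℤ) :
    ph z (Polynomial.C a) = PowerSeries.C (MvPolynomial.aeval z a) := by
  rw [ph, RingHom.comp_apply, Polynomial.coe_mapRingHom, Polynomial.map_C]
  exact Polynomial.coe_C _

theorem coeff_ph (z : κ × Fin m → ℂ) (P : Polynomial (MvPolynomial (κ × Fin m) ℤ)) (r : ℕ) :
    PowerSeries.coeff r (ph z P) = MvPolynomial.aeval z (P.coeff r) := by
  rw [ph, RingHom.comp_apply, Polynomial.coe_mapRingHom]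
  change PowerSeries.coeff r ((Polynomial.map _ P : Polynomial ℂ) : PowerSeries ℂ) = _
  rw [Polynomial.coeff_coe, Polynomial.coeff_map]
  rfl

theorem ph_DT {T : Finset (κ × Fin m)} {z : κ × Fin m → ℂ} (hT : ∀ i, z i = 1 ↔ i ∈ T)
    (i : κ × Fin m) : ph z (DT T i) * Lf (z i) = ph z (NT T i) := by
  unfold DT NT
  by_cases hi : i ∈ T
  · rw [if_pos hi, if_pos hi, map_one, (hT i).mpr hi, Lf_one, mul_one]
  · rw [if_neg hi, if_neg hi, map_add, map_mul, ph_C, ph_C, ph_X]
    have hz : z i ≠ 1 := fun h => hi ((hT i).mp h)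
    rw [Lf_ne hz, map_sub, map_one, MvPolynomial.aeval_X, mul_left_comm]
    rw [mul_comm (PowerSeries.C (1 - z i) + _), mk_mul_den hz, mul_one]

theorem constantCoeff_DT {T : Finset (κ × Fin m)} {z : κ × Fin m → ℂ} (hT : ∀ i, z i = 1 ↔ i ∈ T)
    (i : κ × Fin m) : PowerSeries.constantCoeff (ph z (DT T i)) ≠ 0 := by
  unfold DT
  by_cases hi : i ∈ T
  · rw [if_pos hi, map_one, map_one]
    exact one_ne_zero
  · rw [if_neg hi, map_add, map_mul, ph_C, ph_C, ph_X]
    have hz : z i ≠ 1 := fun h => hi ((hT i).mp h)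
    simp only [map_add, map_mul, PowerSeries.constantCoeff_C, PowerSeries.constantCoeff_X,
      mul_zero, add_zero, map_sub, map_one, MvPolynomial.aeval_X]
    exact sub_ne_zero.mpr hz.symm

theorem ph_GG {T : Finset (κ × Fin m)} {z : κ × Fin m → ℂ} (hT : ∀ i, z i = 1 ↔ i ∈ T)
    (ε : κ → SignType) :
    ph z (GG ε T) = (∏ k, ∏ j, ph z (DT T (k, j))) * FF ε z := by
  rw [GG, FF, map_sum, Finset.mul_sum]
  refine Finset.sum_congr rfl fun k _ => ?_
  rw [map_mul, map_mul, ph_C, map_prod, map_prod]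
  have h1 : (MvPolynomial.aeval z (MvPolynomial.C ((ε k : SignType) : ℤ) :
      MvPolynomial (κ × Fin m) ℤ) : ℂ) = (((ε k : SignType) : ℤ) : ℂ) := by
    rw [MvPolynomial.aeval_C]
    rfl
  rw [h1, ← Finset.mul_prod_erase Finset.univ (fun k => ∏ j, ph z (DT T (k, j)))
    (Finset.mem_univ k)]
  have h2 : ∏ j, ph z (NT T (k, j)) = (∏ j, ph z (DT T (k, j))) * ∏ j, Lf (z (k, j)) := by
    rw [← Finset.prod_mul_distrib]
    exact Finset.prod_congr rfl fun j _ => (ph_DT hT (k, j)).symm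
  rw [h2]
  simp only [map_prod]
  ring

theorem dvd_iff {T : Finset (κ × Fin m)} {z : κ × Fin m → ℂ} (hT : ∀ i, z i = 1 ↔ i ∈ T)
    (ε : κ → SignType) (N : ℕ) :
    PowerSeries.X ^ N ∣ FF ε z ↔ ∀ r < N, MvPolynomial.aeval z ((GG ε T).coeff r) = 0 := by
  have hu : IsUnit (∏ k, ∏ j, ph z (DT T (k, j))) := by
    rw [PowerSeries.isUnit_iff_constantCoeff, map_prod, isUnit_iff_ne_zero, Finset.prod_ne_zero_iff]
    intro k _
    rw [map_prod, Finset.prod_ne_zero_iff]
    intro j _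
    exact constantCoeff_DT hT (k, j)
  rw [← hu.dvd_mul_left, ← ph_GG hT, PowerSeries.X_pow_dvd_iff]
  simp only [coeff_ph]

theorem deform (κ : Type*) [Fintype κ] [DecidableEq κ] (m N : ℕ) :
    ∃ R : ℕ, ∀ (ε : κ → SignType) (d : ℕ), 0 < d → ∀ z : κ × Fin m → ℂ, (∀ i, z i ^ d = 1) →
      PowerSeries.X ^ N ∣ FF ε z → ∀ μ : κ × Fin m → ℚ, Resp R z μ → ∀ s : ℝ,
        (∀ i, z i = 1 → μ i = 0) ∧ PowerSeries.X ^ N ∣ FF ε (defo z μ s) := by
  classical
  choose R hR using fun E : MvPolynomial (κ × Fin m) ℤ => poly_deform E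
  refine ⟨1 + ∑ ε : κ → SignType, ∑ T : Finset (κ × Fin m), ∑ r ∈ Finset.range N,
    R ((GG ε T).coeff r), ?_⟩
  intro ε d hd z hz hdiv μ hμ s
  set T : Finset (κ × Fin m) := Finset.univ.filter fun i => z i = 1 with hTd
  have hT : ∀ i, z i = 1 ↔ i ∈ T := by
    intro i
    rw [hTd, Finset.mem_filter]
    simp
  have hz0 : ∀ i, z i ≠ 0 := by
    intro i h
    have := hz i
    rw [h, zero_pow hd.ne'] at this
    exact zero_ne_one this
  have hμ1 : ∀ i, z i = 1 → μ i = 0 := by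
    intro i hi
    have h1 := hμ (Pi.single i 1) (by
      intro k
      rw [Pi.single_apply]
      push_cast
      have h3 : (0 : ℤ) ≤ ∑ ε : κ → SignType, ∑ T : Finset (κ × Fin m), ∑ r ∈ Finset.range N,
        (R ((GG ε T).coeff r) : ℤ) := by positivity
      split_ifs
      · rw [abs_one]; omega
      · rw [abs_zero]; omega) (by
      rw [Finset.prod_eq_single i]
      · rw [hi, one_zpow]
      · intro k _ hk
        rw [Pi.single_eq_of_ne hk, zpow_zero]
      · intro h; exact absurd (Finset.mem_univ _) h)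
    rw [Finset.sum_eq_single i] at h1
    · simpa using h1
    · intro k _ hk
      rw [Pi.single_eq_of_ne hk]
      simp
    · intro h; exact absurd (Finset.mem_univ _) h
  refine ⟨hμ1, ?_⟩
  have hnorm : ∀ i, ‖z i‖ = 1 := fun i => Complex.norm_eq_one_of_pow_eq_one (hz i) hd.ne'
  have hT' : ∀ i, defo z μ s i = 1 ↔ i ∈ T := by
    intro i
    rw [← hT]
    constructor
    · intro h
      have h1 := congrArg norm h
      rw [defo, norm_mul, hnorm, one_mul, Complex.norm_real, Real.norm_eq_abs, Real.abs_exp,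
        norm_one] at h1
      rw [defo, h1] at h
      simpa using h
    · intro h
      rw [defo, hμ1 i h]
      simp [h]
  rw [dvd_iff hT'] 
  rw [dvd_iff hT] at hdiv
  intro r hr
  refine hR _ d hd z hz (hdiv r hr) μ (Resp.mono ?_ hμ) s
  have h1 : R ((GG ε T).coeff r) ≤ ∑ r ∈ Finset.range N, R ((GG ε T).coeff r) :=
    Finset.single_le_sum (f := fun r => R ((GG ε T).coeff r)) (fun _ _ => Nat.zero_le _)
      (Finset.mem_range.mpr hr)
  have h2 : ∑ r ∈ Finset.range N, R ((GG ε T).coeff r) ≤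
      ∑ T : Finset (κ × Fin m), ∑ r ∈ Finset.range N, R ((GG ε T).coeff r) :=
    Finset.single_le_sum (f := fun T => ∑ r ∈ Finset.range N, R ((GG ε T).coeff r))
      (fun _ _ => Nat.zero_le _) (Finset.mem_univ T)
  have h3 : ∑ T : Finset (κ × Fin m), ∑ r ∈ Finset.range N, R ((GG ε T).coeff r) ≤
      ∑ ε : κ → SignType, ∑ T : Finset (κ × Fin m), ∑ r ∈ Finset.range N,
        R ((GG ε T).coeff r) :=
    Finset.single_le_sum (f := fun ε => ∑ T : Finset (κ × Fin m), ∑ r ∈ Finset.range N,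
      R ((GG ε T).coeff r)) (fun _ _ => Nat.zero_le _) (Finset.mem_univ ε)
  omega

end

end Pool.Agent.Helper477.Sph
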