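import Pool.Agent.Helper477.Sph.Bd4

set_option autoImplicit false

/-! # The limit of the deformation -/

namespace Pool.Agent.Helper477.Sph

open Filter Topology
open scoped PowerSeries.WithPiTopology

theorem coeff_Lf_zero {c : ℂ} (hc : c ≠ 1) : PowerSeries.coeff 0 (Lf c) = 0 := by
  rw [Lf_ne hc, PowerSeries.coeff_zero_X_mul]

theorem coeff_Lf_succ {c : ℂ} (hc : c ≠ 1) (r : ℕ) :
    PowerSeries.coeff (r + 1) (Lf c) = (-c) ^ r / (1 - c) ^ (r + 1) := by
  rw [Lf_ne hc, PowerSeries.coeff_succ_X_mul, PowerSeries.coeff_mk]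

theorem exp_tendsto_zero {μ : ℝ} (hμ : μ < 0) :
    Tendsto (fun s : ℝ => Real.exp (s * μ)) atTop (𝓝 0) := by
  apply Real.tendsto_exp_atBot.comp
  exact tendsto_id.atTop_mul_const_of_neg hμ

theorem Lf_tendsto {z : ℂ} (hz : ‖z‖ = 1) (μ : ℝ) (h1 : z = 1 → μ = 0) :
    ∃ L : PowerSeries ℂ, (0 < μ → L = 0) ∧
      Tendsto (fun s : ℝ => Lf (z * ((Real.exp (s * μ) : ℝ) : ℂ))) atTop (𝓝 L) := by
  have hz0 : z ≠ 0 := by
    rintro rfl
    simp at hz
  rcases lt_trichotomy μ 0 with hμ | hμ | hμ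
  · refine ⟨Lf 0, fun h => absurd h (not_lt.mpr hμ.le), ?_⟩
    have hzl : Tendsto (fun s : ℝ => z * ((Real.exp (s * μ) : ℝ) : ℂ)) atTop (𝓝 0) := by
      have h2 : Tendsto (fun s : ℝ => ((Real.exp (s * μ) : ℝ) : ℂ)) atTop (𝓝 ((0 : ℝ) : ℂ)) :=
        (Complex.continuous_ofReal.tendsto 0).comp (exp_tendsto_zero hμ)
      have h3 := h2.const_mul z
      simpa using h3
    have hne : ∀ᶠ s : ℝ in atTop, z * ((Real.exp (s * μ) : ℝ) : ℂ) ≠ 1 :=
      hzl.eventually_ne (by simp)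
    rw [PowerSeries.WithPiTopology.tendsto_iff_coeff_tendsto]
    intro k
    rcases k with _ | r
    · rw [coeff_Lf_zero (by simp : (0 : ℂ) ≠ 1)]
      refine Tendsto.congr' ?_ tendsto_const_nhds
      filter_upwards [hne] with s hs
      rw [coeff_Lf_zero hs]
    · rw [coeff_Lf_succ (by simp : (0 : ℂ) ≠ 1)]
      have h4 : Tendsto (fun s : ℝ => (-(z * ((Real.exp (s * μ) : ℝ) : ℂ))) ^ r /
          (1 - z * ((Real.exp (s * μ) : ℝ) : ℂ)) ^ (r + 1)) atTop
          (𝓝 ((-0) ^ r / (1 - 0) ^ (r + 1))) := by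
        apply Tendsto.div
        · exact hzl.neg.pow r
        · exact (tendsto_const_nhds.sub hzl).pow (r + 1)
        · simp
      refine h4.congr' ?_
      filter_upwards [hne] with s hs
      rw [coeff_Lf_succ hs]
  · refine ⟨Lf z, fun h => absurd h (by rw [hμ]; exact lt_irrefl 0), ?_⟩
    rw [hμ]
    simp
  · refine ⟨0, fun _ => rfl, ?_⟩
    set w : ℝ → ℂ := fun s => z⁻¹ * ((Real.exp (s * (-μ)) : ℝ) : ℂ) with hw
    have hwl : Tendsto w atTop (𝓝 0) := by
      have h2 : Tendsto (fun s : ℝ => ((Real.exp (s * (-μ)) : ℝ) : ℂ)) atTop (𝓝 ((0 : ℝ) : ℂ)) :=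
        (Complex.continuous_ofReal.tendsto 0).comp (exp_tendsto_zero (by linarith))
      have h3 := h2.const_mul z⁻¹
      rw [Complex.ofReal_zero, mul_zero] at h3
      exact h3
    have hzw : ∀ s : ℝ, z * ((Real.exp (s * μ) : ℝ) : ℂ) = (w s)⁻¹ := by
      intro s
      rw [hw]
      simp only
      rw [mul_inv, inv_inv, ← Complex.ofReal_inv, ← Real.exp_neg]
      congr 3
      ring
    have hw0 : ∀ s, w s ≠ 0 := by
      intro s
      rw [hw]
      simp only
      apply mul_ne_zero (inv_ne_zero hz0)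
      exact_mod_cast (Real.exp_pos _).ne'
    have hne : ∀ᶠ s : ℝ in atTop, w s ≠ 1 := hwl.eventually_ne (by simp)
    rw [PowerSeries.WithPiTopology.tendsto_iff_coeff_tendsto]
    intro k
    rw [map_zero]
    rcases k with _ | r
    · refine Tendsto.congr' ?_ tendsto_const_nhds
      filter_upwards [hne] with s hs
      rw [hzw, coeff_Lf_zero]
      intro h
      exact hs (by rw [← inv_inv (w s), h, inv_one])
    · have h4 : Tendsto (fun s : ℝ => (1 / (1 - w s)) ^ r * (-(w s) / (1 - w s))) atTop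
          (𝓝 ((1 / (1 - 0)) ^ r * (-0 / (1 - 0)))) := by
        apply Tendsto.mul
        · apply Tendsto.pow
          apply Tendsto.div tendsto_const_nhds (tendsto_const_nhds.sub hwl)
          simp
        · apply Tendsto.div hwl.neg (tendsto_const_nhds.sub hwl)
          simp
      have h5 : ((1 / (1 - 0)) ^ r * (-0 / (1 - 0)) : ℂ) = 0 := by simp
      rw [h5] at h4
      refine h4.congr' ?_
      filter_upwards [hne] with s hs
      have hs1 : (w s)⁻¹ ≠ 1 := by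
        intro h
        exact hs (by rw [← inv_inv (w s), h, inv_one])
      rw [hzw, coeff_Lf_succ hs1]
      have h6 : 1 - w s ≠ 0 := sub_ne_zero.mpr hs.symm
      have h7 : 1 - (w s)⁻¹ = -(1 - w s) * (w s)⁻¹ := by
        field_simp [hw0 s]
        ring
      rw [h7, pow_succ, div_pow, one_pow]
      have h8 : (-(w s)⁻¹) ^ r / ((-(1 - w s) * (w s)⁻¹) ^ r * (-(1 - w s) * (w s)⁻¹)) =
          ((-(w s)⁻¹) / (-(1 - w s) * (w s)⁻¹)) ^ r * (1 / (-(1 - w s) * (w s)⁻¹)) := by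
        rw [div_pow, div_mul_div_comm, mul_one]
      have h9 : (-(w s)⁻¹) / (-(1 - w s) * (w s)⁻¹) = 1 / (1 - w s) := by
        field_simp [hw0 s]
      have h10 : 1 / (-(1 - w s) * (w s)⁻¹) = -(w s) / (1 - w s) := by
        field_simp [hw0 s]
      rw [h8, h9, h10, div_pow, one_pow]

theorem limit {κ : Type*} [Fintype κ] [DecidableEq κ] {m N : ℕ} (ε : κ → SignType)
    (z : κ × Fin m → ℂ) (hz : ∀ i, ‖z i‖ = 1) (μ : κ × Fin m → ℚ)
    (h1 : ∀ i, z i = 1 → μ i = 0) (Mv : Finset κ)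
    (hfix : ∀ k ∉ Mv, ∀ j, μ (k, j) = 0)
    (hmv : ∀ k ∈ Mv, ε k ≠ 0 → ∃ j, 0 < μ (k, j))
    (hdiv : ∀ s : ℝ, PowerSeries.X ^ N ∣ FF ε (defo z μ s)) :
    PowerSeries.X ^ N ∣ ∑ k ∈ Finset.univ \ Mv,
      PowerSeries.C (((ε k : SignType) : ℤ) : ℂ) * ∏ j, Lf (z (k, j)) := by
  classical
  have hL : ∀ i : κ × Fin m, ∃ L : PowerSeries ℂ, (0 < μ i → L = 0) ∧
      Tendsto (fun s : ℝ => Lf (defo z μ s i)) atTop (𝓝 L) := by
    intro i
    obtain ⟨L, hL1, hL2⟩ := Lf_tendsto (hz i) (μ i : ℝ) (fun h => by rw [h1 i h]; simp)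
    exact ⟨L, fun h => hL1 (by exact_mod_cast h), hL2⟩
  choose L hL1 hL2 using hL
  rw [PowerSeries.X_pow_dvd_iff]
  intro r hr
  have hsplit : ∀ s : ℝ, PowerSeries.coeff r (∑ k ∈ Finset.univ \ Mv,
      PowerSeries.C (((ε k : SignType) : ℤ) : ℂ) * ∏ j, Lf (z (k, j))) =
      - PowerSeries.coeff r (∑ k ∈ Mv,
        PowerSeries.C (((ε k : SignType) : ℤ) : ℂ) * ∏ j, Lf (defo z μ s (k, j))) := by
    intro s
    have h2 := (PowerSeries.X_pow_dvd_iff.mp (hdiv s)) r hr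
    rw [FF, ← Finset.sum_sdiff (Finset.subset_univ Mv), map_add] at h2
    rw [← eq_neg_iff_add_eq_zero] at h2
    rw [← h2]
    congr 1
    refine Finset.sum_congr rfl fun k hk => ?_
    congr 1
    refine Finset.prod_congr rfl fun j _ => ?_
    rw [defo, hfix k (Finset.mem_sdiff.mp hk).2 j]
    simp
  have hlim : Tendsto (fun s : ℝ => - PowerSeries.coeff r (∑ k ∈ Mv,
        PowerSeries.C (((ε k : SignType) : ℤ) : ℂ) * ∏ j, Lf (defo z μ s (k, j)))) atTop
      (𝓝 (- PowerSeries.coeff r (∑ k ∈ Mv,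
        PowerSeries.C (((ε k : SignType) : ℤ) : ℂ) * ∏ j, L (k, j)))) := by
    apply Tendsto.neg
    refine ((PowerSeries.WithPiTopology.continuous_coeff ℂ r).tendsto _).comp ?_
    refine tendsto_finsetSum _ fun k _ => ?_
    refine Tendsto.const_mul _ ?_
    exact tendsto_finsetProd _ fun j _ => hL2 (k, j)
  have h0 : ∑ k ∈ Mv, PowerSeries.C (((ε k : SignType) : ℤ) : ℂ) * ∏ j, L (k, j) = 0 := by
    apply Finset.sum_eq_zero
    intro k hk
    by_cases hε : ε k = 0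
    · rw [hε]; simp
    · obtain ⟨j, hj⟩ := hmv k hk hε
      rw [Finset.prod_eq_zero (Finset.mem_univ j) (hL1 (k, j) hj), mul_zero]
  rw [h0, map_zero, neg_zero] at hlim
  have h3 : Tendsto (fun s : ℝ => - PowerSeries.coeff r (∑ k ∈ Mv,
        PowerSeries.C (((ε k : SignType) : ℤ) : ℂ) * ∏ j, Lf (defo z μ s (k, j)))) atTop
      (𝓝 (PowerSeries.coeff r (∑ k ∈ Finset.univ \ Mv,
      PowerSeries.C (((ε k : SignType) : ℤ) : ℂ) * ∏ j, Lf (z (k, j))))) := by
    simp only [← hsplit]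
    exact tendsto_const_nhds
  exact tendsto_nhds_unique h3 hlim

end Pool.Agent.Helper477.Sph
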