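import Pool.Agent.Helper477.Sph.Mol2

set_option autoImplicit false

/-! # Element orders of a freely acting group are determined by the spectrum -/

namespace Pool.Agent.Helper477.Sph

open Matrix Module

variable {n : ℕ}

/-- The subgroup acts freely on the unit sphere (equivalently on non-zero vectors). -/
def FreeOn (Γ : Subgroup (Matrix.orthogonalGroup (Fin n) ℝ)) : Prop :=
  ∀ g ∈ Γ, g ≠ 1 → ∀ v : Fin n → ℝ, g.1.mulVec v = v → v = 0

theorem coe_pow' (g : Matrix.orthogonalGroup (Fin n) ℝ) (k : ℕ) : (g ^ k).1 = g.1 ^ k := rfl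

/-- A complex fixed vector of a real matrix gives real fixed vectors. -/
theorem real_fixed (A : Matrix (Fin n) (Fin n) ℝ) (h : ∀ v : Fin n → ℝ, A.mulVec v = v → v = 0)
    (v : Fin n → ℂ) (hv : (cx A).mulVec v = v) : v = 0 := by
  have h1 : (fun i => (v i).re) = 0 := by
    apply h
    funext i
    have h2 := congrArg Complex.re (congrFun hv i)
    rw [Matrix.mulVec, dotProduct] at h2 ⊢
    rw [Complex.re_sum] at h2
    rw [← h2]
    refine Finset.sum_congr rfl fun j _ => ?_
    rw [cx, Matrix.map_apply]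
    simp
  have h1' : (fun i => (v i).im) = 0 := by
    apply h
    funext i
    have h2 := congrArg Complex.im (congrFun hv i)
    rw [Matrix.mulVec, dotProduct] at h2 ⊢
    rw [Complex.im_sum] at h2
    rw [← h2]
    refine Finset.sum_congr rfl fun j _ => ?_
    rw [cx, Matrix.map_apply]
    simp
  funext i
  exact Complex.ext (congrFun h1 i) (congrFun h1' i)

theorem mulVec_pow {G : Matrix (Fin n) (Fin n) ℂ} {v : Fin n → ℂ} {c : ℂ}
    (h : G.mulVec v = c • v) (k : ℕ) : (G ^ k).mulVec v = c ^ k • v := by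
  induction k with
  | zero => rw [pow_zero, pow_zero, Matrix.one_mulVec, one_smul]
  | succ k ih => rw [pow_succ, ← Matrix.mulVec_mulVec, h, Matrix.mulVec_smul, ih, smul_smul,
      pow_succ, mul_comm]

theorem eig_primitive {Γ : Subgroup (Matrix.orthogonalGroup (Fin n) ℝ)} (hΓ : FreeOn Γ)
    {g : Matrix.orthogonalGroup (Fin n) ℝ} (hg : g ∈ Γ) (ho : 0 < orderOf g)
    {c : ℂ} {v : Fin n → ℂ} (hv : v ≠ 0) (h : (cx g.1).mulVec v = c • v) :
    IsPrimitiveRoot c (orderOf g) := by
  apply IsPrimitiveRoot.mk_of_lt _ ho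
  · have h1 := mulVec_pow h (orderOf g)
    rw [← cx_pow, ← coe_pow', pow_orderOf_eq_one] at h1
    have h2 : cx (1 : Matrix.orthogonalGroup (Fin n) ℝ).1 = 1 := cx_one
    rw [h2, Matrix.one_mulVec] at h1
    obtain ⟨i, hi⟩ := Function.ne_iff.mp hv
    have h3 := congrFun h1 i
    rw [Pi.smul_apply, smul_eq_mul] at h3
    have h4 : (c ^ orderOf g - 1) * v i = 0 := by rw [sub_mul, ← h3]; ring
    rcases mul_eq_zero.mp h4 with h5 | h5
    · exact sub_eq_zero.mp h5
    · exact absurd h5 hi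
  · intro l hl0 hl h1
    have h2 := mulVec_pow h l
    rw [h1, one_smul, ← cx_pow, ← coe_pow'] at h2
    apply hv
    apply real_fixed _ _ _ h2
    apply hΓ (g ^ l) (Γ.pow_mem hg l)
    intro h3
    exact absurd (orderOf_le_of_pow_eq_one hl0 h3) (not_le.mpr hl)

theorem cx_pow_orderOf (g : Matrix.orthogonalGroup (Fin n) ℝ) : cx g.1 ^ orderOf g = 1 := by
  rw [← cx_pow, ← coe_pow', pow_orderOf_eq_one]
  exact cx_one

/-- The reversed characteristic polynomial divides a power of the cyclotomic polynomial. -/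
theorem charpolyRev_dvd {Γ : Subgroup (Matrix.orthogonalGroup (Fin n) ℝ)} (hΓ : FreeOn Γ)
    {g : Matrix.orthogonalGroup (Fin n) ℝ} (hg : g ∈ Γ) (ho : 0 < orderOf g) :
    (cx g.1).charpolyRev ∣ Polynomial.cyclotomic (orderOf g) ℂ ^ n ∧
      (cx g.1).charpolyRev.natDegree = n := by
  obtain ⟨B, B', d, h1, h2, h3, h4⟩ :=
    diag_of_pow_eq_one (cx g.1) (orderOf g) ho (cx_pow_orderOf g)
  have hprim : ∀ i, IsPrimitiveRoot (d i) (orderOf g) := by
    intro i
    obtain ⟨v, hv, hv'⟩ := h4 i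
    exact eig_primitive hΓ hg ho hv hv'
  have h5 : (cx g.1).charpolyRev = ∏ i, (1 - Polynomial.C (d i) * Polynomial.X) := by
    rw [h3, charpolyRev_conj _ _ _ h1, charpolyRev_diag]
  have hne : ∀ i, d i ≠ 0 := fun i => (hprim i).ne_zero ho.ne'
  have h6 : ∀ i, (1 - Polynomial.C (d i) * Polynomial.X : Polynomial ℂ) =
      Polynomial.C (- d i) * (Polynomial.X - Polynomial.C (d i)⁻¹) := by
    intro i
    rw [mul_sub, ← Polynomial.C_mul, neg_mul, mul_inv_cancel₀ (hne i)]
    simp only [map_neg, map_one]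
    ring
  constructor
  · rw [h5]
    have h7 : ∀ i ∈ (Finset.univ : Finset (Fin n)),
        (1 - Polynomial.C (d i) * Polynomial.X : Polynomial ℂ) ∣
        Polynomial.cyclotomic (orderOf g) ℂ := by
      intro i _
      rw [h6]
      rw [IsUnit.mul_left_dvd (Polynomial.isUnit_C.mpr (isUnit_iff_ne_zero.mpr
        (neg_ne_zero.mpr (hne i)))), Polynomial.dvd_iff_isRoot]
      exact (hprim i).inv.isRoot_cyclotomic ho
    have h8 := Finset.prod_dvd_prod_of_dvd _ _ h7
    rwa [Finset.prod_const, Finset.card_univ, Fintype.card_fin] at h8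
  · rw [h5, Polynomial.natDegree_prod]
    · have h9 : ∀ i, (1 - Polynomial.C (d i) * Polynomial.X : Polynomial ℂ).natDegree = 1 := by
        intro i
        rw [h6, Polynomial.natDegree_C_mul (neg_ne_zero.mpr (hne i)), Polynomial.natDegree_X_sub_C]
      simp [h9]
    · intro i _
      rw [h6]
      exact mul_ne_zero (Polynomial.C_ne_zero.mpr (neg_ne_zero.mpr (hne i)))
        (Polynomial.X_sub_C_ne_zero _)

/-- Uniqueness of partial fractions, for power series. -/
theorem partial_fractions (D : Finset ℕ) (Q P : ℕ → Polynomial ℂ) (T : ℕ → PowerSeries ℂ)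
    (hco : ∀ i ∈ D, ∀ j ∈ D, i ≠ j → IsCoprime (Q i) (Q j))
    (hdeg : ∀ i ∈ D, (P i).degree < (Q i).degree)
    (hT : ∀ i ∈ D, T i * (Q i : PowerSeries ℂ) = (P i : PowerSeries ℂ))
    (hsum : ∑ i ∈ D, T i = 0) : ∀ i ∈ D, T i = 0 := by
  classical
  have h1 : ∑ i ∈ D, P i * ∏ j ∈ D.erase i, Q j = 0 := by
    apply Polynomial.coe_injective ℂ
    have h2 : ((∑ i ∈ D, P i * ∏ j ∈ D.erase i, Q j : Polynomial ℂ) : PowerSeries ℂ) =
        ∑ i ∈ D, (P i : PowerSeries ℂ) * ((∏ j ∈ D.erase i, Q j : Polynomial ℂ) :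
          PowerSeries ℂ) := by
      have := map_sum (Polynomial.coeToPowerSeries.ringHom (R := ℂ))
        (fun i => P i * ∏ j ∈ D.erase i, Q j) D
      refine this.trans (Finset.sum_congr rfl fun i _ => ?_)
      exact map_mul (Polynomial.coeToPowerSeries.ringHom (R := ℂ)) _ _
    rw [h2, Polynomial.coe_zero]
    have h3 : ∀ i ∈ D, (P i : PowerSeries ℂ) * ((∏ j ∈ D.erase i, Q j : Polynomial ℂ) :
        PowerSeries ℂ) = T i * ((∏ j ∈ D, Q j : Polynomial ℂ) : PowerSeries ℂ) := by
      intro i hi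
      rw [← Finset.mul_prod_erase D Q hi, Polynomial.coe_mul, ← hT i hi]
      ring
    rw [Finset.sum_congr rfl h3, ← Finset.sum_mul, hsum, zero_mul]
  intro i hi
  have hPi : P i = 0 := by
    have h2 : Q i ∣ P i * ∏ j ∈ D.erase i, Q j := by
      have h3 := Finset.add_sum_erase D (fun i => P i * ∏ j ∈ D.erase i, Q j) hi
      rw [h1] at h3
      have h4 : Q i ∣ ∑ x ∈ D.erase i, P x * ∏ j ∈ D.erase x, Q j := by
        refine Finset.dvd_sum fun x hx => ?_
        refine Dvd.dvd.mul_left ?_ _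
        exact Finset.dvd_prod_of_mem _ (Finset.mem_erase.mpr
          ⟨(Finset.mem_erase.mp hx).1.symm, hi⟩)
      have h5 : P i * ∏ j ∈ D.erase i, Q j = - ∑ x ∈ D.erase i, P x * ∏ j ∈ D.erase x, Q j :=
        eq_neg_of_add_eq_zero_left h3
      rw [h5]
      exact h4.neg_right
    have h3 : IsCoprime (Q i) (∏ j ∈ D.erase i, Q j) := by
      apply IsCoprime.prod_right
      intro j hj
      exact hco i hi j (Finset.mem_erase.mp hj).2 (Finset.mem_erase.mp hj).1.symm
    exact Polynomial.eq_zero_of_dvd_of_degree_lt (h3.dvd_of_dvd_mul_right h2) (hdeg i hi)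
  have hQ : (Q i : PowerSeries ℂ) ≠ 0 := by
    intro h
    have : Q i = 0 := Polynomial.coe_injective ℂ (by rw [h, Polynomial.coe_zero])
    have h2 := hdeg i hi
    rw [this, Polynomial.degree_zero] at h2
    exact not_lt_bot h2
  have h4 := hT i hi
  rw [hPi, Polynomial.coe_zero] at h4
  exact (mul_eq_zero.mp h4).resolve_right hQ

theorem tau_eq {Γ : Subgroup (Matrix.orthogonalGroup (Fin n) ℝ)} (hΓ : FreeOn Γ) (hn : 0 < n)
    {g : Matrix.orthogonalGroup (Fin n) ℝ} (hg : g ∈ Γ) (ho : 0 < orderOf g) :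
    ∃ A : Polynomial ℂ, A.degree < (Polynomial.cyclotomic (orderOf g) ℂ ^ n).degree ∧
      tau (cx g.1) * ((Polynomial.cyclotomic (orderOf g) ℂ ^ n : Polynomial ℂ) : PowerSeries ℂ) =
        (A : PowerSeries ℂ) := by
  obtain ⟨⟨A, hA⟩, hdeg⟩ := charpolyRev_dvd hΓ hg ho
  have hcyc : Polynomial.cyclotomic (orderOf g) ℂ ^ n ≠ 0 :=
    pow_ne_zero _ (Polynomial.cyclotomic_ne_zero _ _)
  have hA0 : A ≠ 0 := by
    rintro rfl
    rw [mul_zero] at hA
    exact hcyc hA
  have hc0 : (cx g.1).charpolyRev ≠ 0 := by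
    intro h
    rw [h, zero_mul] at hA
    exact hcyc hA
  refine ⟨A, ?_, ?_⟩
  · rw [hA, Polynomial.degree_mul, Polynomial.degree_eq_natDegree hA0,
      Polynomial.degree_eq_natDegree hc0, hdeg]
    exact_mod_cast (by omega : A.natDegree < n + A.natDegree)
  · rw [hA, Polynomial.coe_mul, ← mul_assoc,
      tau_mul_charpolyRev (cx g.1) (orderOf g) ho (cx_pow_orderOf g), one_mul]

theorem constantCoeff_tau {g : Matrix.orthogonalGroup (Fin n) ℝ} (ho : 0 < orderOf g) :
    PowerSeries.constantCoeff (tau (cx g.1)) = 1 := by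
  have h1 := congrArg PowerSeries.constantCoeff
    (tau_mul_charpolyRev (cx g.1) (orderOf g) ho (cx_pow_orderOf g))
  rw [map_mul, map_one] at h1
  have h2 : PowerSeries.constantCoeff ((cx g.1).charpolyRev : PowerSeries ℂ) = 1 := by
    rw [Polynomial.constantCoeff_coe,
      Polynomial.coeff_zero_eq_eval_zero, Matrix.eval_charpolyRev]
  rw [h2, mul_one] at h1
  exact h1

/-- The part of the Molien series coming from the elements of order `d`. -/
noncomputable def part (Γ : Subgroup (Matrix.orthogonalGroup (Fin n) ℝ)) [Fintype Γ] (d : ℕ) :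
    PowerSeries ℂ := ∑ g ∈ (Finset.univ : Finset Γ) with orderOf g.1 = d, tau (cx g.1.1)

theorem part_eq {Γ : Subgroup (Matrix.orthogonalGroup (Fin n) ℝ)} [Fintype Γ] (hΓ : FreeOn Γ)
    (hn : 0 < n) (d : ℕ) (hd : 0 < d) :
    ∃ A : Polynomial ℂ, A.degree < (Polynomial.cyclotomic d ℂ ^ n).degree ∧
      part Γ d * ((Polynomial.cyclotomic d ℂ ^ n : Polynomial ℂ) : PowerSeries ℂ) =
        (A : PowerSeries ℂ) := by
  classical
  have h : ∀ g : Γ, ∃ A : Polynomial ℂ, orderOf g.1 = d →
      (A.degree < (Polynomial.cyclotomic d ℂ ^ n).degree ∧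
      tau (cx g.1.1) * ((Polynomial.cyclotomic d ℂ ^ n : Polynomial ℂ) : PowerSeries ℂ) =
        (A : PowerSeries ℂ)) := by
    intro g
    by_cases hg : orderOf g.1 = d
    · obtain ⟨A, hA⟩ := tau_eq hΓ hn g.2 (by rw [hg]; exact hd)
      rw [hg] at hA
      exact ⟨A, fun _ => hA⟩
    · exact ⟨0, fun h => absurd h hg⟩
  choose A hA using h
  refine ⟨∑ g ∈ (Finset.univ : Finset Γ) with orderOf g.1 = d, A g, ?_, ?_⟩
  · refine lt_of_le_of_lt (Polynomial.degree_sum_le _ _) ?_
    rw [Finset.sup_lt_iff]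
    · intro g hg
      exact (hA g (Finset.mem_filter.mp hg).2).1
    · rw [bot_lt_iff_ne_bot, Ne, Polynomial.degree_eq_bot]
      exact pow_ne_zero _ (Polynomial.cyclotomic_ne_zero _ _)
  · rw [part, Finset.sum_mul]
    have := map_sum (Polynomial.coeToPowerSeries.ringHom (R := ℂ)) A
      ((Finset.univ : Finset Γ).filter fun g => orderOf g.1 = d)
    refine Eq.trans ?_ this.symm
    refine Finset.sum_congr rfl fun g hg => ?_
    exact (hA g (Finset.mem_filter.mp hg).2).2

theorem sum_part {Γ : Subgroup (Matrix.orthogonalGroup (Fin n) ℝ)} [Fintype Γ] (M : ℕ)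
    (hM : Fintype.card Γ ≤ M) :
    ∑ g : Γ, tau (cx g.1.1) = ∑ d ∈ Finset.Icc 1 M, part Γ d := by
  classical
  unfold part
  rw [← Finset.sum_fiberwise_of_maps_to (g := fun g : Γ => orderOf g.1) (t := Finset.Icc 1 M)]
  intro g _
  rw [Finset.mem_Icc]
  have h1 : orderOf g.1 = orderOf g := Subgroup.orderOf_coe g
  rw [h1]
  exact ⟨orderOf_pos g, (orderOf_le_card_univ).trans hM⟩

/-- **Element orders are spectral invariants.** -/
theorem sep {Γ₁ Γ₂ : Subgroup (Matrix.orthogonalGroup (Fin n) ℝ)} [Fintype Γ₁] [Fintype Γ₂]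
    (h₁ : FreeOn Γ₁) (h₂ : FreeOn Γ₂) (hn : 0 < n) (h : hilb Γ₁ = hilb Γ₂) :
    Fintype.card Γ₁ = Fintype.card Γ₂ ∧ ∀ d, 0 < d → part Γ₁ d = part Γ₂ d := by
  classical
  set M := Fintype.card Γ₁ + Fintype.card Γ₂ with hM
  set T : ℕ → PowerSeries ℂ := fun d =>
    PowerSeries.C (Fintype.card Γ₂ : ℂ) * part Γ₁ d - PowerSeries.C (Fintype.card Γ₁ : ℂ) *
      part Γ₂ d with hT
  have key : ∀ M', M ≤ M' → ∀ d ∈ Finset.Icc 1 M', T d = 0 := by
    intro M' hM'
    choose A hA using fun d : ℕ => fun hd : 0 < d => part_eq h₁ hn d hd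
    choose B hB using fun d : ℕ => fun hd : 0 < d => part_eq h₂ hn d hd
    refine partial_fractions (Finset.Icc 1 M') (fun d => Polynomial.cyclotomic d ℂ ^ n)
      (fun d => if hd : 0 < d then Polynomial.C (Fintype.card Γ₂ : ℂ) * A d hd -
        Polynomial.C (Fintype.card Γ₁ : ℂ) * B d hd else 0) T ?_ ?_ ?_ ?_
    · intro i _ j _ hij
      apply IsCoprime.pow
      have h3 := (Polynomial.cyclotomic.isCoprime_rat hij).map
        (Polynomial.mapRingHom (algebraMap ℚ ℂ))
      simpa [Polynomial.map_cyclotomic] using h3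
    · intro i hi
      have hi0 : 0 < i := (Finset.mem_Icc.mp hi).1
      simp only [dif_pos hi0]
      refine lt_of_le_of_lt (Polynomial.degree_sub_le _ _) (max_lt ?_ ?_)
      · rw [← Polynomial.smul_eq_C_mul]
        exact lt_of_le_of_lt (Polynomial.degree_smul_le _ _) (hA i hi0).1
      · rw [← Polynomial.smul_eq_C_mul]
        exact lt_of_le_of_lt (Polynomial.degree_smul_le _ _) (hB i hi0).1
    · intro i hi
      have hi0 : 0 < i := (Finset.mem_Icc.mp hi).1
      simp only [dif_pos hi0]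
      rw [hT, Polynomial.coe_sub, Polynomial.coe_mul, Polynomial.coe_mul, ← (hA i hi0).2,
        ← (hB i hi0).2, Polynomial.coe_C, Polynomial.coe_C]
      ring
    · rw [hT]
      simp only
      rw [Finset.sum_sub_distrib, ← Finset.mul_sum, ← Finset.mul_sum,
        ← sum_part M' (by omega), ← sum_part M' (by omega), ← molien_series, ← molien_series, h]
      ring
  have hcard : Fintype.card Γ₁ = Fintype.card Γ₂ := by
    have h3 := key M le_rfl 1 (Finset.mem_Icc.mpr ⟨le_rfl, by
      have : 0 < Fintype.card Γ₁ := Fintype.card_pos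
      omega⟩)
    have h4 : ∀ (Γ : Subgroup (Matrix.orthogonalGroup (Fin n) ℝ)) [Fintype Γ],
        PowerSeries.constantCoeff (part Γ 1) = 1 := by
      intro Γ _
      rw [part, map_sum]
      have h5 : (Finset.univ : Finset Γ).filter (fun g => orderOf g.1 = 1) = {1} := by
        ext g
        simp [orderOf_eq_one_iff]
      rw [h5, Finset.sum_singleton]
      apply constantCoeff_tau
      rw [Subgroup.coe_one, orderOf_one]
      exact one_pos
    have h6 := congrArg PowerSeries.constantCoeff h3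
    rw [hT] at h6
    simp only [map_sub, map_mul, h4, map_zero, PowerSeries.constantCoeff_C, mul_one] at h6
    have h7 : (Fintype.card Γ₂ : ℂ) = Fintype.card Γ₁ := sub_eq_zero.mp h6
    exact_mod_cast h7.symm
  refine ⟨hcard, fun d hd => ?_⟩
  have h3 := key (M + d) (by omega) d (Finset.mem_Icc.mpr ⟨hd, by omega⟩)
  rw [hT] at h3
  simp only [hcard] at h3
  rw [← mul_sub] at h3
  have hc : (PowerSeries.C (Fintype.card Γ₂ : ℂ)) ≠ (0 : PowerSeries ℂ) := by
    intro h4
    have h5 := congrArg PowerSeries.constantCoeff h4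
    rw [PowerSeries.constantCoeff_C, map_zero] at h5
    have : 0 < Fintype.card Γ₂ := Fintype.card_pos
    have h6 : Fintype.card Γ₂ = 0 := by exact_mod_cast h5
    omega
  exact sub_eq_zero.mp ((mul_eq_zero.mp h3).resolve_left hc)

/-- Equal numbers of elements of each order. -/
theorem card_order_eq {Γ₁ Γ₂ : Subgroup (Matrix.orthogonalGroup (Fin n) ℝ)} [Fintype Γ₁]
    [Fintype Γ₂] (h₁ : FreeOn Γ₁) (h₂ : FreeOn Γ₂) (hn : 0 < n) (h : hilb Γ₁ = hilb Γ₂)
    (d : ℕ) (hd : 0 < d) :
    ((Finset.univ : Finset Γ₁).filter fun g => orderOf g = d).card =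
      ((Finset.univ : Finset Γ₂).filter fun g => orderOf g = d).card := by
  classical
  have h4 : ∀ (Γ : Subgroup (Matrix.orthogonalGroup (Fin n) ℝ)) [Fintype Γ],
      PowerSeries.constantCoeff (part Γ d) =
        (((Finset.univ : Finset Γ).filter fun g => orderOf g = d).card : ℂ) := by
    intro Γ _
    rw [part, map_sum]
    have h5 : (Finset.univ : Finset Γ).filter (fun g => orderOf g.1 = d) =
        (Finset.univ : Finset Γ).filter (fun g => orderOf g = d) := by
      ext g
      rw [Finset.mem_filter, Finset.mem_filter, Subgroup.orderOf_coe]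
    rw [h5, Finset.sum_congr rfl (g := fun _ => (1 : ℂ))]
    · simp
    · intro g hg
      apply constantCoeff_tau
      rw [Subgroup.orderOf_coe, (Finset.mem_filter.mp hg).2]
      exact hd
  have h6 := congrArg PowerSeries.constantCoeff ((sep h₁ h₂ hn h).2 d hd)
  rw [h4, h4] at h6
  exact_mod_cast h6

end Pool.Agent.Helper477.Sph
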