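import Pool.Agent.Helper477.Sph.Bd5
import Pool.Agent.Helper477.Sph.Sep

set_option autoImplicit false

/-! # Poles of the spectral generating function -/

namespace Pool.Agent.Helper477.Sph

open Matrix

variable {n : ℕ}

/-- `Y` is the list of eigenvalues of `g` for some eigenbasis. -/
def Diag (g : Matrix (Fin n) (Fin n) ℝ) (Y : Fin n → ℂ) : Prop :=
  ∃ B B' : Matrix (Fin n) (Fin n) ℂ, B' * B = 1 ∧ B * B' = 1 ∧ cx g = B * diagonal Y * B'

theorem Diag.exists_of_pow {g : Matrix (Fin n) (Fin n) ℝ} {N : ℕ} (hN : 0 < N) (h : g ^ N = 1) :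
    ∃ Y, Diag g Y := by
  obtain ⟨B, B', Y, h1, h2, h3, _⟩ := diag_of_pow_eq_one (cx g) N hN (by rw [← cx_pow, h, cx_one])
  exact ⟨Y, B, B', h1, h2, h3⟩

theorem Diag.charpolyRev {g : Matrix (Fin n) (Fin n) ℝ} {Y : Fin n → ℂ} (h : Diag g Y) :
    (cx g).charpolyRev = ∏ j, (1 - Polynomial.C (Y j) * Polynomial.X) := by
  obtain ⟨B, B', h1, h2, h3⟩ := h
  rw [h3, charpolyRev_conj _ _ _ h1, charpolyRev_diag]

theorem Diag.pow {g : Matrix (Fin n) (Fin n) ℝ} {Y : Fin n → ℂ} (h : Diag g Y) (k : ℕ) :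
    Diag (g ^ k) (fun j => Y j ^ k) := by
  obtain ⟨B, B', h1, h2, h3⟩ := h
  refine ⟨B, B', h1, h2, ?_⟩
  rw [cx_pow, h3]
  induction k with
  | zero => simp [h2]
  | succ k ih =>
    rw [pow_succ, ih]
    calc B * diagonal (fun j => Y j ^ k) * B' * (B * diagonal Y * B')
        = B * (diagonal (fun j => Y j ^ k) * ((B' * B) * diagonal Y)) * B' := by
          simp only [Matrix.mul_assoc]
      _ = _ := by
          rw [h1, Matrix.one_mul, diagonal_mul_diagonal]
          simp only [pow_succ]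

theorem Diag.trace {g : Matrix (Fin n) (Fin n) ℝ} {Y : Fin n → ℂ} (h : Diag g Y) :
    ((g.trace : ℝ) : ℂ) = ∑ j, Y j := by
  obtain ⟨B, B', h1, h2, h3⟩ := h
  have h4 : ((g.trace : ℝ) : ℂ) = (cx g).trace := by
    rw [Matrix.trace, Matrix.trace]
    push_cast
    rfl
  rw [h4, h3, Matrix.trace_mul_comm, ← Matrix.mul_assoc, h1, Matrix.one_mul, Matrix.trace_diagonal]

/-- `c` is an eigenvalue of `g`. -/
def HasEig (g : Matrix (Fin n) (Fin n) ℝ) (c : ℂ) : Prop :=
  ∃ v : Fin n → ℂ, v ≠ 0 ∧ (cx g).mulVec v = c • v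

theorem Diag.hasEig_iff {g : Matrix (Fin n) (Fin n) ℝ} {Y : Fin n → ℂ} (h : Diag g Y) (c : ℂ) :
    HasEig g c ↔ ∃ j, Y j = c := by
  classical
  obtain ⟨B, B', h1, h2, h3⟩ := h
  constructor
  · rintro ⟨v, hv, hc⟩
    set w := B'.mulVec v with hw
    have hw0 : w ≠ 0 := by
      intro h
      apply hv
      have : B.mulVec w = v := by rw [hw, Matrix.mulVec_mulVec, h2, Matrix.one_mulVec]
      rw [← this, h, Matrix.mulVec_zero]
    have h4 : (diagonal Y).mulVec w = c • w := by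
      have h5 : B'.mulVec ((cx g).mulVec v) = (diagonal Y).mulVec w := by
        rw [h3, hw, Matrix.mulVec_mulVec, Matrix.mulVec_mulVec]
        congr 1
        calc B' * (B * diagonal Y * B') = (B' * B) * diagonal Y * B' := by
              simp only [Matrix.mul_assoc]
          _ = _ := by rw [h1, Matrix.one_mul]
      rw [← h5, hc, Matrix.mulVec_smul]
    obtain ⟨i, hi⟩ := Function.ne_iff.mp hw0
    refine ⟨i, ?_⟩
    have h5 := congrFun h4 i
    rw [Matrix.mulVec_diagonal, Pi.smul_apply, smul_eq_mul] at h5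
    exact mul_right_cancel₀ hi h5
  · rintro ⟨j, rfl⟩
    refine ⟨B.mulVec (Pi.single j 1), ?_, ?_⟩
    · intro h
      have : B'.mulVec (B.mulVec (Pi.single j 1)) = (Pi.single j 1 : Fin n → ℂ) := by
        rw [Matrix.mulVec_mulVec, h1, Matrix.one_mulVec]
      rw [h, Matrix.mulVec_zero] at this
      have h6 := congrFun this j
      rw [Pi.single_eq_same, Pi.zero_apply] at h6
      exact zero_ne_one h6
    · rw [h3, Matrix.mulVec_mulVec]
      have : B * diagonal Y * B' * B = B * diagonal Y := by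
        rw [Matrix.mul_assoc _ B' B, h1, Matrix.mul_one]
      rw [this, ← Matrix.mulVec_mulVec, Matrix.diagonal_mulVec_single, mul_one,
        ← Matrix.mulVec_smul]
      congr 1
      rw [← Pi.single_smul]
      simp

/-- Eigenvalues of real matrices come in conjugate pairs. -/
theorem HasEig.conj {g : Matrix (Fin n) (Fin n) ℝ} {c : ℂ} (h : HasEig g c) :
    HasEig g ((starRingEnd ℂ) c) := by
  obtain ⟨v, hv, hc⟩ := h
  refine ⟨fun i => (starRingEnd ℂ) (v i), ?_, ?_⟩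
  · intro h0
    apply hv
    funext i
    have h1 := congrFun h0 i
    simpa using h1
  · funext i
    have h1 := congrArg (starRingEnd ℂ) (congrFun hc i)
    rw [Matrix.mulVec, dotProduct, map_sum] at h1
    rw [Matrix.mulVec, dotProduct, Pi.smul_apply, smul_eq_mul]
    rw [Pi.smul_apply, smul_eq_mul, map_mul] at h1
    rw [← h1]
    refine Finset.sum_congr rfl fun j _ => ?_
    rw [map_mul, cx, Matrix.map_apply]
    congr 1
    simp

theorem Diag.partner {g : Matrix (Fin n) (Fin n) ℝ} {Y : Fin n → ℂ} (h : Diag g Y)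
    (hn : ∀ j, ‖Y j‖ = 1) (j : Fin n) : ∃ j', Y j * Y j' = 1 := by
  have h1 := ((h.hasEig_iff (Y j)).mpr ⟨j, rfl⟩).conj
  obtain ⟨j', hj'⟩ := (h.hasEig_iff _).mp h1
  refine ⟨j', ?_⟩
  rw [hj', Complex.mul_conj, Complex.normSq_eq_norm_sq, hn j]
  simp

theorem Diag.prim {Γ : Subgroup (Matrix.orthogonalGroup (Fin n) ℝ)} (hΓ : FreeOn Γ)
    {g : Matrix.orthogonalGroup (Fin n) ℝ} (hg : g ∈ Γ) (ho : 0 < orderOf g) {Y : Fin n → ℂ}
    (h : Diag g.1 Y) (j : Fin n) : IsPrimitiveRoot (Y j) (orderOf g) := by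
  obtain ⟨v, hv, hc⟩ := (h.hasEig_iff (Y j)).mpr ⟨j, rfl⟩
  exact eig_primitive hΓ hg ho hv hc

/-- A choice of eigenvalue lists. -/
noncomputable def Yc (g : Matrix (Fin n) (Fin n) ℝ) : Fin n → ℂ :=
  open Classical in if h : ∃ Y, Diag g Y then h.choose else 0

theorem Yc_spec {g : Matrix.orthogonalGroup (Fin n) ℝ} (ho : 0 < orderOf g) : Diag g.1 (Yc g.1) := by
  have h : ∃ Y, Diag g.1 Y := Diag.exists_of_pow ho (by
    rw [← coe_pow', pow_orderOf_eq_one]
    rfl)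
  unfold Yc
  rw [dif_pos h]
  exact h.choose_spec

/-- The substitution `z = ζ⁻¹ (1 - y)`. -/
noncomputable def th (ζ : ℂ) : Polynomial ℂ →+* Polynomial ℂ :=
  Polynomial.compRingHom (Polynomial.C ζ⁻¹ * (1 - Polynomial.X))

theorem th_C (ζ a : ℂ) : th ζ (Polynomial.C a) = Polynomial.C a := by
  rw [th, Polynomial.coe_compRingHom_apply, Polynomial.C_comp]

theorem th_X (ζ : ℂ) : th ζ Polynomial.X = Polynomial.C ζ⁻¹ * (1 - Polynomial.X) := by
  rw [th, Polynomial.coe_compRingHom_apply, Polynomial.X_comp]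

theorem prod_Lf_mul {ζ : ℂ} {χ : Polynomial ℂ} {Y : Fin n → ℂ}
    (h : χ = ∏ j, (1 - Polynomial.C (Y j) * Polynomial.X)) :
    (∏ j, Lf (Y j / ζ)) * ((th ζ χ : Polynomial ℂ) : PowerSeries ℂ) = PowerSeries.X ^ n := by
  have h1 : ((th ζ χ : Polynomial ℂ) : PowerSeries ℂ) =
      ∏ j, (1 - PowerSeries.C (Y j / ζ) * (1 - PowerSeries.X)) := by
    rw [h, map_prod]
    have h2 := map_prod (Polynomial.coeToPowerSeries.ringHom (R := ℂ))
      (fun j => th ζ (1 - Polynomial.C (Y j) * Polynomial.X)) Finset.univ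
    refine h2.trans (Finset.prod_congr rfl fun j _ => ?_)
    change ((th ζ (1 - Polynomial.C (Y j) * Polynomial.X) : Polynomial ℂ) : PowerSeries ℂ) = _
    rw [map_sub, map_mul, map_one, th_C, th_X, Polynomial.coe_sub, Polynomial.coe_mul,
      Polynomial.coe_mul, Polynomial.coe_one, Polynomial.coe_C, Polynomial.coe_C,
      Polynomial.coe_sub, Polynomial.coe_one, Polynomial.coe_X, ← mul_assoc, ← map_mul,
      div_eq_mul_inv]
  rw [h1, ← Finset.prod_mul_distrib, Finset.prod_congr rfl fun j _ => Lf_mul (Y j / ζ)]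
  simp

theorem prod_Lf_unique {ζ : ℂ} {Y Y' : Fin n → ℂ}
    (h : (∏ j, (1 - Polynomial.C (Y j) * Polynomial.X) : Polynomial ℂ) =
      ∏ j, (1 - Polynomial.C (Y' j) * Polynomial.X)) :
    ∏ j, Lf (Y j / ζ) = ∏ j, Lf (Y' j / ζ) := by
  have h1 := prod_Lf_mul (ζ := ζ) (Y := Y) rfl
  have h2 := prod_Lf_mul (ζ := ζ) (Y := Y') h
  have h3 : ((th ζ (∏ j, (1 - Polynomial.C (Y j) * Polynomial.X)) : Polynomial ℂ) :
      PowerSeries ℂ) ≠ 0 := by
    intro h4
    rw [h4, mul_zero] at h1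
    exact pow_ne_zero n PowerSeries.X_ne_zero h1.symm
  exact mul_right_cancel₀ h3 (h1.trans h2.symm)

/-- The factor of the cyclotomic polynomial. -/
theorem exists_psi {d : ℕ} (hd : 0 < d) {ζ : ℂ} (hζ : IsPrimitiveRoot ζ d) :
    ∃ Ψ : Polynomial ℂ, Ψ ≠ 0 ∧
      th ζ (Polynomial.cyclotomic d ℂ) = Polynomial.X * Ψ := by
  have h1 : Polynomial.X - Polynomial.C ζ⁻¹ ∣ Polynomial.cyclotomic d ℂ := by
    rw [Polynomial.dvd_iff_isRoot]
    exact hζ.inv.isRoot_cyclotomic hd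
  have hz : ζ ≠ 0 := hζ.ne_zero hd.ne'
  obtain ⟨Q, hQ⟩ := h1
  have h2 : th ζ (Polynomial.X - Polynomial.C ζ⁻¹) = Polynomial.X * Polynomial.C (-ζ⁻¹) := by
    rw [map_sub, th_C, th_X, map_neg]
    ring
  refine ⟨Polynomial.C (-ζ⁻¹) * th ζ Q, ?_, ?_⟩
  · apply mul_ne_zero
    · exact Polynomial.C_ne_zero.mpr (neg_ne_zero.mpr (inv_ne_zero hz))
    · intro h3
      have h4 : Q = 0 := by
        have h5 := congrArg (fun P : Polynomial ℂ => P.comp (1 - Polynomial.C ζ * Polynomial.X)) h3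
        rw [th, Polynomial.coe_compRingHom_apply, Polynomial.comp_assoc, Polynomial.zero_comp] at h5
        have h6 : (Polynomial.C ζ⁻¹ * (1 - Polynomial.X)).comp
            (1 - Polynomial.C ζ * Polynomial.X) = Polynomial.X := by
          rw [Polynomial.mul_comp, Polynomial.sub_comp, Polynomial.C_comp, Polynomial.one_comp,
            Polynomial.X_comp]
          have : Polynomial.C ζ⁻¹ * (1 - (1 - Polynomial.C ζ * Polynomial.X)) =
              (Polynomial.C ζ⁻¹ * Polynomial.C ζ) * Polynomial.X := by ring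
          rw [this, ← Polynomial.C_mul, inv_mul_cancel₀ hz, Polynomial.C_1, one_mul]
        rwa [h6, Polynomial.comp_X] at h5
      rw [h4, mul_zero] at hQ
      exact Polynomial.cyclotomic_ne_zero _ _ hQ
  · rw [hQ, map_mul, h2, mul_assoc]

theorem polar {Γ : Subgroup (Matrix.orthogonalGroup (Fin n) ℝ)} (hΓ : FreeOn Γ) (hn : 0 < n)
    {g : Matrix.orthogonalGroup (Fin n) ℝ} (hg : g ∈ Γ) {d : ℕ} (hd : 0 < d) (ho : orderOf g = d)
    {ζ : ℂ} {Ψ : Polynomial ℂ}
    (hΨ : th ζ (Polynomial.cyclotomic d ℂ) = Polynomial.X * Ψ) :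
    ∃ A : Polynomial ℂ,
      tau (cx g.1) * ((Polynomial.cyclotomic d ℂ ^ n : Polynomial ℂ) : PowerSeries ℂ) =
        (A : PowerSeries ℂ) ∧
      ((th ζ A : Polynomial ℂ) : PowerSeries ℂ) =
        ((Ψ : Polynomial ℂ) : PowerSeries ℂ) ^ n * ∏ j, Lf (Yc g.1 j / ζ) := by
  obtain ⟨A, _, hA⟩ := tau_eq hΓ hn hg (by rw [ho]; exact hd)
  rw [ho] at hA
  refine ⟨A, hA, ?_⟩
  have hD : Diag g.1 (Yc g.1) := Yc_spec (by rw [ho]; exact hd)
  have h1 : A * (cx g.1).charpolyRev = Polynomial.cyclotomic d ℂ ^ n := by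
    apply Polynomial.coe_injective ℂ
    rw [Polynomial.coe_mul, ← hA, mul_right_comm,
      tau_mul_charpolyRev (cx g.1) (orderOf g) (by rw [ho]; exact hd) (cx_pow_orderOf g), one_mul]
  have h2 := congrArg (th ζ) h1
  rw [map_mul, map_pow, hΨ, mul_pow] at h2
  have h3 := prod_Lf_mul (ζ := ζ) hD.charpolyRev
  have h4 : ((th ζ (cx g.1).charpolyRev : Polynomial ℂ) : PowerSeries ℂ) ≠ 0 := by
    intro h4
    rw [h4, mul_zero] at h3
    exact pow_ne_zero n PowerSeries.X_ne_zero h3.symm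
  apply mul_right_cancel₀ h4
  rw [mul_assoc, h3, ← Polynomial.coe_mul, h2, Polynomial.coe_mul, Polynomial.coe_pow,
    Polynomial.coe_pow, Polynomial.coe_X, mul_comm]

end Pool.Agent.Helper477.Sph
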