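import Pool.Agent.Helper477.Sph.Bd6

set_option autoImplicit false

/-! # Sums of local factors over the elements of a given order -/

namespace Pool.Agent.Helper477.Sph

open Matrix

variable {n : ℕ}

/-- The product of the local factors of `g` at `ζ`. -/
noncomputable def Qz (g : Matrix (Fin n) (Fin n) ℝ) (ζ : ℂ) : PowerSeries ℂ :=
  ∏ j, Lf (Yc g j / ζ)

/-- The elements of order `d`. -/
noncomputable def Od (Γ : Subgroup (Matrix.orthogonalGroup (Fin n) ℝ)) [Fintype Γ] (d : ℕ) :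
    Finset Γ := (Finset.univ : Finset Γ).filter fun g => orderOf g.1 = d

theorem mem_Od {Γ : Subgroup (Matrix.orthogonalGroup (Fin n) ℝ)} [Fintype Γ] {d : ℕ} {g : Γ} :
    g ∈ Od Γ d ↔ orderOf g.1 = d := by
  rw [Od, Finset.mem_filter]
  simp

theorem coe_sum' {α : Type*} (s : Finset α) (f : α → Polynomial ℂ) :
    ((∑ a ∈ s, f a : Polynomial ℂ) : PowerSeries ℂ) = ∑ a ∈ s, (f a : PowerSeries ℂ) :=
  map_sum (Polynomial.coeToPowerSeries.ringHom (R := ℂ)) f s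

theorem part_polar {Γ : Subgroup (Matrix.orthogonalGroup (Fin n) ℝ)} [Fintype Γ] (hΓ : FreeOn Γ)
    (hn : 0 < n) {d : ℕ} (hd : 0 < d) :
    ∃ A : Polynomial ℂ, A.degree < (Polynomial.cyclotomic d ℂ ^ n).degree ∧
      part Γ d * ((Polynomial.cyclotomic d ℂ ^ n : Polynomial ℂ) : PowerSeries ℂ) =
        (A : PowerSeries ℂ) ∧
      ∀ (ζ : ℂ) (Ψ : Polynomial ℂ), th ζ (Polynomial.cyclotomic d ℂ) = Polynomial.X * Ψ →
        ((th ζ A : Polynomial ℂ) : PowerSeries ℂ) =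
        ((Ψ : Polynomial ℂ) : PowerSeries ℂ) ^ n * ∑ g ∈ Od Γ d, Qz g.1.1 ζ := by
  classical
  obtain ⟨A, hA1, hA2⟩ := part_eq hΓ hn d hd
  refine ⟨A, hA1, hA2, fun ζ Ψ hΨ => ?_⟩
  have h : ∀ g : Γ, ∃ A : Polynomial ℂ, g ∈ Od Γ d →
      (tau (cx g.1.1) * ((Polynomial.cyclotomic d ℂ ^ n : Polynomial ℂ) : PowerSeries ℂ) =
        (A : PowerSeries ℂ) ∧
      ((th ζ A : Polynomial ℂ) : PowerSeries ℂ) =
        ((Ψ : Polynomial ℂ) : PowerSeries ℂ) ^ n * ∏ j, Lf (Yc g.1.1 j / ζ)) := by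
    intro g
    by_cases hg : g ∈ Od Γ d
    · obtain ⟨A, hA⟩ := polar hΓ hn g.2 hd (mem_Od.mp hg) hΨ
      exact ⟨A, fun _ => hA⟩
    · exact ⟨0, fun h => absurd h hg⟩
  choose a ha using h
  have hAa : A = ∑ g ∈ Od Γ d, a g := by
    apply Polynomial.coe_injective ℂ
    rw [← hA2, coe_sum', part, Finset.sum_mul]
    exact Finset.sum_congr rfl fun g hg => (ha g hg).1
  rw [hAa, map_sum, coe_sum', Finset.mul_sum]
  exact Finset.sum_congr rfl fun g hg => (ha g hg).2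

theorem sumQ_eq {Γ₁ Γ₂ : Subgroup (Matrix.orthogonalGroup (Fin n) ℝ)} [Fintype Γ₁] [Fintype Γ₂]
    (h₁ : FreeOn Γ₁) (h₂ : FreeOn Γ₂) (hn : 0 < n) (h : hilb Γ₁ = hilb Γ₂) {d : ℕ} (hd : 0 < d)
    {ζ : ℂ} (hζ : IsPrimitiveRoot ζ d) :
    ∑ g ∈ Od Γ₁ d, Qz g.1.1 ζ = ∑ g ∈ Od Γ₂ d, Qz g.1.1 ζ := by
  obtain ⟨A, _, hA2, hA3⟩ := part_polar h₁ hn hd
  obtain ⟨B, _, hB2, hB3⟩ := part_polar h₂ hn hd
  obtain ⟨Ψ, hΨ0, hΨ⟩ := exists_psi hd hζ
  have h1 : A = B := by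
    apply Polynomial.coe_injective ℂ
    rw [← hA2, ← hB2, (sep h₁ h₂ hn h).2 d hd]
  have h2 := hA3 ζ Ψ hΨ
  rw [h1, hB3 ζ Ψ hΨ] at h2
  have h3 : ((Ψ : Polynomial ℂ) : PowerSeries ℂ) ^ n ≠ 0 := by
    apply pow_ne_zero
    intro h4
    exact hΨ0 (Polynomial.coe_injective ℂ (by rw [h4, Polynomial.coe_zero]))
  exact (mul_left_cancel₀ h3 h2).symm

theorem nonvanish {Γ : Subgroup (Matrix.orthogonalGroup (Fin n) ℝ)} [Fintype Γ] (hΓ : FreeOn Γ)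
    (hn : 0 < n) {d : ℕ} (hd : 0 < d) (hne : (Od Γ d).Nonempty) :
    ∃ ζ : ℂ, IsPrimitiveRoot ζ d ∧ ¬ PowerSeries.X ^ n ∣ ∑ g ∈ Od Γ d, Qz g.1.1 ζ := by
  classical
  by_contra hcon
  push Not at hcon
  obtain ⟨A, hA1, hA2, hA3⟩ := part_polar hΓ hn hd
  have hdvd : ∀ ζ ∈ primitiveRoots d ℂ, (Polynomial.X - Polynomial.C ζ) ^ n ∣ A := by
    intro ξ hξ
    have hξ' : IsPrimitiveRoot ξ d := (mem_primitiveRoots hd).mp hξ
    have hξ0 : ξ ≠ 0 := hξ'.ne_zero hd.ne'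
    set ζ := ξ⁻¹ with hζd
    have hζ : IsPrimitiveRoot ζ d := hξ'.inv
    have hζ0 : ζ ≠ 0 := inv_ne_zero hξ0
    obtain ⟨Ψ, hΨ0, hΨ⟩ := exists_psi hd hζ
    have h1 : PowerSeries.X ^ n ∣ ((th ζ A : Polynomial ℂ) : PowerSeries ℂ) := by
      rw [hA3 ζ Ψ hΨ]
      exact Dvd.dvd.mul_left (hcon ζ hζ) _
    have h2 : Polynomial.X ^ n ∣ th ζ A := by
      rw [Polynomial.X_pow_dvd_iff]
      intro r hr
      have := (PowerSeries.X_pow_dvd_iff.mp h1) r hr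
      rwa [Polynomial.coeff_coe] at this
    obtain ⟨Q, hQ⟩ := h2
    have h3 := congrArg (fun P : Polynomial ℂ => P.comp (1 - Polynomial.C ζ * Polynomial.X)) hQ
    have h6 : (Polynomial.C ζ⁻¹ * (1 - Polynomial.X)).comp
        (1 - Polynomial.C ζ * Polynomial.X) = Polynomial.X := by
      rw [Polynomial.mul_comp, Polynomial.sub_comp, Polynomial.C_comp, Polynomial.one_comp,
        Polynomial.X_comp]
      have : Polynomial.C ζ⁻¹ * (1 - (1 - Polynomial.C ζ * Polynomial.X)) =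
          (Polynomial.C ζ⁻¹ * Polynomial.C ζ) * Polynomial.X := by ring
      rw [this, ← Polynomial.C_mul, inv_mul_cancel₀ hζ0, Polynomial.C_1, one_mul]
    rw [th, Polynomial.coe_compRingHom_apply, Polynomial.comp_assoc, h6, Polynomial.comp_X,
      Polynomial.mul_comp, Polynomial.pow_comp, Polynomial.X_comp] at h3
    have h7 : (1 - Polynomial.C ζ * Polynomial.X : Polynomial ℂ) =
        Polynomial.C (-ζ) * (Polynomial.X - Polynomial.C ξ) := by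
      rw [mul_sub, ← Polynomial.C_mul, hζd, neg_mul, inv_mul_cancel₀ hξ0]
      simp only [map_neg, map_one]
      ring
    rw [h3]
    apply Dvd.dvd.mul_right
    rw [h7, mul_pow]
    exact dvd_mul_left _ _
  have hcyc : Polynomial.cyclotomic d ℂ ^ n ∣ A := by
    have h1 : Polynomial.cyclotomic d ℂ = ∏ μ ∈ primitiveRoots d ℂ,
        (Polynomial.X - Polynomial.C μ) :=
      Polynomial.cyclotomic_eq_prod_X_sub_primitiveRoots (Complex.isPrimitiveRoot_exp d hd.ne')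
    rw [h1, ← Finset.prod_pow]
    apply Finset.prod_dvd_of_coprime
    · intro a _ b _ hab
      apply IsCoprime.pow
      exact Polynomial.isCoprime_X_sub_C_of_isUnit_sub
        (isUnit_iff_ne_zero.mpr (sub_ne_zero.mpr hab))
    · intro μ hμ
      exact hdvd μ hμ
  have hA0 : A = 0 := Polynomial.eq_zero_of_dvd_of_degree_lt hcyc hA1
  rw [hA0, Polynomial.coe_zero] at hA2
  have hc0 : ((Polynomial.cyclotomic d ℂ ^ n : Polynomial ℂ) : PowerSeries ℂ) ≠ 0 := by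
    intro h4
    exact pow_ne_zero n (Polynomial.cyclotomic_ne_zero d ℂ)
      (Polynomial.coe_injective ℂ (by rw [h4, Polynomial.coe_zero]))
  have hp0 : part Γ d = 0 := (mul_eq_zero.mp hA2).resolve_right hc0
  have h4 : PowerSeries.constantCoeff (part Γ d) = ((Od Γ d).card : ℂ) := by
    rw [part, map_sum]
    change ∑ g ∈ Od Γ d, _ = _
    rw [Finset.sum_congr rfl (g := fun _ => (1 : ℂ))]
    · simp
    · intro g hg
      apply constantCoeff_tau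
      rw [mem_Od.mp hg]
      exact hd
  rw [hp0, map_zero] at h4
  have h5 : (Od Γ d).card = 0 := by exact_mod_cast h4.symm
  exact absurd h5 hne.card_pos.ne'

theorem Qz_pow {g : Matrix.orthogonalGroup (Fin n) ℝ} {d : ℕ} (hd : 0 < d) (ho : orderOf g = d)
    (ζ : ℂ) (t : ℕ) :
    Qz (g ^ t).1 (ζ ^ t) = ∏ j, Lf ((Yc g.1 j / ζ) ^ t) := by
  have h1 : Diag (g ^ t).1 (Yc (g ^ t).1) := Yc_spec (by
    rw [orderOf_pos_iff]
    have : IsOfFinOrder g := orderOf_pos_iff.mp (by rw [ho]; exact hd)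
    exact this.pow)
  have h2 : Diag (g ^ t).1 (fun j => Yc g.1 j ^ t) := by
    rw [coe_pow']
    exact (Yc_spec (by rw [ho]; exact hd)).pow t
  rw [Qz, prod_Lf_unique (h1.charpolyRev.symm.trans h2.charpolyRev)]
  refine Finset.prod_congr rfl fun j _ => ?_
  rw [div_pow]

theorem exists_inv_mod {t d : ℕ} (hd : 0 < d) (ht : t.Coprime d) :
    ∃ t' : ℕ, t * t' ≡ 1 [MOD d] ∧ t'.Coprime d := by
  rcases Nat.eq_or_lt_of_le (Nat.succ_le_of_lt hd) with h1 | h1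
  · refine ⟨1, ?_, ?_⟩
    · rw [← h1]; exact Nat.modEq_one
    · exact Nat.coprime_one_left d
  · obtain ⟨t', ht'⟩ := Nat.exists_mul_mod_eq_one_of_coprime ht h1
    have h2 : t * t' ≡ 1 [MOD d] := by
      unfold Nat.ModEq
      rw [Nat.mod_eq_of_lt h1]
      exact ht'.2
    refine ⟨t', h2, ?_⟩
    have h3 : (t * t').Coprime d := by
      rw [Nat.coprime_iff_gcd_eq_one, h2.gcd_eq, Nat.gcd_one_left]
    exact Nat.Coprime.coprime_mul_left h3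

theorem sum_pow {Γ : Subgroup (Matrix.orthogonalGroup (Fin n) ℝ)} [Fintype Γ] {d : ℕ} (hd : 0 < d)
    (ζ : ℂ) {t : ℕ} (ht : t.Coprime d) :
    ∑ g ∈ Od Γ d, Qz g.1.1 (ζ ^ t) = ∑ g ∈ Od Γ d, ∏ j, Lf ((Yc g.1.1 j / ζ) ^ t) := by
  classical
  obtain ⟨t', ht', htd'⟩ := exists_inv_mod hd ht
  have ho : ∀ g ∈ Od Γ d, ∀ s : ℕ, s.Coprime d → g ^ s ∈ Od Γ d := by
    intro g hg s hs
    rw [mem_Od] at hg ⊢
    have : (g ^ s : Γ).1 = g.1 ^ s := rfl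
    rw [this, Nat.Coprime.orderOf_pow (by rw [hg]; exact hs.symm), hg]
  have hinv : ∀ g ∈ Od Γ d, ∀ a b : ℕ, a * b ≡ 1 [MOD d] → (g ^ a) ^ b = g := by
    intro g hg a b hab
    rw [← pow_mul]
    have h1 : g ^ d = 1 := by
      rw [mem_Od] at hg
      apply Subtype.ext
      change g.1 ^ d = 1
      rw [← hg, pow_orderOf_eq_one]
    have h2 := pow_eq_of_modEq h1 hab
    rwa [pow_one] at h2
  symm
  refine Finset.sum_nbij' (fun g => g ^ t) (fun g => g ^ t') ?_ ?_ ?_ ?_ ?_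
  · intro g hg
    exact ho g hg t ht
  · intro g hg
    exact ho g hg t' htd'
  · intro g hg
    exact hinv g hg t t' ht'
  · intro g hg
    exact hinv g hg t' t (by rwa [mul_comm])
  · intro g hg
    exact (Qz_pow hd (mem_Od.mp hg) ζ t).symm

/-- The elements of order `d` with eigenvalue `ζ`. -/
noncomputable def Ez (Γ : Subgroup (Matrix.orthogonalGroup (Fin n) ℝ)) [Fintype Γ] (d : ℕ)
    (ζ : ℂ) : Finset Γ :=
  open Classical in (Od Γ d).filter fun g => HasEig g.1.1 ζ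

theorem mem_Ez {Γ : Subgroup (Matrix.orthogonalGroup (Fin n) ℝ)} [Fintype Γ] {d : ℕ} {ζ : ℂ}
    {g : Γ} : g ∈ Ez Γ d ζ ↔ orderOf g.1 = d ∧ HasEig g.1.1 ζ := by
  classical
  rw [Ez, Finset.mem_filter, mem_Od]

theorem pow_eq_one_iff' {x : ℂ} {d t : ℕ} (hx : x ^ d = 1) (ht : t.Coprime d) :
    x ^ t = 1 ↔ x = 1 := by
  constructor
  · intro h
    have h1 : orderOf x ∣ t := orderOf_dvd_of_pow_eq_one h
    have h2 : orderOf x ∣ d := orderOf_dvd_of_pow_eq_one hx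
    have h3 : orderOf x = 1 := Nat.eq_one_of_dvd_coprimes ht h1 h2
    exact orderOf_eq_one_iff.mp h3
  · rintro rfl
    exact one_pow t

/-- Only the elements with eigenvalue `ζ` matter. -/
theorem sum_Od_Ez {Γ : Subgroup (Matrix.orthogonalGroup (Fin n) ℝ)} [Fintype Γ] (hΓ : FreeOn Γ)
    {d : ℕ} (hd : 0 < d) {ζ : ℂ} (hζ : IsPrimitiveRoot ζ d) {t : ℕ} (ht : t.Coprime d) :
    PowerSeries.X ^ n ∣ (∑ g ∈ Od Γ d, ∏ j, Lf ((Yc g.1.1 j / ζ) ^ t)) -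
      ∑ g ∈ Ez Γ d ζ, ∏ j, Lf ((Yc g.1.1 j / ζ) ^ t) := by
  classical
  have h1 : Ez Γ d ζ ⊆ Od Γ d := by
    rw [Ez]
    exact Finset.filter_subset _ _
  rw [← Finset.sum_sdiff h1, add_sub_cancel_right]
  apply Finset.dvd_sum
  intro g hg
  rw [Finset.mem_sdiff] at hg
  obtain ⟨hg1, hg2⟩ := hg
  have ho := mem_Od.mp hg1
  have hD : Diag g.1.1 (Yc g.1.1) := Yc_spec (by rw [ho]; exact hd)
  have h2 : ∀ j, (Yc g.1.1 j / ζ) ^ t ≠ 1 := by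
    intro j
    have hp := hD.prim hΓ g.2 (by rw [ho]; exact hd) j
    rw [ho] at hp
    rw [Ne, pow_eq_one_iff' (d := d) (by rw [div_pow, hp.pow_eq_one, hζ.pow_eq_one, div_one]) ht,
      div_eq_one_iff_eq (hζ.ne_zero hd.ne')]
    intro h3
    apply hg2
    rw [mem_Ez]
    exact ⟨ho, (hD.hasEig_iff ζ).mpr ⟨j, h3⟩⟩
  have h3 := Finset.prod_dvd_prod_of_dvd (fun _ : Fin n => (PowerSeries.X : PowerSeries ℂ))
    (fun j => Lf ((Yc g.1.1 j / ζ) ^ t)) (s := Finset.univ) fun j _ => X_dvd_Lf (h2 j)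
  rwa [Finset.prod_const, Finset.card_univ, Fintype.card_fin] at h3

theorem Ez_dvd {Γ₁ Γ₂ : Subgroup (Matrix.orthogonalGroup (Fin n) ℝ)} [Fintype Γ₁] [Fintype Γ₂]
    (h₁ : FreeOn Γ₁) (h₂ : FreeOn Γ₂) (hn : 0 < n) (h : hilb Γ₁ = hilb Γ₂) {d : ℕ} (hd : 0 < d)
    {ζ : ℂ} (hζ : IsPrimitiveRoot ζ d) {t : ℕ} (ht : t.Coprime d) :
    PowerSeries.X ^ n ∣ (∑ g ∈ Ez Γ₁ d ζ, ∏ j, Lf ((Yc g.1.1 j / ζ) ^ t)) -
      ∑ g ∈ Ez Γ₂ d ζ, ∏ j, Lf ((Yc g.1.1 j / ζ) ^ t) := by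
  have e1 := sum_Od_Ez h₁ hd hζ ht
  have e2 := sum_Od_Ez h₂ hd hζ ht
  have e3 : ∑ g ∈ Od Γ₁ d, ∏ j, Lf ((Yc g.1.1 j / ζ) ^ t) =
      ∑ g ∈ Od Γ₂ d, ∏ j, Lf ((Yc g.1.1 j / ζ) ^ t) := by
    rw [← sum_pow hd ζ ht, ← sum_pow hd ζ ht]
    exact sumQ_eq h₁ h₂ hn h hd (hζ.pow_of_coprime t ht)
  rw [e3] at e1
  have e4 := dvd_sub e2 e1
  have e5 : ∀ a b c : PowerSeries ℂ, a - b - (a - c) = c - b := by intro a b c; ring
  rwa [e5] at e4

theorem Ez_nonvanish {Γ : Subgroup (Matrix.orthogonalGroup (Fin n) ℝ)} [Fintype Γ] (hΓ : FreeOn Γ)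
    (hn : 0 < n) {d : ℕ} (hd : 0 < d) (hne : (Od Γ d).Nonempty) {ζ : ℂ}
    (hζ : IsPrimitiveRoot ζ d) :
    ∃ t : ℕ, t.Coprime d ∧
      ¬ PowerSeries.X ^ n ∣ ∑ g ∈ Ez Γ d ζ, ∏ j, Lf ((Yc g.1.1 j / ζ) ^ t) := by
  obtain ⟨ξ, hξ, hξn⟩ := nonvanish hΓ hn hd hne
  have : NeZero d := ⟨hd.ne'⟩
  obtain ⟨t, _, ht, htξ⟩ := hζ.isPrimitiveRoot_iff.mp hξ
  refine ⟨t, ht, fun hcon => hξn ?_⟩
  rw [← htξ, sum_pow hd ζ ht]
  have e1 := sum_Od_Ez hΓ hd hζ ht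
  have := dvd_add e1 hcon
  rwa [sub_add_cancel] at this

end Pool.Agent.Helper477.Sph
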