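import Pool.Agent.Helper477.Sph.Bd7

set_option autoImplicit false

/-! # Some generator of maximal order has weights in a bounded set -/

namespace Pool.Agent.Helper477.Sph



variable {n : ℕ}

theorem InR.congr {I : Type*} {R : ℕ} {v v' : I → ℂ} {P : Finset I} {w : ℂ}
    (h : ∀ i ∈ P, v i = v' i) (hw : InR R v P w) : InR R v' P w := by
  obtain ⟨n, a, h1, h2, h3, h4⟩ := hw
  refine ⟨n, a, h1, h2, h3, ?_⟩
  rw [h4]
  exact Finset.prod_congr rfl fun i hi => by rw [h i hi]

/-- Enumeration of a small finite set. -/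
theorem enum {α : Type*} (a₀ : α) (E : Finset α) (K : ℕ) (h : E.card ≤ K) :
    ∃ (act : Finset (Fin K)) (G : Fin K → α), (∀ k ∈ act, G k ∈ E) ∧
      ∀ {M : Type} [AddCommMonoid M] (f : α → M), ∑ k ∈ act, f (G k) = ∑ g ∈ E, f g := by
  classical
  have h1 : Fintype.card E ≤ Fintype.card (Fin K) := by
    rw [Fintype.card_coe, Fintype.card_fin]
    exact h
  obtain ⟨φ⟩ := Function.Embedding.nonempty_of_card_le h1
  set G : Fin K → α := fun k => if hk : ∃ x : E, φ x = k then hk.choose.1 else a₀ with hG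
  have hGφ : ∀ x : E, G (φ x) = x.1 := by
    intro x
    have hk : ∃ y : E, φ y = φ x := ⟨x, rfl⟩
    rw [hG]
    simp only
    rw [dif_pos hk]
    exact congrArg Subtype.val (φ.injective hk.choose_spec)
  refine ⟨Finset.univ.map φ, G, ?_, ?_⟩
  · intro k hk
    obtain ⟨x, _, rfl⟩ := Finset.mem_map.mp hk
    rw [hGφ]
    exact x.2
  · intro M _ f
    rw [Finset.sum_map]
    simp only [hGφ]
    exact Finset.sum_coe_sort E f

theorem pow_eq_one_z {α : Type*} (s : Finset α) (f : α → ℂ) (c : α → ℤ) {d : ℕ}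
    (hf : ∀ i ∈ s, f i ^ d = 1) : (∏ i ∈ s, f i ^ c i) ^ d = 1 := by
  rw [← Finset.prod_pow]
  apply Finset.prod_eq_one
  intro i hi
  rw [← zpow_natCast, ← zpow_mul, mul_comm, zpow_mul, zpow_natCast, hf i hi, one_zpow]

theorem key (hn : 0 < n) (K : ℕ) : ∃ C : ℕ, ∀ Γ₁ : Subgroup (Matrix.orthogonalGroup (Fin n) ℝ),
    ∀ [Fintype Γ₁], FreeOn Γ₁ → ∀ (d : ℕ) (ζ : ℂ), 0 < d → IsPrimitiveRoot ζ d →
    (Od Γ₁ d).Nonempty → (Ez Γ₁ d ζ).card ≤ K → ∃ S : Finset ℂ, S.card ≤ C ∧
      ∀ Γ₂ : Subgroup (Matrix.orthogonalGroup (Fin n) ℝ), ∀ [Fintype Γ₂], FreeOn Γ₂ →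
        hilb Γ₁ = hilb Γ₂ → (Ez Γ₂ d ζ).card ≤ K →
        ∃ g ∈ Ez Γ₂ d ζ, ∀ j, Yc g.1.1 j ∈ S := by
  classical
  obtain ⟨R₀, hR₀⟩ := deform (Fin K ⊕ Fin K) n n
  set R := max R₀ 2 with hR
  obtain ⟨R', hR'⟩ := exists_mu (Option ((Fin K ⊕ Fin K) × Fin n)) R
  obtain ⟨C, hC⟩ := inR_finite (Option ((Fin K ⊕ Fin K) × Fin n)) R'
  refine ⟨C, ?_⟩
  intro Γ₁ _ hΓ₁ d ζ hd hζ hne hK₁
  have hζ0 : ζ ≠ 0 := hζ.ne_zero hd.ne'
  obtain ⟨act₁, G₁, hG₁, hs₁⟩ := enum (1 : Γ₁) (Ez Γ₁ d ζ) K hK₁
  set P : Finset (Option ((Fin K ⊕ Fin K) × Fin n)) :=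
    insert none (Finset.univ.image fun kj : Fin K × Fin n => some (Sum.inl kj.1, kj.2)) with hP
  set z₁ : Fin K × Fin n → ℂ := fun kj => if kj.1 ∈ act₁ then Yc (G₁ kj.1).1.1 kj.2 / ζ else 1
    with hz₁
  set v₁ : Option ((Fin K ⊕ Fin K) × Fin n) → ℂ := fun i => match i with
    | none => ζ
    | some (Sum.inl k, j) => z₁ (k, j)
    | some (Sum.inr _, _) => 1 with hv₁
  obtain ⟨S, hScard, hS⟩ := hC v₁ P
  refine ⟨S.image fun w => w * ζ, Finset.card_image_le.trans hScard, ?_⟩
  intro Γ₂ _ hΓ₂ hh hK₂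
  obtain ⟨act₂, G₂, hG₂, hs₂⟩ := enum (1 : Γ₂) (Ez Γ₂ d ζ) K hK₂
  set z₂ : Fin K × Fin n → ℂ := fun kj => if kj.1 ∈ act₂ then Yc (G₂ kj.1).1.1 kj.2 / ζ else 1
    with hz₂
  set z : (Fin K ⊕ Fin K) × Fin n → ℂ := fun kj => match kj with
    | (Sum.inl k, j) => z₁ (k, j)
    | (Sum.inr k, j) => z₂ (k, j) with hz
  set v : Option ((Fin K ⊕ Fin K) × Fin n) → ℂ := fun i => match i with
    | none => ζ
    | some kj => z kj with hv
  set ε : Fin K ⊕ Fin K → SignType := fun k => match k with
    | Sum.inl k => if k ∈ act₁ then 1 else 0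
    | Sum.inr k => if k ∈ act₂ then -1 else 0 with hε
  have hzd : ∀ i, z i ^ d = 1 := by
    rintro ⟨k | k, j⟩
    · change z₁ (k, j) ^ d = 1
      rw [hz₁]
      simp only
      split_ifs with hk
      · have h1 := mem_Ez.mp (hG₁ k hk)
        have h2 := (Yc_spec (by rw [h1.1]; exact hd)).prim hΓ₁ (G₁ k).2 (by rw [h1.1]; exact hd) j
        rw [h1.1] at h2
        rw [div_pow, h2.pow_eq_one, hζ.pow_eq_one, div_one]
      · exact one_pow d
    · change z₂ (k, j) ^ d = 1
      rw [hz₂]
      simp only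
      split_ifs with hk
      · have h1 := mem_Ez.mp (hG₂ k hk)
        have h2 := (Yc_spec (by rw [h1.1]; exact hd)).prim hΓ₂ (G₂ k).2 (by rw [h1.1]; exact hd) j
        rw [h1.1] at h2
        rw [div_pow, h2.pow_eq_one, hζ.pow_eq_one, div_one]
      · exact one_pow d
  have hne0 : ∀ x : ℂ, x ^ d = 1 → x ≠ 0 := by
    rintro x hx rfl
    rw [zero_pow hd.ne'] at hx
    exact zero_ne_one hx
  have hv0 : ∀ i, v i ≠ 0 := by
    rintro (_ | i)
    · exact hζ0
    · exact hne0 _ (hzd i)
  by_contra hcon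
  push Not at hcon
  -- every active slot of Γ₂ has a bad coordinate
  have hbad : ∀ k : Fin K, ∃ j : Option (Fin n), k ∈ act₂ → ∃ j', j = some j' ∧
      ¬ InR R' v P (z (Sum.inr k, j')) := by
    intro k
    by_cases hk : k ∈ act₂
    · obtain ⟨j, hj⟩ := hcon (G₂ k) (hG₂ k hk)
      refine ⟨some j, fun _ => ⟨j, rfl, fun hin => hj ?_⟩⟩
      rw [Finset.mem_image]
      refine ⟨z (Sum.inr k, j), hS _ (InR.congr ?_ hin), ?_⟩
      · intro i hi
        rw [hP, Finset.mem_insert, Finset.mem_image] at hi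
        rcases hi with rfl | ⟨kj, _, rfl⟩
        · rfl
        · rfl
      · change z₂ (k, j) * ζ = _
        rw [hz₂]
        simp only
        rw [if_pos hk, div_mul_cancel₀ _ hζ0]
    · exact ⟨none, fun h => absurd h hk⟩
  choose jb hjb using hbad
  set J : Finset (Option ((Fin K ⊕ Fin K) × Fin n)) :=
    Finset.univ.filter fun i => ∃ k ∈ act₂, ∃ j, jb k = some j ∧ i = some (Sum.inr k, j) with hJ
  obtain ⟨μ, hμP, hμJ, hμR⟩ := hR' v hv0 P J (by
    intro i hi
    rw [hJ, Finset.mem_filter] at hi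
    obtain ⟨_, k, hk, j, hj, rfl⟩ := hi
    obtain ⟨j', hj', hin⟩ := hjb k hk
    rw [hj] at hj'
    rw [Option.some_inj.mp hj']
    exact hin)
  set ν : (Fin K ⊕ Fin K) × Fin n → ℚ := fun i => μ (some i) with hν
  have hμ0 : μ none = 0 := hμP none (Finset.mem_insert_self _ _)
  have hνl : ∀ k j, ν (Sum.inl k, j) = 0 := by
    intro k j
    apply hμP
    rw [hP]
    exact Finset.mem_insert_of_mem (Finset.mem_image.mpr ⟨(k, j), Finset.mem_univ _, rfl⟩)
  -- relations
  have hresp : Resp R z ν := by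
    intro c hc hcz
    have h1 := hμR (fun i => match i with
      | none => 0
      | some i => c i) (by
        rintro (_ | i)
        · simp
        · exact hc i) (by
        rw [Fintype.prod_option]
        simp only [zpow_zero, one_mul]
        exact hcz)
    rw [Fintype.sum_option] at h1
    simpa using h1
  -- positivity
  have hpos : ∀ k ∈ act₂, ∃ j, 0 < ν (Sum.inr k, j) := by
    intro k hk
    obtain ⟨j, hj, _⟩ := hjb k hk
    have h1 : ν (Sum.inr k, j) ≠ 0 := by
      apply hμJ
      rw [hJ, Finset.mem_filter]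
      exact ⟨Finset.mem_univ _, k, hk, j, hj, rfl⟩
    have h2 := mem_Ez.mp (hG₂ k hk)
    have hD : Diag (G₂ k).1.1 (Yc (G₂ k).1.1) := Yc_spec (by rw [h2.1]; exact hd)
    obtain ⟨j', hj'⟩ := hD.partner (fun i => by
      have h3 := hD.prim hΓ₂ (G₂ k).2 (by rw [h2.1]; exact hd) i
      exact h3.norm'_eq_one (by rw [h2.1]; exact hd.ne')) j
    have hzz : z (Sum.inr k, j) * z (Sum.inr k, j') * ζ ^ 2 = 1 := by
      change z₂ (k, j) * z₂ (k, j') * ζ ^ 2 = 1
      rw [hz₂]
      simp only
      rw [if_pos hk, if_pos hk]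
      field_simp
      exact hj'
    have h3 : ν (Sum.inr k, j) + ν (Sum.inr k, j') = 0 := by
      have h4 := hμR (fun i => (if i = none then 2 else 0) +
        (if i = some (Sum.inr k, j) then 1 else 0) +
        (if i = some (Sum.inr k, j') then 1 else 0)) (by
          intro i
          have hR2 : (2 : ℤ) ≤ R := by exact_mod_cast le_max_right R₀ 2
          rw [abs_le]
          rcases i with _ | i
          · simp
            omega
          · simp only [reduceCtorEq, if_false]
            split_ifs <;> constructor <;> omega) (by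
          have h5 : ∀ i, v i ^ ((if i = none then (2 : ℤ) else 0) +
              (if i = some (Sum.inr k, j) then 1 else 0) +
              (if i = some (Sum.inr k, j') then 1 else 0)) =
              (if i = none then v i ^ 2 else 1) *
              (if i = some (Sum.inr k, j) then v i else 1) *
              (if i = some (Sum.inr k, j') then v i else 1) := by
            intro i
            rw [zpow_add₀ (hv0 i), zpow_add₀ (hv0 i)]
            congr 1
            · congr 1
              · split_ifs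
                · norm_cast
                · simp
              · split_ifs <;> simp
            · split_ifs <;> simp
          rw [Finset.prod_congr rfl fun i _ => h5 i, Finset.prod_mul_distrib,
            Finset.prod_mul_distrib, Finset.prod_ite_eq', Finset.prod_ite_eq',
            Finset.prod_ite_eq', if_pos (Finset.mem_univ _), if_pos (Finset.mem_univ _),
            if_pos (Finset.mem_univ _)]
          change ζ ^ 2 * z (Sum.inr k, j) * z (Sum.inr k, j') = 1
          rw [← hzz]
          ring)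
      push_cast at h4
      simp only [add_mul, Finset.sum_add_distrib, ite_mul, zero_mul, one_mul,
        Finset.sum_ite_eq', Finset.mem_univ, if_true, hμ0, mul_zero, zero_add] at h4
      exact h4
    rcases lt_or_gt_of_ne h1 with h4 | h4
    · exact ⟨j', by linarith⟩
    · exact ⟨j, h4⟩
  obtain ⟨t, ht, hnv⟩ := Ez_nonvanish hΓ₁ hn hd hne hζ
  apply hnv
  set zt : (Fin K ⊕ Fin K) × Fin n → ℂ := fun i => z i ^ t with hzt
  have hztd : ∀ i, zt i ^ d = 1 := by
    intro i
    rw [hzt]
    simp only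
    rw [← pow_mul, mul_comm, pow_mul, hzd i, one_pow]
  have hFF : FF ε zt = (∑ g ∈ Ez Γ₁ d ζ, ∏ j, Lf ((Yc g.1.1 j / ζ) ^ t)) -
      ∑ g ∈ Ez Γ₂ d ζ, ∏ j, Lf ((Yc g.1.1 j / ζ) ^ t) := by
    rw [FF, Fintype.sum_sum_type, sub_eq_add_neg, ← hs₁, ← hs₂]
    congr 1
    · rw [← Finset.sum_subset (Finset.subset_univ act₁)]
      · refine Finset.sum_congr rfl fun k hk => ?_
        rw [hε]
        simp only
        rw [if_pos hk]
        simp only [SignType.coe_one, Int.cast_one, map_one, one_mul]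
        refine Finset.prod_congr rfl fun j _ => ?_
        change Lf (z₁ (k, j) ^ t) = _
        rw [hz₁]
        simp only
        rw [if_pos hk]
      · intro k _ hk
        rw [hε]
        simp only
        rw [if_neg hk]
        simp
    · rw [← Finset.sum_neg_distrib, ← Finset.sum_subset (Finset.subset_univ act₂)]
      · refine Finset.sum_congr rfl fun k hk => ?_
        rw [hε]
        simp only
        rw [if_pos hk]
        simp only [SignType.coe_neg_one, Int.cast_neg, Int.cast_one, map_neg, map_one, neg_mul,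
          one_mul]
        congr 1
        refine Finset.prod_congr rfl fun j _ => ?_
        change Lf (z₂ (k, j) ^ t) = _
        rw [hz₂]
        simp only
        rw [if_pos hk]
      · intro k _ hk
        rw [hε]
        simp only
        rw [if_neg hk]
        simp
  have hrespt : Resp R₀ zt ν := by
    intro c hc hcz
    apply hresp c (fun i => (hc i).trans (by exact_mod_cast le_max_left R₀ 2))
    have h1 : (∏ i, z i ^ c i) ^ t = 1 := by
      rw [← Finset.prod_pow, ← hcz]
      refine Finset.prod_congr rfl fun i _ => ?_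
      rw [hzt]
      simp only
      rw [← zpow_natCast, ← zpow_natCast, ← zpow_mul, ← zpow_mul, mul_comm]
    exact (pow_eq_one_iff' (pow_eq_one_z _ _ _ fun i _ => hzd i) ht).mp h1
  have hdiv : PowerSeries.X ^ n ∣ FF ε zt := by
    rw [hFF]
    exact Ez_dvd hΓ₁ hΓ₂ hn hh hd hζ ht
  have hdef := hR₀ ε d hd zt hztd hdiv ν hrespt
  have hlim := limit ε zt (fun i => Complex.norm_eq_one_of_pow_eq_one (hztd i) hd.ne') ν
    (hdef 0).1 (Finset.univ.image Sum.inr) (by
      rintro (k | k) hk j
      · exact hνl k j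
      · exact absurd (Finset.mem_image.mpr ⟨k, Finset.mem_univ _, rfl⟩) hk) (by
      intro k hk hεk
      obtain ⟨k', _, rfl⟩ := Finset.mem_image.mp hk
      apply hpos
      by_contra hk'
      apply hεk
      rw [hε]
      simp only
      rw [if_neg hk']) (fun s => (hdef s).2)
  convert hlim using 1
  have h1 : (Finset.univ : Finset (Fin K ⊕ Fin K)) \ Finset.univ.image Sum.inr =
      Finset.univ.map ⟨Sum.inl, Sum.inl_injective⟩ := by
    ext k
    rcases k with k | k <;> simp
  rw [h1, Finset.sum_map, ← hs₁, ← Finset.sum_subset (Finset.subset_univ act₁)]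
  · refine Finset.sum_congr rfl fun k hk => ?_
    simp only [Function.Embedding.coeFn_mk]
    rw [hε]
    simp only
    rw [if_pos hk]
    simp only [SignType.coe_one, Int.cast_one, map_one, one_mul]
    refine Finset.prod_congr rfl fun j _ => ?_
    change _ = Lf (z₁ (k, j) ^ t)
    rw [hz₁]
    simp only
    rw [if_pos hk]
  · intro k _ hk
    simp only [Function.Embedding.coeFn_mk]
    rw [hε]
    simp only
    rw [if_neg hk]
    simp

end Pool.Agent.Helper477.Sph
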