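import Mathlib

set_option autoImplicit false

/-! # Orthogonal representations with equal characters are orthogonally conjugate -/

namespace Pool.Agent.Helper477.Sph

open Matrix

variable {n : ℕ}

theorem sym_proj (C : Matrix (Fin n) (Fin n) ℝ) (hC : Cᵀ = C) (hC0 : C ≠ 0)
    (hpos : ∀ v : Fin n → ℝ, 0 ≤ v ⬝ᵥ C.mulVec v) :
    ∃ (μ : ℝ) (E : Matrix (Fin n) (Fin n) ℝ), 0 < μ ∧ E ≠ 0 ∧ Eᵀ = E ∧ E * E = E ∧
      E * C = μ • E ∧ C * E = μ • E ∧ ∀ R, C * R = R * C → E * R = R * E := by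
  classical
  have hA : C.IsHermitian := by
    rw [Matrix.IsHermitian, Matrix.conjTranspose_eq_transpose_of_trivial, hC]
  set V : Matrix (Fin n) (Fin n) ℝ := (hA.eigenvectorUnitary : Matrix (Fin n) (Fin n) ℝ) with hV
  set l : Fin n → ℝ := hA.eigenvalues with hl
  have hV1 : V * Vᵀ = 1 := by
    have := (Matrix.mem_unitaryGroup_iff).mp hA.eigenvectorUnitary.2
    rwa [Matrix.star_eq_conjTranspose, Matrix.conjTranspose_eq_transpose_of_trivial] at this
  have hV2 : Vᵀ * V = 1 := by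
    have := (Matrix.mem_unitaryGroup_iff').mp hA.eigenvectorUnitary.2
    rwa [Matrix.star_eq_conjTranspose, Matrix.conjTranspose_eq_transpose_of_trivial] at this
  have hCV : C = V * diagonal l * Vᵀ := by
    have h1 := hA.spectral_theorem
    rw [Unitary.conjStarAlgAut_apply] at h1
    rw [Matrix.star_eq_conjTranspose, Matrix.conjTranspose_eq_transpose_of_trivial] at h1
    exact h1
  obtain ⟨i0, hi0⟩ : ∃ i, l i ≠ 0 := by
    by_contra hcon
    push Not at hcon
    apply hC0
    rw [hCV]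
    have : l = 0 := funext hcon
    rw [this]
    simp
  set μ := l i0 with hμ
  set e : Fin n → ℝ := fun i => if l i = μ then 1 else 0 with he
  have hμ0 : 0 ≤ μ := by
    have h1 := hpos (V.mulVec (Pi.single i0 1))
    have h2 : C.mulVec (V.mulVec (Pi.single i0 1)) = μ • V.mulVec (Pi.single i0 1) := by
      rw [hCV, Matrix.mulVec_mulVec, Matrix.mul_assoc (V * diagonal l), hV2, Matrix.mul_one,
        ← Matrix.mulVec_mulVec, Matrix.diagonal_mulVec_single, mul_one, ← Matrix.mulVec_smul]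
      congr 1
      rw [← Pi.single_smul]
      simp [hμ]
    rw [h2, dotProduct_smul, smul_eq_mul] at h1
    have h3 : V.mulVec (Pi.single i0 1) ⬝ᵥ V.mulVec (Pi.single i0 1) = (1 : ℝ) := by
      rw [Matrix.dotProduct_mulVec, ← Matrix.mulVec_transpose, Matrix.mulVec_mulVec, hV2,
        Matrix.one_mulVec]
      simp
    rwa [h3, mul_one] at h1
  have hμpos : 0 < μ := lt_of_le_of_ne hμ0 (Ne.symm hi0)
  have hVdV : ∀ a b : Fin n → ℝ, V * diagonal a * Vᵀ * (V * diagonal b * Vᵀ) =
      V * diagonal (fun i => a i * b i) * Vᵀ := by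
    intro a b
    calc V * diagonal a * Vᵀ * (V * diagonal b * Vᵀ)
        = V * diagonal a * (Vᵀ * V) * diagonal b * Vᵀ := by simp only [Matrix.mul_assoc]
      _ = V * (diagonal a * diagonal b) * Vᵀ := by rw [hV2, Matrix.mul_one, Matrix.mul_assoc V]
      _ = _ := by rw [Matrix.diagonal_mul_diagonal]
  have hsm : ∀ a : Fin n → ℝ, μ • (V * diagonal a * Vᵀ) = V * diagonal (fun i => μ * a i) * Vᵀ := by
    intro a
    rw [← Matrix.smul_mul, ← Matrix.mul_smul]
    congr 2
    ext i j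
    by_cases hij : i = j
    · subst hij; simp
    · simp [hij]
  refine ⟨μ, V * diagonal e * Vᵀ, hμpos, ?_, ?_, ?_, ?_, ?_, ?_⟩
  · intro h
    have h1 : diagonal e = 0 := by
      have : Vᵀ * (V * diagonal e * Vᵀ) * V = diagonal e := by
        calc Vᵀ * (V * diagonal e * Vᵀ) * V = (Vᵀ * V) * diagonal e * (Vᵀ * V) := by
              simp only [Matrix.mul_assoc]
          _ = _ := by rw [hV2, Matrix.one_mul, Matrix.mul_one]
      rw [← this, h, Matrix.mul_zero, Matrix.zero_mul]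
    have h2 := congrFun (congrFun h1 i0) i0
    rw [Matrix.diagonal_apply_eq] at h2
    simp [he, hμ] at h2
  · rw [Matrix.transpose_mul, Matrix.transpose_mul, Matrix.diagonal_transpose,
      Matrix.transpose_transpose, Matrix.mul_assoc]
  · rw [hVdV]
    congr 2
    ext i j
    by_cases hij : i = j
    · subst hij
      simp [he]
    · simp [hij]
  · conv_lhs => rw [hCV]
    rw [hVdV, hsm]
    congr 3
    funext i
    simp only [he]
    split_ifs with h
    · rw [h]; ring
    · ring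
  · conv_lhs => rw [hCV]
    rw [hVdV, hsm]
    congr 3
    funext i
    simp only [he]
    split_ifs with h
    · rw [h]
    · ring
  · intro R hR
    set R' := Vᵀ * R * V with hR'
    have hRR : R = V * R' * Vᵀ := by
      rw [hR']
      calc R = (V * Vᵀ) * R * (V * Vᵀ) := by rw [hV1, Matrix.one_mul, Matrix.mul_one]
        _ = _ := by simp only [Matrix.mul_assoc]
    have h1 : diagonal l * R' = R' * diagonal l := by
      have h2 : Vᵀ * (C * R) * V = Vᵀ * (R * C) * V := by rw [hR]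
      have h3 : Vᵀ * (C * R) * V = diagonal l * R' := by
        rw [hCV, hR']
        calc Vᵀ * (V * diagonal l * Vᵀ * R) * V = (Vᵀ * V) * (diagonal l * (Vᵀ * R * V)) := by
              simp only [Matrix.mul_assoc]
          _ = _ := by rw [hV2, Matrix.one_mul]
      have h4 : Vᵀ * (R * C) * V = R' * diagonal l := by
        rw [hCV, hR']
        calc Vᵀ * (R * (V * diagonal l * Vᵀ)) * V = (Vᵀ * R * V * diagonal l) * (Vᵀ * V) := by
              simp only [Matrix.mul_assoc]
          _ = _ := by rw [hV2, Matrix.mul_one]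
      rw [← h3, h2, h4]
    have h2 : diagonal e * R' = R' * diagonal e := by
      ext i j
      have h3 := congrFun (congrFun h1 i) j
      rw [Matrix.diagonal_mul, Matrix.mul_diagonal] at h3 ⊢
      by_cases hR0 : R' i j = 0
      · rw [hR0, mul_zero, zero_mul]
      · have h4 : l i = l j := by
          have : (l i - l j) * R' i j = 0 := by rw [sub_mul, h3]; ring
          exact sub_eq_zero.mp ((mul_eq_zero.mp this).resolve_right hR0)
        simp only [he, h4]
        ring
    rw [hRR]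
    calc V * diagonal e * Vᵀ * (V * R' * Vᵀ) = V * (diagonal e * ((Vᵀ * V) * R')) * Vᵀ := by
          simp only [Matrix.mul_assoc]
      _ = V * (diagonal e * R') * Vᵀ := by rw [hV2, Matrix.one_mul]
      _ = V * (R' * diagonal e) * Vᵀ := by rw [h2]
      _ = V * (R' * ((Vᵀ * V) * diagonal e)) * Vᵀ := by rw [hV2, Matrix.one_mul]
      _ = _ := by simp only [Matrix.mul_assoc]

theorem dot_self_nonneg (v : Fin n → ℝ) : 0 ≤ v ⬝ᵥ v :=
  Finset.sum_nonneg fun i _ => mul_self_nonneg (v i)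

theorem mulVec_eq_zero_of_gram (B : Matrix (Fin n) (Fin n) ℝ) (v : Fin n → ℝ)
    (h : (Bᵀ * B).mulVec v = 0) : B.mulVec v = 0 := by
  have h1 : B.mulVec v ⬝ᵥ B.mulVec v = 0 := by
    rw [Matrix.dotProduct_mulVec, ← Matrix.mulVec_transpose, Matrix.mulVec_mulVec, h,
      zero_dotProduct]
  exact dotProduct_self_eq_zero.mp h1

theorem eq_zero_of_gram (B : Matrix (Fin n) (Fin n) ℝ) (h : Bᵀ * B = 0) : B = 0 := by
  ext i j
  have h1 := congrFun (congrFun h j) j
  rw [Matrix.mul_apply, Matrix.zero_apply] at h1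
  have h2 := (Finset.sum_eq_zero_iff_of_nonneg (fun k _ => by
    rw [Matrix.transpose_apply]; exact mul_self_nonneg (B k j))).mp h1 i (Finset.mem_univ i)
  rw [Matrix.transpose_apply] at h2
  exact mul_self_eq_zero.mp h2

theorem eq_zero_of_trace (P : Matrix (Fin n) (Fin n) ℝ) (hP : Pᵀ = P) (hPP : P * P = P)
    (ht : P.trace = 0) : P = 0 := by
  apply eq_zero_of_gram
  rw [hP, hPP]
  ext i j
  have h1 : ∑ i, ∑ j, P i j * P i j = 0 := by
    have : P.trace = ∑ i, ∑ j, P i j * P i j := by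
      conv_lhs => rw [← hPP]
      rw [Matrix.trace]
      refine Finset.sum_congr rfl fun i _ => ?_
      rw [Matrix.diag_apply, Matrix.mul_apply]
      refine Finset.sum_congr rfl fun j _ => ?_
      congr 1
      conv_lhs => rw [← hP]
      rw [Matrix.transpose_apply]
    rw [← this, ht]
  have h2 := (Finset.sum_eq_zero_iff_of_nonneg (fun i _ => Finset.sum_nonneg fun j _ =>
    mul_self_nonneg (P i j))).mp h1 i (Finset.mem_univ i)
  have h3 := (Finset.sum_eq_zero_iff_of_nonneg (fun j _ => mul_self_nonneg (P i j))).mp h2 j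
    (Finset.mem_univ j)
  rw [Matrix.zero_apply]
  exact mul_self_eq_zero.mp h3

theorem mul_single_mul (X Y : Matrix (Fin n) (Fin n) ℝ) (a c i j : Fin n) :
    (X * Matrix.single a c (1 : ℝ) * Y) i j = X i a * Y c j := by
  classical
  rw [Matrix.mul_apply, Finset.sum_eq_single c]
  · have h0 : (X * Matrix.single a c (1 : ℝ)) i c = X i a := by
      rw [Matrix.mul_apply, Finset.sum_eq_single a]
      · simp
      · intro b _ hb
        rw [Matrix.single_apply, if_neg (fun h => hb h.1.symm), mul_zero]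
      · intro h; exact absurd (Finset.mem_univ _) h
    rw [h0]
  · intro b _ hb
    rw [Matrix.mul_apply, Finset.sum_eq_zero, zero_mul]
    intro x _
    rw [Matrix.single_apply, if_neg (fun h => hb h.2.symm), mul_zero]
  · intro h; exact absurd (Finset.mem_univ _) h

theorem char_conj {G : Type*} [Group G] [Fintype G]
    (ρ₁ ρ₂ : G →* Matrix.orthogonalGroup (Fin n) ℝ)
    (h : ∀ g, (ρ₁ g).1.trace = (ρ₂ g).1.trace) :
    ∃ A : Matrix.orthogonalGroup (Fin n) ℝ, ∀ g, A * ρ₁ g = ρ₂ g * A := by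
  classical
  have o1 : ∀ g : Matrix.orthogonalGroup (Fin n) ℝ, g.1ᵀ * g.1 = 1 := fun g =>
    (Matrix.mem_orthogonalGroup_iff' _ _).mp g.2
  have o2 : ∀ g : Matrix.orthogonalGroup (Fin n) ℝ, g.1 * g.1ᵀ = 1 := fun g =>
    (Matrix.mem_orthogonalGroup_iff _ _).mp g.2
  have inv : ∀ (ρ : G →* Matrix.orthogonalGroup (Fin n) ℝ) (g : G), (ρ g⁻¹).1 = (ρ g).1ᵀ := by
    intro ρ g
    have h1 : (ρ g).1 * (ρ g⁻¹).1 = 1 := by
      have : ρ g * ρ g⁻¹ = 1 := by rw [← map_mul, mul_inv_cancel, map_one]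
      exact congrArg Subtype.val this
    calc (ρ g⁻¹).1 = ((ρ g).1ᵀ * (ρ g).1) * (ρ g⁻¹).1 := by rw [o1, Matrix.one_mul]
      _ = (ρ g).1ᵀ := by rw [Matrix.mul_assoc, h1, Matrix.mul_one]
  -- partial isometries intertwining
  let S : Set (Matrix (Fin n) (Fin n) ℝ) :=
    {U | (∀ g, U * (ρ₁ g).1 = (ρ₂ g).1 * U) ∧ (Uᵀ * U) * (Uᵀ * U) = Uᵀ * U}
  have hS0 : (0 : Matrix (Fin n) (Fin n) ℝ) ∈ S := by
    refine ⟨fun g => ?_, ?_⟩
    · rw [Matrix.zero_mul, Matrix.mul_zero]
    · simp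
  let m : Matrix (Fin n) (Fin n) ℝ → ℕ := fun U =>
    Module.finrank ℝ (LinearMap.ker (Matrix.toLin' U))
  obtain ⟨U, hU, hmin⟩ : ∃ U ∈ S, ∀ W ∈ S, m U ≤ m W := by
    have hne : (m '' S).Nonempty := ⟨_, ⟨0, hS0, rfl⟩⟩
    obtain ⟨U, hU, hm⟩ := Nat.sInf_mem hne
    refine ⟨U, hU, fun W hW => ?_⟩
    rw [hm]
    exact Nat.sInf_le ⟨W, hW, rfl⟩
  obtain ⟨hint, hidem⟩ := hU
  have hUUU : U * (Uᵀ * U) = U := by
    have h1 : (U * (Uᵀ * U) - U)ᵀ * (U * (Uᵀ * U) - U) = 0 := by
      have h2 : (U * (Uᵀ * U) - U)ᵀ = (Uᵀ * U) * Uᵀ - Uᵀ := by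
        rw [Matrix.transpose_sub, Matrix.transpose_mul, Matrix.transpose_mul,
          Matrix.transpose_transpose]
      rw [h2, Matrix.sub_mul, Matrix.mul_sub, Matrix.mul_sub]
      have h3 : Uᵀ * U * Uᵀ * (U * (Uᵀ * U)) = Uᵀ * U := by
        calc Uᵀ * U * Uᵀ * (U * (Uᵀ * U)) = (Uᵀ * U) * (Uᵀ * U) * (Uᵀ * U) := by
              simp only [Matrix.mul_assoc]
          _ = _ := by rw [hidem, hidem]
      have h4 : Uᵀ * U * Uᵀ * U = Uᵀ * U := by rw [Matrix.mul_assoc (Uᵀ * U), hidem]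
      have h5 : Uᵀ * (U * (Uᵀ * U)) = Uᵀ * U := by rw [← Matrix.mul_assoc, hidem]
      rw [h3, h4, h5]
      abel
    exact sub_eq_zero.mp (eq_zero_of_gram _ h1)
  set P : Matrix (Fin n) (Fin n) ℝ := 1 - Uᵀ * U with hP
  set Q : Matrix (Fin n) (Fin n) ℝ := 1 - U * Uᵀ with hQ
  have hPt : Pᵀ = P := by
    rw [hP, Matrix.transpose_sub, Matrix.transpose_one, Matrix.transpose_mul,
      Matrix.transpose_transpose]
  have hQt : Qᵀ = Q := by
    rw [hQ, Matrix.transpose_sub, Matrix.transpose_one, Matrix.transpose_mul,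
      Matrix.transpose_transpose]
  have hPP : P * P = P := by
    rw [hP, Matrix.sub_mul, Matrix.one_mul, Matrix.mul_sub, Matrix.mul_one, hidem]
    abel
  have hUt : (Uᵀ * U) * Uᵀ = Uᵀ := by
    have := congrArg Matrix.transpose hUUU
    rwa [Matrix.transpose_mul, Matrix.transpose_mul, Matrix.transpose_transpose] at this
  have hUQ : Uᵀ * Q = 0 := by
    rw [hQ, Matrix.mul_sub, Matrix.mul_one, ← Matrix.mul_assoc, hUt, sub_self]
  have hQQ : Q * Q = Q := by
    have h1 : U * Uᵀ * (U * Uᵀ) = U * Uᵀ := by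
      calc U * Uᵀ * (U * Uᵀ) = U * ((Uᵀ * U) * Uᵀ) := by simp only [Matrix.mul_assoc]
        _ = _ := by rw [hUt]
    rw [hQ, Matrix.sub_mul, Matrix.one_mul, Matrix.mul_sub, Matrix.mul_one, h1]
    abel
  have hint' : ∀ g, (ρ₁ g).1 * Uᵀ = Uᵀ * (ρ₂ g).1 := by
    intro g
    have h1 := congrArg Matrix.transpose (hint g⁻¹)
    rw [Matrix.transpose_mul, Matrix.transpose_mul, inv, inv, Matrix.transpose_transpose,
      Matrix.transpose_transpose] at h1
    exact h1
  have hPc : ∀ g, P * (ρ₁ g).1 = (ρ₁ g).1 * P := by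
    intro g
    rw [hP, Matrix.sub_mul, Matrix.mul_sub, Matrix.one_mul, Matrix.mul_one, Matrix.mul_assoc,
      hint, ← Matrix.mul_assoc, ← hint', Matrix.mul_assoc]
  have hQc : ∀ g, Q * (ρ₂ g).1 = (ρ₂ g).1 * Q := by
    intro g
    rw [hQ, Matrix.sub_mul, Matrix.mul_sub, Matrix.one_mul, Matrix.mul_one, Matrix.mul_assoc,
      ← hint', ← Matrix.mul_assoc, hint, Matrix.mul_assoc]
  have htr : ∀ g, (Q * (ρ₂ g).1).trace = (P * (ρ₁ g).1).trace := by
    intro g
    rw [hP, hQ, Matrix.sub_mul, Matrix.sub_mul, Matrix.one_mul, Matrix.one_mul,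
      Matrix.trace_sub, Matrix.trace_sub, h]
    congr 1
    calc (U * Uᵀ * (ρ₂ g).1).trace = (U * (Uᵀ * (ρ₂ g).1)).trace := by rw [Matrix.mul_assoc]
      _ = ((Uᵀ * (ρ₂ g).1) * U).trace := Matrix.trace_mul_comm _ _
      _ = (Uᵀ * ((ρ₂ g).1 * U)).trace := by rw [Matrix.mul_assoc]
      _ = (Uᵀ * U * (ρ₁ g).1).trace := by rw [← hint, ← Matrix.mul_assoc]
  by_cases hP0 : P = 0
  · have hUU : Uᵀ * U = 1 := (sub_eq_zero.mp hP0).symm
    refine ⟨⟨U, (Matrix.mem_orthogonalGroup_iff' _ _).mpr hUU⟩, fun g => ?_⟩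
    apply Subtype.ext
    exact hint g
  · exfalso
    let B : Matrix (Fin n) (Fin n) ℝ → Matrix (Fin n) (Fin n) ℝ := fun M =>
      ∑ g : G, Q * (ρ₂ g).1 * M * (ρ₁ g).1ᵀ * P
    have hBint : ∀ M g, B M * (ρ₁ g).1 = (ρ₂ g).1 * B M := by
      intro M g
      simp only [B]
      rw [Finset.sum_mul, Finset.mul_sum]
      refine (Fintype.sum_equiv (Equiv.mulLeft g) _ _ fun k => ?_).symm
      rw [Equiv.coe_mulLeft, map_mul, map_mul]
      have e1 : (ρ₂ g * ρ₂ k).1 = (ρ₂ g).1 * (ρ₂ k).1 := rfl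
      have e2 : (ρ₁ g * ρ₁ k).1 = (ρ₁ g).1 * (ρ₁ k).1 := rfl
      rw [e1, e2, Matrix.transpose_mul]
      calc (ρ₂ g).1 * (Q * (ρ₂ k).1 * M * (ρ₁ k).1ᵀ * P)
          = ((ρ₂ g).1 * Q) * (ρ₂ k).1 * M * (ρ₁ k).1ᵀ * P := by simp only [Matrix.mul_assoc]
        _ = (Q * (ρ₂ g).1) * (ρ₂ k).1 * M * ((ρ₁ k).1ᵀ * ((ρ₁ g).1ᵀ * (ρ₁ g).1)) * P := by
            rw [hQc, o1, Matrix.mul_one]
        _ = Q * ((ρ₂ g).1 * (ρ₂ k).1) * M * ((ρ₁ k).1ᵀ * (ρ₁ g).1ᵀ) * ((ρ₁ g).1 * P) := by
            simp only [Matrix.mul_assoc]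
        _ = Q * ((ρ₂ g).1 * (ρ₂ k).1) * M * ((ρ₁ k).1ᵀ * (ρ₁ g).1ᵀ) * (P * (ρ₁ g).1) := by
            rw [hPc]
        _ = _ := by simp only [Matrix.mul_assoc]
    have hBP : ∀ M, B M * P = B M := by
      intro M
      simp only [B]
      rw [Finset.sum_mul]
      refine Finset.sum_congr rfl fun g _ => ?_
      rw [Matrix.mul_assoc _ P P, hPP]
    have hQB : ∀ M, Q * B M = B M := by
      intro M
      simp only [B]
      rw [Finset.mul_sum]
      refine Finset.sum_congr rfl fun g _ => ?_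
      simp only [← Matrix.mul_assoc]
      rw [hQQ]
    obtain ⟨M, hM⟩ : ∃ M, B M ≠ 0 := by
      by_contra hcon
      push Not at hcon
      apply hP0
      apply eq_zero_of_trace P hPt hPP
      have h1 : ∑ g : G, (Q * (ρ₂ g).1).trace * ((ρ₁ g).1ᵀ * P).trace = 0 := by
        have h2 : ∀ a c : Fin n, ∑ g : G, (Q * (ρ₂ g).1) a a * ((ρ₁ g).1ᵀ * P) c c = 0 := by
          intro a c
          have h3 := congrFun (congrFun (hcon (Matrix.single a c 1)) a) c
          simp only [B] at h3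
          rw [Matrix.sum_apply, Matrix.zero_apply] at h3
          rw [← h3]
          refine Finset.sum_congr rfl fun g _ => ?_
          rw [Matrix.mul_assoc (Q * (ρ₂ g).1 * Matrix.single a c 1), mul_single_mul]
        have h3 : ∑ g : G, (Q * (ρ₂ g).1).trace * ((ρ₁ g).1ᵀ * P).trace =
            ∑ a, ∑ c, ∑ g : G, (Q * (ρ₂ g).1) a a * ((ρ₁ g).1ᵀ * P) c c := by
          simp only [Matrix.trace, Finset.sum_mul_sum, Matrix.diag_apply]
          rw [Finset.sum_comm]
          refine Finset.sum_congr rfl fun a _ => ?_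
          rw [Finset.sum_comm]
        rw [h3]
        exact Finset.sum_eq_zero fun a _ => Finset.sum_eq_zero fun c _ => h2 a c
      have h2 : ∀ g : G, (Q * (ρ₂ g).1).trace * ((ρ₁ g).1ᵀ * P).trace =
          (P * (ρ₁ g).1).trace * (P * (ρ₁ g).1).trace := by
        intro g
        rw [htr]
        congr 1
        rw [← Matrix.trace_transpose, Matrix.transpose_mul, Matrix.transpose_transpose, hPt]
      simp only [h2] at h1
      have h3 := (Finset.sum_eq_zero_iff_of_nonneg (fun g _ => mul_self_nonneg _)).mp h1 1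
        (Finset.mem_univ _)
      have h4 := mul_self_eq_zero.mp h3
      rw [map_one] at h4
      have h5 : P * (1 : Matrix.orthogonalGroup (Fin n) ℝ).1 = P := Matrix.mul_one P
      rwa [h5] at h4
    set C := (B M)ᵀ * B M with hC
    have hC0 : C ≠ 0 := fun h0 => hM (eq_zero_of_gram _ h0)
    have hCt : Cᵀ = C := by
      rw [hC, Matrix.transpose_mul, Matrix.transpose_transpose]
    have hCpos : ∀ v : Fin n → ℝ, 0 ≤ v ⬝ᵥ C.mulVec v := by
      intro v
      have : v ⬝ᵥ C.mulVec v = (B M).mulVec v ⬝ᵥ (B M).mulVec v := by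
        rw [hC, ← Matrix.mulVec_mulVec, Matrix.dotProduct_mulVec, Matrix.vecMul_transpose]
      rw [this]
      exact dot_self_nonneg _
    obtain ⟨μ, E, hμ, hE0, hEt, hEE, hEC, hCE, hcomm⟩ := sym_proj C hCt hC0 hCpos
    have hBint' : ∀ g, (ρ₁ g).1 * (B M)ᵀ = (B M)ᵀ * (ρ₂ g).1 := by
      intro g
      have h1 := congrArg Matrix.transpose (hBint M g⁻¹)
      rw [Matrix.transpose_mul, Matrix.transpose_mul, inv, inv, Matrix.transpose_transpose,
        Matrix.transpose_transpose] at h1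
      exact h1
    have hCR : ∀ g, C * (ρ₁ g).1 = (ρ₁ g).1 * C := by
      intro g
      rw [hC, Matrix.mul_assoc, hBint, ← Matrix.mul_assoc, ← hBint', Matrix.mul_assoc]
    have hER : ∀ g, E * (ρ₁ g).1 = (ρ₁ g).1 * E := fun g => hcomm _ (hCR g)
    have hCP : C * P = C := by rw [hC, Matrix.mul_assoc, hBP]
    have hEP : E * P = E := by
      have h1 : μ • (E * P) = μ • E := by
        rw [← Matrix.smul_mul, ← hEC, Matrix.mul_assoc, hCP]
      exact smul_right_injective _ hμ.ne' h1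
    have hPE : P * E = E := by
      have h1 := congrArg Matrix.transpose hEP
      rwa [Matrix.transpose_mul, hPt, hEt] at h1
    have hUUE : Uᵀ * U * E = 0 := by
      have h1 : Uᵀ * U = 1 - P := by rw [hP]; abel
      rw [h1, Matrix.sub_mul, Matrix.one_mul, hPE, sub_self]
    have hEUU : E * (Uᵀ * U) = 0 := by
      have h1 : Uᵀ * U = 1 - P := by rw [hP]; abel
      rw [h1, Matrix.mul_sub, Matrix.mul_one, hEP, sub_self]
    set c := (Real.sqrt μ)⁻¹ with hc
    have hcc : c * c * μ = 1 := by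
      have h1 : Real.sqrt μ * Real.sqrt μ = μ := Real.mul_self_sqrt hμ.le
      have h2 : Real.sqrt μ ≠ 0 := (Real.sqrt_pos.mpr hμ).ne'
      rw [hc]
      field_simp
      linarith
    set W := c • (B M * E) with hW
    have hWW : Wᵀ * W = E := by
      rw [hW, Matrix.transpose_smul, Matrix.smul_mul, Matrix.mul_smul, smul_smul,
        Matrix.transpose_mul, hEt]
      have h1 : E * (B M)ᵀ * (B M * E) = E * C * E := by
        rw [hC]; simp only [Matrix.mul_assoc]
      rw [h1, hEC, Matrix.smul_mul, hEE, smul_smul, hcc, one_smul]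
    have hUW : Uᵀ * W = 0 := by
      rw [hW, Matrix.mul_smul, ← Matrix.mul_assoc, ← hQB, ← Matrix.mul_assoc, hUQ,
        Matrix.zero_mul, Matrix.zero_mul, smul_zero]
    have hWU : Wᵀ * U = 0 := by
      have := congrArg Matrix.transpose hUW
      rwa [Matrix.transpose_mul, Matrix.transpose_transpose, Matrix.transpose_zero] at this
    have hsum : (U + W)ᵀ * (U + W) = Uᵀ * U + E := by
      rw [Matrix.transpose_add, Matrix.add_mul, Matrix.mul_add, Matrix.mul_add, hUW, hWU, hWW]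
      abel
    have hUWS : U + W ∈ S := by
      refine ⟨fun g => ?_, ?_⟩
      · rw [Matrix.add_mul, Matrix.mul_add, hint]
        congr 1
        rw [hW, Matrix.smul_mul, Matrix.mul_smul, Matrix.mul_assoc, hER, ← Matrix.mul_assoc,
          hBint, Matrix.mul_assoc]
      · rw [hsum, Matrix.mul_add, Matrix.add_mul, Matrix.add_mul, hidem, hUUE, hEUU, hEE]
        abel
    have hlt : m (U + W) < m U := by
      apply Submodule.finrank_lt_finrank_of_lt
      rw [lt_iff_le_and_ne]
      constructor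
      · intro v hv
        rw [LinearMap.mem_ker, Matrix.toLin'_apply] at hv ⊢
        have h1 : (Uᵀ * U + E).mulVec v = 0 := by
          rw [← hsum, ← Matrix.mulVec_mulVec, hv, Matrix.mulVec_zero]
        have h2 : (Uᵀ * U).mulVec v = 0 := by
          have h3 := congrArg (Uᵀ * U).mulVec h1
          rwa [Matrix.mulVec_mulVec, Matrix.mul_add, hidem, hUUE, add_zero,
            Matrix.mulVec_zero] at h3
        exact mulVec_eq_zero_of_gram U v h2
      · intro heq
        apply hE0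
        ext i j
        have h1 : E.mulVec (Pi.single j 1) ∈ LinearMap.ker (Matrix.toLin' U) := by
          rw [LinearMap.mem_ker, Matrix.toLin'_apply]
          apply mulVec_eq_zero_of_gram
          rw [Matrix.mulVec_mulVec, hUUE, Matrix.zero_mulVec]
        rw [← heq, LinearMap.mem_ker, Matrix.toLin'_apply] at h1
        have h2 : (Uᵀ * U + E).mulVec (E.mulVec (Pi.single j 1)) = 0 := by
          rw [← hsum, ← Matrix.mulVec_mulVec, h1, Matrix.mulVec_zero]
        rw [Matrix.mulVec_mulVec, Matrix.add_mul, hUUE, hEE, zero_add] at h2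
        have h3 := congrFun h2 i
        rw [Matrix.mulVec_single_one] at h3
        exact h3
    exact absurd (hmin _ hUWS) (not_le.mpr hlt)

end Pool.Agent.Helper477.Sph
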