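import Pool.Agent.Helper477.Sph.Cls3
import Pool.Agent.Helper477.Sph.Chr

set_option autoImplicit false

/-! # Rigidity of the non-cyclic groups: simultaneous conjugation -/

namespace Pool.Agent.Helper477.Sph

open scoped Matrix

variable {n : ℕ}


/-- Conjugacy in the orthogonal group. -/
def Conj (Γ Γ' : Subgroup (Matrix.orthogonalGroup (Fin n) ℝ)) : Prop :=
  ∃ h : Matrix.orthogonalGroup (Fin n) ℝ, ∀ g, g ∈ Γ ↔ h * g * h⁻¹ ∈ Γ'

theorem mul_zpow_conj {G : Type*} [Group G] {w y : G} {c : ℕ} (h : y * w * y⁻¹ = w ^ c) (k : ℤ) :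
    y * w ^ k = w ^ ((c : ℤ) * k) * y := by
  have h1 : y * w ^ k * y⁻¹ = w ^ ((c : ℤ) * k) := by
    rw [← conj_zpow, h, zpow_mul, zpow_natCast]
  rw [← h1]; group

theorem simul_conj (Γ₁ Γ₂ : Subgroup (Matrix.orthogonalGroup (Fin n) ℝ)) [Finite Γ₁] [Finite Γ₂] {w₁ y₁ w₂ y₂ : (Matrix.orthogonalGroup (Fin n) ℝ)} {c b : ℕ}
    (hw₁ : w₁ ∈ Γ₁) (hy₁ : y₁ ∈ Γ₁) (hw₂ : w₂ ∈ Γ₂) (hy₂ : y₂ ∈ Γ₂)
    (c₁ : y₁ * w₁ * y₁⁻¹ = w₁ ^ c) (b₁ : y₁ * y₁ = w₁ ^ b)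
    (c₂ : y₂ * w₂ * y₂⁻¹ = w₂ ^ c) (b₂ : y₂ * y₂ = w₂ ^ b)
    (t₁ : ∀ a : ℤ, (w₁ ^ a).1.trace = (w₂ ^ a).1.trace)
    (t₂ : ∀ a : ℤ, (w₁ ^ a * y₁).1.trace = (w₂ ^ a * y₂).1.trace) :
    ∃ A : (Matrix.orthogonalGroup (Fin n) ℝ), A * w₁ = w₂ * A ∧ A * y₁ = y₂ * A := by
  classical
  let H : Subgroup ((Matrix.orthogonalGroup (Fin n) ℝ) × (Matrix.orthogonalGroup (Fin n) ℝ)) := Subgroup.closure {(w₁, w₂), (y₁, y₂)}
  have hle : H ≤ Γ₁.prod Γ₂ := by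
    rw [Subgroup.closure_le]
    rintro t (rfl | rfl)
    · exact ⟨hw₁, hw₂⟩
    · exact ⟨hy₁, hy₂⟩
  have hfin : Finite (Γ₁.prod Γ₂ : Subgroup ((Matrix.orthogonalGroup (Fin n) ℝ) × (Matrix.orthogonalGroup (Fin n) ℝ))) :=
    Finite.of_equiv _ (Subgroup.prodEquiv Γ₁ Γ₂).symm.toEquiv
  have : Finite H := Finite.of_injective _ (Subgroup.inclusion_injective hle)
  have : Fintype H := Fintype.ofFinite H
  have hform : ∀ t ∈ H, ∃ a : ℤ, t = (w₁ ^ a, w₂ ^ a) ∨ t = (w₁ ^ a * y₁, w₂ ^ a * y₂) := by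
    intro t ht
    induction ht using Subgroup.closure_induction with
    | mem x hx =>
      rcases hx with rfl | rfl
      · exact ⟨1, Or.inl (by rw [zpow_one, zpow_one])⟩
      · exact ⟨0, Or.inr (by rw [zpow_zero, zpow_zero, one_mul, one_mul])⟩
    | one => exact ⟨0, Or.inl (by rw [zpow_zero, zpow_zero]; rfl)⟩
    | mul x y _ _ hx hy =>
      obtain ⟨a, ha⟩ := hx
      obtain ⟨a', ha'⟩ := hy
      have key : ∀ (w y : (Matrix.orthogonalGroup (Fin n) ℝ)), y * w * y⁻¹ = w ^ c → y * y = w ^ b →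
          w ^ a * y * w ^ a' = w ^ (a + c * a') * y ∧
          w ^ a * y * (w ^ a' * y) = w ^ (a + c * a' + b) := by
        intro w y hc hb
        have h1 := mul_zpow_conj hc a'
        constructor
        · rw [mul_assoc, h1, ← mul_assoc, ← zpow_add]
        · rw [mul_assoc, ← mul_assoc y, h1, mul_assoc (w ^ _) y y, hb, ← mul_assoc, ← zpow_add,
            ← zpow_natCast, ← zpow_add]
      obtain ⟨k1, k2⟩ := key w₁ y₁ c₁ b₁
      obtain ⟨k3, k4⟩ := key w₂ y₂ c₂ b₂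
      rcases ha with rfl | rfl <;> rcases ha' with rfl | rfl
      · refine ⟨a + a', Or.inl ?_⟩
        rw [Prod.mk_mul_mk, ← zpow_add, ← zpow_add]
      · refine ⟨a + a', Or.inr ?_⟩
        rw [Prod.mk_mul_mk, ← mul_assoc, ← mul_assoc, ← zpow_add, ← zpow_add]
      · refine ⟨a + c * a', Or.inr ?_⟩
        rw [Prod.mk_mul_mk, k1, k3]
      · refine ⟨a + c * a' + b, Or.inl ?_⟩
        rw [Prod.mk_mul_mk, k2, k4]
    | inv x _ hx =>
      obtain ⟨a, ha⟩ := hx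
      have key : ∀ (w y : (Matrix.orthogonalGroup (Fin n) ℝ)), y * w * y⁻¹ = w ^ c → y * y = w ^ b →
          (w ^ a * y)⁻¹ = w ^ (-(b : ℤ) + c * (-a)) * y := by
        intro w y hc hb
        have h0 : y⁻¹ = w ^ (-(b : ℤ)) * y := by
          have h1 : y * w ^ (b : ℤ) = w ^ (b : ℤ) * y := by
            rw [zpow_natCast, ← hb, mul_assoc]
          have h2 : w ^ (-(b : ℤ)) * y * y = 1 := by
            rw [mul_assoc, hb, zpow_neg, zpow_natCast, inv_mul_cancel]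
          exact (eq_inv_of_mul_eq_one_left h2).symm
        rw [mul_inv_rev, ← zpow_neg, h0, mul_assoc, mul_zpow_conj hc, ← mul_assoc, ← zpow_add]
      rcases ha with rfl | rfl
      · refine ⟨-a, Or.inl ?_⟩
        rw [Prod.inv_mk, zpow_neg, zpow_neg]
      · refine ⟨-(b : ℤ) + c * (-a), Or.inr ?_⟩
        rw [Prod.inv_mk, key w₁ y₁ c₁ b₁, key w₂ y₂ c₂ b₂]
  let ρ₁ : H →* (Matrix.orthogonalGroup (Fin n) ℝ) := (MonoidHom.fst (Matrix.orthogonalGroup (Fin n) ℝ) (Matrix.orthogonalGroup (Fin n) ℝ)).comp H.subtype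
  let ρ₂ : H →* (Matrix.orthogonalGroup (Fin n) ℝ) := (MonoidHom.snd (Matrix.orthogonalGroup (Fin n) ℝ) (Matrix.orthogonalGroup (Fin n) ℝ)).comp H.subtype
  obtain ⟨A, hA⟩ := char_conj ρ₁ ρ₂ (by
    intro t
    have h1 : ρ₁ t = t.1.1 := rfl
    have h2 : ρ₂ t = t.1.2 := rfl
    rw [h1, h2]
    obtain ⟨a, ha | ha⟩ := hform t.1 t.2
    · rw [ha]; exact t₁ a
    · rw [ha]; exact t₂ a)
  refine ⟨A, ?_, ?_⟩
  · exact hA ⟨(w₁, w₂), Subgroup.subset_closure (by simp)⟩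
  · exact hA ⟨(y₁, y₂), Subgroup.subset_closure (by simp)⟩

theorem orth_t (g : (Matrix.orthogonalGroup (Fin n) ℝ)) : g.1ᵀ * g.1 = 1 := (Matrix.mem_orthogonalGroup_iff' _ _).mp g.2

theorem orth_inv (g : (Matrix.orthogonalGroup (Fin n) ℝ)) : (g⁻¹).1 = g.1ᵀ := by
  have h1 : g.1 * (g⁻¹).1 = 1 := congrArg Subtype.val (mul_inv_cancel g)
  calc (g⁻¹).1 = (g.1ᵀ * g.1) * (g⁻¹).1 := by rw [orth_t, Matrix.one_mul]
    _ = g.1ᵀ := by rw [Matrix.mul_assoc, h1, Matrix.mul_one]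

theorem trace_inv (g : (Matrix.orthogonalGroup (Fin n) ℝ)) : (g⁻¹).1.trace = g.1.trace := by
  rw [orth_inv, Matrix.trace_transpose]

theorem trace_conj' (h g : (Matrix.orthogonalGroup (Fin n) ℝ)) : (h * g * h⁻¹).1.trace = g.1.trace := by
  have h1 : (h * g * h⁻¹).1 = h.1 * g.1 * (h⁻¹).1 := rfl
  have h2 : (h⁻¹).1 * h.1 = 1 := congrArg Subtype.val (inv_mul_cancel h)
  rw [h1, Matrix.trace_mul_comm, ← Matrix.mul_assoc, h2, Matrix.one_mul]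

theorem trace_of_sq_neg {g : (Matrix.orthogonalGroup (Fin n) ℝ)} (h : g.1 * g.1 = -1) : g.1.trace = 0 := by
  have h1 : (g⁻¹).1 = - g.1 := by
    have h3 : g.1 * (g⁻¹).1 = 1 := congrArg Subtype.val (mul_inv_cancel g)
    have h4 : g.1 * (g.1 * (g⁻¹).1) = g.1 := by rw [h3, Matrix.mul_one]
    rw [← Matrix.mul_assoc, h, Matrix.neg_mul, Matrix.one_mul] at h4
    rw [← h4, neg_neg]
  have h2 := trace_inv g
  rw [h1, Matrix.trace_neg] at h2
  linarith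

theorem tau_conj {A g g' : (Matrix.orthogonalGroup (Fin n) ℝ)} (h : A * g = g' * A) : tau (cx g.1) = tau (cx g'.1) := by
  have h1 : g' = A * g * A⁻¹ := by rw [h]; group
  have h2 : g'.1 = A.1 * g.1 * (A⁻¹).1 := congrArg Subtype.val h1
  have h3 : cx (A⁻¹).1 * cx A.1 = 1 := by
    rw [← cx_mul]
    have : (A⁻¹).1 * A.1 = 1 := congrArg Subtype.val (inv_mul_cancel A)
    rw [this, cx_one]
  rw [h2, cx_mul, cx_mul]
  refine PowerSeries.ext fun k => ?_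
  rw [coeff_tau, coeff_tau]
  exact (trace_Mk_conj k (cx A.1) (cx g.1) (cx (A⁻¹).1) h3).symm

theorem conj_of_subset {Γ₁ Γ₂ : Subgroup (Matrix.orthogonalGroup (Fin n) ℝ)} [Finite Γ₁] [Finite Γ₂] (A : (Matrix.orthogonalGroup (Fin n) ℝ))
    (hA : ∀ g ∈ Γ₁, A * g * A⁻¹ ∈ Γ₂) (hcard : Nat.card Γ₁ = Nat.card Γ₂) : Conj Γ₁ Γ₂ := by
  let f : Γ₁ → Γ₂ := fun g => ⟨A * g.1 * A⁻¹, hA g.1 g.2⟩
  have hf : Function.Injective f := by
    intro g g' h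
    have h1 : A * g.1 * A⁻¹ = A * g'.1 * A⁻¹ := congrArg Subtype.val h
    exact Subtype.ext (mul_left_cancel (mul_right_cancel h1))
  have hb := hf.bijective_of_nat_card_le hcard.ge
  refine ⟨A, fun g => ⟨hA g, fun h => ?_⟩⟩
  obtain ⟨g', hg'⟩ := hb.2 ⟨_, h⟩
  have h1 : A * g'.1 * A⁻¹ = A * g * A⁻¹ := congrArg Subtype.val hg'
  rw [← mul_left_cancel (mul_right_cancel h1)]
  exact g'.2

/-- The elements of a group with a cyclic subgroup of index two. -/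
theorem form_of_index_two {G : Type*} [Group G] [Finite G] {w y : G} {m : ℕ} (hm0 : 0 < m)
    (hm : orderOf w = m) (hG : Nat.card G = 2 * m) (hy : y ∉ Subgroup.zpowers w) (g : G) :
    ∃ a : ℤ, g = w ^ a ∨ g = w ^ a * y := by
  have hidx := index_eq_two hm0 hm hG
  by_cases hg : g ∈ Subgroup.zpowers w
  · obtain ⟨a, ha⟩ := Subgroup.mem_zpowers_iff.mp hg
    exact ⟨a, Or.inl ha.symm⟩
  · have h1 : g * y⁻¹ ∈ Subgroup.zpowers w := by
      rw [Subgroup.mul_mem_iff_of_index_two hidx, Subgroup.inv_mem_iff]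
      exact ⟨fun h => absurd h hg, fun h => absurd h hy⟩
    obtain ⟨a, ha⟩ := Subgroup.mem_zpowers_iff.mp h1
    refine ⟨a, Or.inr ?_⟩
    rw [ha]; group

end Pool.Agent.Helper477.Sph
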