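import Pool.Agent.Helper477.Sph.Bd8
import Pool.Agent.Helper477.Sph.Rig1

set_option autoImplicit false

/-! # Isospectral families of lens spaces are bounded -/

namespace Pool.Agent.Helper477.Sph

variable {n : ℕ}

theorem pos_of_fin {Γ : Subgroup (Matrix.orthogonalGroup (Fin n) ℝ)} [Finite Γ] (g : Γ) :
    0 < orderOf g.1 := by
  rw [Subgroup.orderOf_coe]
  exact orderOf_pos g

/-- In a cyclic subgroup there are at most `n` elements of given order with a given eigenvalue. -/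
theorem Ez_zpowers_card {Γ : Subgroup (Matrix.orthogonalGroup (Fin n) ℝ)} [Fintype Γ]
    (hΓ : FreeOn Γ) {d : ℕ} {ζ : ℂ} (y : Γ) (F : Finset Γ) (hF : F ⊆ Ez Γ d ζ)
    (hy : ∀ g ∈ F, g ∈ Subgroup.zpowers y) : F.card ≤ n := by
  classical
  have hD : Diag y.1.1 (Yc y.1.1) := Yc_spec (pos_of_fin y)
  have h1 : ∀ g : Γ, ∃ p : ℕ × Option (Fin n), g ∈ F → g = y ^ p.1 ∧ ∃ j, p.2 = some j ∧
      Yc y.1.1 j ^ p.1 = ζ := by
    intro g
    by_cases hg : g ∈ F
    · obtain ⟨k, hk⟩ := (mem_powers_iff_mem_zpowers.mpr (hy g hg))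
      have hE := mem_Ez.mp (hF hg)
      have h2 : Diag g.1.1 (fun j => Yc y.1.1 j ^ k) := by
        have : g.1.1 = y.1.1 ^ k := by
          rw [← hk]
          rfl
        rw [this]
        exact hD.pow k
      obtain ⟨j, hj⟩ := (h2.hasEig_iff ζ).mp hE.2
      exact ⟨(k, some j), fun _ => ⟨hk.symm, j, rfl, hj⟩⟩
    · exact ⟨(0, none), fun h => absurd h hg⟩
  choose p hp using h1
  have h2 : (F.image fun g => (p g).2) ⊆ Finset.univ.map ⟨some, Option.some_injective (Fin n)⟩ := by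
    intro x hx
    obtain ⟨g, hg, rfl⟩ := Finset.mem_image.mp hx
    obtain ⟨_, j, hj, _⟩ := hp g hg
    rw [Finset.mem_map]
    exact ⟨j, Finset.mem_univ _, hj.symm⟩
  have h3 : (F.image fun g => (p g).2).card = F.card := by
    apply Finset.card_image_of_injOn
    intro g hg g' hg' hgg
    simp only at hgg
    obtain ⟨h4, j, hj, h5⟩ := hp g hg
    obtain ⟨h4', j', hj', h5'⟩ := hp g' hg'
    have hjj : j = j' := by
      rw [hj, hj'] at hgg
      exact Option.some_inj.mp hgg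
    subst hjj
    have hprim := hD.prim hΓ y.2 (pos_of_fin y) j
    have h6 : (p g).1 ≡ (p g').1 [MOD orderOf y] := by
      rw [← Subgroup.orderOf_coe y]
      have h7 := h5.trans h5'.symm
      rw [← pow_eq_of_modEq hprim.pow_eq_one (Nat.mod_modEq (p g).1 _),
        ← pow_eq_of_modEq hprim.pow_eq_one (Nat.mod_modEq (p g').1 _)] at h7
      exact hprim.pow_inj (Nat.mod_lt _ (pos_of_fin y)) (Nat.mod_lt _ (pos_of_fin y)) h7
    rw [h4, h4']
    exact pow_eq_of_modEq (pow_orderOf_eq_one y) h6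
  rw [← h3]
  calc (F.image fun g => (p g).2).card ≤ _ := Finset.card_le_card h2
    _ = n := by rw [Finset.card_map, Finset.card_univ, Fintype.card_fin]

/-- Elements of finite order with the same eigenvalues are conjugate. -/
theorem conj_elem {g h : Matrix.orthogonalGroup (Fin n) ℝ} (hg : 0 < orderOf g)
    (hh : 0 < orderOf h) {Y : Fin n → ℂ} (hgY : Diag g.1 Y) (hhY : Diag h.1 Y) :
    ∃ A : Matrix.orthogonalGroup (Fin n) ℝ, A * g = h * A := by
  classical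
  set x : Matrix.orthogonalGroup (Fin n) ℝ × Matrix.orthogonalGroup (Fin n) ℝ := (g, h) with hx
  have hfin : IsOfFinOrder x := by
    rw [isOfFinOrder_iff_pow_eq_one]
    refine ⟨orderOf g * orderOf h, Nat.mul_pos hg hh, ?_⟩
    rw [hx, Prod.pow_mk, pow_mul, pow_orderOf_eq_one, one_pow, mul_comm, pow_mul,
      pow_orderOf_eq_one, one_pow]
    rfl
  have : Finite (Subgroup.zpowers x) := hfin.finite_zpowers
  have := Fintype.ofFinite (Subgroup.zpowers x)
  obtain ⟨A, hA⟩ := char_conj (G := Subgroup.zpowers x)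
    ((MonoidHom.fst _ _).comp (Subgroup.zpowers x).subtype)
    ((MonoidHom.snd _ _).comp (Subgroup.zpowers x).subtype) (by
      intro t
      obtain ⟨k, hk⟩ := hfin.mem_powers_iff_mem_zpowers.mpr t.2
      have h1 : t.1.1 = g ^ k := by rw [← hk]; rfl
      have h2 : t.1.2 = h ^ k := by rw [← hk]; rfl
      change t.1.1.1.trace = t.1.2.1.trace
      rw [h1, h2]
      have h3 := (hgY.pow k).trace
      have h4 := (hhY.pow k).trace
      rw [coe_pow', coe_pow']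
      exact_mod_cast h3.trans h4.symm)
  exact ⟨A, hA ⟨x, Subgroup.mem_zpowers x⟩⟩

theorem lens_bounded (hn : 0 < n) : ∃ C : ℕ,
    ∀ F : Finset (Subgroup (Matrix.orthogonalGroup (Fin n) ℝ)),
      (∀ Γ ∈ F, Finite Γ ∧ FreeOn Γ ∧ IsCyclic Γ) →
      (∀ Γ ∈ F, ∀ Γ' ∈ F, Γ ≠ Γ' → hilb Γ = hilb Γ' ∧ ¬ Conj Γ Γ') → F.card ≤ C := by
  classical
  obtain ⟨C, hC⟩ := key (n := n) hn n
  refine ⟨C ^ n, fun F hF hpair => ?_⟩
  rcases F.eq_empty_or_nonempty with rfl | ⟨Γ₀, hΓ₀⟩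
  · simp
  obtain ⟨hfin₀, hfree₀, hcyc₀⟩ := hF Γ₀ hΓ₀
  have := Fintype.ofFinite Γ₀
  set d := Fintype.card Γ₀ with hd
  have hd0 : 0 < d := Fintype.card_pos
  have hζ := Complex.isPrimitiveRoot_exp d hd0.ne'
  set ζ := Complex.exp (2 * Real.pi * Complex.I / d) with hζd
  have hEcard : ∀ Γ ∈ F, ∀ [Fintype Γ], (Ez Γ d ζ).card ≤ n := by
    intro Γ hΓ _
    obtain ⟨hfin, hfree, hcyc⟩ := hF Γ hΓ
    obtain ⟨y, hy⟩ := hcyc.exists_generator
    exact Ez_zpowers_card hfree y _ (Finset.Subset.refl _) fun g _ => hy g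
  obtain ⟨S, hS, hkey⟩ := hC Γ₀ hfree₀ d ζ hd0 hζ (by
    obtain ⟨y, hy⟩ := hcyc₀.exists_generator
    refine ⟨y, mem_Od.mpr ?_⟩
    rw [Subgroup.orderOf_coe, orderOf_eq_card_of_forall_mem_zpowers hy, Nat.card_eq_fintype_card])
    (hEcard Γ₀ hΓ₀)
  have hex : ∀ Γ : Subgroup (Matrix.orthogonalGroup (Fin n) ℝ),
      ∃ g : Matrix.orthogonalGroup (Fin n) ℝ, Γ ∈ F →
      (g ∈ Γ ∧ orderOf g = d ∧ Nat.card Γ = d ∧ ∀ j, Yc g.1 j ∈ S) := by
    intro Γ
    by_cases hΓ : Γ ∈ F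
    · obtain ⟨hfin, hfree, hcyc⟩ := hF Γ hΓ
      have := Fintype.ofFinite Γ
      have hh : hilb Γ₀ = hilb Γ := by
        by_cases h : Γ₀ = Γ
        · rw [h]
        · exact (hpair Γ₀ hΓ₀ Γ hΓ h).1
      obtain ⟨g, hg, hgS⟩ := hkey Γ hfree hh (hEcard Γ hΓ)
      refine ⟨g.1, fun _ => ⟨g.2, (mem_Ez.mp hg).1, ?_, hgS⟩⟩
      rw [Nat.card_eq_fintype_card]
      exact (sep hfree₀ hfree hn hh).1.symm
    · exact ⟨1, fun h => absurd h hΓ⟩
  choose g hg using hex
  have hinj : Set.InjOn (fun Γ => Yc (g Γ).1) (F : Set (Subgroup _)) := by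
    intro Γ hΓ Γ' hΓ' hY
    simp only at hY
    by_contra hne
    obtain ⟨h1, h2, h3, _⟩ := hg Γ hΓ
    obtain ⟨h1', h2', h3', _⟩ := hg Γ' hΓ'
    have := (hF Γ hΓ).1
    have := (hF Γ' hΓ').1
    apply (hpair Γ hΓ Γ' hΓ' hne).2
    obtain ⟨A, hA⟩ := conj_elem (by rw [h2]; exact hd0) (by rw [h2']; exact hd0)
      (Yc_spec (by rw [h2]; exact hd0)) (by
        rw [hY]
        exact Yc_spec (by rw [h2']; exact hd0))
    apply conj_of_subset A _ (by rw [h3, h3'])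
    intro x hx
    have hgen : ∀ x : Γ, x ∈ Subgroup.zpowers (⟨g Γ, h1⟩ : Γ) := by
      intro x
      have h9 : Subgroup.zpowers (⟨g Γ, h1⟩ : Γ) = ⊤ := by
        apply Subgroup.eq_top_of_card_eq
        rw [Nat.card_zpowers, ← Subgroup.orderOf_coe, h3]
        exact h2
      rw [h9]
      exact Subgroup.mem_top x
    obtain ⟨k, hk⟩ := Subgroup.mem_zpowers_iff.mp (hgen ⟨x, hx⟩)
    have hk' : (g Γ) ^ k = x := congrArg Subtype.val hk
    rw [← hk', ← conj_zpow, hA, mul_assoc, mul_inv_cancel, mul_one]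
    exact Γ'.zpow_mem h1' k
  calc F.card = (F.image fun Γ => Yc (g Γ).1).card := (Finset.card_image_of_injOn hinj).symm
    _ ≤ (Fintype.piFinset fun _ : Fin n => S).card := by
      apply Finset.card_le_card
      intro Y hY
      obtain ⟨Γ, hΓ, rfl⟩ := Finset.mem_image.mp hY
      rw [Fintype.mem_piFinset]
      exact (hg Γ hΓ).2.2.2
    _ = S.card ^ n := by rw [Fintype.card_piFinset]; simp
    _ ≤ C ^ n := Nat.pow_le_pow_left hS n

end Pool.Agent.Helper477.Sph
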