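import Pool.Agent.Helper477.Sph.Free

set_option autoImplicit false
set_option linter.unusedSectionVars false

/-! # Classification of small groups with the properties of freely acting groups -/

namespace Pool.Agent.Helper477.Sph

variable {G : Type*} [Group G] [Finite G]

theorem FPF.cyclic_of_comm (h : FPF G) (hc : ∀ a b : G, a * b = b * a) : IsCyclic G := by
  have h1 := h.ab ⊤ (fun a _ b _ => hc a b)
  exact isCyclic_of_surjective (Subgroup.topEquiv (G := G)) (Subgroup.topEquiv (G := G)).surjective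

theorem orderOf_conj' (g x : G) : orderOf (g * x * g⁻¹) = orderOf x := by
  have := orderOf_injective (MulAut.conj g).toMonoidHom (MulAut.conj g).injective x
  simpa using this

theorem top_of_prime_index (H K : Subgroup G) {p : ℕ} (hp : p.Prime) (hidx : H.index = p)
    (hle : H ≤ K) {y : G} (hyK : y ∈ K) (hyH : y ∉ H) : K = ⊤ := by
  have h9 := Subgroup.relIndex_mul_index hle
  rw [hidx] at h9
  have h10 : K.index ∣ p := Dvd.intro_left _ h9
  rcases (Nat.dvd_prime hp).mp h10 with h11 | h11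
  · exact Subgroup.index_eq_one.mp h11
  · exfalso
    rw [h11] at h9
    have h12 : H.relIndex K = 1 := Nat.eq_of_mul_eq_mul_right hp.pos (by rw [h9, one_mul])
    rw [Subgroup.relIndex_eq_one] at h12
    exact hyH (h12 hyK)

theorem comm_of_prime_index {x y : G} {p : ℕ} (hp : p.Prime)
    (hidx : (Subgroup.zpowers x).index = p) (hy : y ∉ Subgroup.zpowers x) (hxy : y * x = x * y) :
    ∀ a b : G, a * b = b * a := by
  have h1 : ∀ g : G, g * x = x * g ∧ g * y = y * g := by
    intro g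
    have hK : Subgroup.centralizer ({x, y} : Set G) = ⊤ := by
      refine top_of_prime_index (Subgroup.zpowers x) _ hp hidx ?_ (y := y) ?_ hy
      · rw [Subgroup.zpowers_le, Subgroup.mem_centralizer_iff]
        rintro g (rfl | rfl)
        · rfl
        · exact hxy
      · rw [Subgroup.mem_centralizer_iff]
        rintro g (rfl | rfl)
        · exact hxy.symm
        · rfl
    have h8 : g ∈ Subgroup.centralizer ({x, y} : Set G) := by rw [hK]; trivial
    rw [Subgroup.mem_centralizer_iff] at h8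
    exact ⟨(h8 x (by simp)).symm, (h8 y (by simp)).symm⟩
  intro a b
  have hK : Subgroup.centralizer ({b} : Set G) = ⊤ := by
    refine top_of_prime_index (Subgroup.zpowers x) _ hp hidx ?_ (y := y) ?_ hy
    · rw [Subgroup.zpowers_le, Subgroup.mem_centralizer_iff]
      rintro g rfl
      exact (h1 g).1
    · rw [Subgroup.mem_centralizer_iff]
      rintro g rfl
      exact (h1 g).2
  have h8 : a ∈ Subgroup.centralizer ({b} : Set G) := by rw [hK]; trivial
  rw [Subgroup.mem_centralizer_iff] at h8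
  exact (h8 b rfl).symm

theorem key5 : ∀ c : ZMod 5, 1 = c ^ 3 → c = 1 := by decide

theorem key7 : ∀ c : ZMod 7, 1 = c ^ 3 → c = 1 ∨ c = 2 ∨ c = 4 := by decide

theorem key7' : (4 : ZMod 7) ^ 2 = 2 := by decide

theorem key9 : ∀ c b : ZMod 9, 1 = c ^ 3 → b = c * b → c ≠ 1 →
    (∃ j : ZMod 9, j + c * j + c ^ 2 * j + b = 0) ∧ 3 * c = 3 := by decide

theorem FPF.exists_z (h : FPF G) (he : 2 ∣ Nat.card G) :
    ∃ z : G, orderOf z = 2 ∧ (∀ g, g * z = z * g) ∧ z * z = 1 ∧ z ≠ 1 ∧
      ∀ g : G, g * g = 1 → g = 1 ∨ g = z := by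
  have : Fact (Nat.Prime 2) := ⟨Nat.prime_two⟩
  obtain ⟨z, hz⟩ := exists_prime_orderOf_dvd_card' (G := G) 2 he
  refine ⟨z, hz, ?_, ?_, ?_, ?_⟩
  · intro g
    have h1 : orderOf (g * z * g⁻¹) = 2 := by
      rw [← hz]
      exact orderOf_conj' g z
    have h2 := h.inv _ _ h1 hz
    rw [mul_inv_eq_iff_eq_mul] at h2
    exact h2
  · have := pow_orderOf_eq_one z
    rwa [hz, pow_two] at this
  · rintro rfl
    rw [orderOf_one] at hz
    omega
  · intro g hg
    by_cases hg1 : g = 1
    · exact Or.inl hg1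
    · right
      apply h.inv _ _ _ hz
      exact orderOf_eq_prime (by rw [pow_two, hg]) hg1

/-- Two commuting elements of the same prime order generate the same subgroup. -/
theorem FPF.mem_zpowers_of_comm (h : FPF G) (p : ℕ) (hp : p.Prime) (u v : G)
    (hu : orderOf u = p) (hv : orderOf v = p) (huv : u * v = v * u) :
    u ∈ Subgroup.zpowers v := by
  classical
  have : Fact p.Prime := ⟨hp⟩
  let H : Subgroup G := Subgroup.closure {u, v}
  have hab : ∀ a ∈ H, ∀ b ∈ H, a * b = b * a := by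
    intro a ha b hb
    have h1 : ∀ x ∈ ({u, v} : Set G), ∀ y ∈ ({u, v} : Set G), x * y = y * x := by
      rintro x (rfl | rfl) y (rfl | rfl)
      · rfl
      · exact huv
      · exact huv.symm
      · rfl
    have h2 := Subgroup.isMulCommutative_closure h1
    have h3 := h2.is_comm.comm (⟨a, ha⟩ : H) ⟨b, hb⟩
    exact congrArg Subtype.val h3
  have hcyc := h.ab H hab
  have : Fintype H := Fintype.ofFinite _
  let u' : H := ⟨u, Subgroup.subset_closure (by simp)⟩
  let v' : H := ⟨v, Subgroup.subset_closure (by simp)⟩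
  have hu' : orderOf u' = p := by rw [← hu]; exact Subgroup.orderOf_mk u _
  have hv' : orderOf v' = p := by rw [← hv]; exact Subgroup.orderOf_mk v _
  have h1 := IsCyclic.card_pow_eq_one_le (α := H) hp.pos
  have h2 : (Finset.univ.filter fun a : H => a ∈ Subgroup.zpowers v') ⊆
      Finset.univ.filter fun a : H => a ^ p = 1 := by
    intro a ha
    rw [Finset.mem_filter] at ha ⊢
    refine ⟨ha.1, ?_⟩
    obtain ⟨k, rfl⟩ := Subgroup.mem_zpowers_iff.mp ha.2
    rw [← zpow_natCast, ← zpow_mul, mul_comm, zpow_mul, zpow_natCast, ← hv', pow_orderOf_eq_one,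
      one_zpow]
  have h3 : (Finset.univ.filter fun a : H => a ∈ Subgroup.zpowers v').card = p := by
    rw [← hv', ← Nat.card_zpowers, Nat.card_eq_fintype_card, Fintype.card_subtype]
  have h4 := Finset.eq_of_subset_of_card_le h2 (by rw [h3]; exact h1)
  have h5 : u' ∈ Finset.univ.filter fun a : H => a ^ p = 1 := by
    rw [Finset.mem_filter]
    refine ⟨Finset.mem_univ _, ?_⟩
    rw [← hu', pow_orderOf_eq_one]
  rw [← h4, Finset.mem_filter] at h5
  obtain ⟨k, hk⟩ := Subgroup.mem_zpowers_iff.mp h5.2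
  exact Subgroup.mem_zpowers_iff.mpr ⟨k, congrArg Subtype.val hk⟩

theorem conj_pow' {x y : G} {c : ℕ} (h : y * x * y⁻¹ = x ^ c) (k : ℕ) :
    y * x ^ k * y⁻¹ = x ^ (c * k) := by
  rw [← conj_pow, h, ← pow_mul]

theorem conj_iter {x y : G} {c : ℕ} (h : y * x * y⁻¹ = x ^ c) (j : ℕ) :
    y ^ j * x * (y ^ j)⁻¹ = x ^ (c ^ j) := by
  induction j with
  | zero => simp
  | succ j ih =>
    have h1 : y ^ (j + 1) * x * (y ^ (j + 1))⁻¹ = y * (y ^ j * x * (y ^ j)⁻¹) * y⁻¹ := by
      rw [pow_succ']; group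
    rw [h1, ih, conj_pow' h, pow_succ']

theorem pow_eq_pow_iff_zmod {x : G} {m : ℕ} (hm : orderOf x = m) (a b : ℕ) :
    x ^ a = x ^ b ↔ (a : ZMod m) = b := by
  rw [pow_eq_pow_iff_modEq, hm, ZMod.natCast_eq_natCast_iff]

theorem exists_conj_pow {x y : G} (h : y * x * y⁻¹ ∈ Subgroup.zpowers x) :
    ∃ c : ℕ, y * x * y⁻¹ = x ^ c := by
  classical
  have h1 := (mem_zpowers_iff_mem_range_orderOf (x := x) (y := y * x * y⁻¹)).mp h
  obtain ⟨c, _, hc⟩ := Finset.mem_image.mp h1
  exact ⟨c, hc.symm⟩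

theorem FPF.cyclic_prime_sq (h : FPF G) {p : ℕ} (hp : p.Prime) (hG : Nat.card G = p ^ 2) :
    IsCyclic G := by
  have : Fact p.Prime := ⟨hp⟩
  have h1 := IsPGroup.isMulCommutative_of_card_eq_prime_sq hG
  exact h.cyclic_of_comm fun a b => h1.is_comm.comm a b

theorem FPF.exists_order_sq (h : FPF G) {p : ℕ} (hp : p.Prime) (hG : p ^ 2 ∣ Nat.card G) :
    ∃ x : G, orderOf x = p ^ 2 := by
  have : Fact p.Prime := ⟨hp⟩
  obtain ⟨K, hK⟩ := Sylow.exists_subgroup_card_pow_prime p hG
  have h1 := IsPGroup.isMulCommutative_of_card_eq_prime_sq hK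
  have h2 : IsCyclic K := h.ab K fun a ha b hb =>
    congrArg Subtype.val (h1.is_comm.comm (⟨a, ha⟩ : K) ⟨b, hb⟩)
  obtain ⟨g, hg⟩ := h2.exists_ofOrder_eq_natCard
  refine ⟨g.1, ?_⟩
  rw [Subgroup.orderOf_coe, hg, hK]

theorem cyclic_of_order (x : G) {N : ℕ} (h : orderOf x = N) (hG : Nat.card G = N) : IsCyclic G :=
  isCyclic_of_orderOf_eq_card x (by rw [h, hG])

/-- Twice an odd number, with an element of that odd order. -/
theorem FPF.cyclic_two_mul (h : FPF G) {M : ℕ} (hM : Odd M) (hG : Nat.card G = 2 * M) (x : G)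
    (hx : orderOf x = M) : IsCyclic G := by
  obtain ⟨z, hz, hzc, _, _, _⟩ := h.exists_z ⟨M, hG⟩
  apply cyclic_of_order (z * x) _ hG
  rw [Commute.orderOf_mul_eq_mul_orderOf_of_coprime (hzc x).symm, hz, hx]
  rw [hz, hx]
  exact hM.coprime_two_left

theorem FPF.cyclic_two_mul_prime (h : FPF G) {p : ℕ} (hp : p.Prime) (hp2 : Odd p)
    (hG : Nat.card G = 2 * p) : IsCyclic G := by
  have : Fact p.Prime := ⟨hp⟩
  obtain ⟨x, hx⟩ := exists_prime_orderOf_dvd_card' (G := G) p ⟨2, by rw [hG, mul_comm]⟩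
  exact h.cyclic_two_mul hp2 hG x hx

theorem FPF.cyclic18 (h : FPF G) (hG : Nat.card G = 18) : IsCyclic G := by
  obtain ⟨x, hx⟩ := h.exists_order_sq Nat.prime_three (by rw [hG]; norm_num)
  exact h.cyclic_two_mul (M := 9) (by decide) hG x hx

theorem normal_zpowers_of_minFac (x : G) {r p : ℕ} (hx : orderOf x = r)
    (hG : Nat.card G = r * p) (hr : 0 < r) (hp : (r * p).minFac = p) :
    (Subgroup.zpowers x).Normal := by
  apply Subgroup.normal_of_index_eq_minFac_card
  rw [hG, hp]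
  have h1 := (Subgroup.zpowers x).card_mul_index
  rw [Nat.card_zpowers, hx, hG] at h1
  exact Nat.eq_of_mul_eq_mul_left hr h1

theorem FPF.cyclic15 (h : FPF G) (hG : Nat.card G = 15) : IsCyclic G := by
  have : Fact (Nat.Prime 5) := ⟨by norm_num⟩
  have : Fact (Nat.Prime 3) := ⟨by norm_num⟩
  obtain ⟨x, hx⟩ := exists_prime_orderOf_dvd_card' (G := G) 5 (by rw [hG]; norm_num)
  obtain ⟨y, hy⟩ := exists_prime_orderOf_dvd_card' (G := G) 3 (by rw [hG]; norm_num)
  have hn := normal_zpowers_of_minFac x (p := 3) hx hG (by norm_num) (by norm_num)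
  obtain ⟨c, hc⟩ := exists_conj_pow (hn.conj_mem x (Subgroup.mem_zpowers x) y)
  have h3 := conj_iter hc 3
  have hy3 : y ^ 3 = 1 := by rw [← hy]; exact pow_orderOf_eq_one y
  rw [hy3, inv_one, mul_one, one_mul] at h3
  have h4 : x ^ 1 = x ^ (c ^ 3) := by rw [pow_one]; exact h3
  rw [pow_eq_pow_iff_zmod hx] at h4
  have h5 : (c : ZMod 5) = 1 := by
    apply key5
    have := h4
    push_cast at this
    exact this
  have h6 : x ^ c = x ^ 1 := by
    rw [pow_eq_pow_iff_zmod hx, h5]; simp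
  rw [h6, pow_one, mul_inv_eq_iff_eq_mul] at hc
  apply cyclic_of_order (y * x) _ hG
  rw [Commute.orderOf_mul_eq_mul_orderOf_of_coprime hc, hx, hy]
  rw [hx, hy]
  norm_num

theorem FPF.cyclic21 (h : FPF G) (hG : Nat.card G = 21) : IsCyclic G := by
  have : Fact (Nat.Prime 7) := ⟨by norm_num⟩
  have : Fact (Nat.Prime 3) := ⟨by norm_num⟩
  obtain ⟨x, hx⟩ := exists_prime_orderOf_dvd_card' (G := G) 7 (by rw [hG]; norm_num)
  obtain ⟨y, hy⟩ := exists_prime_orderOf_dvd_card' (G := G) 3 (by rw [hG]; norm_num)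
  have hn := normal_zpowers_of_minFac x (p := 3) hx hG (by norm_num) (by norm_num)
  obtain ⟨c, hc⟩ := exists_conj_pow (hn.conj_mem x (Subgroup.mem_zpowers x) y)
  have h3 := conj_iter hc 3
  have hy3 : y ^ 3 = 1 := by rw [← hy]; exact pow_orderOf_eq_one y
  rw [hy3, inv_one, mul_one, one_mul] at h3
  have h4 : x ^ 1 = x ^ (c ^ 3) := by rw [pow_one]; exact h3
  rw [pow_eq_pow_iff_zmod hx] at h4
  have h5 : (c : ZMod 7) = 1 ∨ (c : ZMod 7) = 2 ∨ (c : ZMod 7) = 4 := by
    apply key7
    have := h4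
    push_cast at this
    exact this
  rcases h5 with h5 | h5 | h5
  · have h6 : x ^ c = x ^ 1 := by
      rw [pow_eq_pow_iff_zmod hx, h5]; simp
    rw [h6, pow_one, mul_inv_eq_iff_eq_mul] at hc
    apply cyclic_of_order (y * x) _ hG
    rw [Commute.orderOf_mul_eq_mul_orderOf_of_coprime hc, hx, hy]
    rw [hx, hy]
    norm_num
  · exfalso
    apply h.no21 x y hx hy
    rw [hc, pow_eq_pow_iff_zmod hx, h5]; rfl
  · exfalso
    apply h.no21 x (y ^ 2) hx
    · rw [orderOf_pow' y (by norm_num), hy]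
      norm_num
    · rw [conj_iter hc 2, pow_eq_pow_iff_zmod hx]
      push_cast
      rw [h5]
      exact key7'

theorem FPF.cyclic27 (h : FPF G) (hG : Nat.card G = 27) : IsCyclic G := by
  classical
  by_contra hnc
  obtain ⟨x, hx⟩ := h.exists_order_sq Nat.prime_three (by rw [hG]; norm_num)
  have hx9 : orderOf x = 9 := hx
  have hn := normal_zpowers_of_minFac x (p := 3) hx9 hG (by norm_num) (by norm_num)
  have hidx : (Subgroup.zpowers x).index = 3 := by
    have h1 := (Subgroup.zpowers x).card_mul_index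
    rw [Nat.card_zpowers, hx9, hG] at h1
    omega
  obtain ⟨y, hy⟩ : ∃ y : G, y ∉ Subgroup.zpowers x := by
    by_contra hcon
    push Not at hcon
    have : Subgroup.zpowers x = ⊤ := by
      rw [Subgroup.eq_top_iff']; exact hcon
    rw [this, Subgroup.index_top] at hidx
    omega
  obtain ⟨c, hc⟩ := exists_conj_pow (hn.conj_mem x (Subgroup.mem_zpowers x) y)
  have hy3 : y ^ 3 ∈ Subgroup.zpowers x := by
    rw [← hidx]
    exact Subgroup.pow_index_mem _ y
  obtain ⟨b, _, hb⟩ := Finset.mem_image.mp ((mem_zpowers_iff_mem_range_orderOf).mp hy3)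
  have hb' : y ^ 3 = x ^ b := hb.symm
  have h3 := conj_iter hc 3
  rw [hb'] at h3
  have h4 : x ^ 1 = x ^ (c ^ 3) := by
    rw [← h3, pow_one]
    group
  rw [pow_eq_pow_iff_zmod hx9] at h4
  have h5 : x ^ b = x ^ (c * b) := by
    rw [← conj_pow' hc, ← hb']
    group
  rw [pow_eq_pow_iff_zmod hx9] at h5
  have hc1 : (c : ZMod 9) ≠ 1 := by
    intro h6
    apply hnc
    have h7 : y * x = x * y := by
      have : x ^ c = x ^ 1 := by rw [pow_eq_pow_iff_zmod hx9, h6]; simp
      rw [this, pow_one, mul_inv_eq_iff_eq_mul] at hc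
      exact hc
    apply h.cyclic_of_comm
    exact comm_of_prime_index Nat.prime_three hidx hy h7
  -- find j
  obtain ⟨⟨j, hj⟩, h3c⟩ := key9 c b (by simpa using h4) (by simpa using h5) hc1
  set u := x ^ j.val * y with hu
  have hu3 : u ^ 3 = 1 := by
    have hrel : ∀ k : ℕ, y * x ^ k = x ^ (c * k) * y := by
      intro k
      rw [← conj_pow' hc]; group
    have h1 : u ^ 3 = x ^ (j.val + c * j.val + c * (c * j.val) + b) := by
      calc u ^ 3 = x ^ j.val * (y * x ^ j.val) * (y * x ^ j.val) * y := by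
            rw [hu]; simp only [pow_succ, pow_zero, one_mul, mul_assoc]
        _ = x ^ j.val * (x ^ (c * j.val) * y) * (x ^ (c * j.val) * y) * y := by rw [hrel]
        _ = x ^ j.val * x ^ (c * j.val) * (y * x ^ (c * j.val)) * y * y := by
            simp only [mul_assoc]
        _ = x ^ j.val * x ^ (c * j.val) * (x ^ (c * (c * j.val)) * y) * y * y := by rw [hrel]
        _ = x ^ j.val * x ^ (c * j.val) * x ^ (c * (c * j.val)) * y ^ 3 := by
            simp only [pow_succ, pow_zero, one_mul, mul_assoc]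
        _ = _ := by rw [hb', ← pow_add, ← pow_add, ← pow_add]
    rw [h1, ← pow_zero x, pow_eq_pow_iff_zmod hx9]
    push_cast
    rw [ZMod.natCast_zmod_val]
    rw [← hj]
    ring
  have hun : u ∉ Subgroup.zpowers x := by
    intro h1
    apply hy
    have h2 : y = (x ^ j.val)⁻¹ * u := by rw [hu]; group
    rw [h2]
    exact Subgroup.mul_mem _ (Subgroup.inv_mem _ (Subgroup.pow_mem _ (Subgroup.mem_zpowers x) _)) h1
  have hu1 : u ≠ 1 := by
    intro h1
    exact hun (h1 ▸ Subgroup.one_mem _)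
  have : Fact (Nat.Prime 3) := ⟨Nat.prime_three⟩
  have huo : orderOf u = 3 := orderOf_eq_prime hu3 hu1
  have hx3 : orderOf (x ^ 3) = 3 := by
    rw [orderOf_pow' x (by norm_num), hx9]
    norm_num
  have hcomm : u * x ^ 3 = x ^ 3 * u := by
    rw [hu, mul_assoc]
    have h1 : y * x ^ 3 = x ^ 3 * y := by
      have h2 := conj_pow' hc 3
      have h3 : x ^ (c * 3) = x ^ 3 := by
        rw [pow_eq_pow_iff_zmod hx9]
        push_cast
        rw [mul_comm]
        exact h3c
      rw [h3, mul_inv_eq_iff_eq_mul] at h2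
      exact h2
    rw [h1, ← mul_assoc, ← mul_assoc, ← pow_add, ← pow_add, add_comm]
  have h6 := h.mem_zpowers_of_comm 3 Nat.prime_three u (x ^ 3) huo hx3 hcomm
  apply hun
  obtain ⟨k, hk⟩ := Subgroup.mem_zpowers_iff.mp h6
  rw [← hk]
  exact Subgroup.zpow_mem _ (Subgroup.pow_mem _ (Subgroup.mem_zpowers x) _) _

end Pool.Agent.Helper477.Sph
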