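import Pool.Agent.Helper477.Sph.Cls

set_option autoImplicit false
set_option linter.unusedSectionVars false

/-! # Groups with a cyclic subgroup of index two -/

namespace Pool.Agent.Helper477.Sph

variable {G : Type*} [Group G] [Finite G]

/-- A cyclic subgroup of index two, with its relations. -/
def T2 (G : Type*) [Group G] (m c b : ℕ) : Prop :=
  ∃ w y : G, orderOf w = m ∧ Nat.card G = 2 * m ∧ y ∉ Subgroup.zpowers w ∧
    y * w * y⁻¹ = w ^ c ∧ y * y = w ^ b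

theorem index_eq_two {w : G} {m : ℕ} (hm0 : 0 < m) (hm : orderOf w = m)
    (hG : Nat.card G = 2 * m) : (Subgroup.zpowers w).index = 2 := by
  have h1 := (Subgroup.zpowers w).card_mul_index
  rw [Nat.card_zpowers, hm, hG, mul_comm 2 m] at h1
  exact Nat.eq_of_mul_eq_mul_left hm0 h1

/-- The square of `w ^ j * y`. -/
theorem sq_formula {w y : G} {c b : ℕ} (hc : y * w * y⁻¹ = w ^ c) (hb : y * y = w ^ b) (j : ℕ) :
    (w ^ j * y) * (w ^ j * y) = w ^ (j + c * j + b) := by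
  have h1 : y * w ^ j = w ^ (c * j) * y := by
    rw [← conj_pow' hc]; group
  calc (w ^ j * y) * (w ^ j * y) = w ^ j * (y * w ^ j) * y := by simp only [mul_assoc]
    _ = w ^ j * w ^ (c * j) * (y * y) := by rw [h1]; simp only [mul_assoc]
    _ = _ := by rw [hb, ← pow_add, ← pow_add]

theorem FPF.index_two (h : FPF G) (hnc : ¬ IsCyclic G) {w : G} {m : ℕ} (hm0 : 0 < m)
    (hev : 2 ∣ m) (hm : orderOf w = m) (hG : Nat.card G = 2 * m) :
    ∃ y : G, y ∉ Subgroup.zpowers w ∧ ∃ c b : ℕ, y * w * y⁻¹ = w ^ c ∧ y * y = w ^ b ∧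
      (c * c : ZMod m) = 1 ∧ (b : ZMod m) = c * b ∧ (c : ZMod m) ≠ 1 ∧
      ∀ j : ZMod m, j + c * j + b ≠ 0 := by
  classical
  have hidx := index_eq_two hm0 hm hG
  have hn : (Subgroup.zpowers w).Normal := Subgroup.normal_of_index_eq_two hidx
  obtain ⟨y, hy⟩ : ∃ y : G, y ∉ Subgroup.zpowers w := by
    by_contra hcon
    push Not at hcon
    have : Subgroup.zpowers w = ⊤ := by
      rw [Subgroup.eq_top_iff']; exact hcon
    rw [this, Subgroup.index_top] at hidx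
    omega
  obtain ⟨c, hc⟩ := exists_conj_pow (hn.conj_mem w (Subgroup.mem_zpowers w) y)
  have hy2 : y * y ∈ Subgroup.zpowers w := by
    rw [Subgroup.mul_mem_iff_of_index_two hidx]
  obtain ⟨b, _, hb⟩ := Finset.mem_image.mp ((mem_zpowers_iff_mem_range_orderOf).mp hy2)
  have hb' : y * y = w ^ b := hb.symm
  have h3 := conj_iter hc 2
  rw [pow_two, hb'] at h3
  have h4 : w ^ 1 = w ^ (c ^ 2) := by
    rw [← h3, pow_one]
    group
  rw [pow_eq_pow_iff_zmod hm] at h4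
  have h5 : w ^ b = w ^ (c * b) := by
    rw [← conj_pow' hc, ← hb']
    group
  rw [pow_eq_pow_iff_zmod hm] at h5
  haveI : NeZero m := ⟨hm0.ne'⟩
  refine ⟨y, hy, c, b, hc, hb', ?_, ?_, ?_, ?_⟩
  · push_cast at h4
    rw [← pow_two, ← h4]
  · push_cast at h5
    exact h5
  · intro h6
    apply hnc
    have h7 : y * w = w * y := by
      have : w ^ c = w ^ 1 := by rw [pow_eq_pow_iff_zmod hm, h6]; simp
      rw [this, pow_one, mul_inv_eq_iff_eq_mul] at hc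
      exact hc
    exact h.cyclic_of_comm (comm_of_prime_index Nat.prime_two hidx hy h7)
  · intro j hj
    obtain ⟨z, hz, _, _, _, hz5⟩ := h.exists_z ⟨m, hG⟩
    have h6 : (w ^ j.val * y) * (w ^ j.val * y) = 1 := by
      rw [sq_formula hc hb', ← pow_zero w, pow_eq_pow_iff_zmod hm]
      push_cast
      rw [ZMod.natCast_zmod_val]
      exact hj
    have hzw : z ∈ Subgroup.zpowers w := by
      obtain ⟨k, hk⟩ := hev
      have h7 : orderOf (w ^ k) = 2 := by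
        have hk0 : k ≠ 0 := by rintro rfl; omega
        rw [orderOf_pow' w hk0, hm, hk, Nat.gcd_eq_right (Dvd.intro_left 2 rfl)]
        exact Nat.mul_div_cancel _ (Nat.pos_of_ne_zero hk0)
      rw [h.inv z (w ^ k) hz h7]
      exact Subgroup.pow_mem _ (Subgroup.mem_zpowers w) _
    apply hy
    have h7 : w ^ j.val * y ∈ Subgroup.zpowers w := by
      rcases hz5 _ h6 with h8 | h8
      · rw [h8]; exact Subgroup.one_mem _
      · rw [h8]; exact hzw
    have h8 : y = (w ^ j.val)⁻¹ * (w ^ j.val * y) := by group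
    rw [h8]
    exact Subgroup.mul_mem _ (Subgroup.inv_mem _ (Subgroup.pow_mem _ (Subgroup.mem_zpowers w) _)) h7

theorem k4 : ∀ c b : ZMod 4, c * c = 1 → b = c * b → c ≠ 1 → (∀ j : ZMod 4, j + c * j + b ≠ 0) →
    c = 3 ∧ b = 2 := by decide

theorem k6 : ∀ c b : ZMod 6, c * c = 1 → b = c * b → c ≠ 1 → (∀ j : ZMod 6, j + c * j + b ≠ 0) →
    c = 5 ∧ b = 3 := by decide

theorem k8 : ∀ c b : ZMod 8, c * c = 1 → b = c * b → c ≠ 1 → (∀ j : ZMod 8, j + c * j + b ≠ 0) →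
    c = 7 ∧ b = 4 := by decide

theorem k10 : ∀ c b : ZMod 10, c * c = 1 → b = c * b → c ≠ 1 →
    (∀ j : ZMod 10, j + c * j + b ≠ 0) → c = 9 ∧ b = 5 := by decide

theorem k12 : ∀ c b : ZMod 12, c * c = 1 → b = c * b → c ≠ 1 →
    (∀ j : ZMod 12, j + c * j + b ≠ 0) → (c = 11 ∧ b = 6) ∨
      (c = 7 ∧ ∃ j : ZMod 12, j + c * j + b = 6) ∨ (c = 5 ∧ ∃ j : ZMod 12, j + c * j + b = 9) := by
  decide

theorem k14 : ∀ c b : ZMod 14, c * c = 1 → b = c * b → c ≠ 1 →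
    (∀ j : ZMod 14, j + c * j + b ≠ 0) → c = 13 ∧ b = 7 := by decide

theorem T2_of {m : ℕ} (w y : G) (hm : orderOf w = m) (hG : Nat.card G = 2 * m)
    (hy : y ∉ Subgroup.zpowers w) {c b c' b' : ℕ} (hc : y * w * y⁻¹ = w ^ c)
    (hb : y * y = w ^ b) (h1 : (c : ZMod m) = c') (h2 : (b : ZMod m) = b') : T2 G m c' b' := by
  refine ⟨w, y, hm, hG, hy, ?_, ?_⟩
  · rw [hc, pow_eq_pow_iff_zmod hm, h1]
  · rw [hb, pow_eq_pow_iff_zmod hm, h2]

theorem FPF.t2_4 (h : FPF G) (hnc : ¬ IsCyclic G) {w : G} (hm : orderOf w = 4)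
    (hG : Nat.card G = 8) : T2 G 4 3 2 := by
  obtain ⟨y, hy, c, b, hc, hb, h1, h2, h3, h4⟩ :=
    h.index_two hnc (by norm_num) (by norm_num) hm hG
  obtain ⟨e1, e2⟩ := k4 c b h1 h2 h3 h4
  exact T2_of w y hm hG hy hc hb e1 e2

theorem FPF.t2_6 (h : FPF G) (hnc : ¬ IsCyclic G) {w : G} (hm : orderOf w = 6)
    (hG : Nat.card G = 12) : T2 G 6 5 3 := by
  obtain ⟨y, hy, c, b, hc, hb, h1, h2, h3, h4⟩ :=
    h.index_two hnc (by norm_num) (by norm_num) hm hG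
  obtain ⟨e1, e2⟩ := k6 c b h1 h2 h3 h4
  exact T2_of w y hm hG hy hc hb e1 e2

theorem FPF.t2_8 (h : FPF G) (hnc : ¬ IsCyclic G) {w : G} (hm : orderOf w = 8)
    (hG : Nat.card G = 16) : T2 G 8 7 4 := by
  obtain ⟨y, hy, c, b, hc, hb, h1, h2, h3, h4⟩ :=
    h.index_two hnc (by norm_num) (by norm_num) hm hG
  obtain ⟨e1, e2⟩ := k8 c b h1 h2 h3 h4
  exact T2_of w y hm hG hy hc hb e1 e2

theorem FPF.t2_10 (h : FPF G) (hnc : ¬ IsCyclic G) {w : G} (hm : orderOf w = 10)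
    (hG : Nat.card G = 20) : T2 G 10 9 5 := by
  obtain ⟨y, hy, c, b, hc, hb, h1, h2, h3, h4⟩ :=
    h.index_two hnc (by norm_num) (by norm_num) hm hG
  obtain ⟨e1, e2⟩ := k10 c b h1 h2 h3 h4
  exact T2_of w y hm hG hy hc hb e1 e2

theorem FPF.t2_14 (h : FPF G) (hnc : ¬ IsCyclic G) {w : G} (hm : orderOf w = 14)
    (hG : Nat.card G = 28) : T2 G 14 13 7 := by
  obtain ⟨y, hy, c, b, hc, hb, h1, h2, h3, h4⟩ :=
    h.index_two hnc (by norm_num) (by norm_num) hm hG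
  obtain ⟨e1, e2⟩ := k14 c b h1 h2 h3 h4
  exact T2_of w y hm hG hy hc hb e1 e2

/-- Replacing `y` by `w ^ j * y`. -/
theorem T2_shift {m : ℕ} [NeZero m] (w y : G) (hm : orderOf w = m) (hG : Nat.card G = 2 * m)
    (hy : y ∉ Subgroup.zpowers w) {c b c' b' : ℕ} (hc : y * w * y⁻¹ = w ^ c)
    (hb : y * y = w ^ b) (h1 : (c : ZMod m) = c') (j : ZMod m)
    (h2 : j + (c : ZMod m) * j + b = b') : T2 G m c' b' := by
  refine ⟨w, w ^ j.val * y, hm, hG, ?_, ?_, ?_⟩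
  · intro h7
    apply hy
    have h8 : y = (w ^ j.val)⁻¹ * (w ^ j.val * y) := by group
    rw [h8]
    exact Subgroup.mul_mem _ (Subgroup.inv_mem _ (Subgroup.pow_mem _ (Subgroup.mem_zpowers w) _)) h7
  · have h3 : w ^ j.val * y * w * (w ^ j.val * y)⁻¹ = w ^ j.val * (y * w * y⁻¹) * (w ^ j.val)⁻¹ := by
      group
    rw [h3, hc, ← pow_add, add_comm, pow_add, mul_inv_cancel_right, pow_eq_pow_iff_zmod hm, h1]
  · rw [sq_formula hc hb, pow_eq_pow_iff_zmod hm, ← h2]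
    push_cast
    rw [ZMod.natCast_zmod_val]

theorem FPF.t2_12 (h : FPF G) (hnc : ¬ IsCyclic G) {w : G} (hm : orderOf w = 12)
    (hG : Nat.card G = 24) : T2 G 12 11 6 ∨ T2 G 12 7 6 ∨ T2 G 12 5 9 := by
  obtain ⟨y, hy, c, b, hc, hb, h1, h2, h3, h4⟩ :=
    h.index_two hnc (by norm_num) (by norm_num) hm hG
  rcases k12 c b h1 h2 h3 h4 with ⟨e1, e2⟩ | ⟨e1, j, e2⟩ | ⟨e1, j, e2⟩
  · left
    exact T2_of w y hm hG hy hc hb e1 e2
  · right; left
    exact T2_shift w y hm hG hy hc hb e1 j e2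
  · right; right
    exact T2_shift w y hm hG hy hc hb e1 j e2

end Pool.Agent.Helper477.Sph
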