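import Pool.Agent.Helper477.Sph.Cls2

set_option autoImplicit false
set_option linter.unusedSectionVars false

/-! # Orders 16 and 24 -/

namespace Pool.Agent.Helper477.Sph

variable {G : Type*} [Group G] [Finite G]

theorem exists_notMem_list (l : List G) (h : l.length < Nat.card G) : ∃ x : G, x ∉ l := by
  classical
  by_contra hcon
  push Not at hcon
  have : Fintype G := Fintype.ofFinite G
  have h1 : (Finset.univ : Finset G) ⊆ l.toFinset := fun x _ => List.mem_toFinset.mpr (hcon x)
  have h2 := Finset.card_le_card h1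
  rw [Finset.card_univ, ← Nat.card_eq_fintype_card] at h2
  have h3 := List.toFinset_card_le l
  omega

theorem exists_mem_notMem_list (K : Subgroup G) (l : List G) (h : l.length < Nat.card K) :
    ∃ x ∈ K, x ∉ l := by
  classical
  by_contra hcon
  push Not at hcon
  have : Fintype K := Fintype.ofFinite K
  have h1 : ((Finset.univ : Finset K).map ⟨Subtype.val, Subtype.val_injective⟩) ⊆ l.toFinset := by
    intro x hx
    obtain ⟨k, _, rfl⟩ := Finset.mem_map.mp hx
    exact List.mem_toFinset.mpr (hcon k.1 k.2)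
  have h2 := Finset.card_le_card h1
  rw [Finset.card_map, Finset.card_univ, ← Nat.card_eq_fintype_card] at h2
  have h3 := List.toFinset_card_le l
  omega

/-- Anticommutation. -/
theorem anti {z g h : G} (hz : z * z = 1) (hc : ∀ g, g * z = z * g) (hg : g * g = z)
    (hh : h * h = z) (hgh : (g * h) * (g * h) = z) : h * g = g * h * z := by
  have h1 : g⁻¹ = g * z := by
    rw [inv_eq_iff_mul_eq_one, ← mul_assoc, hg, hz]
  have h2 : h⁻¹ = h * z := by
    rw [inv_eq_iff_mul_eq_one, ← mul_assoc, hh, hz]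
  calc h * g = g⁻¹ * ((g * h) * (g * h)) * h⁻¹ := by group
    _ = g⁻¹ * z * h⁻¹ := by rw [hgh]
    _ = (g * z) * z * (h * z) := by rw [h1, h2]
    _ = g * (z * z) * (h * z) := by simp only [mul_assoc]
    _ = g * h * z := by rw [hz, mul_one, mul_assoc]

theorem inv_of_sq {z g : G} (hz : z * z = 1) (hg : g * g = z) : g⁻¹ = g * z := by
  rw [inv_eq_iff_mul_eq_one, ← mul_assoc, hg, hz]

theorem no_fourth {z a b l : G} (hzz : z * z = 1) (hzc : ∀ g, g * z = z * g) (hz1 : z ≠ 1)
    (haa : a * a = z) (hbb : b * b = z) (hll : l * l = z) (hab : (a * b) * (a * b) = z)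
    (hal : (a * l) * (a * l) = z) (hbl : (b * l) * (b * l) = z)
    (habl : (a * b * l) * (a * b * l) = z) : False := by
  have a2 := anti hzz hzc haa hll hal
  have a3 := anti hzz hzc hbb hll hbl
  have a4 := anti hzz hzc hab hll habl
  have e1 : l * (a * b) = a * b * l := by
    calc l * (a * b) = (l * a) * b := by rw [mul_assoc]
      _ = a * l * z * b := by rw [a2]
      _ = a * l * b * z := by rw [mul_assoc (a * l), ← hzc, ← mul_assoc]
      _ = a * (l * b) * z := by rw [mul_assoc a l b]
      _ = a * (b * l * z) * z := by rw [a3]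
      _ = a * b * l * (z * z) := by simp only [mul_assoc]
      _ = _ := by rw [hzz, mul_one]
  rw [e1] at a4
  apply hz1
  have h5 : a * b * l * 1 = a * b * l * z := by rw [mul_one]; exact a4
  exact (mul_left_cancel h5).symm

theorem FPF.sq_eq_z (h : FPF G) {z g : G} (hz : orderOf z = 2) (hg : orderOf g = 4) :
    g * g = z := by
  apply h.inv _ _ _ hz
  rw [← pow_two, orderOf_pow' g (by norm_num), hg]
  norm_num

theorem FPF.order8_of_16 (h : FPF G) (hnc : ¬ IsCyclic G) (hG : Nat.card G = 16) :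
    ∃ w : G, orderOf w = 8 := by
  obtain ⟨z, hz, hzc, hzz, hz1, hz5⟩ := h.exists_z (by rw [hG]; norm_num)
  by_contra hcon
  push Not at hcon
  have hsq : ∀ g : G, g ≠ 1 → g ≠ z → g * g = z := by
    intro g hg1 hgz
    apply h.sq_eq_z hz
    have h1 : orderOf g ∣ 2 ^ 4 := by
      have := orderOf_dvd_natCard g
      rw [hG] at this
      exact this
    obtain ⟨k, hk, hk'⟩ := (Nat.dvd_prime_pow Nat.prime_two).mp h1
    interval_cases k
    · exact absurd (orderOf_eq_one_iff.mp hk') hg1
    · exact absurd (h.inv g z hk' hz) hgz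
    · exact hk'
    · exact absurd hk' (hcon g)
    · exact absurd (cyclic_of_order g hk' hG) hnc
  obtain ⟨g, hg⟩ := exists_notMem_list ([1, z] : List G) (by rw [hG]; simp)
  simp only [List.mem_cons, List.not_mem_nil, or_false, not_or] at hg
  obtain ⟨hg1, hgz⟩ := hg
  obtain ⟨k, hk⟩ := exists_notMem_list ([1, z, g, g * z] : List G) (by rw [hG]; simp)
  simp only [List.mem_cons, List.not_mem_nil, or_false, not_or] at hk
  obtain ⟨hk1, hkz, hkg, hkgz⟩ := hk
  obtain ⟨l, hl⟩ := exists_notMem_list ([1, z, g, g * z, k, k * z, g * k, g * k * z] : List G)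
    (by rw [hG]; simp)
  simp only [List.mem_cons, List.not_mem_nil, or_false, not_or] at hl
  obtain ⟨hl1, hlz, hlg, hlgz, hlk, hlkz, hlgk, hlgkz⟩ := hl
  have hgg := hsq g hg1 hgz
  have hkk := hsq k hk1 hkz
  have hll := hsq l hl1 hlz
  have hz' : ∀ a : G, a * z * z = a := fun a => by rw [mul_assoc, hzz, mul_one]
  -- products are non-trivial
  have nt : ∀ a b : G, a * a = z → b ≠ a → b ≠ a * z → a * b ≠ 1 ∧ a * b ≠ z := by
    intro a b ha h1 h2
    have hai := inv_of_sq hzz ha
    constructor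
    · intro h3
      apply h2
      rw [← hai]
      exact eq_inv_of_mul_eq_one_right h3
    · intro h3
      apply h1
      have h4 : b = a⁻¹ * z := by rw [← h3]; group
      rw [h4, hai, hz']
  obtain ⟨n1, n2⟩ := nt g k hgg hkg hkgz
  obtain ⟨n3, n4⟩ := nt g l hgg hlg hlgz
  obtain ⟨n5, n6⟩ := nt k l hkk hlk hlkz
  have hgk := hsq _ n1 n2
  obtain ⟨n7, n8⟩ := nt (g * k) l hgk hlgk hlgkz
  have a1 := anti hzz hzc hgg hkk hgk
  have a2 := anti hzz hzc hgg hll (hsq _ n3 n4)
  have a3 := anti hzz hzc hkk hll (hsq _ n5 n6)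
  have a4 := anti hzz hzc hgk hll (hsq _ n7 n8)
  -- l * (g * k) = g * k * l * z, but also = g * k * l
  have e1 : l * (g * k) = g * k * l := by
    calc l * (g * k) = (l * g) * k := by rw [mul_assoc]
      _ = g * l * z * k := by rw [a2]
      _ = g * l * k * z := by rw [mul_assoc (g * l), ← hzc, ← mul_assoc]
      _ = g * (l * k) * z := by rw [mul_assoc g l k]
      _ = g * (k * l * z) * z := by rw [a3]
      _ = g * k * l * (z * z) := by simp only [mul_assoc]
      _ = _ := by rw [hzz, mul_one]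
  rw [e1] at a4
  apply hz1
  have h5 : g * k * l * 1 = g * k * l * z := by rw [mul_one]; exact a4
  exact (mul_left_cancel h5).symm

theorem key8 : ∀ c : ZMod 8, 1 = c ^ 3 → c = 1 := by decide

/-- The binary tetrahedral structure. -/
def SL (G : Type*) [Group G] : Prop :=
  ∃ x i j z : G, x ^ 3 = 1 ∧ z * z = 1 ∧ z ≠ 1 ∧ orderOf z = 2 ∧ i * i = z ∧ j * j = z ∧
    j * i = i * j * z ∧ x * i * x⁻¹ = j ∧ x * j * x⁻¹ = i * j ∧
    Subgroup.closure ({x, i, j} : Set G) = ⊤ ∧ Nat.card G = 24

theorem FPF.sl24 (h : FPF G) (hnc : ¬ IsCyclic G) (hG : Nat.card G = 24)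
    (h12 : ∀ g : G, orderOf g ≠ 12) : SL G := by
  classical
  have f2 : Fact (Nat.Prime 2) := ⟨Nat.prime_two⟩
  have f3 : Fact (Nat.Prime 3) := ⟨Nat.prime_three⟩
  obtain ⟨z, hz, hzc, hzz, hz1, hz5⟩ := h.exists_z (by rw [hG]; norm_num)
  have hz' : ∀ a : G, a * z * z = a := fun a => by rw [mul_assoc, hzz, mul_one]
  -- elements of order 3 and 4 do not commute
  have h34 : ∀ a b : G, orderOf a = 3 → orderOf b = 4 → a * b ≠ b * a := by
    intro a b ha hb hab
    apply h12 (a * b)
    rw [Commute.orderOf_mul_eq_mul_orderOf_of_coprime hab, ha, hb]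
    rw [ha, hb]
    norm_num
  have h38 : ∀ a b : G, orderOf a = 3 → orderOf b = 8 → a * b ≠ b * a := by
    intro a b ha hb hab
    apply h34 a (b ^ 2) ha
    · rw [orderOf_pow' b (by norm_num), hb]
      norm_num
    · rw [pow_two, ← mul_assoc, hab, mul_assoc, hab, mul_assoc]
  obtain ⟨K, hK⟩ := Sylow.exists_subgroup_card_pow_prime (G := G) 2 (n := 3) (by rw [hG]; norm_num)
  norm_num at hK
  have hKord : ∀ k ∈ K, orderOf k ∣ 8 := by
    intro k hk
    have h1 := orderOf_dvd_natCard (⟨k, hk⟩ : K)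
    rw [hK, Subgroup.orderOf_mk] at h1
    exact h1
  have hK4 : ∀ k ∈ K, k ≠ 1 → k ≠ z → orderOf k = 4 ∨ orderOf k = 8 := by
    intro k hk hk1 hkz
    have h1 : orderOf k ∣ 2 ^ 3 := hKord k hk
    obtain ⟨e, he, he'⟩ := (Nat.dvd_prime_pow Nat.prime_two).mp h1
    interval_cases e
    · exact absurd (orderOf_eq_one_iff.mp he') hk1
    · exact absurd (h.inv k z he' hz) hkz
    · exact Or.inl he'
    · exact Or.inr he'
  obtain ⟨x, hx⟩ := exists_prime_orderOf_dvd_card' (G := G) 3 (by rw [hG]; norm_num)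
  have hx3 : x ^ 3 = 1 := by rw [← hx]; exact pow_orderOf_eq_one x
  -- products of distinct elements of K are non-trivial
  have nt : ∀ a b : G, a * a = z → b ≠ a → b ≠ a * z → a * b ≠ 1 ∧ a * b ≠ z := by
    intro a b ha h1 h2
    have hai := inv_of_sq hzz ha
    constructor
    · intro h3
      apply h2
      rw [← hai]
      exact eq_inv_of_mul_eq_one_right h3
    · intro h3
      apply h1
      have h4 : b = a⁻¹ * z := by rw [← h3]; group
      rw [h4, hai, hz']
  -- the subgroup generated by an element of order 3 is not normal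
  have hnn : ∀ a : G, orderOf a = 3 → ¬ (Subgroup.zpowers a).Normal := by
    intro a ha hn
    have hact : ∀ g : G, g * a * g⁻¹ = a ∨ g * a * g⁻¹ = a ^ 2 := by
      intro g
      have h1 := (mem_zpowers_iff_mem_range_orderOf).mp
        (hn.conj_mem a (Subgroup.mem_zpowers a) g)
      rw [ha] at h1
      obtain ⟨c, hc, hc'⟩ := Finset.mem_image.mp h1
      rw [Finset.mem_range] at hc
      interval_cases c
      · exfalso
        rw [pow_zero] at hc'
        have h2 : orderOf (g * a * g⁻¹) = 3 := by rw [orderOf_conj', ha]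
        rw [← hc', orderOf_one] at h2
        omega
      · left; rw [← hc', pow_one]
      · right; exact hc'.symm
    have ha4 : a ^ 4 = a := by
      have : a ^ 3 = 1 := by rw [← ha]; exact pow_orderOf_eq_one a
      rw [pow_succ, this, one_mul]
    have hinv : ∀ g : G, orderOf g = 4 → g * a * g⁻¹ = a ^ 2 := by
      intro g hg
      rcases hact g with h1 | h1
      · exfalso
        apply h34 a g ha hg
        rw [mul_inv_eq_iff_eq_mul] at h1
        exact h1.symm
      · exact h1
    have hall4 : ∀ k ∈ K, k ≠ 1 → k ≠ z → orderOf k = 4 := by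
      intro k hk hk1 hkz
      rcases hK4 k hk hk1 hkz with h1 | h1
      · exact h1
      · exfalso
        have h2 : orderOf (k ^ 2) = 4 := by
          rw [orderOf_pow' k (by norm_num), h1]
          norm_num
        have h3 : k ^ 2 * a * (k ^ 2)⁻¹ = a := by
          rcases hact k with h4 | h4
          · have h5 : k * a * k⁻¹ = a ^ 1 := by rw [h4, pow_one]
            have := conj_iter h5 2
            rw [this]; simp
          · have := conj_iter h4 2
            rw [this]
            norm_num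
            exact ha4
        apply h34 a (k ^ 2) ha h2
        rw [mul_inv_eq_iff_eq_mul] at h3
        exact h3.symm
    obtain ⟨g, hg, hg'⟩ := exists_mem_notMem_list K ([1, z] : List G) (by rw [hK]; simp)
    simp only [List.mem_cons, List.not_mem_nil, or_false, not_or] at hg'
    have hgo := hall4 g hg hg'.1 hg'.2
    have hgg := h.sq_eq_z hz hgo
    obtain ⟨k, hk, hk'⟩ := exists_mem_notMem_list K ([1, z, g, g * z] : List G)
      (by rw [hK]; simp)
    simp only [List.mem_cons, List.not_mem_nil, or_false, not_or] at hk'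
    obtain ⟨hk1, hkz, hkg, hkgz⟩ := hk'
    have hko := hall4 k hk hk1 hkz
    obtain ⟨n1, n2⟩ := nt g k hgg hkg hkgz
    have hgk := hall4 (g * k) (K.mul_mem hg hk) n1 n2
    have e1 := hinv _ hgk
    have e2 := hinv _ hgo
    have e3 := hinv _ hko
    have e4 : g * k * a * (g * k)⁻¹ = a := by
      have e5 : g * k * a * (g * k)⁻¹ = g * (k * a * k⁻¹) * g⁻¹ := by group
      rw [e5, e3, conj_pow' e2, show 2 * 2 = 4 from rfl, ha4]
    apply h34 a (g * k) ha hgk
    rw [mul_inv_eq_iff_eq_mul] at e4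
    exact e4.symm
  -- Sylow 3-subgroups
  have hPcard : ∀ P : Sylow 3 G, Nat.card P = 3 ∧ P.index = 8 := by
    intro P
    obtain ⟨k, hk⟩ := IsPGroup.iff_card.mp P.2
    have h1 := (P : Subgroup G).card_mul_index
    rw [hG] at h1
    have h2 : Nat.card P ∣ 24 := Dvd.intro _ h1
    have hk' : Nat.card P = 3 ^ k := hk
    have hk1 : k ≤ 1 := by
      by_contra hcon
      have h3 : 3 ^ 2 ∣ 24 := (pow_dvd_pow 3 (by omega : 2 ≤ k)).trans (hk' ▸ h2)
      omega
    have hnd := P.not_dvd_index
    interval_cases k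
    · exfalso
      rw [pow_zero] at hk'
      have h3 : (P : Subgroup G).index = 24 := by
        rw [show Nat.card (P : Subgroup G) = 1 from hk', one_mul] at h1
        exact h1
      apply hnd
      rw [h3]
      norm_num
    · rw [pow_one] at hk'
      refine ⟨hk', ?_⟩
      rw [show Nat.card (P : Subgroup G) = 3 from hk'] at h1
      omega
  have hgen : ∀ P : Sylow 3 G, ∃ g : G, orderOf g = 3 ∧ Subgroup.zpowers g = (P : Subgroup G) := by
    intro P
    obtain ⟨g, hg⟩ := exists_prime_orderOf_dvd_card' (G := P) 3 (by rw [(hPcard P).1])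
    refine ⟨g.1, by rw [Subgroup.orderOf_coe, hg], ?_⟩
    apply Subgroup.eq_of_le_of_card_ge
    · rw [Subgroup.zpowers_le]; exact g.2
    · rw [Nat.card_zpowers, Subgroup.orderOf_coe, hg]
      exact (hPcard P).1.le
  choose gen hgen3 hgenP using hgen
  have hn3 : Nat.card (Sylow 3 G) = 4 := by
    have P : Sylow 3 G := default
    have h1 : Nat.card (Sylow 3 G) ∣ 8 := by
      rw [← (hPcard P).2]
      exact P.card_dvd_index
    have h2 := card_sylow_modEq_one 3 G
    have h3 : Nat.card (Sylow 3 G) ≤ 8 := Nat.le_of_dvd (by norm_num) h1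
    have h4 : Nat.card (Sylow 3 G) ≠ 1 := by
      intro h5
      apply hnn (gen P) (hgen3 P)
      rw [hgenP P]
      have : Subsingleton (Sylow 3 G) := (Nat.card_eq_one_iff_unique.mp h5).1
      exact P.normal_of_subsingleton
    rw [Nat.ModEq] at h2
    generalize Nat.card (Sylow 3 G) = N at *
    interval_cases N <;> omega
  have hg3 : ∀ P, gen P ^ 3 = 1 := fun P => by rw [← hgen3 P]; exact pow_orderOf_eq_one _
  have hz4 : z ^ 4 = 1 := by
    have : z ^ 2 = 1 := by rw [pow_two, hzz]
    rw [show 4 = 2 * 2 from rfl, pow_mul, this, one_pow]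
  -- the parametrised elements of order 3 and 6
  let f0 : Sylow 3 G × Bool × Bool → G := fun t =>
    (if t.2.2 then z else 1) * (if t.2.1 then gen t.1 else (gen t.1)⁻¹)
  have hf4 : ∀ t, f0 t ^ 4 = if t.2.1 then gen t.1 else (gen t.1)⁻¹ := by
    intro t
    have hcomm : ∀ u : G, Commute (if t.2.2 then z else 1) u := by
      intro u
      split_ifs
      · exact (hzc u).symm
      · exact Commute.one_left u
    have h1 : (if t.2.2 then z else 1 : G) ^ 4 = 1 := by
      split_ifs
      · exact hz4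
      · exact one_pow 4
    have h2 : (if t.2.1 then gen t.1 else (gen t.1)⁻¹ : G) ^ 4 =
        if t.2.1 then gen t.1 else (gen t.1)⁻¹ := by
      split_ifs
      · rw [pow_succ, hg3, one_mul]
      · rw [inv_pow, pow_succ, hg3, one_mul]
    change ((if t.2.2 then z else 1) * (if t.2.1 then gen t.1 else (gen t.1)⁻¹)) ^ 4 = _
    rw [(hcomm _).mul_pow, h1, one_mul, h2]
  have hgne : ∀ P, gen P ≠ (gen P)⁻¹ := by
    intro P h1
    have h2 : gen P ^ 2 = 1 := by
      rw [pow_two]
      nth_rw 2 [h1]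
      exact mul_inv_cancel _
    have h3 : orderOf (gen P) ∣ 2 := orderOf_dvd_of_pow_eq_one h2
    rw [hgen3 P] at h3
    omega
  have hz8 : ∀ t, f0 t ^ 8 ≠ 1 := by
    intro t h1
    have h2 : (f0 t ^ 4) ^ 2 = 1 := by rw [← pow_mul]; exact h1
    rw [hf4] at h2
    apply hgne t.1
    split_ifs at h2 with h3
    · exact eq_inv_of_mul_eq_one_left (by rw [← pow_two]; exact h2)
    · rw [inv_pow, inv_eq_one] at h2
      exact eq_inv_of_mul_eq_one_left (by rw [← pow_two]; exact h2)
  have hfK : ∀ t, f0 t ∉ K := by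
    intro t ht
    exact hz8 t (orderOf_dvd_iff_pow_eq_one.mp (hKord _ ht))
  have hfinj : Function.Injective f0 := by
    intro t t' htt
    have h1 : f0 t ^ 4 = f0 t' ^ 4 := by rw [htt]
    rw [hf4, hf4] at h1
    have h2 : Subgroup.zpowers (gen t.1) = Subgroup.zpowers (gen t'.1) := by
      split_ifs at h1 with h3 h4 h4
      · rw [h1]
      · rw [h1, Subgroup.zpowers_inv]
      · rw [← h1, Subgroup.zpowers_inv]
      · rw [inv_injective h1]
    have h3 : t.1 = t'.1 := by
      rw [hgenP, hgenP] at h2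
      exact Sylow.ext h2
    have h4 : t.2.1 = t'.2.1 := by
      rw [h3] at h1
      rcases ht : t.2.1 with _ | _ <;> rcases ht' : t'.2.1 with _ | _
      · rfl
      · rw [ht, ht'] at h1
        simp only [Bool.false_eq_true, if_false, if_true] at h1
        exact absurd h1.symm (hgne t'.1)
      · rw [ht, ht'] at h1
        simp only [Bool.false_eq_true, if_false, if_true] at h1
        exact absurd h1 (hgne t'.1)
      · rfl
    have h5 : (if t.2.2 then z else 1 : G) = if t'.2.2 then z else 1 := by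
      have h6 : (if t.2.2 then z else 1) * (if t.2.1 then gen t.1 else (gen t.1)⁻¹) =
        (if t'.2.2 then z else 1) * (if t'.2.1 then gen t'.1 else (gen t'.1)⁻¹) := htt
      rw [h3, h4] at h6
      exact mul_right_cancel h6
    have h6 : t.2.2 = t'.2.2 := by
      rcases ht : t.2.2 with _ | _ <;> rcases ht' : t'.2.2 with _ | _
      · rfl
      · rw [ht, ht'] at h5
        simp only [Bool.false_eq_true, if_false, if_true] at h5
        exact absurd h5.symm hz1
      · rw [ht, ht'] at h5
        simp only [Bool.false_eq_true, if_false, if_true] at h5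
        exact absurd h5 hz1
      · rfl
    exact Prod.ext h3 (Prod.ext h4 h6)
  -- K is normal
  have hKn : ∀ k ∈ K, ∀ g : G, g * k * g⁻¹ ∈ K := by
    intro k hk g
    by_contra hcon
    let f : Sylow 3 G × Bool × Bool → {g : G // g ∉ K} := fun t => ⟨f0 t, hfK t⟩
    have hfi : Function.Injective f := fun t t' htt => hfinj (congrArg Subtype.val htt)
    have hc1 : Nat.card (Sylow 3 G × Bool × Bool) = 16 := by
      rw [Nat.card_prod, Nat.card_prod, hn3]
      simp
    have hc2 : Nat.card {g : G // g ∉ K} = 16 := by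
      have : Fintype G := Fintype.ofFinite G
      rw [Nat.card_eq_fintype_card, Fintype.card_subtype_compl, ← Nat.card_eq_fintype_card, hG]
      have : Fintype.card {x // x ∈ K} = 8 := by rw [← Nat.card_eq_fintype_card]; exact hK
      rw [this]
    have hfb := hfi.bijective_of_nat_card_le (by rw [hc1, hc2])
    obtain ⟨t, ht⟩ := hfb.2 ⟨g * k * g⁻¹, hcon⟩
    have h1 : f0 t = g * k * g⁻¹ := congrArg Subtype.val ht
    apply hz8 t
    rw [h1, conj_pow]
    have h2 : k ^ 8 = 1 := orderOf_dvd_iff_pow_eq_one.mp (hKord k hk)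
    rw [h2, mul_one, mul_inv_cancel]
  -- every non-central element of K squares to z
  have hsq : ∀ k ∈ K, k ≠ 1 → k ≠ z → k * k = z := by
    intro k hk hk1 hkz
    rcases hK4 k hk hk1 hkz with h1 | h1
    · exact h.sq_eq_z hz h1
    · exfalso
      have h2 : Subgroup.zpowers k = K := by
        apply Subgroup.eq_of_le_of_card_ge
        · rw [Subgroup.zpowers_le]; exact hk
        · rw [Nat.card_zpowers, h1, hK]
      obtain ⟨c, hc⟩ := exists_conj_pow (x := k) (y := x) (by rw [h2]; exact hKn k hk x)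
      have h3 := conj_iter hc 3
      rw [hx3, inv_one, mul_one, one_mul] at h3
      have h4 : k ^ 1 = k ^ (c ^ 3) := by rw [pow_one]; exact h3
      rw [pow_eq_pow_iff_zmod h1] at h4
      have h5 : (c : ZMod 8) = 1 := by
        apply key8
        have := h4
        push_cast at this
        exact this
      have h6 : k ^ c = k ^ 1 := by rw [pow_eq_pow_iff_zmod h1, h5]; simp
      rw [h6, pow_one, mul_inv_eq_iff_eq_mul] at hc
      exact h38 x k hx h1 hc
  obtain ⟨i, hi, hi'⟩ := exists_mem_notMem_list K ([1, z] : List G) (by rw [hK]; simp)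
  simp only [List.mem_cons, List.not_mem_nil, or_false, not_or] at hi'
  obtain ⟨hi1, hiz⟩ := hi'
  have hii := hsq i hi hi1 hiz
  have hi4 : ∀ k ∈ K, k ≠ 1 → k ≠ z → orderOf k = 4 := by
    intro k hk hk1 hkz
    rcases hK4 k hk hk1 hkz with h1 | h1
    · exact h1
    · exfalso
      have h2 := hsq k hk hk1 hkz
      have h3 : k ^ 4 = 1 := by
        rw [show 4 = 2 * 2 from rfl, pow_mul, pow_two k, h2, pow_two, hzz]
      have h4 := orderOf_dvd_of_pow_eq_one h3
      rw [h1] at h4
      omega
  -- x commutes with no element of order 4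
  have hxc : ∀ k ∈ K, k ≠ 1 → k ≠ z → x * k * x⁻¹ ≠ k := by
    intro k hk hk1 hkz h1
    apply h34 x k hx (hi4 k hk hk1 hkz)
    rw [mul_inv_eq_iff_eq_mul] at h1
    exact h1
  have hx4 : ∀ k : G, x * (x * (x * k * x⁻¹) * x⁻¹) * x⁻¹ = k := by
    intro k
    have : x * (x * (x * k * x⁻¹) * x⁻¹) * x⁻¹ = x ^ 3 * k * (x ^ 3)⁻¹ := by
      simp only [pow_succ, pow_zero, one_mul]; group
    rw [this, hx3]; group
  set j := x * i * x⁻¹ with hj
  set k := x * j * x⁻¹ with hk
  have hxk : x * k * x⁻¹ = i := hx4 i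
  have hjK : j ∈ K := hKn i hi x
  have hkK : k ∈ K := hKn j hjK x
  have hconj1 : ∀ a : G, a ≠ 1 → x * a * x⁻¹ ≠ 1 := by
    intro a ha h1
    apply ha
    rw [mul_inv_eq_one] at h1
    have : x * a = x * 1 := by rw [h1, mul_one]
    exact mul_left_cancel this
  have hxz : x * z * x⁻¹ = z := by rw [hzc]; group
  have hconjz : ∀ a : G, a ≠ z → x * a * x⁻¹ ≠ z := by
    intro a ha h1
    apply ha
    have h2 : x * a * x⁻¹ = x * z * x⁻¹ := by rw [h1, hxz]
    exact mul_left_cancel (mul_right_cancel h2)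
  have hj1 : j ≠ 1 := hconj1 i hi1
  have hjz : j ≠ z := hconjz i hiz
  have hk1 : k ≠ 1 := hconj1 j hj1
  have hkz : k ≠ z := hconjz j hjz
  have hjj := hsq j hjK hj1 hjz
  have hji : j ≠ i := hxc i hi hi1 hiz
  have hxmz : ∀ a : G, x * (a * z) * x⁻¹ = (x * a * x⁻¹) * z := by
    intro a
    rw [← mul_assoc, mul_assoc (x * a), ← hzc x⁻¹, ← mul_assoc]
  have hjiz : j ≠ i * z := by
    intro h1
    have h2 : k = i := by
      rw [hk, h1, hxmz, ← hj, h1, hz']
    rw [h2] at hxk
    exact hji hxk
  have hkj : k ≠ j := hxc j hjK hj1 hjz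
  have hkjz : k ≠ j * z := by
    intro h1
    have h2 : x * k * x⁻¹ = j := by
      rw [h1, hxmz, ← hk, h1, hz']
    rw [hxk] at h2
    exact hji h2.symm
  have hki : k ≠ i := by
    intro h1
    rw [h1] at hxk
    exact hji hxk
  have hkiz : k ≠ i * z := by
    intro h1
    have h2 : x * k * x⁻¹ = j * z := by rw [h1, hxmz]
    rw [hxk] at h2
    apply hjiz
    rw [h2, hz']
  obtain ⟨n1, n2⟩ := nt i j hii hji hjiz
  have hijK := K.mul_mem hi hjK
  have hij := hsq _ hijK n1 n2
  -- the elements of K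
  have henum : ∀ l ∈ K, l = 1 ∨ l = z ∨ l = i ∨ l = i * z ∨ l = j ∨ l = j * z ∨ l = i * j ∨
      l = i * j * z := by
    intro l hl
    by_contra hcon
    simp only [not_or] at hcon
    obtain ⟨l1, l2, l3, l4, l5, l6, l7, l8⟩ := hcon
    obtain ⟨m1, m2⟩ := nt i l hii l3 l4
    obtain ⟨m3, m4⟩ := nt j l hjj l5 l6
    obtain ⟨m5, m6⟩ := nt (i * j) l hij l7 l8
    exact no_fourth hzz hzc hz1 hii hjj (hsq l hl l1 l2) hij (hsq _ (K.mul_mem hi hl) m1 m2)
      (hsq _ (K.mul_mem hjK hl) m3 m4) (hsq _ (K.mul_mem hijK hl) m5 m6)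
  have hji' : j * i = i * j * z := anti hzz hzc hii hjj hij
  -- generation
  have htop : ∀ C : Subgroup G, x ∈ C → i ∈ C → j ∈ C → z ∈ C → C = ⊤ := by
    intro C hxC hiC hjC hzC
    have h1 : K ≤ C := by
      intro l hl
      rcases henum l hl with h1 | h1 | h1 | h1 | h1 | h1 | h1 | h1 <;> rw [h1]
      · exact C.one_mem
      · exact hzC
      · exact hiC
      · exact C.mul_mem hiC hzC
      · exact hjC
      · exact C.mul_mem hjC hzC
      · exact C.mul_mem hiC hjC
      · exact C.mul_mem (C.mul_mem hiC hjC) hzC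
    have h2 : 8 ∣ Nat.card C := by
      rw [← hK]
      exact Subgroup.card_dvd_of_le h1
    have h3 : 3 ∣ Nat.card C := by
      have := orderOf_dvd_natCard (⟨x, hxC⟩ : C)
      rwa [Subgroup.orderOf_mk, hx] at this
    have h4 : 24 ∣ Nat.card C := by
      have : 8 * 3 ∣ Nat.card C := Nat.Coprime.mul_dvd_of_dvd_of_dvd (by norm_num) h2 h3
      exact this
    apply Subgroup.eq_top_of_card_eq
    rw [hG]
    apply Nat.dvd_antisymm _ h4
    rw [← hG]
    exact Subgroup.card_subgroup_dvd_card C
  have hkcase : k = i * j ∨ k = i * j * z := by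
    rcases henum k hkK with h1 | h1 | h1 | h1 | h1 | h1 | h1 | h1
    · exact absurd h1 hk1
    · exact absurd h1 hkz
    · exact absurd h1 hki
    · exact absurd h1 hkiz
    · exact absurd h1 hkj
    · exact absurd h1 hkjz
    · exact Or.inl h1
    · exact Or.inr h1
  rcases hkcase with h1 | h1
  · refine ⟨x, i, j, z, hx3, hzz, hz1, hz, hii, hjj, hji', hj.symm, by rw [← hk, h1], ?_, hG⟩
    have m1 : x ∈ Subgroup.closure ({x, i, j} : Set G) := Subgroup.subset_closure (by simp)
    have m2 : i ∈ Subgroup.closure ({x, i, j} : Set G) := Subgroup.subset_closure (by simp)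
    have m3 : j ∈ Subgroup.closure ({x, i, j} : Set G) := Subgroup.subset_closure (by simp)
    apply htop _ m1 m2 m3
    rw [← hii]
    exact Subgroup.mul_mem _ m2 m2
  · have e1 : (i * z) * (i * z) = z := by
      rw [mul_assoc, ← mul_assoc z, ← hzc i, mul_assoc i, hzz, mul_one, hii]
    have e2 : (j * z) * (j * z) = z := by
      rw [mul_assoc, ← mul_assoc z, ← hzc j, mul_assoc j, hzz, mul_one, hjj]
    have e3 : (i * z) * (j * z) = i * j := by
      rw [mul_assoc, ← mul_assoc z, ← hzc j, mul_assoc j, hzz, mul_one]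
    have e4 : (j * z) * (i * z) = j * i := by
      rw [mul_assoc, ← mul_assoc z, ← hzc i, mul_assoc i, hzz, mul_one]
    refine ⟨x, i * z, j * z, z, hx3, hzz, hz1, hz, e1, e2, ?_, ?_, ?_, ?_, hG⟩
    · rw [e3, e4, hji']
    · rw [hxmz]
    · rw [hxmz, ← hk, h1, hz', e3]
    · have m1 : x ∈ Subgroup.closure ({x, i * z, j * z} : Set G) :=
        Subgroup.subset_closure (by simp)
      have m2 : i * z ∈ Subgroup.closure ({x, i * z, j * z} : Set G) :=
        Subgroup.subset_closure (by simp)
      have m3 : j * z ∈ Subgroup.closure ({x, i * z, j * z} : Set G) :=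
        Subgroup.subset_closure (by simp)
      have m4 : z ∈ Subgroup.closure ({x, i * z, j * z} : Set G) := by
        have := Subgroup.mul_mem _ m2 m2
        rwa [e1] at this
      apply htop _ m1 _ _ m4
      · have := Subgroup.mul_mem _ m2 m4
        rwa [hz'] at this
      · have := Subgroup.mul_mem _ m3 m4
        rwa [hz'] at this

/-- The possible non-cyclic types up to order 28. -/
theorem FPF.classify (h : FPF G) (hnc : ¬ IsCyclic G) (hle : Nat.card G ≤ 28) :
    T2 G 4 3 2 ∨ T2 G 6 5 3 ∨ T2 G 8 7 4 ∨ T2 G 10 9 5 ∨ T2 G 14 13 7 ∨ T2 G 12 11 6 ∨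
      T2 G 12 7 6 ∨ T2 G 12 5 9 ∨ (SL G ∧ ∀ g : G, orderOf g ≠ 12) := by
  have hpos : 0 < Nat.card G := Nat.card_pos
  have hprime : ∀ p : ℕ, p.Prime → Nat.card G ≠ p := by
    intro p hp hG
    have : Fact p.Prime := ⟨hp⟩
    exact hnc (isCyclic_of_prime_card hG)
  have h2p : ∀ p : ℕ, p.Prime → Odd p → Nat.card G ≠ 2 * p := by
    intro p hp hp2 hG
    exact hnc (h.cyclic_two_mul_prime hp hp2 hG)
  have hsq : ∀ p : ℕ, p.Prime → Nat.card G ≠ p ^ 2 := by
    intro p hp hG
    exact hnc (h.cyclic_prime_sq hp hG)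
  -- groups of order 4p
  have h4p : ∀ p : ℕ, p.Prime → Odd p → Nat.card G = 4 * p → ∃ w : G, orderOf w = 2 * p := by
    intro p hp hp2 hG
    have : Fact p.Prime := ⟨hp⟩
    obtain ⟨z, hz, hzc, _, _, _⟩ := h.exists_z (by rw [hG]; exact ⟨2 * p, by ring⟩)
    obtain ⟨x, hx⟩ := exists_prime_orderOf_dvd_card' (G := G) p (by rw [hG]; exact ⟨4, by ring⟩)
    refine ⟨z * x, ?_⟩
    rw [Commute.orderOf_mul_eq_mul_orderOf_of_coprime (hzc x).symm, hz, hx]
    rw [hz, hx]
    exact hp2.coprime_two_left
  by_cases h8 : Nat.card G = 8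
  · left
    obtain ⟨z, hz, hzc, hzz, hz1, hz5⟩ := h.exists_z (by rw [h8]; norm_num)
    obtain ⟨w, hw⟩ := exists_notMem_list ([1, z] : List G) (by rw [h8]; simp)
    simp only [List.mem_cons, List.not_mem_nil, or_false, not_or] at hw
    obtain ⟨hw1, hwz⟩ := hw
    have h1 : orderOf w ∣ 2 ^ 3 := by
      have := orderOf_dvd_natCard w
      rw [h8] at this
      exact this
    obtain ⟨k, hk, hk'⟩ := (Nat.dvd_prime_pow Nat.prime_two).mp h1
    interval_cases k
    · exact absurd (orderOf_eq_one_iff.mp hk') hw1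
    · exact absurd (h.inv w z hk' hz) hwz
    · exact h.t2_4 hnc hk' h8
    · exact absurd (cyclic_of_order w hk' h8) hnc
  by_cases h12 : Nat.card G = 12
  · right; left
    obtain ⟨w, hw⟩ := h4p 3 (by norm_num) (by decide) h12
    exact h.t2_6 hnc hw h12
  by_cases h16 : Nat.card G = 16
  · right; right; left
    obtain ⟨w, hw⟩ := h.order8_of_16 hnc h16
    exact h.t2_8 hnc hw h16
  by_cases h20 : Nat.card G = 20
  · right; right; right; left
    obtain ⟨w, hw⟩ := h4p 5 (by norm_num) (by decide) h20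
    exact h.t2_10 hnc hw h20
  by_cases h28 : Nat.card G = 28
  · right; right; right; right; left
    obtain ⟨w, hw⟩ := h4p 7 (by norm_num) (by decide) h28
    exact h.t2_14 hnc hw h28
  by_cases h24 : Nat.card G = 24
  · right; right; right; right; right
    by_cases hw : ∃ w : G, orderOf w = 12
    · obtain ⟨w, hw⟩ := hw
      rcases h.t2_12 hnc hw h24 with h1 | h1 | h1
      · exact Or.inl h1
      · exact Or.inr (Or.inl h1)
      · exact Or.inr (Or.inr (Or.inl h1))
    · push Not at hw
      exact Or.inr (Or.inr (Or.inr ⟨h.sl24 hnc h24 hw, hw⟩))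
  exfalso
  have p2 := hprime 2 (by norm_num)
  have p3 := hprime 3 (by norm_num)
  have p5 := hprime 5 (by norm_num)
  have p7 := hprime 7 (by norm_num)
  have p11 := hprime 11 (by norm_num)
  have p13 := hprime 13 (by norm_num)
  have p17 := hprime 17 (by norm_num)
  have p19 := hprime 19 (by norm_num)
  have p23 := hprime 23 (by norm_num)
  have q3 := h2p 3 (by norm_num) (by decide)
  have q5 := h2p 5 (by norm_num) (by decide)
  have q7 := h2p 7 (by norm_num) (by decide)
  have q11 := h2p 11 (by norm_num) (by decide)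
  have q13 := h2p 13 (by norm_num) (by decide)
  have s2 := hsq 2 (by norm_num)
  have s3 := hsq 3 (by norm_num)
  have s5 := hsq 5 (by norm_num)
  have c15 : Nat.card G ≠ 15 := fun hG => hnc (h.cyclic15 hG)
  have c18 : Nat.card G ≠ 18 := fun hG => hnc (h.cyclic18 hG)
  have c21 : Nat.card G ≠ 21 := fun hG => hnc (h.cyclic21 hG)
  have c27 : Nat.card G ≠ 27 := fun hG => hnc (h.cyclic27 hG)
  have c1 : Nat.card G ≠ 1 := by
    intro hG
    apply hnc
    have := (Nat.card_eq_one_iff_unique.mp hG).1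
    exact isCyclic_of_subsingleton
  generalize Nat.card G = N at *
  interval_cases N <;> simp_all

end Pool.Agent.Helper477.Sph
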