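import Pool.Agent.Helper477.Sph.Sep

set_option autoImplicit false

/-! # Elementary consequences of a free orthogonal action -/

namespace Pool.Agent.Helper477.Sph

open Matrix Module

variable {n : ℕ}

/-- The group-theoretic properties of freely acting groups that the classification uses. -/
structure FPF (G : Type*) [Group G] : Prop where
  inv : ∀ g h : G, orderOf g = 2 → orderOf h = 2 → g = h
  ab : ∀ H : Subgroup G, (∀ a ∈ H, ∀ b ∈ H, a * b = b * a) → IsCyclic H
  no21 : ∀ x y : G, orderOf x = 7 → orderOf y = 3 → y * x * y⁻¹ = x ^ 2 → False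

theorem mat_eq_zero (A : Matrix (Fin n) (Fin n) ℝ) (h : ∀ v, A.mulVec v = 0) : A = 0 := by
  ext i j
  have := congrFun (h (Pi.single j 1)) i
  rw [Matrix.mulVec_single_one] at this
  exact this

variable {Γ : Subgroup (Matrix.orthogonalGroup (Fin n) ℝ)}

theorem two_of_free (hΓ : FreeOn Γ) {g : Matrix.orthogonalGroup (Fin n) ℝ} (hg : g ∈ Γ)
    (h2 : g * g = 1) (h1 : g ≠ 1) : g.1 = -1 := by
  have h3 : g.1 + 1 = 0 := by
    apply mat_eq_zero
    intro v
    apply hΓ g hg h1
    have h4 : g.1 * g.1 = 1 := congrArg Subtype.val h2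
    rw [Matrix.mulVec_mulVec, Matrix.mul_add, Matrix.mul_one, h4, add_comm]
  exact eq_neg_of_add_eq_zero_left h3

theorem norm_zero (hΓ : FreeOn Γ) {g : Matrix.orthogonalGroup (Fin n) ℝ} (hg : g ∈ Γ)
    (h1 : g ≠ 1) (k : ℕ) (hk : g ^ k = 1) : ∑ i ∈ Finset.range k, g.1 ^ i = 0 := by
  apply mat_eq_zero
  intro v
  apply hΓ g hg h1
  rw [Matrix.mulVec_mulVec, Finset.mul_sum]
  congr 1
  have h2 : g.1 ^ k = 1 := by
    have := congrArg Subtype.val hk
    rwa [coe_pow'] at this
  simp only [← pow_succ']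
  have h3 := Finset.sum_range_succ' (fun i => g.1 ^ i) k
  have h4 := Finset.sum_range_succ (fun i => g.1 ^ i) k
  rw [h4] at h3
  rw [h2, pow_zero] at h3
  exact (add_right_cancel h3).symm

/-- A freely acting abelian subgroup is cyclic. -/
theorem cyclic_of_abelian (hΓ : FreeOn Γ) (hn : 0 < n) [Finite Γ] (H : Subgroup Γ)
    (hab : ∀ a ∈ H, ∀ b ∈ H, a * b = b * a) : IsCyclic H := by
  classical
  -- minimal invariant subspace
  let S : Set (Submodule ℂ (Fin n → ℂ)) :=
    {W | W ≠ ⊥ ∧ ∀ h ∈ H, ∀ v ∈ W, (cx h.1.1).mulVec v ∈ W}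
  have hne : (S.image (fun W : Submodule ℂ (Fin n → ℂ) => Module.finrank ℂ W)).Nonempty := by
    refine ⟨_, ⟨⊤, ⟨?_, fun _ _ _ _ => trivial⟩, rfl⟩⟩
    have : Nonempty (Fin n) := ⟨⟨0, hn⟩⟩
    exact top_ne_bot
  obtain ⟨W, hW, hWm⟩ := Nat.sInf_mem hne
  have hmin : ∀ W' ∈ S, W' ≤ W → W' = W := by
    intro W' hW' hle
    apply Submodule.eq_of_le_of_finrank_le hle
    rw [show Module.finrank ℂ W = sInf (S.image (fun W : Submodule ℂ (Fin n → ℂ) => Module.finrank ℂ W)) from hWm]
    exact Nat.sInf_le ⟨W', hW', rfl⟩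
  obtain ⟨hW0, hWinv⟩ := hW
  have hscal : ∀ h ∈ H, ∃ c : ℂ, ∀ v ∈ W, (cx h.1.1).mulVec v = c • v := by
    intro h hh
    let f : W →ₗ[ℂ] W := (Matrix.toLin' (cx h.1.1)).restrict (fun v hv => by
      rw [Matrix.toLin'_apply]; exact hWinv h hh v hv)
    have : Nontrivial W := Submodule.nontrivial_iff_ne_bot.mpr hW0
    obtain ⟨c, hc⟩ := Module.End.exists_eigenvalue f
    obtain ⟨w, hw⟩ := hc.exists_hasEigenvector
    refine ⟨c, ?_⟩
    let W' : Submodule ℂ (Fin n → ℂ) :=
      W ⊓ LinearMap.ker (Matrix.toLin' (cx h.1.1) - c • LinearMap.id)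
    have hmemW' : ∀ v, v ∈ W' ↔ v ∈ W ∧ (cx h.1.1).mulVec v = c • v := by
      intro v
      rw [Submodule.mem_inf, LinearMap.mem_ker, LinearMap.sub_apply, Matrix.toLin'_apply,
        LinearMap.smul_apply, LinearMap.id_apply, sub_eq_zero]
    have hW' : W' = W := by
      apply hmin W' ⟨?_, ?_⟩ inf_le_left
      · intro hbot
        have h1 : w.1 ∈ W' := by
          rw [hmemW']
          refine ⟨w.2, ?_⟩
          have h2 := congrArg Subtype.val hw.apply_eq_smul
          exact h2
        rw [hbot, Submodule.mem_bot] at h1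
        exact hw.2 (Subtype.ext h1)
      · intro k hk v hv
        rw [hmemW'] at hv ⊢
        refine ⟨hWinv k hk v hv.1, ?_⟩
        have h1 : cx h.1.1 * cx k.1.1 = cx k.1.1 * cx h.1.1 := by
          rw [← cx_mul, ← cx_mul]
          have := congrArg (fun x : Γ => x.1.1) (hab h hh k hk)
          exact congrArg cx this
        rw [Matrix.mulVec_mulVec, h1, ← Matrix.mulVec_mulVec, hv.2, Matrix.mulVec_smul]
    intro v hv
    rw [← hW'] at hv
    exact ((hmemW' v).mp hv).2
  obtain ⟨v, hvW, hv0⟩ := Submodule.exists_mem_ne_zero_of_ne_bot hW0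
  choose c hc using fun h : H => hscal h.1 h.2
  have hcv : ∀ h : H, (cx h.1.1.1).mulVec v = c h • v := fun h => hc h v hvW
  obtain ⟨i, hi⟩ := Function.ne_iff.mp hv0
  have huniq : ∀ a b : ℂ, a • v = b • v → a = b := by
    intro a b hab'
    have h1 := congrFun hab' i
    rw [Pi.smul_apply, Pi.smul_apply, smul_eq_mul, smul_eq_mul] at h1
    exact mul_right_cancel₀ hi h1
  let χ : H →* ℂ :=
    { toFun := c
      map_one' := by
        apply huniq
        rw [← hcv]
        have : (cx (1 : Matrix.orthogonalGroup (Fin n) ℝ).1) = 1 := cx_one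
        change (cx (1 : Matrix.orthogonalGroup (Fin n) ℝ).1).mulVec v = _
        rw [this, Matrix.one_mulVec, one_smul]
      map_mul' := by
        intro a b
        apply huniq
        rw [← hcv]
        change (cx (a.1.1.1 * b.1.1.1)).mulVec v = _
        rw [cx_mul, ← Matrix.mulVec_mulVec, hcv, Matrix.mulVec_smul, hcv, smul_smul, mul_comm] }
  apply isCyclic_of_injective_ringHom χ
  rw [injective_iff_map_eq_one]
  intro a ha
  by_contra hne1
  have h1 : (cx a.1.1.1).mulVec v = v := by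
    rw [hcv]
    have : c a = 1 := ha
    rw [this, one_smul]
  apply hv0
  apply real_fixed _ _ _ h1
  apply hΓ a.1.1 a.1.2
  intro h2
  apply hne1
  apply Subtype.ext
  apply Subtype.ext
  exact h2

theorem orderOf_mem (g : Γ) : orderOf g.1 = orderOf g := Subgroup.orderOf_coe g

theorem fpf (hΓ : FreeOn Γ) (hn : 0 < n) [Finite Γ] : FPF Γ where
  inv := by
    have h1 : ∀ g : Γ, orderOf g = 2 → g.1.1 = -1 := by
      intro g hg
      apply two_of_free hΓ g.2
      · have h2 : g ^ 2 = 1 := by rw [← hg]; exact pow_orderOf_eq_one g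
        rw [pow_two] at h2
        exact congrArg Subtype.val h2
      · intro h2
        have h3 : g = 1 := Subtype.ext h2
        rw [h3, orderOf_one] at hg
        omega
    intro g h hg hh
    apply Subtype.ext
    apply Subtype.ext
    rw [h1 g hg, h1 h hh]
  ab := cyclic_of_abelian hΓ hn
  no21 := by
    intro x y hx hy hxy
    set X := x.1.1 with hX
    set Y := y.1.1 with hY
    have hx1 : x ≠ 1 := by rintro rfl; rw [orderOf_one] at hx; omega
    have hx7 : x ^ 7 = 1 := by rw [← hx]; exact pow_orderOf_eq_one x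
    have hy3 : y ^ 3 = 1 := by rw [← hy]; exact pow_orderOf_eq_one y
    have hrel : y * x = x ^ 2 * y := by
      rw [← hxy]; group
    have hrelk : ∀ k : ℕ, y * x ^ k = x ^ (2 * k) * y := by
      intro k
      induction k with
      | zero => simp
      | succ k ih =>
        rw [pow_succ, ← mul_assoc, ih, mul_assoc, hrel, ← mul_assoc, ← pow_add]
        congr 2
    have hy2 : ∀ k : ℕ, y ^ 2 * x ^ k = x ^ (4 * k) * y ^ 2 := by
      intro k
      rw [pow_two, mul_assoc, hrelk, ← mul_assoc, hrelk, mul_assoc]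
      congr 2
      ring
    have hsq : ∀ a : ℕ, (x ^ a * y) ^ 2 = x ^ (3 * a) * y ^ 2 := by
      intro a
      calc (x ^ a * y) ^ 2 = x ^ a * (y * x ^ a) * y := by
            simp only [pow_succ, pow_zero, one_mul, mul_assoc]
        _ = x ^ a * (x ^ (2 * a) * y) * y := by rw [hrelk]
        _ = (x ^ a * x ^ (2 * a)) * y ^ 2 := by
            simp only [pow_succ, pow_zero, one_mul, mul_assoc]
        _ = _ := by rw [← pow_add]; congr 2; ring
    have hc3 : ∀ a : ℕ, (x ^ a * y) ^ 3 = 1 := by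
      intro a
      calc (x ^ a * y) ^ 3 = (x ^ a * y) ^ 2 * (x ^ a * y) := pow_succ _ _
        _ = x ^ (3 * a) * (y ^ 2 * x ^ a) * y := by rw [hsq]; simp only [mul_assoc]
        _ = x ^ (3 * a) * (x ^ (4 * a) * y ^ 2) * y := by rw [hy2]
        _ = (x ^ (3 * a) * x ^ (4 * a)) * (y ^ 2 * y) := by simp only [mul_assoc]
        _ = x ^ (7 * a) * y ^ 3 := by rw [← pow_add, ← pow_succ]; congr 2; ring
        _ = 1 := by rw [pow_mul, hx7, one_pow, one_mul, hy3]
    have hne : ∀ a : ℕ, x ^ a * y ≠ 1 := by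
      intro a h1
      have h2 : y = (x ^ a)⁻¹ := eq_inv_of_mul_eq_one_right h1
      have h3 : y ^ 7 = 1 := by
        rw [h2, inv_pow, ← pow_mul, mul_comm, pow_mul, hx7, one_pow, inv_one]
      have h4 : orderOf y ∣ 7 := orderOf_dvd_of_pow_eq_one h3
      rw [hy] at h4
      omega
    have hx31 : x ^ 3 ≠ 1 := by
      intro h1
      have h4 : orderOf x ∣ 3 := orderOf_dvd_of_pow_eq_one h1
      rw [hx] at h4
      omega
    have toM : ∀ a : ℕ, (1 : Matrix (Fin n) (Fin n) ℝ) + X ^ a * Y + (X ^ 3) ^ a * Y ^ 2 = 0 := by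
      intro a
      have h1 := norm_zero hΓ (x ^ a * y : Γ).2 (fun h => hne a (Subtype.ext h)) 3
        (congrArg Subtype.val (hc3 a))
      rw [Finset.sum_range_succ, Finset.sum_range_succ, Finset.sum_range_one, pow_zero,
        pow_one] at h1
      have e1 : (x ^ a * y : Γ).1.1 = X ^ a * Y := rfl
      have e2 : (x ^ a * y : Γ).1.1 ^ 2 = (X ^ 3) ^ a * Y ^ 2 := by
        have := congrArg (fun g : Γ => g.1.1) (hsq a)
        rw [← pow_mul]
        exact this
      rw [e2, e1] at h1
      exact h1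
    have hX0 : ∑ a ∈ Finset.range 7, X ^ a = 0 :=
      norm_zero hΓ x.2 (fun h => hx1 (Subtype.ext h)) 7 (congrArg Subtype.val hx7)
    have hX30 : ∑ a ∈ Finset.range 7, (X ^ 3) ^ a = 0 := by
      have := norm_zero hΓ (x ^ 3 : Γ).2 (fun h => hx31 (Subtype.ext h)) 7
        (congrArg Subtype.val (show (x ^ 3) ^ 7 = 1 by rw [← pow_mul, mul_comm, pow_mul, hx7,
          one_pow]))
      exact this
    have hsum : ∑ a ∈ Finset.range 7,
        ((1 : Matrix (Fin n) (Fin n) ℝ) + X ^ a * Y + (X ^ 3) ^ a * Y ^ 2) = 0 :=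
      Finset.sum_eq_zero fun a _ => toM a
    rw [Finset.sum_add_distrib, Finset.sum_add_distrib, ← Finset.sum_mul, ← Finset.sum_mul,
      hX0, hX30, zero_mul, zero_mul, add_zero, add_zero, Finset.sum_const,
      Finset.card_range] at hsum
    have h1 := congrFun (congrFun hsum ⟨0, hn⟩) ⟨0, hn⟩
    rw [Matrix.smul_apply, Matrix.one_apply_eq, Matrix.zero_apply] at h1
    norm_num at h1

end Pool.Agent.Helper477.Sph
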