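import Pool.Agent.Helper477.Sph.Rig1

set_option autoImplicit false

/-! # Lens space groups as subgroups of the orthogonal group -/

namespace Pool.Agent.Helper477.Sph

open scoped Matrix

variable {n : ℕ}

/-- Plane rotation. -/
noncomputable def rot (θ : ℝ) : Matrix (Fin 2) (Fin 2) ℝ :=
  !![Real.cos θ, -Real.sin θ; Real.sin θ, Real.cos θ]

theorem rot_mul (a b : ℝ) : rot a * rot b = rot (a + b) := by
  unfold rot
  rw [Real.cos_add, Real.sin_add]
  ext i j
  fin_cases i <;> fin_cases j <;> simp [Matrix.mul_apply, Fin.sum_univ_two] <;> ring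

theorem rot_zero : rot 0 = 1 := by
  unfold rot
  ext i j
  fin_cases i <;> fin_cases j <;> simp

theorem rot_t (a : ℝ) : (rot a)ᵀ = rot (-a) := by
  unfold rot
  ext i j
  fin_cases i <;> fin_cases j <;> simp

/-- The block rotation matrix. -/
noncomputable def Lmat (θ : Fin n → ℝ) : Matrix (Fin (2 * n)) (Fin (2 * n)) ℝ :=
  (Matrix.blockDiagonal fun j => rot (θ j)).submatrix finProdFinEquiv.symm finProdFinEquiv.symm

theorem Lmat_mul (θ φ : Fin n → ℝ) : Lmat θ * Lmat φ = Lmat (θ + φ) := by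
  unfold Lmat
  rw [Matrix.submatrix_mul_equiv, ← Matrix.blockDiagonal_mul]
  simp only [rot_mul]
  rfl

theorem Lmat_zero : Lmat (0 : Fin n → ℝ) = 1 := by
  unfold Lmat
  have : (fun j : Fin n => rot ((0 : Fin n → ℝ) j)) = 1 := by
    funext j
    rw [Pi.zero_apply, rot_zero]; rfl
  rw [this, Matrix.blockDiagonal_one, Matrix.submatrix_one_equiv]

theorem Lmat_t (θ : Fin n → ℝ) : (Lmat θ)ᵀ = Lmat (-θ) := by
  unfold Lmat
  rw [Matrix.transpose_submatrix, Matrix.blockDiagonal_transpose]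
  simp only [rot_t]
  rfl

/-- The block rotation, as an orthogonal transformation. -/
noncomputable def Lg (θ : Fin n → ℝ) : Matrix.orthogonalGroup (Fin (2 * n)) ℝ :=
  ⟨Lmat θ, (Matrix.mem_orthogonalGroup_iff _ _).mpr (by
    rw [Lmat_t, Lmat_mul, add_neg_cancel, Lmat_zero])⟩

theorem Lg_coe (θ : Fin n → ℝ) : (Lg θ).1 = Lmat θ := rfl

theorem Lg_pow (θ : Fin n → ℝ) (k : ℕ) : Lg θ ^ k = Lg ((k : ℝ) • θ) := by
  induction k with
  | zero =>
    apply Subtype.ext
    rw [pow_zero, Nat.cast_zero, zero_smul, Lg_coe, Lmat_zero]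
    rfl
  | succ k ih =>
    apply Subtype.ext
    rw [pow_succ, ih]
    change Lmat ((k : ℝ) • θ) * Lmat θ = Lmat (((k + 1 : ℕ) : ℝ) • θ)
    rw [Lmat_mul]
    congr 1
    push_cast
    rw [add_smul, one_smul]

theorem charpolyRev_Lg (θ : Fin n → ℝ) : (cx (Lg θ).1).charpolyRev =
    ∏ j, (1 - Polynomial.C (2 * (Real.cos (θ j) : ℂ)) * Polynomial.X + Polynomial.X ^ 2) := by
  have h1 : (1 - (Polynomial.X : Polynomial ℂ) • (cx (Lg θ).1).map Polynomial.C) =
      (Matrix.blockDiagonal fun j => (1 - (Polynomial.X : Polynomial ℂ) •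
        ((rot (θ j)).map (algebraMap ℝ ℂ)).map Polynomial.C)).submatrix
          finProdFinEquiv.symm finProdFinEquiv.symm := by
    ext i j : 2
    rw [Matrix.sub_apply, Matrix.smul_apply, Matrix.map_apply, Matrix.submatrix_apply,
      Matrix.blockDiagonal_apply]
    have e1 : (cx (Lg θ).1) i j = algebraMap ℝ ℂ (Matrix.blockDiagonal (fun j => rot (θ j))
      (finProdFinEquiv.symm i) (finProdFinEquiv.symm j)) := rfl
    rw [e1, Matrix.blockDiagonal_apply]
    have e2 : (1 : Matrix (Fin (2 * n)) (Fin (2 * n)) (Polynomial ℂ)) i j =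
        (1 : Matrix (Fin 2 × Fin n) (Fin 2 × Fin n) (Polynomial ℂ)) (finProdFinEquiv.symm i)
          (finProdFinEquiv.symm j) := by
      rw [Matrix.one_apply, Matrix.one_apply]
      simp only [EmbeddingLike.apply_eq_iff_eq]
    rw [e2, Matrix.one_apply]
    by_cases h : (finProdFinEquiv.symm i).2 = (finProdFinEquiv.symm j).2
    · rw [if_pos h, if_pos h, Matrix.sub_apply, Matrix.smul_apply, Matrix.map_apply,
        Matrix.map_apply, Matrix.one_apply]
      congr 1
      by_cases h' : (finProdFinEquiv.symm i).1 = (finProdFinEquiv.symm j).1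
      · rw [if_pos (Prod.ext h' h), if_pos h']
      · rw [if_neg (fun h'' => h' (congrArg Prod.fst h'')), if_neg h']
    · rw [if_neg h, if_neg h, if_neg (fun h'' => h (congrArg Prod.snd h''))]
      simp
  rw [Matrix.charpolyRev, h1, Matrix.det_submatrix_equiv_self, Matrix.det_blockDiagonal]
  refine Finset.prod_congr rfl fun j _ => ?_
  rw [Matrix.det_fin_two]
  simp only [Matrix.sub_apply, Matrix.smul_apply, Matrix.map_apply, rot, Matrix.one_apply_eq,
    Matrix.of_apply, Matrix.cons_val', Matrix.cons_val_zero, Matrix.cons_val_one,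
    Matrix.cons_val_fin_one, smul_eq_mul, Complex.coe_algebraMap, Complex.ofReal_neg, map_neg]
  rw [Matrix.one_apply_ne (by decide), Matrix.one_apply_ne (by decide)]
  have hcs : Polynomial.C ((Real.cos (θ j) : ℝ) : ℂ) ^ 2 +
      Polynomial.C ((Real.sin (θ j) : ℝ) : ℂ) ^ 2 = 1 := by
    rw [← map_pow, ← map_pow, ← map_add, ← map_one Polynomial.C]
    congr 1
    have := Real.cos_sq_add_sin_sq (θ j)
    exact_mod_cast this
  have h2 : Polynomial.C (2 * ((Real.cos (θ j) : ℝ) : ℂ)) =
      2 * Polynomial.C ((Real.cos (θ j) : ℝ) : ℂ) := by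
    rw [map_mul]; rfl
  rw [h2]
  linear_combination (Polynomial.X ^ 2) * hcs

end Pool.Agent.Helper477.Sph
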