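import Pool.Agent.Helper477.Sph.Lens1

set_option autoImplicit false

/-! # Lens space groups: determinants, order, free action -/

namespace Pool.Agent.Helper477.Sph

open Polynomial

variable {n q : ℕ} [NeZero q]

/-- Quadratic factor of the reversed characteristic polynomial. -/
noncomputable def QQ (a : ZMod q) : ℂ[X] := 1 - C ((ZMod.stdAddChar (N := q)) a + (ZMod.stdAddChar (N := q)) (-a)) * X + X ^ 2

theorem QQ_neg (a : ZMod q) : QQ (-a) = QQ a := by
  unfold QQ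
  rw [neg_neg, add_comm ((ZMod.stdAddChar (N := q)) (-a))]

theorem psi_mul_neg (a : ZMod q) : (ZMod.stdAddChar (N := q)) a * (ZMod.stdAddChar (N := q)) (-a) = 1 := by
  rw [← AddChar.map_add_eq_mul, add_neg_cancel, AddChar.map_zero_eq_one]

theorem QQ_factor (a : ZMod q) : QQ a = (X - C ((ZMod.stdAddChar (N := q)) a)) * (X - C ((ZMod.stdAddChar (N := q)) (-a))) := by
  have h : C ((ZMod.stdAddChar (N := q)) a) * C ((ZMod.stdAddChar (N := q)) (-a)) = (1 : ℂ[X]) := by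
    rw [← C_mul, psi_mul_neg, C_1]
  unfold QQ
  rw [C_add]
  linear_combination -h

theorem two_cos (m : ℤ) : 2 * ((Real.cos (2 * Real.pi * m / q) : ℝ) : ℂ) =
    (ZMod.stdAddChar (N := q)) (m : ZMod q) + (ZMod.stdAddChar (N := q)) (-(m : ZMod q)) := by
  rw [← Int.cast_neg, ZMod.stdAddChar_coe, ZMod.stdAddChar_coe, Complex.ofReal_cos]
  rw [Complex.two_cos]
  push_cast
  congr 1
  · congr 1; ring
  · congr 1; ring

/-- The angles of the lens space generator. -/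
noncomputable def ang (s : Fin n → ZMod q) : Fin n → ℝ := fun j => 2 * Real.pi * (s j).val / q

/-- The lens space generator. -/
noncomputable def lg (s : Fin n → ZMod q) : Matrix.orthogonalGroup (Fin (2 * n)) ℝ := Lg (ang s)

theorem charpolyRev_lg (s : Fin n → ZMod q) (l : ℕ) : (cx (lg s ^ l).1).charpolyRev =
    ∏ j, QQ ((l : ZMod q) * s j) := by
  rw [lg, Lg_pow, charpolyRev_Lg]
  refine Finset.prod_congr rfl fun j _ => ?_
  unfold QQ
  have h := two_cos (q := q) ((l * (s j).val : ℕ) : ℤ)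
  have h2 : (((l * (s j).val : ℕ) : ℤ) : ZMod q) = (l : ZMod q) * s j := by
    push_cast
    rw [ZMod.natCast_zmod_val]
  rw [h2] at h
  rw [← h]
  congr 5
  simp only [ang, Pi.smul_apply, smul_eq_mul]
  push_cast
  ring_nf

theorem lg_pow_q (s : Fin n → ZMod q) : lg s ^ q = 1 := by
  rw [lg, Lg_pow]
  apply Subtype.ext
  rw [Lg_coe]
  have h1 : (1 : Matrix.orthogonalGroup (Fin (2 * n)) ℝ).1 = Lmat 0 := Lmat_zero.symm
  rw [h1]
  unfold Lmat
  congr 2
  funext j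
  have hq : (q : ℝ) ≠ 0 := Nat.cast_ne_zero.mpr (NeZero.ne q)
  have h2 : ((q : ℝ) • ang s) j = (s j).val * (2 * Real.pi) := by
    simp only [ang, Pi.smul_apply, smul_eq_mul]
    field_simp
  rw [h2, Pi.zero_apply]
  unfold rot
  have h3 : Real.sin (((s j).val : ℝ) * (2 * Real.pi)) = 0 := by
    have := Real.sin_nat_mul_pi (2 * (s j).val)
    rw [← this]
    push_cast
    ring_nf
  rw [Real.cos_nat_mul_two_pi, h3, Real.cos_zero, Real.sin_zero]

theorem eval_one_charpolyRev {m : ℕ} (M : Matrix (Fin m) (Fin m) ℂ) :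
    M.charpolyRev.eval 1 = (1 - M).det := by
  rw [Matrix.charpolyRev, ← Polynomial.coe_evalRingHom, RingHom.map_det]
  congr 1
  ext i j
  simp [Matrix.one_apply]
  split_ifs <;> simp

theorem QQ_eval_one {a : ZMod q} (ha : a ≠ 0) : (QQ a).eval 1 ≠ 0 := by
  rw [QQ_factor, eval_mul, eval_sub, eval_sub, eval_X, eval_C, eval_C]
  have h0 : (ZMod.stdAddChar (N := q)) 0 = 1 := AddChar.map_zero_eq_one _
  refine mul_ne_zero ?_ ?_
  · rw [sub_ne_zero, ← h0]
    exact fun h => ha (ZMod.injective_stdAddChar h).symm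
  · rw [sub_ne_zero, ← h0]
    exact fun h => ha (neg_eq_zero.mp (ZMod.injective_stdAddChar h).symm)

theorem det_ne_zero {s : Fin n → ZMod q} (hs : ∀ j, IsUnit (s j)) {l : ℕ}
    (hl : (l : ZMod q) ≠ 0) : (1 - cx (lg s ^ l).1).det ≠ 0 := by
  rw [← eval_one_charpolyRev, charpolyRev_lg, eval_prod]
  rw [Finset.prod_ne_zero_iff]
  intro j _
  apply QQ_eval_one
  exact fun h => hl ((hs j).mul_left_eq_zero.mp h)

theorem lg_pow_ne_one {s : Fin n → ZMod q} (hn : 0 < n) (hs : ∀ j, IsUnit (s j)) {l : ℕ}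
    (hl : (l : ZMod q) ≠ 0) : lg s ^ l ≠ 1 := by
  intro h
  apply det_ne_zero hs hl
  rw [h]
  have : cx (1 : Matrix.orthogonalGroup (Fin (2 * n)) ℝ).1 = 1 := cx_one
  rw [this, sub_self]
  have : Nonempty (Fin (2 * n)) := ⟨⟨0, by omega⟩⟩
  exact Matrix.det_zero

theorem orderOf_lg {s : Fin n → ZMod q} (hn : 0 < n) (hs : ∀ j, IsUnit (s j)) :
    orderOf (lg s) = q := by
  rw [orderOf_eq_iff (Nat.pos_of_ne_zero (NeZero.ne q))]
  refine ⟨lg_pow_q s, fun m hm hm0 => lg_pow_ne_one hn hs fun h => ?_⟩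
  rw [ZMod.natCast_eq_zero_iff] at h
  exact absurd (Nat.le_of_dvd hm0 h) (not_le.mpr hm)

/-- The lens space group. -/
noncomputable def LG (s : Fin n → ZMod q) : Subgroup (Matrix.orthogonalGroup (Fin (2 * n)) ℝ) :=
  Subgroup.zpowers (lg s)

theorem finOrd (s : Fin n → ZMod q) : IsOfFinOrder (lg s) :=
  isOfFinOrder_iff_pow_eq_one.mpr ⟨q, Nat.pos_of_ne_zero (NeZero.ne q), lg_pow_q s⟩

theorem mem_LG {s : Fin n → ZMod q} {g : Matrix.orthogonalGroup (Fin (2 * n)) ℝ} :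
    g ∈ LG s ↔ ∃ l : ℕ, lg s ^ l = g := by
  rw [LG, ← (finOrd s).mem_powers_iff_mem_zpowers, Submonoid.mem_powers_iff]

theorem card_LG {s : Fin n → ZMod q} (hn : 0 < n) (hs : ∀ j, IsUnit (s j)) :
    Nat.card (LG s) = q := by
  rw [LG, Nat.card_zpowers, orderOf_lg hn hs]

theorem finite_LG {s : Fin n → ZMod q} (hn : 0 < n) (hs : ∀ j, IsUnit (s j)) :
    Finite (LG s) := by
  apply Nat.finite_of_card_ne_zero
  rw [card_LG hn hs]
  exact NeZero.ne q

theorem free_LG {s : Fin n → ZMod q} (hs : ∀ j, IsUnit (s j)) : FreeOn (LG s) := by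
  intro g hg hg1 v hv
  obtain ⟨l, rfl⟩ := mem_LG.mp hg
  have hl : (l : ZMod q) ≠ 0 := by
    intro h
    apply hg1
    rw [ZMod.natCast_eq_zero_iff] at h
    obtain ⟨c, rfl⟩ := h
    rw [pow_mul, lg_pow_q, one_pow]
  have hd := det_ne_zero hs hl
  have h1 : (1 - cx (lg s ^ l).1).det = algebraMap ℝ ℂ ((1 - (lg s ^ l).1).det) := by
    rw [RingHom.map_det]
    congr 1
    ext i j
    simp [cx, Matrix.one_apply]
    split_ifs <;> simp
  rw [h1] at hd
  have hd' : (1 - (lg s ^ l).1).det ≠ 0 := fun h => hd (by rw [h, map_zero])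
  apply Matrix.eq_zero_of_mulVec_eq_zero hd'
  rw [Matrix.sub_mulVec, Matrix.one_mulVec, hv, sub_self]

theorem sum_LG {s : Fin n → ZMod q} (hn : 0 < n) (hs : ∀ j, IsUnit (s j)) [Fintype (LG s)]
    {M : Type*} [AddCommMonoid M] (f : Matrix.orthogonalGroup (Fin (2 * n)) ℝ → M) :
    ∑ g : LG s, f g.1 = ∑ l : ZMod q, f (lg s ^ l.val) := by
  symm
  refine Finset.sum_bij (fun (l : ZMod q) _ => (⟨lg s ^ l.val, mem_LG.mpr ⟨_, rfl⟩⟩ : LG s))
    (fun _ _ => Finset.mem_univ _) ?_ ?_ (fun _ _ => rfl)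
  · intro a _ b _ hab
    have hab' : lg s ^ a.val = lg s ^ b.val := congrArg Subtype.val hab
    rw [pow_inj_mod, orderOf_lg hn hs, Nat.mod_eq_of_lt a.val_lt, Nat.mod_eq_of_lt b.val_lt] at hab'
    exact ZMod.val_injective q hab'
  · intro g _
    obtain ⟨l, hl⟩ := mem_LG.mp g.2
    refine ⟨(l : ZMod q), Finset.mem_univ _, Subtype.ext ?_⟩
    rw [← hl]
    change lg s ^ ((l : ZMod q).val) = _
    rw [ZMod.val_natCast, pow_inj_mod, orderOf_lg hn hs, Nat.mod_mod]

end Pool.Agent.Helper477.Sph
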