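import Pool.Agent.Helper477.Sph.Lens2

set_option autoImplicit false

/-! # Verified expansion of products of `y + psi(ls) + psi(-ls)` -/

namespace Pool.Agent.Helper477.Sph

open Polynomial

/-- Value of a coefficient list. -/
noncomputable def ev (y : ℂ) : List ℕ → ℂ
  | [] => 0
  | a :: l => a + y * ev y l

/-- Addition of coefficient lists. -/
def padd : List ℕ → List ℕ → List ℕ
  | [], l => l
  | a :: l, [] => a :: l
  | a :: l, b :: m => (a + b) :: padd l m

theorem ev_padd (y : ℂ) (l m : List ℕ) : ev y (padd l m) = ev y l + ev y m := by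
  induction l generalizing m with
  | nil => simp [padd, ev]
  | cons a l ih =>
    cases m with
    | nil => simp [padd, ev]
    | cons b m =>
      simp only [padd, ev, ih, Nat.cast_add]
      ring

/-- Multiply by `y + x^s + x^{-s}`. -/
def pstep (q s : ℕ) (st : List (List ℕ)) : List (List ℕ) :=
  (List.range q).map fun a => padd (0 :: st.getD a [])
    (padd (st.getD ((a + s) % q) []) (st.getD ((a + (q - 1) * s) % q) []))

/-- The unit. -/
def pinit (q : ℕ) : List (List ℕ) := (List.range q).map fun a => if a = 0 then [1] else [0]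

/-- The product. -/
def prun (q : ℕ) : List ℕ → List (List ℕ)
  | [] => pinit q
  | s :: L => pstep q s (prun q L)

/-- Orbit sums. -/
def orb (q : ℕ) (st : List (List ℕ)) (b : ℕ) : List ℕ → List ℕ
  | [] => []
  | w :: W => padd (st.getD ((w * b) % q) []) (orb q st b W)

variable {q : ℕ} [NeZero q]

/-- The coefficient function of a state. -/
noncomputable def cf (q : ℕ) (y : ℂ) (st : List (List ℕ)) (a : ZMod q) : ℂ :=
  ev y (st.getD a.val [])

omit [NeZero q] in
theorem getD_map_range {α : Type*} (f : ℕ → α) (d : α) {a : ℕ} (h : a < q) :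
    ((List.range q).map f).getD a d = f a := by
  rw [List.getD_eq_getElem _ _ (by rw [List.length_map, List.length_range]; exact h)]
  rw [List.getElem_map, List.getElem_range]

theorem val_add_nat (a : ZMod q) (m : ℕ) : (a + (m : ZMod q)).val = (a.val + m) % q := by
  rw [ZMod.val_add, ZMod.val_natCast, Nat.add_mod_mod]

theorem cast_pred_mul (s : ℕ) : (((q - 1) * s : ℕ) : ZMod q) = -(s : ZMod q) := by
  have h : 1 ≤ q := Nat.pos_of_ne_zero (NeZero.ne q)
  rw [Nat.cast_mul, Nat.cast_sub h, ZMod.natCast_self]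
  push_cast
  ring

theorem cf_pstep (y : ℂ) (s : ℕ) (st : List (List ℕ)) (a : ZMod q) :
    cf q y (pstep q s st) a = y * cf q y st a + cf q y st (a + s) + cf q y st (a - s) := by
  have h1 : (a - (s : ZMod q)).val = (a.val + (q - 1) * s) % q := by
    rw [sub_eq_add_neg, ← cast_pred_mul, val_add_nat]
  unfold cf
  rw [h1, val_add_nat, pstep, getD_map_range _ _ a.val_lt, ev_padd, ev_padd, ev]
  push_cast
  ring

theorem sum_shift (c : ZMod q → ℂ) (l s : ZMod q) :
    ∑ a, c (a + s) * (ZMod.stdAddChar (N := q)) (l * a) = (ZMod.stdAddChar (N := q)) (-(l * s)) * ∑ a, c a * (ZMod.stdAddChar (N := q)) (l * a) := by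
  rw [← Equiv.sum_comp (Equiv.subRight s), Finset.mul_sum]
  refine Finset.sum_congr rfl fun a _ => ?_
  rw [Equiv.subRight_apply, sub_add_cancel, mul_sub, sub_eq_add_neg, AddChar.map_add_eq_mul]
  ring

theorem num (y : ℂ) (L : List ℕ) (l : ZMod q) :
    (L.map fun s : ℕ => y + ((ZMod.stdAddChar (N := q)) (l * s) + (ZMod.stdAddChar (N := q)) (-(l * s)))).prod =
      ∑ a : ZMod q, cf q y (prun q L) a * (ZMod.stdAddChar (N := q)) (l * a) := by
  induction L with
  | nil =>
    rw [List.map_nil, List.prod_nil]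
    symm
    rw [Finset.sum_eq_single 0]
    · rw [mul_zero, AddChar.map_zero_eq_one, cf, prun, pinit, getD_map_range _ _ (ZMod.val_lt _),
        ZMod.val_zero, if_pos rfl]
      simp [ev]
    · intro a _ ha
      rw [cf, prun, pinit, getD_map_range _ _ a.val_lt, if_neg]
      · simp [ev]
      · rwa [ZMod.val_eq_zero]
    · intro h
      exact absurd (Finset.mem_univ _) h
  | cons s L ih =>
    rw [List.map_cons, List.prod_cons, ih, prun]
    simp only [cf_pstep]
    have h : ∀ a : ZMod q, (y * cf q y (prun q L) a + cf q y (prun q L) (a + s) +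
        cf q y (prun q L) (a - s)) * (ZMod.stdAddChar (N := q)) (l * a) = y * (cf q y (prun q L) a * (ZMod.stdAddChar (N := q)) (l * a)) +
        cf q y (prun q L) (a + s) * (ZMod.stdAddChar (N := q)) (l * a) +
        cf q y (prun q L) (a + -(s : ZMod q)) * (ZMod.stdAddChar (N := q)) (l * a) := by
      intro a
      rw [sub_eq_add_neg]
      ring
    rw [Finset.sum_congr rfl fun a _ => h a, Finset.sum_add_distrib, Finset.sum_add_distrib,
      ← Finset.mul_sum, sum_shift, sum_shift]
    rw [mul_neg, neg_neg]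
    ring

omit [NeZero q] in
theorem ev_orb (y : ℂ) (st : List (List ℕ)) (b : ZMod q) (W : List ℕ) :
    ev y (orb q st b.val W) = (W.map fun w : ℕ => cf q y st (w * b)).sum := by
  induction W with
  | nil => simp [orb, ev]
  | cons w W ih =>
    rw [orb, ev_padd, ih, List.map_cons, List.sum_cons, cf]
    congr 3
    rw [ZMod.val_mul, ZMod.val_natCast, Nat.mod_mul_mod]

theorem sum_unit (c : ZMod q → ℂ) (l : ZMod q) {w : ℕ} (hw : Nat.Coprime w q) :
    ∑ a, c a * (ZMod.stdAddChar (N := q)) (l * (w : ZMod q)⁻¹ * a) = ∑ b, c (w * b) * (ZMod.stdAddChar (N := q)) (l * b) := by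
  have h := ZMod.coe_mul_inv_eq_one w hw
  have e : Function.Bijective fun b : ZMod q => (w : ZMod q) * b := by
    refine Function.bijective_iff_has_inverse.mpr ⟨fun a => (w : ZMod q)⁻¹ * a, ?_, ?_⟩
    · intro b
      simp only
      rw [← mul_assoc, mul_comm _ (w : ZMod q), h, one_mul]
    · intro b
      simp only
      rw [← mul_assoc, h, one_mul]
  rw [← Function.Bijective.sum_comp e]
  refine Finset.sum_congr rfl fun b _ => ?_
  congr 2
  linear_combination (l * b) * h

theorem orbit_num (y : ℂ) (L : List ℕ) (l : ZMod q) (W : List ℕ) (hW : ∀ w ∈ W, Nat.Coprime w q) :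
    (W.map fun w : ℕ => (L.map fun s : ℕ => y + ((ZMod.stdAddChar (N := q)) (l * (w : ZMod q)⁻¹ * s) +
      (ZMod.stdAddChar (N := q)) (-(l * (w : ZMod q)⁻¹ * s)))).prod).sum =
      ∑ b : ZMod q, ev y (orb q (prun q L) b.val W) * (ZMod.stdAddChar (N := q)) (l * b) := by
  simp only [num, ev_orb]
  induction W with
  | nil => simp
  | cons w W ih =>
    rw [List.map_cons, List.sum_cons, ih fun w hw => hW w (List.mem_cons_of_mem _ hw),
      sum_unit _ _ (hW w List.mem_cons_self), ← Finset.sum_add_distrib]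
    refine Finset.sum_congr rfl fun b _ => ?_
    rw [List.map_cons, List.sum_cons, add_mul]

theorem eval_list_QQ {z : ℂ} (hz : z ≠ 0) (f : ℕ → ZMod q) (L : List ℕ) :
    eval z (L.map fun s : ℕ => QQ (f s)).prod = (-z) ^ L.length *
      (L.map fun s : ℕ => -(1 + z ^ 2) / z + ((ZMod.stdAddChar (N := q)) (f s) + (ZMod.stdAddChar (N := q)) (-(f s)))).prod := by
  induction L with
  | nil => simp
  | cons s L ih =>
    rw [List.map_cons, List.prod_cons, eval_mul, ih, List.map_cons, List.prod_cons,
      List.length_cons, pow_succ]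
    have h : eval z (QQ (f s)) = (-z) * (-(1 + z ^ 2) / z + ((ZMod.stdAddChar (N := q)) (f s) + (ZMod.stdAddChar (N := q)) (-(f s)))) := by
      unfold QQ
      rw [eval_add, eval_sub, eval_mul, eval_C, eval_one, eval_pow, eval_X]
      field_simp
      ring
    rw [h]
    ring

theorem orbit_poly {L L' W : List ℕ} (hlen : L.length = L'.length)
    (hW : ∀ w ∈ W, Nat.Coprime w q)
    (horb : ∀ b < q, orb q (prun q L) b W = orb q (prun q L') b W) (l : ZMod q) :
    (W.map fun w : ℕ => (L.map fun s : ℕ => QQ (l * (w : ZMod q)⁻¹ * (s : ZMod q))).prod).sum =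
    (W.map fun w : ℕ => (L'.map fun s : ℕ => QQ (l * (w : ZMod q)⁻¹ * (s : ZMod q))).prod).sum := by
  apply mul_left_cancel₀ (X_ne_zero (R := ℂ))
  apply Polynomial.funext
  intro z
  rw [eval_mul, eval_mul, eval_X]
  rcases eq_or_ne z 0 with rfl | hz
  · rw [zero_mul, zero_mul]
  congr 1
  have key : ∀ M : List ℕ,
      eval z (W.map fun w : ℕ => (M.map fun s : ℕ => QQ (l * (w : ZMod q)⁻¹ * (s : ZMod q))).prod).sum =
      (-z) ^ M.length * ∑ b : ZMod q, ev (-(1 + z ^ 2) / z) (orb q (prun q M) b.val W) *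
        (ZMod.stdAddChar (N := q)) (l * b) := by
    intro M
    rw [← orbit_num _ _ _ _ hW, ← List.sum_map_mul_left]
    rw [← Polynomial.coe_evalRingHom, map_list_sum, List.map_map]
    congr 1
    apply List.map_congr_left
    intro w _
    simp only [Function.comp_apply, Polynomial.coe_evalRingHom]
    exact eval_list_QQ hz _ _
  rw [key, key, hlen]
  congr 1
  exact Finset.sum_congr rfl fun b _ => by rw [horb b.val b.val_lt]

end Pool.Agent.Helper477.Sph
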