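import Pool.Agent.Helper477.Sph.Lens3

set_option autoImplicit false

/-! # Isospectral non-isometric lens spaces -/

namespace Pool.Agent.Helper477.Sph

open Polynomial

variable {q : ℕ} [NeZero q]

/-- The product over a multiset, evaluated at `l`. -/
noncomputable def PP (S : Multiset ℕ) (l : ZMod q) : ℂ[X] :=
  (S.map fun a : ℕ => QQ (l * (a : ZMod q))).prod

theorem PP_add (S T : Multiset ℕ) (l : ZMod q) : PP (S + T) l = PP S l * PP T l := by
  unfold PP
  rw [Multiset.map_add, Multiset.prod_add]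

theorem PP_nsmul (κ : ℕ) (S : Multiset ℕ) (l : ZMod q) : PP (κ • S) l = PP S l ^ κ := by
  unfold PP
  rw [Multiset.map_nsmul, Multiset.prod_nsmul]

theorem QQ_constantCoeff (a : ZMod q) : (QQ a).coeff 0 = 1 := by
  unfold QQ
  simp [coeff_one]

theorem PP_coeff_zero (S : Multiset ℕ) (l : ZMod q) : (PP S l).coeff 0 = 1 := by
  unfold PP
  induction S using Multiset.induction_on with
  | empty => simp
  | cons a S ih => rw [Multiset.map_cons, Multiset.prod_cons, mul_coeff_zero, ih,
      QQ_constantCoeff, one_mul]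

theorem PP_ne_zero (S : Multiset ℕ) (l : ZMod q) : PP S l ≠ 0 := by
  intro h
  have := PP_coeff_zero S l
  rw [h, coeff_zero] at this
  exact zero_ne_one this

/-- Normal form modulo sign. -/
def nrm (q a : ℕ) : ℕ := if a % q ≤ q / 2 then a % q else q - a % q

theorem cast_nrm (a : ℕ) : (nrm q a : ZMod q) = a ∨ (nrm q a : ZMod q) = -(a : ZMod q) := by
  unfold nrm
  split_ifs with h
  · left
    rw [ZMod.natCast_mod]
  · right
    rw [Nat.cast_sub (Nat.mod_lt _ (Nat.pos_of_ne_zero (NeZero.ne q))).le, ZMod.natCast_self,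
      ZMod.natCast_mod, zero_sub]

theorem QQ_nrm (l : ZMod q) (a : ℕ) : QQ (l * (nrm q a : ZMod q)) = QQ (l * (a : ZMod q)) := by
  rcases cast_nrm (q := q) a with h | h
  · rw [h]
  · rw [h, mul_neg, QQ_neg]

theorem PP_map_nrm (k : ℕ) (S : Multiset ℕ) (l : ZMod q) :
    PP (S.map fun a => nrm q (k * a)) l = PP S (l * (k : ZMod q)) := by
  unfold PP
  rw [Multiset.map_map]
  congr 1
  refine Multiset.map_congr rfl fun a _ => ?_
  rw [Function.comp_apply, QQ_nrm, Nat.cast_mul, mul_assoc]

/-- Roots of the product. -/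
theorem roots_PP (S : Multiset ℕ) (l : ZMod q) :
    (PP S l).roots = (S.map fun a : ℕ => l * (a : ZMod q)).map ((ZMod.stdAddChar (N := q))) +
      (S.map fun a : ℕ => -(l * (a : ZMod q))).map ((ZMod.stdAddChar (N := q))) := by
  induction S using Multiset.induction_on with
  | empty => simp [PP]
  | cons a S ih =>
    have h1 : PP (a ::ₘ S) l = QQ (l * (a : ZMod q)) * PP S l := by
      unfold PP
      rw [Multiset.map_cons, Multiset.prod_cons]
    have h2 : QQ (l * (a : ZMod q)) ≠ 0 := by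
      intro h
      have := QQ_constantCoeff (l * (a : ZMod q))
      rw [h, coeff_zero] at this
      exact zero_ne_one this
    rw [h1, roots_mul (mul_ne_zero h2 (PP_ne_zero S l)), ih]
    have h3 : (QQ (l * (a : ZMod q))).roots = {(ZMod.stdAddChar (N := q)) (l * (a : ZMod q))} + {(ZMod.stdAddChar (N := q)) (-(l * (a : ZMod q)))} := by
      rw [QQ_factor] at h2 ⊢
      rw [roots_mul h2, roots_X_sub_C, roots_X_sub_C]
    rw [h3]
    simp only [Multiset.map_cons]
    rw [← Multiset.singleton_add ((ZMod.stdAddChar (N := q)) (l * (a : ZMod q))),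
      ← Multiset.singleton_add ((ZMod.stdAddChar (N := q)) (-(l * (a : ZMod q))))]
    exact add_add_add_comm _ _ _ _

/-- The symmetrised multiset. -/
def sy (S : Multiset ℕ) (l : ZMod q) : Multiset (ZMod q) :=
  (S.map fun a : ℕ => l * (a : ZMod q)) + (S.map fun a : ℕ => -(l * (a : ZMod q)))

theorem sy_eq_of_PP {S T : Multiset ℕ} {l m : ZMod q} (h : PP S l = PP T m) : sy S l = sy T m := by
  have h1 := congrArg roots h
  rw [roots_PP, roots_PP, ← Multiset.map_add, ← Multiset.map_add] at h1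
  exact Multiset.map_injective ZMod.injective_stdAddChar h1

/-- The series of a lens group. -/
theorem tau_lg {n : ℕ} (s : Fin n → ZMod q) (S : Multiset ℕ)
    (hS : Finset.univ.val.map s = S.map (Nat.cast : ℕ → ZMod q)) (l : ZMod q) :
    tau (cx (lg s ^ l.val).1) * (PP S l : PowerSeries ℂ) = 1 := by
  have h1 : (cx (lg s ^ l.val).1) ^ q = 1 := by
    rw [← cx_pow]
    have h2 : (lg s ^ l.val).1 ^ q = 1 := by
      have h3 : (lg s ^ l.val) ^ q = 1 := by rw [← pow_mul, mul_comm l.val q, pow_mul, lg_pow_q, one_pow]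
      exact congrArg Subtype.val h3
    rw [h2]
    exact cx_one
  have h4 := tau_mul_charpolyRev _ q (Nat.pos_of_ne_zero (NeZero.ne q)) h1
  rw [charpolyRev_lg, ZMod.natCast_zmod_val] at h4
  have h5 : ∏ j, QQ (l * s j) = PP S l := by
    unfold PP
    have h6 : (S.map fun a : ℕ => QQ (l * (a : ZMod q))) =
        (S.map (Nat.cast : ℕ → ZMod q)).map fun x => QQ (l * x) := by
      rw [Multiset.map_map]; rfl
    rw [h6, ← hS, Multiset.map_map]
    rfl
  rw [h5] at h4
  exact h4

theorem exists_fun {n : ℕ} (S : Multiset (ZMod q)) (h : Multiset.card S = n) :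
    ∃ s : Fin n → ZMod q, Finset.univ.val.map s = S := by
  induction S using Quotient.inductionOn with
  | h l =>
    have h' : l.length = n := h
    subst h'
    refine ⟨fun i => l[i], ?_⟩
    rw [Fin.univ_val_map]
    congr 1
    exact List.ofFn_getElem

/-- The decidable data certifying an isospectral non-isometric pair of lens spaces. -/
structure Cert (q κ : ℕ) (U L L' : List ℕ) : Prop where
  hU : ∀ u ∈ U, Nat.Coprime u q
  hU0 : U ≠ []
  hinv : ∀ k < q, Nat.Coprime k q → (U.map fun u => nrm q (k * u)).Perm U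
  hlen : L.length = L'.length
  horb : ∀ b < q, orb q (prun q L) b U = orb q (prun q L') b U
  hne : ∀ k < q, Nat.Coprime k q →
    ¬ (L.map (fun a => a % q) ++ L.map (fun a => (q - 1) * a % q)).Perm
      (L'.map (fun a => k * a % q) ++ L'.map (fun a => (q - 1) * (k * a) % q))
  hL : (L : Multiset ℕ) ≤ κ • (U : Multiset ℕ)
  hL' : (L' : Multiset ℕ) ≤ κ • (U : Multiset ℕ)

theorem PP_inv {κ : ℕ} {U L L' : List ℕ} (c : Cert q κ U L L') {k : ℕ} (hk : Nat.Coprime k q)
    (l : ZMod q) : PP (U : Multiset ℕ) (l * (k : ZMod q)) = PP (U : Multiset ℕ) l := by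
  have h0 : ((k % q : ℕ) : ZMod q) = (k : ZMod q) := ZMod.natCast_mod k q
  have hk' : Nat.Coprime (k % q) q := by
    rw [Nat.Coprime, ← Nat.gcd_rec, Nat.gcd_comm]
    exact hk
  rw [← h0, ← PP_map_nrm]
  congr 1
  rw [Multiset.map_coe]
  exact Multiset.coe_eq_coe.mpr (c.hinv _ (Nat.mod_lt _ (Nat.pos_of_ne_zero (NeZero.ne q))) hk')

theorem sy_perm {L L' : List ℕ} {k : ℕ} (h : sy (L : Multiset ℕ) (1 : ZMod q) = sy (L' : Multiset ℕ) (k : ZMod q)) :
    (L.map (fun a => a % q) ++ L.map (fun a => (q - 1) * a % q)).Perm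
      (L'.map (fun a => k % q * a % q) ++ L'.map (fun a => (q - 1) * (k % q * a) % q)) := by
  have h1 := congrArg (Multiset.map ZMod.val) h
  unfold sy at h1
  simp only [Multiset.map_coe, Multiset.coe_add, List.map_append, List.map_map,
    Multiset.coe_eq_coe] at h1
  have e1 : (ZMod.val ∘ fun a : ℕ => (1 : ZMod q) * (a : ZMod q)) = fun a : ℕ => a % q := by
    funext a
    rw [Function.comp_apply, one_mul, ZMod.val_natCast]
  have e2 : (ZMod.val ∘ fun a : ℕ => -((1 : ZMod q) * (a : ZMod q))) =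
      fun a : ℕ => (q - 1) * a % q := by
    funext a
    rw [Function.comp_apply, one_mul, ← cast_pred_mul, ZMod.val_natCast]
  have e3 : (ZMod.val ∘ fun a : ℕ => (k : ZMod q) * (a : ZMod q)) =
      fun a : ℕ => k % q * a % q := by
    funext a
    rw [Function.comp_apply, ← Nat.cast_mul, ZMod.val_natCast, Nat.mod_mul_mod]
  have e4 : (ZMod.val ∘ fun a : ℕ => -((k : ZMod q) * (a : ZMod q))) =
      fun a : ℕ => (q - 1) * (k % q * a) % q := by
    funext a
    have : (k : ZMod q) * (a : ZMod q) = ((k % q * a : ℕ) : ZMod q) := by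
      rw [Nat.cast_mul, ZMod.natCast_mod]
    rw [Function.comp_apply, this, ← cast_pred_mul, ZMod.val_natCast]
  rw [e1, e2, e3, e4] at h1
  exact h1

/-- The key cancellation. -/
theorem sum_series {κ : ℕ} {U L L' : List ℕ} (c : Cert q κ U L L')
    (F F' : ZMod q → PowerSeries ℂ)
    (hF : ∀ l, F l * (PP (U : Multiset ℕ) l ^ κ : ℂ[X]) = (PP (L : Multiset ℕ) l : ℂ[X]))
    (hF' : ∀ l, F' l * (PP (U : Multiset ℕ) l ^ κ : ℂ[X]) = (PP (L' : Multiset ℕ) l : ℂ[X])) :
    ∑ l, F l = ∑ l, F' l := by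
  have shift : ∀ (G : ZMod q → PowerSeries ℂ) (w : ℕ), w ∈ U →
      ∑ l, G (l * (w : ZMod q)⁻¹) = ∑ l, G l := by
    intro G w hw
    have h := ZMod.coe_mul_inv_eq_one w (c.hU w hw)
    have e : Function.Bijective fun b : ZMod q => b * (w : ZMod q)⁻¹ := by
      refine Function.bijective_iff_has_inverse.mpr ⟨fun a => a * (w : ZMod q), ?_, ?_⟩
      · intro b
        simp only
        rw [mul_assoc, mul_comm _ (w : ZMod q), h, mul_one]
      · intro b
        simp only
        rw [mul_assoc, h, mul_one]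
    exact Function.Bijective.sum_comp e G
  have Binv : ∀ (l : ZMod q) (w : ℕ), w ∈ U →
      PP (U : Multiset ℕ) (l * (w : ZMod q)⁻¹) = PP (U : Multiset ℕ) l := by
    intro l w hw
    have h := ZMod.coe_mul_inv_eq_one w (c.hU w hw)
    rw [← PP_inv c (c.hU w hw) (l * (w : ZMod q)⁻¹), mul_assoc, mul_comm _ (w : ZMod q), h, mul_one]
  -- the orbit sums agree
  have loc : ∀ l, (U.map fun w : ℕ => F (l * (w : ZMod q)⁻¹)).sum =
      (U.map fun w : ℕ => F' (l * (w : ZMod q)⁻¹)).sum := by
    intro l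
    have hB : ((PP (U : Multiset ℕ) l ^ κ : ℂ[X]) : PowerSeries ℂ) ≠ 0 := by
      rw [Ne, Polynomial.coe_eq_zero_iff]
      exact pow_ne_zero _ (PP_ne_zero _ _)
    apply mul_right_cancel₀ hB
    have key : ∀ (G : ZMod q → PowerSeries ℂ) (M : List ℕ)
        (_ : ∀ l, G l * (PP (U : Multiset ℕ) l ^ κ : ℂ[X]) = (PP (M : Multiset ℕ) l : ℂ[X])),
        (U.map fun w : ℕ => G (l * (w : ZMod q)⁻¹)).sum *
          ((PP (U : Multiset ℕ) l ^ κ : ℂ[X]) : PowerSeries ℂ) =
        (((U.map fun w : ℕ => (M.map fun s : ℕ =>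
          QQ (l * (w : ZMod q)⁻¹ * (s : ZMod q))).prod).sum : ℂ[X]) : PowerSeries ℂ) := by
      intro G M hG
      have hc : ∀ p : ℂ[X], (p : PowerSeries ℂ) = Polynomial.coeToPowerSeries.ringHom p :=
        fun p => rfl
      rw [← List.sum_map_mul_right]
      rw [hc, hc, map_list_sum, List.map_map]
      congr 1
      apply List.map_congr_left
      intro w hw
      rw [← hc, ← Binv l w hw, hG, Function.comp_apply, ← hc]
      rfl
    rw [key F L hF, key F' L' hF', orbit_poly c.hlen c.hU c.horb]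
  -- sum over everything
  have tot : ∀ G : ZMod q → PowerSeries ℂ, (U.length : PowerSeries ℂ) * ∑ l, G l =
      ∑ l, (U.map fun w : ℕ => G (l * (w : ZMod q)⁻¹)).sum := by
    intro G
    have : ∀ V : List ℕ, (∀ w ∈ V, w ∈ U) → (V.length : PowerSeries ℂ) * ∑ l, G l =
        ∑ l, (V.map fun w : ℕ => G (l * (w : ZMod q)⁻¹)).sum := by
      intro V hV
      induction V with
      | nil => simp
      | cons w V ih =>
        simp only [List.map_cons, List.sum_cons, List.length_cons]
        rw [Finset.sum_add_distrib, ← ih fun w hw => hV w (List.mem_cons_of_mem _ hw),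
          shift G w (hV w List.mem_cons_self)]
        push_cast
        ring
    exact this U fun _ h => h
  have hU : (U.length : PowerSeries ℂ) ≠ 0 := by
    rw [← map_natCast (PowerSeries.C (R := ℂ)), Ne, map_eq_zero_iff _ PowerSeries.C_injective,
      Nat.cast_eq_zero, List.length_eq_zero_iff]
    exact c.hU0
  apply mul_left_cancel₀ hU
  rw [tot F, tot F']
  exact Finset.sum_congr rfl fun l _ => loc l

/-- A certificate gives an isospectral non-isometric pair of lens spaces. -/
theorem lens_pair {κ n : ℕ} {U L L' : List ℕ} (c : Cert q κ U L L')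
    (hn : n + L.length = κ * U.length) (hn0 : 0 < n) :
    ∃ Γ Γ' : Subgroup (Matrix.orthogonalGroup (Fin (2 * n)) ℝ), Finite Γ ∧ Finite Γ' ∧
      FreeOn Γ ∧ FreeOn Γ' ∧ Nat.card Γ = q ∧ Nat.card Γ' = q ∧ hilb Γ = hilb Γ' ∧
      ¬ Conj Γ Γ' := by
  classical
  -- the multisets
  have mk : ∀ M : List ℕ, (M : Multiset ℕ) ≤ κ • (U : Multiset ℕ) →
      n + M.length = κ * U.length → ∃ (S : Multiset ℕ) (s : Fin n → ZMod q),
        S + M = κ • (U : Multiset ℕ) ∧
        Finset.univ.val.map s = S.map (Nat.cast : ℕ → ZMod q) ∧ ∀ j, IsUnit (s j) := by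
    intro M hM hMn
    refine ⟨κ • (U : Multiset ℕ) - (M : Multiset ℕ), ?_⟩
    have h1 : κ • (U : Multiset ℕ) - (M : Multiset ℕ) + M = κ • (U : Multiset ℕ) :=
      Multiset.sub_add_cancel hM
    have h2 : Multiset.card (κ • (U : Multiset ℕ) - (M : Multiset ℕ)) = n := by
      have := congrArg Multiset.card h1
      rw [Multiset.card_add, Multiset.card_nsmul, Multiset.coe_card, Multiset.coe_card] at this
      omega
    obtain ⟨s, hs⟩ := exists_fun (q := q)
      ((κ • (U : Multiset ℕ) - (M : Multiset ℕ)).map (Nat.cast : ℕ → ZMod q)) (by rw [Multiset.card_map, h2])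
    refine ⟨s, h1, hs, fun j => ?_⟩
    have h3 : s j ∈ (κ • (U : Multiset ℕ) - (M : Multiset ℕ)).map (Nat.cast : ℕ → ZMod q) := by
      rw [← hs]
      exact Multiset.mem_map_of_mem _ (Finset.mem_univ_val j)
    obtain ⟨a, ha, ha'⟩ := Multiset.mem_map.mp h3
    have h4 : a ∈ κ • (U : Multiset ℕ) := by
      rw [← h1]
      exact Multiset.mem_add.mpr (Or.inl ha)
    have h5 := Multiset.mem_of_mem_nsmul h4
    rw [← ha', ZMod.isUnit_iff_coprime]
    exact c.hU a (Multiset.mem_coe.mp h5)
  obtain ⟨S, s, hSL, hS, hsu⟩ := mk L c.hL hn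
  obtain ⟨S', s', hSL', hS', hsu'⟩ := mk L' c.hL' (by rw [← c.hlen]; exact hn)
  have hfin := finite_LG hn0 hsu
  have hfin' := finite_LG hn0 hsu'
  refine ⟨LG s, LG s', hfin, hfin', free_LG hsu, free_LG hsu', card_LG hn0 hsu, card_LG hn0 hsu',
    ?_, ?_⟩
  · -- isospectrality
    have := Fintype.ofFinite (LG s)
    have := Fintype.ofFinite (LG s')
    have m1 := molien_series (LG s)
    have m2 := molien_series (LG s')
    rw [sum_LG hn0 hsu (fun g => tau (cx g.1))] at m1
    rw [sum_LG hn0 hsu' (fun g => tau (cx g.1))] at m2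
    rw [← Nat.card_eq_fintype_card, card_LG hn0 hsu] at m1
    rw [← Nat.card_eq_fintype_card, card_LG hn0 hsu'] at m2
    have key : ∀ {S L : Multiset ℕ} {s : Fin n → ZMod q}, S + L = κ • (U : Multiset ℕ) →
        Finset.univ.val.map s = S.map (Nat.cast : ℕ → ZMod q) → ∀ l : ZMod q,
        tau (cx (lg s ^ l.val).1) * (PP (U : Multiset ℕ) l ^ κ : ℂ[X]) = (PP L l : ℂ[X]) := by
      intro S L s hSL hS l
      rw [← PP_nsmul, ← hSL, PP_add, Polynomial.coe_mul, ← mul_assoc, tau_lg s S hS, one_mul]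
    have h3 := sum_series c _ _ (key hSL hS) (key hSL' hS')
    have hq : (PowerSeries.C (q : ℂ)) ≠ 0 := by
      rw [Ne, map_eq_zero_iff _ PowerSeries.C_injective]
      exact Nat.cast_ne_zero.mpr (NeZero.ne q)
    apply mul_left_cancel₀ hq
    rw [m1, m2, h3]
  · -- non-isometry
    rintro ⟨h, hh⟩
    have h1 : h * lg s * h⁻¹ ∈ LG s' := (hh _).mp (Subgroup.mem_zpowers _)
    obtain ⟨k, hk⟩ := mem_LG.mp h1
    have ho : orderOf (lg s' ^ k) = q := by
      rw [hk]
      have : orderOf (h * lg s * h⁻¹) = orderOf (lg s) := by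
        rw [← MulAut.conj_apply]
        exact MulEquiv.orderOf_eq (MulAut.conj h) (lg s)
      rw [this, orderOf_lg hn0 hsu]
    have hkq : Nat.Coprime k q := by
      rw [(finOrd s').orderOf_pow, orderOf_lg hn0 hsu'] at ho
      have h2 : q / Nat.gcd q k = q → Nat.gcd q k = 1 := by
        intro h3
        have hqp : 0 < q := Nat.pos_of_ne_zero (NeZero.ne q)
        have h4 := Nat.div_mul_cancel (Nat.gcd_dvd_left q k)
        rw [h3] at h4
        exact Nat.eq_of_mul_eq_mul_left hqp (by rw [h4, mul_one])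
      exact (Nat.gcd_comm k q).trans (h2 ho)
    have h5 : (cx (lg s ^ 1).1).charpolyRev = (cx (lg s' ^ k).1).charpolyRev := by
      rw [hk, pow_one]
      have e1 : cx (h * lg s * h⁻¹).1 = cx h.1 * cx (lg s).1 * cx (h⁻¹).1 := by
        rw [← cx_mul, ← cx_mul]
        rfl
      rw [e1]
      symm
      apply charpolyRev_conj
      rw [← cx_mul]
      have : (h⁻¹).1 * h.1 = 1 := congrArg Subtype.val (inv_mul_cancel h)
      rw [this, cx_one]
    rw [charpolyRev_lg, charpolyRev_lg] at h5
    have h6 : ∀ {S : Multiset ℕ} {s : Fin n → ZMod q} (l : ZMod q),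
        Finset.univ.val.map s = S.map (Nat.cast : ℕ → ZMod q) → ∏ j, QQ (l * s j) = PP S l := by
      intro S s l hS
      unfold PP
      have h6 : (S.map fun a : ℕ => QQ (l * (a : ZMod q))) =
          (S.map (Nat.cast : ℕ → ZMod q)).map fun x => QQ (l * x) := by
        rw [Multiset.map_map]; rfl
      rw [h6, ← hS, Multiset.map_map]
      rfl
    rw [h6 _ hS, h6 _ hS'] at h5
    -- pass to complements
    have h7 : PP (L : Multiset ℕ) (1 : ZMod q) = PP (L' : Multiset ℕ) (k : ZMod q) := by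
      have a1 := PP_add S L (1 : ZMod q)
      have a2 := PP_add S' L' (k : ZMod q)
      rw [hSL, PP_nsmul] at a1
      rw [hSL', PP_nsmul] at a2
      have a3 := PP_inv c hkq (1 : ZMod q)
      rw [one_mul] at a3
      rw [a3, a1] at a2
      rw [Nat.cast_one] at h5
      rw [h5] at a2
      exact mul_left_cancel₀ (PP_ne_zero _ _) a2
    have h8 := sy_perm (sy_eq_of_PP h7)
    have hk' : Nat.Coprime (k % q) q := by
      rw [Nat.Coprime, ← Nat.gcd_rec, Nat.gcd_comm]
      exact hkq
    exact c.hne (k % q) (Nat.mod_lt _ (Nat.pos_of_ne_zero (NeZero.ne q))) hk' h8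

end Pool.Agent.Helper477.Sph
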