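import Pool.Agent.Helper477.Sph.Lens4

set_option autoImplicit false
set_option maxRecDepth 100000

/-! # Isospectral lens pairs of order 28 or 25 in every dimension -/

namespace Pool.Agent.Helper477.Sph

theorem cert1 : Cert 28 1 [1, 3, 5, 9, 11, 13] [1, 3, 5] [1, 3, 9] where
  hU := by decide +kernel
  hU0 := by decide
  hinv := by decide +kernel
  hlen := rfl
  horb := by decide +kernel
  hne := by decide +kernel
  hL := by decide +kernel
  hL' := by decide +kernel

theorem cert2 : Cert 28 1 [1, 3, 5, 9, 11, 13] [1, 3] [1, 5] where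
  hU := by decide +kernel
  hU0 := by decide
  hinv := by decide +kernel
  hlen := rfl
  horb := by decide +kernel
  hne := by decide +kernel
  hL := by decide +kernel
  hL' := by decide +kernel

theorem cert3 : Cert 28 2 [1, 3, 5, 9, 11, 13] [1, 1, 3, 3, 9, 13] [1, 1, 5, 5, 9, 11] where
  hU := by decide +kernel
  hU0 := by decide
  hinv := by decide +kernel
  hlen := rfl
  horb := by decide +kernel
  hne := by decide +kernel
  hL := by decide +kernel
  hL' := by decide +kernel

theorem cert4 : Cert 28 2 [1, 3, 5, 9, 11, 13] [1, 1, 3, 9, 13] [1, 1, 9, 11, 13] where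
  hU := by decide +kernel
  hU0 := by decide
  hinv := by decide +kernel
  hlen := rfl
  horb := by decide +kernel
  hne := by decide +kernel
  hL := by decide +kernel
  hL' := by decide +kernel

theorem cert5 : Cert 28 2 [1, 3, 5, 9, 11, 13] [1, 1, 5, 13] [1, 1, 9, 13] where
  hU := by decide +kernel
  hU0 := by decide
  hinv := by decide +kernel
  hlen := rfl
  horb := by decide +kernel
  hne := by decide +kernel
  hL := by decide +kernel
  hL' := by decide +kernel

theorem cert6 : Cert 25 1 [1, 2, 3, 4, 6, 7, 8, 9, 11, 12] [1, 2, 3, 8, 12] [1, 2, 4, 9, 11] where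
  hU := by decide +kernel
  hU0 := by decide
  hinv := by decide +kernel
  hlen := rfl
  horb := by decide +kernel
  hne := by decide +kernel
  hL := by decide +kernel
  hL' := by decide +kernel

theorem cert7 : Cert 25 1 [1, 2, 3, 4, 6, 7, 8, 9, 11, 12] [1, 2, 4] [1, 2, 6] where
  hU := by decide +kernel
  hU0 := by decide
  hinv := by decide +kernel
  hlen := rfl
  horb := by decide +kernel
  hne := by decide +kernel
  hL := by decide +kernel
  hL' := by decide +kernel

theorem cert8 : Cert 25 2 [1, 2, 3, 4, 6, 7, 8, 9, 11, 12] [1, 1, 3, 4, 8, 11, 12] [1, 1, 3, 8, 9, 11, 12] where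
  hU := by decide +kernel
  hU0 := by decide
  hinv := by decide +kernel
  hlen := rfl
  horb := by decide +kernel
  hne := by decide +kernel
  hL := by decide +kernel
  hL' := by decide +kernel

theorem cert9 : Cert 25 2 [1, 2, 3, 4, 6, 7, 8, 9, 11, 12] [1, 1, 2, 4, 6, 6, 8, 9, 11] [1, 1, 3, 4, 6, 8, 9, 9, 11] where
  hU := by decide +kernel
  hU0 := by decide
  hinv := by decide +kernel
  hlen := rfl
  horb := by decide +kernel
  hne := by decide +kernel
  hL := by decide +kernel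
  hL' := by decide +kernel

theorem cert10 : Cert 25 3 [1, 2, 3, 4, 6, 7, 8, 9, 11, 12] [1, 1, 1, 3, 4, 4, 6, 8, 9, 11, 12] [1, 1, 2, 2, 3, 7, 7, 8, 8, 11, 12] where
  hU := by decide +kernel
  hU0 := by decide
  hinv := by decide +kernel
  hlen := rfl
  horb := by decide +kernel
  hne := by decide +kernel
  hL := by decide +kernel
  hL' := by decide +kernel

theorem Cert.mono {q κ κ' : ℕ} {U L L' : List ℕ} (c : Cert q κ U L L') (h : κ ≤ κ') :
    Cert q κ' U L L' where
  hU := c.hU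
  hU0 := c.hU0
  hinv := c.hinv
  hlen := c.hlen
  horb := c.horb
  hne := c.hne
  hL := c.hL.trans (by
    obtain ⟨d, rfl⟩ := Nat.exists_eq_add_of_le h
    rw [add_nsmul]
    exact Multiset.le_add_right _ _)
  hL' := c.hL'.trans (by
    obtain ⟨d, rfl⟩ := Nat.exists_eq_add_of_le h
    rw [add_nsmul]
    exact Multiset.le_add_right _ _)

/-- In every dimension `2n-1 ≥ 5` there is an isospectral non-isometric pair of lens spaces of
order at most `28`. -/
theorem exists_pair {n : ℕ} (hn : 3 ≤ n) :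
    ∃ Γ Γ' : Subgroup (Matrix.orthogonalGroup (Fin (2 * n)) ℝ), Finite Γ ∧ Finite Γ' ∧
      FreeOn Γ ∧ FreeOn Γ' ∧ Nat.card Γ ≤ 28 ∧ Nat.card Γ = Nat.card Γ' ∧ hilb Γ = hilb Γ' ∧
      ¬ Conj Γ Γ' := by
  have fin : ∀ {q κ : ℕ} [NeZero q] {U L L' : List ℕ}, q ≤ 28 → Cert q κ U L L' →
      n + L.length = κ * U.length →
      ∃ Γ Γ' : Subgroup (Matrix.orthogonalGroup (Fin (2 * n)) ℝ), Finite Γ ∧ Finite Γ' ∧
      FreeOn Γ ∧ FreeOn Γ' ∧ Nat.card Γ ≤ 28 ∧ Nat.card Γ = Nat.card Γ' ∧ hilb Γ = hilb Γ' ∧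
      ¬ Conj Γ Γ' := by
    intro q κ _ U L L' hq c hc
    obtain ⟨Γ, Γ', h1, h2, h3, h4, h5, h6, h7, h8⟩ := lens_pair c hc (by omega)
    exact ⟨Γ, Γ', h1, h2, h3, h4, h5.trans_le hq, h5.trans h6.symm, h7, h8⟩
  have hc : n % 6 = 3 ∨ n % 6 = 4 ∨ n % 6 = 0 ∨ n % 6 = 1 ∨ n % 6 = 2 ∨ (n % 6 = 5 ∧ n % 10 = 5) ∨ (n % 6 = 5 ∧ n % 10 = 7) ∨ (n % 6 = 5 ∧ n % 10 = 3) ∨ (n % 6 = 5 ∧ n % 10 = 1) ∨ (n % 6 = 5 ∧ n % 10 = 9) := by omega
  rcases hc with hc | hc | hc | hc | hc | hc | hc | hc | hc | hc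
  · exact fin (by norm_num) (cert1.mono (show 1 ≤ (n + 3) / 6 by omega))
      (show n + 3 = (n + 3) / 6 * 6 by omega)
  · exact fin (by norm_num) (cert2.mono (show 1 ≤ (n + 2) / 6 by omega))
      (show n + 2 = (n + 2) / 6 * 6 by omega)
  · exact fin (by norm_num) (cert3.mono (show 2 ≤ (n + 6) / 6 by omega))
      (show n + 6 = (n + 6) / 6 * 6 by omega)
  · exact fin (by norm_num) (cert4.mono (show 2 ≤ (n + 5) / 6 by omega))
      (show n + 5 = (n + 5) / 6 * 6 by omega)
  · exact fin (by norm_num) (cert5.mono (show 2 ≤ (n + 4) / 6 by omega))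
      (show n + 4 = (n + 4) / 6 * 6 by omega)
  · exact fin (by norm_num) (cert6.mono (show 1 ≤ (n + 5) / 10 by omega))
      (show n + 5 = (n + 5) / 10 * 10 by omega)
  · exact fin (by norm_num) (cert7.mono (show 1 ≤ (n + 3) / 10 by omega))
      (show n + 3 = (n + 3) / 10 * 10 by omega)
  · exact fin (by norm_num) (cert8.mono (show 2 ≤ (n + 7) / 10 by omega))
      (show n + 7 = (n + 7) / 10 * 10 by omega)
  · exact fin (by norm_num) (cert9.mono (show 2 ≤ (n + 9) / 10 by omega))
      (show n + 9 = (n + 9) / 10 * 10 by omega)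
  · exact fin (by norm_num) (cert10.mono (show 3 ≤ (n + 11) / 10 by omega))
      (show n + 11 = (n + 11) / 10 * 10 by omega)

end Pool.Agent.Helper477.Sph
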