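import Mathlib

set_option autoImplicit false

/-! # Traces of a linear substitution on homogeneous polynomials -/

namespace Pool.Agent.Helper477.Sph

open MvPolynomial Matrix

variable {n : ℕ} {R : Type*} [CommRing R]

/-- Linear substitution. -/
noncomputable def TT (g : Matrix (Fin n) (Fin n) R) :
    MvPolynomial (Fin n) R →ₐ[R] MvPolynomial (Fin n) R :=
  aeval (fun i : Fin n => ∑ j : Fin n, C (g i j) * X j)

theorem TT_X (g : Matrix (Fin n) (Fin n) R) (i : Fin n) :
    TT g (X i) = ∑ j : Fin n, C (g i j) * X j := by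
  simp [TT]

theorem TT_C (g : Matrix (Fin n) (Fin n) R) (a : R) : TT g (C a) = C a := (TT g).commutes a

theorem TT_mul (g h : Matrix (Fin n) (Fin n) R) (p : MvPolynomial (Fin n) R) :
    TT h (TT g p) = TT (g * h) p := by
  have : (TT h).comp (TT g) = TT (g * h) := by
    apply MvPolynomial.algHom_ext
    intro i
    rw [AlgHom.comp_apply, TT_X, TT_X, map_sum]
    simp only [map_mul, TT_X, TT_C, Matrix.mul_apply, map_sum, Finset.sum_mul]
    rw [Finset.sum_comm]
    refine Finset.sum_congr rfl fun k _ => ?_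
    rw [Finset.mul_sum]
    refine Finset.sum_congr rfl fun j _ => ?_
    ring
  rw [← this]
  rfl

theorem TT_one (p : MvPolynomial (Fin n) R) : TT (1 : Matrix (Fin n) (Fin n) R) p = p := by
  have : TT (1 : Matrix (Fin n) (Fin n) R) = AlgHom.id R _ := by
    apply MvPolynomial.algHom_ext
    intro i
    rw [TT_X]
    simp [Matrix.one_apply]
  rw [this]
  rfl

theorem TT_homog (g : Matrix (Fin n) (Fin n) R) {p : MvPolynomial (Fin n) R} {k : ℕ}
    (hp : p.IsHomogeneous k) : (TT g p).IsHomogeneous k := by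
  have h := hp.aeval (fun i : Fin n => ∑ j : Fin n, C (g i j) * X j) (n := 1) ?_
  · rw [one_mul] at h
    exact h
  · intro i
    refine IsHomogeneous.sum _ _ _ fun j _ => ?_
    have h1 := (isHomogeneous_C (Fin n) (g i j)).mul (isHomogeneous_X R j)
    rwa [zero_add] at h1

/-- Exponents of degree `k`. -/
abbrev I (n k : ℕ) : Type := ↥(Finset.finsuppAntidiag (Finset.univ : Finset (Fin n)) k)

theorem mem_I {k : ℕ} (s : Fin n →₀ ℕ) :
    s ∈ Finset.finsuppAntidiag (Finset.univ : Finset (Fin n)) k ↔ ∑ i, s i = k := by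
  rw [Finset.mem_finsuppAntidiag]
  simp

theorem mem_I' {k : ℕ} (s : Fin n →₀ ℕ) :
    s ∈ Finset.finsuppAntidiag (Finset.univ : Finset (Fin n)) k ↔
      Finsupp.weight (1 : Fin n → ℕ) s = k := by
  rw [mem_I, Finsupp.weight_apply, Finsupp.sum_fintype _ _ (by simp)]
  simp

theorem expand {k : ℕ} {p : MvPolynomial (Fin n) R} (hp : p.IsHomogeneous k) :
    p = ∑ s : I n k, monomial s.1 (coeff s.1 p) := by
  classical
  ext t
  rw [coeff_sum]
  simp only [coeff_monomial]
  by_cases ht : t ∈ Finset.finsuppAntidiag (Finset.univ : Finset (Fin n)) k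
  · rw [Finset.sum_eq_single (⟨t, ht⟩ : I n k)]
    · simp
    · intro b _ hb
      rw [if_neg]
      intro h
      exact hb (Subtype.ext h)
    · intro h; exact absurd (Finset.mem_univ _) h
  · rw [Finset.sum_eq_zero]
    · by_contra hc
      exact ht ((mem_I' t).mpr (hp hc))
    · intro b _
      rw [if_neg]
      intro h
      exact ht (h ▸ b.2)

theorem monomial_homog {k : ℕ} (s : I n k) (a : R) : (monomial s.1 a).IsHomogeneous k := by
  apply isHomogeneous_monomial
  have := (mem_I s.1).mp s.2
  rw [Finsupp.degree_eq_sum]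
  exact this

/-- The matrix of the substitution on homogeneous polynomials of degree `k`. -/
noncomputable def Mk (k : ℕ) (g : Matrix (Fin n) (Fin n) R) : Matrix (I n k) (I n k) R :=
  fun s t => coeff s.1 (TT g (monomial t.1 1))

theorem TT_monomial {k : ℕ} (g : Matrix (Fin n) (Fin n) R) (t : I n k) (a : R) :
    TT g (monomial t.1 a) = ∑ s : I n k, monomial s.1 (Mk k g s t * a) := by
  have h1 : (monomial t.1 a : MvPolynomial (Fin n) R) = a • monomial t.1 1 := by
    rw [smul_monomial, smul_eq_mul, mul_one]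
  rw [h1, map_smul, expand (TT_homog g (monomial_homog t 1)), Finset.smul_sum]
  refine Finset.sum_congr rfl fun s _ => ?_
  rw [smul_monomial, smul_eq_mul, mul_comm]
  rfl

theorem Mk_mul (k : ℕ) (g h : Matrix (Fin n) (Fin n) R) : Mk k (g * h) = Mk k h * Mk k g := by
  classical
  ext s t
  have h1 : TT (g * h) (monomial t.1 (1 : R)) = ∑ r : I n k, ∑ s : I n k,
      monomial s.1 (Mk k h s r * Mk k g r t) := by
    rw [← TT_mul, TT_monomial, map_sum]
    refine Finset.sum_congr rfl fun r _ => ?_
    rw [TT_monomial, mul_one]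
  rw [Mk, h1, Matrix.mul_apply, coeff_sum]
  refine Finset.sum_congr rfl fun r _ => ?_
  rw [coeff_sum, Finset.sum_eq_single s]
  · rw [coeff_monomial, if_pos rfl]
  · intro b _ hb
    rw [coeff_monomial, if_neg]
    intro h; exact hb (Subtype.ext h)
  · intro h; exact absurd (Finset.mem_univ _) h

theorem Mk_one (k : ℕ) : Mk k (1 : Matrix (Fin n) (Fin n) R) = 1 := by
  classical
  ext s t
  rw [Mk, TT_one, coeff_monomial, Matrix.one_apply]
  simp only [eq_comm, Subtype.ext_iff]

theorem Mk_map {S : Type*} [CommRing S] (φ : R →+* S) (k : ℕ) (g : Matrix (Fin n) (Fin n) R) :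
    Mk k (g.map φ) = (Mk k g).map φ := by
  ext s t
  rw [Matrix.map_apply, Mk, Mk]
  have h : ∀ p : MvPolynomial (Fin n) R, TT (g.map φ) (MvPolynomial.map φ p) =
      MvPolynomial.map φ (TT g p) := by
    intro p
    induction p using MvPolynomial.induction_on with
    | C a => rw [map_C, TT_C, TT_C, map_C]
    | add p q hp hq => simp only [map_add, hp, hq]
    | mul_X p i hp =>
      rw [map_mul, map_X, map_mul, hp, map_mul, map_mul, TT_X, TT_X, map_sum]
      simp
  have h2 := h (monomial t.1 1)
  rw [map_monomial, map_one] at h2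
  rw [h2, coeff_map]

theorem TT_diag (d : Fin n → R) (t : Fin n →₀ ℕ) (a : R) :
    TT (Matrix.diagonal d) (monomial t a) = monomial t (a * ∏ i, d i ^ t i) := by
  have hX : ∀ i, TT (Matrix.diagonal d) (X i) = C (d i) * X i := by
    intro i
    rw [TT_X, Finset.sum_eq_single i]
    · rw [Matrix.diagonal_apply_eq]
    · intro b _ hb
      rw [Matrix.diagonal_apply_ne _ (Ne.symm hb), C_0, zero_mul]
    · intro h; exact absurd (Finset.mem_univ i) h
  rw [monomial_eq, map_mul, TT_C, Finsupp.prod_fintype _ _ (by simp), map_prod]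
  simp only [map_pow, hX, mul_pow, Finset.prod_mul_distrib]
  rw [monomial_eq, Finsupp.prod_fintype _ _ (by simp), C_mul, map_prod]
  simp only [map_pow]
  ring

theorem trace_Mk_diag (k : ℕ) (d : Fin n → R) :
    (Mk k (Matrix.diagonal d)).trace = ∑ t ∈ Finset.finsuppAntidiag (Finset.univ) k,
      ∏ i, d i ^ t i := by
  classical
  rw [← Finset.sum_coe_sort (Finset.finsuppAntidiag (Finset.univ : Finset (Fin n)) k)
    (fun t => ∏ i, d i ^ t i)]
  unfold Matrix.trace
  refine Finset.sum_congr rfl fun t _ => ?_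
  rw [Matrix.diag_apply]
  unfold Mk
  rw [TT_diag, coeff_monomial, if_pos rfl, one_mul]

theorem trace_Mk_conj (k : ℕ) (B D B' : Matrix (Fin n) (Fin n) R) (h : B' * B = 1) :
    (Mk k (B * D * B')).trace = (Mk k D).trace := by
  rw [Mk_mul, Mk_mul, ← Matrix.mul_assoc, Matrix.trace_mul_comm, ← Matrix.mul_assoc, ← Mk_mul, h,
    Mk_one, Matrix.one_mul]

/-- The generating series of the traces. -/
noncomputable def tau (g : Matrix (Fin n) (Fin n) R) : PowerSeries R :=
  PowerSeries.mk fun k => (Mk k g).trace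

theorem coeff_tau (g : Matrix (Fin n) (Fin n) R) (k : ℕ) :
    PowerSeries.coeff k (tau g) = (Mk k g).trace := PowerSeries.coeff_mk _ _

theorem tau_diag (d : Fin n → R) :
    tau (Matrix.diagonal d) = ∏ i, PowerSeries.mk (fun k => d i ^ k) := by
  classical
  ext k
  rw [tau, PowerSeries.coeff_mk, trace_Mk_diag, PowerSeries.coeff_prod]
  refine Finset.sum_congr rfl fun t _ => ?_
  refine Finset.prod_congr rfl fun i _ => ?_
  rw [PowerSeries.coeff_mk]

theorem geom_inv (a : R) :
    PowerSeries.mk (fun k => a ^ k) * (((1 - Polynomial.C a * Polynomial.X : Polynomial R)) :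
      PowerSeries R) = 1 := by
  rw [Polynomial.coe_sub, Polynomial.coe_one, Polynomial.coe_mul, Polynomial.coe_C,
    Polynomial.coe_X, mul_sub, mul_one]
  ext k
  rcases k with _ | k
  · simp
  · rw [map_sub, PowerSeries.coeff_mk, mul_left_comm, PowerSeries.coeff_C_mul,
      PowerSeries.coeff_succ_mul_X, PowerSeries.coeff_mk, PowerSeries.coeff_one]
    simp [pow_succ']

theorem charpolyRev_diag (d : Fin n → R) :
    (Matrix.diagonal d).charpolyRev = ∏ i, (1 - Polynomial.C (d i) * Polynomial.X) := by
  rw [Matrix.charpolyRev]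
  have : (1 - (Polynomial.X : Polynomial R) • (Matrix.diagonal d).map Polynomial.C) =
      Matrix.diagonal (fun i => 1 - Polynomial.C (d i) * Polynomial.X) := by
    ext i j : 2
    rw [Matrix.sub_apply, Matrix.smul_apply, Matrix.map_apply, smul_eq_mul]
    by_cases h : i = j
    · subst h
      rw [Matrix.one_apply_eq, Matrix.diagonal_apply_eq, Matrix.diagonal_apply_eq, mul_comm]
    · rw [Matrix.one_apply_ne h, Matrix.diagonal_apply_ne _ h, Matrix.diagonal_apply_ne _ h,
        map_zero, mul_zero, sub_zero]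
  rw [this, Matrix.det_diagonal]

theorem charpolyRev_conj (B D B' : Matrix (Fin n) (Fin n) R) (h : B' * B = 1) :
    (B * D * B').charpolyRev = D.charpolyRev := by
  rw [← Matrix.reverse_charpoly, ← Matrix.reverse_charpoly, Matrix.charpoly_mul_comm,
    ← Matrix.mul_assoc, h, Matrix.one_mul]

theorem tau_mul_charpolyRev_of_diag (B D B' : Matrix (Fin n) (Fin n) R) (d : Fin n → R)
    (hD : D = Matrix.diagonal d) (h' : B' * B = 1) :
    tau (B * D * B') * ((B * D * B').charpolyRev : PowerSeries R) = 1 := by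
  have h1 : tau (B * D * B') = tau D := by
    refine PowerSeries.ext fun k => ?_
    rw [coeff_tau, coeff_tau]
    exact trace_Mk_conj k B D B' h'
  rw [h1, charpolyRev_conj B D B' h', hD, tau_diag, charpolyRev_diag]
  have h2 : ((∏ i, (1 - Polynomial.C (d i) * Polynomial.X : Polynomial R) : Polynomial R) :
      PowerSeries R) = ∏ i, ((1 - Polynomial.C (d i) * Polynomial.X : Polynomial R) :
      PowerSeries R) :=
    map_prod (Polynomial.coeToPowerSeries.ringHom (R := R))
      (fun i => (1 - Polynomial.C (d i) * Polynomial.X : Polynomial R)) Finset.univ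
  rw [h2, ← Finset.prod_mul_distrib]
  exact Finset.prod_eq_one fun i _ => geom_inv (d i)

end Pool.Agent.Helper477.Sph
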