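import Pool.Agent.Helper477.Sph.Mol1
import Pool.Agent.Helper477.Sph.HarmInv

set_option autoImplicit false

/-! # Diagonalisation of matrices of finite order and Molien's formula -/

namespace Pool.Agent.Helper477.Sph

open MvPolynomial Matrix Module

variable {n : ℕ}

theorem diag_of_pow_eq_one (G : Matrix (Fin n) (Fin n) ℂ) (N : ℕ) (hN : 0 < N) (hG : G ^ N = 1) :
    ∃ (B B' : Matrix (Fin n) (Fin n) ℂ) (d : Fin n → ℂ), B' * B = 1 ∧ B * B' = 1 ∧
      G = B * Matrix.diagonal d * B' ∧ ∀ i, ∃ v : Fin n → ℂ, v ≠ 0 ∧ G.mulVec v = d i • v := by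
  classical
  set f : Module.End ℂ (Fin n → ℂ) := Matrix.toLin' G with hf
  have hfN : f ^ N = 1 := by
    rw [hf, ← Matrix.toLin'_pow, hG, Matrix.toLin'_one]
    rfl
  have hsep : (Polynomial.X ^ N - 1 : Polynomial ℂ).Separable := by
    rw [Polynomial.X_pow_sub_one_separable_iff]
    exact_mod_cast hN.ne'
  have hss : f.IsSemisimple := by
    apply Module.End.isSemisimple_of_squarefree_aeval_eq_zero hsep.squarefree
    simp [hfN]
  have htop := hss.iSup_eigenspace_eq_top
  have hint : DirectSum.IsInternal f.eigenspace :=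
    DirectSum.isInternal_submodule_of_iSupIndep_of_iSup_eq_top f.eigenspaces_iSupIndep htop
  set b0 := hint.collectedBasis (fun μ => Module.finBasis ℂ (f.eigenspace μ)) with hb0
  have hfin : Finite (Σ μ : ℂ, Fin (Module.finrank ℂ (f.eigenspace μ))) :=
    Module.Finite.finite_basis b0
  have : Fintype (Σ μ : ℂ, Fin (Module.finrank ℂ (f.eigenspace μ))) := Fintype.ofFinite _
  have hcard : Fintype.card (Σ μ : ℂ, Fin (Module.finrank ℂ (f.eigenspace μ))) =
      Fintype.card (Fin n) := by
    rw [← Module.finrank_eq_card_basis b0, Module.finrank_fintype_fun_eq_card]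
  have e := Fintype.equivOfCardEq hcard
  set b : Module.Basis (Fin n) ℂ (Fin n → ℂ) := b0.reindex e with hb
  set d : Fin n → ℂ := fun i => (e.symm i).1 with hd
  have hbi : ∀ i, G.mulVec (b i) = d i • b i := by
    intro i
    have h1 : b i = b0 (e.symm i) := by rw [hb, Module.Basis.reindex_apply]
    have h2 : b i ∈ f.eigenspace (d i) := by
      rw [h1]
      exact hint.collectedBasis_mem _ _
    rw [Module.End.mem_eigenspace_iff, hf, Matrix.toLin'_apply] at h2
    exact h2
  set B : Matrix (Fin n) (Fin n) ℂ := (Pi.basisFun ℂ (Fin n)).toMatrix b with hB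
  set B' : Matrix (Fin n) (Fin n) ℂ := b.toMatrix (Pi.basisFun ℂ (Fin n)) with hB'
  have h1 : B' * B = 1 := Module.Basis.toMatrix_mul_toMatrix_flip _ _
  have h2 : B * B' = 1 := Module.Basis.toMatrix_mul_toMatrix_flip _ _
  have h3 : G * B = B * Matrix.diagonal d := by
    ext i j
    have h4 := congrFun (hbi j) i
    rw [Matrix.mul_diagonal, Matrix.mul_apply]
    simp only [hB, Module.Basis.toMatrix_apply, Pi.basisFun_repr]
    rw [Matrix.mulVec, dotProduct] at h4
    rw [h4, Pi.smul_apply, smul_eq_mul, mul_comm]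
  refine ⟨B, B', d, h1, h2, ?_, fun i => ⟨b i, b.ne_zero i, hbi i⟩⟩
  rw [← h3, Matrix.mul_assoc, h2, Matrix.mul_one]

/-- The complexification of a real matrix. -/
noncomputable abbrev cx (g : Matrix (Fin n) (Fin n) ℝ) : Matrix (Fin n) (Fin n) ℂ :=
  g.map (algebraMap ℝ ℂ)

theorem cx_mul (g h : Matrix (Fin n) (Fin n) ℝ) : cx (g * h) = cx g * cx h := by
  unfold cx
  exact Matrix.map_mul

theorem cx_one : cx (1 : Matrix (Fin n) (Fin n) ℝ) = 1 := by
  unfold cx
  exact Matrix.map_one _ (map_zero _) (map_one _)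

theorem cx_pow (g : Matrix (Fin n) (Fin n) ℝ) (k : ℕ) : cx (g ^ k) = cx g ^ k := by
  induction k with
  | zero => rw [pow_zero, pow_zero, cx_one]
  | succ k ih => rw [pow_succ, pow_succ, cx_mul, ih]

theorem tau_mul_charpolyRev (G : Matrix (Fin n) (Fin n) ℂ) (N : ℕ) (hN : 0 < N) (hG : G ^ N = 1) :
    tau G * (G.charpolyRev : PowerSeries ℂ) = 1 := by
  obtain ⟨B, B', d, h1, _, h3, _⟩ := diag_of_pow_eq_one G N hN hG
  rw [h3]
  exact tau_mul_charpolyRev_of_diag B _ B' d rfl h1

theorem trace_Mk_cx (k : ℕ) (g : Matrix (Fin n) (Fin n) ℝ) :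
    (Mk k (cx g)).trace = (((Mk k g).trace : ℝ) : ℂ) := by
  rw [cx, Mk_map]
  rw [Matrix.trace, Matrix.trace]
  push_cast
  rfl

open Pool.Agent.Helper477.HarmInv in
theorem TT_eq_T (g : Matrix (Fin n) (Fin n) ℝ) : TT g = T g := rfl

/-- Embedding of coefficient vectors. -/
noncomputable def emb (n k : ℕ) : (I n k → ℝ) →ₗ[ℝ] MvPolynomial (Fin n) ℝ where
  toFun v := ∑ s : I n k, monomial s.1 (v s)
  map_add' v w := by
    rw [← Finset.sum_add_distrib]
    exact Finset.sum_congr rfl fun s _ => by rw [Pi.add_apply, map_add]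
  map_smul' c v := by
    rw [RingHom.id_apply, Finset.smul_sum]
    exact Finset.sum_congr rfl fun s _ => by rw [Pi.smul_apply, smul_monomial]

theorem emb_apply (k : ℕ) (v : I n k → ℝ) : emb n k v = ∑ s : I n k, monomial s.1 (v s) := rfl

theorem coeff_emb (k : ℕ) (v : I n k → ℝ) (s : I n k) : coeff s.1 (emb n k v) = v s := by
  classical
  rw [emb_apply, coeff_sum, Finset.sum_eq_single s]
  · rw [coeff_monomial, if_pos rfl]
  · intro b _ hb
    rw [coeff_monomial, if_neg]
    intro h; exact hb (Subtype.ext h)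
  · intro h; exact absurd (Finset.mem_univ _) h

theorem emb_injective (k : ℕ) : Function.Injective (emb n k) := by
  intro v w h
  funext s
  rw [← coeff_emb k v s, ← coeff_emb k w s, h]

theorem emb_mem (k : ℕ) (v : I n k → ℝ) : emb n k v ∈ homogeneousSubmodule (Fin n) ℝ k := by
  rw [mem_homogeneousSubmodule, emb_apply]
  exact IsHomogeneous.sum _ _ _ fun s _ => monomial_homog s _

theorem TT_emb (k : ℕ) (g : Matrix (Fin n) (Fin n) ℝ) (v : I n k → ℝ) :
    TT g (emb n k v) = emb n k ((Mk k g).mulVec v) := by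
  rw [emb_apply, emb_apply, map_sum]
  simp only [TT_monomial]
  rw [Finset.sum_comm]
  refine Finset.sum_congr rfl fun s _ => ?_
  rw [Matrix.mulVec, dotProduct, map_sum]

open Pool.Agent.Helper477.HarmInv in
/-- **Molien's formula**, coefficient by coefficient. -/
theorem molien (k : ℕ) (Γ : Subgroup (Matrix.orthogonalGroup (Fin n) ℝ)) [Fintype Γ] :
    (Fintype.card Γ : ℝ) * (Module.finrank ℝ ↥(homogeneousSubmodule (Fin n) ℝ k ⊓ Inv Γ) : ℝ) =
      ∑ g : Γ, (Mk k g.1.1).trace := by
  classical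
  set U : Submodule ℝ (I n k → ℝ) :=
    ⨅ g : Γ, LinearMap.ker (Matrix.toLin' (Mk k g.1.1) - LinearMap.id) with hU
  have hmemU : ∀ v, v ∈ U ↔ ∀ g : Γ, (Mk k g.1.1).mulVec v = v := by
    intro v
    rw [hU, Submodule.mem_iInf]
    refine forall_congr' fun g => ?_
    rw [LinearMap.mem_ker, LinearMap.sub_apply, Matrix.toLin'_apply, LinearMap.id_apply,
      sub_eq_zero]
  have hmap : U.map (emb n k) = homogeneousSubmodule (Fin n) ℝ k ⊓ Inv Γ := by
    ext p
    rw [Submodule.mem_map, Submodule.mem_inf, mem_Inv]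
    constructor
    · rintro ⟨v, hv, rfl⟩
      refine ⟨emb_mem k v, fun g hg => ?_⟩
      rw [← TT_eq_T, TT_emb]
      have := (hmemU v).mp hv ⟨g, hg⟩
      exact congrArg _ this
    · rintro ⟨hp, hinv⟩
      rw [mem_homogeneousSubmodule] at hp
      refine ⟨fun s => coeff s.1 p, ?_, (expand hp).symm⟩
      have hpe : emb n k (fun s => coeff s.1 p) = p := (expand hp).symm
      rw [hmemU]
      intro g
      apply emb_injective k
      rw [← TT_emb, hpe]
      exact hinv g.1 g.2
  have hrank : Module.finrank ℝ ↥(homogeneousSubmodule (Fin n) ℝ k ⊓ Inv Γ) =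
      Module.finrank ℝ U := by
    rw [← hmap]
    exact (LinearEquiv.finrank_eq (Submodule.equivMapOfInjective (emb n k) (emb_injective k) U)).symm
  have hc : (Fintype.card Γ : ℝ) ≠ 0 := by
    have : 0 < Fintype.card Γ := Fintype.card_pos
    exact_mod_cast this.ne'
  set P : Matrix (I n k) (I n k) ℝ := (Fintype.card Γ : ℝ)⁻¹ • ∑ g : Γ, Mk k g.1.1 with hP
  have hproj : LinearMap.IsProj U (Matrix.toLin' P) := by
    constructor
    · intro v
      rw [hmemU, Matrix.toLin'_apply, hP]
      intro g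
      rw [Matrix.smul_mulVec, Matrix.mulVec_smul, Matrix.mulVec_mulVec, Finset.mul_sum]
      congr 2
      have h1 : ∀ h : Γ, Mk k g.1.1 * Mk k h.1.1 = Mk k (h * g).1.1 := by
        intro h
        rw [← Mk_mul]
        rfl
      simp only [h1]
      exact Fintype.sum_equiv (Equiv.mulRight g) _ _ fun h => rfl
    · intro v hv
      rw [hmemU] at hv
      rw [Matrix.toLin'_apply, hP, Matrix.smul_mulVec, Matrix.sum_mulVec]
      simp only [hv]
      rw [Finset.sum_const, Finset.card_univ, ← Nat.cast_smul_eq_nsmul ℝ, smul_smul,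
        inv_mul_cancel₀ hc, one_smul]
  have htr := hproj.trace
  rw [Matrix.trace_toLin'_eq] at htr
  rw [hrank, ← htr, hP, Matrix.trace_smul, Matrix.trace_sum, smul_eq_mul, ← mul_assoc,
    mul_inv_cancel₀ hc, one_mul]

open Pool.Agent.Helper477.HarmInv in
/-- Hilbert series of the invariants, over the complex numbers. -/
noncomputable def hilb (Γ : Subgroup (Matrix.orthogonalGroup (Fin n) ℝ)) : PowerSeries ℂ :=
  PowerSeries.mk fun k =>
    ((Module.finrank ℝ ↥(homogeneousSubmodule (Fin n) ℝ k ⊓ Inv Γ) : ℕ) : ℂ)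

open Pool.Agent.Helper477.HarmInv in
theorem molien_series (Γ : Subgroup (Matrix.orthogonalGroup (Fin n) ℝ)) [Fintype Γ] :
    PowerSeries.C (Fintype.card Γ : ℂ) * hilb Γ = ∑ g : Γ, tau (cx g.1.1) := by
  refine PowerSeries.ext fun k => ?_
  rw [PowerSeries.coeff_C_mul, hilb, PowerSeries.coeff_mk, map_sum]
  have h := molien k Γ
  simp only [coeff_tau, trace_Mk_cx]
  exact_mod_cast congrArg (fun x : ℝ => (x : ℂ)) h

end Pool.Agent.Helper477.Sph
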