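import Pool.Agent.Helper477.Sph.Rig1

set_option autoImplicit false

/-! # Rigidity of the non-cyclic groups, case by case -/

namespace Pool.Agent.Helper477.Sph

open scoped Matrix

variable {n : ℕ}


theorem sq_int {G : Type*} [Group G] {w y : G} {c b : ℕ} (hc : y * w * y⁻¹ = w ^ c)
    (hb : y * y = w ^ b) (a : ℤ) : (w ^ a * y) * (w ^ a * y) = w ^ (a + c * a + b) := by
  calc (w ^ a * y) * (w ^ a * y) = w ^ a * (y * w ^ a) * y := by simp only [mul_assoc]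
    _ = w ^ a * w ^ ((c : ℤ) * a) * (y * y) := by rw [mul_zpow_conj hc]; simp only [mul_assoc]
    _ = _ := by rw [hb, ← zpow_add, ← zpow_natCast, ← zpow_add]

theorem sum_split (Γ C : Subgroup (Matrix.orthogonalGroup (Fin n) ℝ)) [Fintype Γ] [Fintype C] (hC : C ≤ Γ)
    (F : (Matrix.orthogonalGroup (Fin n) ℝ) → PowerSeries ℂ) (τ₀ : PowerSeries ℂ) (h : ∀ g ∈ Γ, g ∉ C → F g = τ₀) :
    ∑ g : Γ, F g.1 = ∑ g : C, F g.1 + (Fintype.card Γ - Fintype.card C) • τ₀ := by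
  classical
  rw [← Finset.sum_filter_add_sum_filter_not Finset.univ (fun g : Γ => g.1 ∈ C)]
  have h1 : ∑ g ∈ (Finset.univ : Finset Γ) with g.1 ∈ C, F g.1 = ∑ g : C, F g.1 := by
    refine Finset.sum_bij' (fun g hg => (⟨g.1, (Finset.mem_filter.mp hg).2⟩ : C))
      (fun g _ => (⟨g.1, hC g.2⟩ : Γ)) ?_ ?_ ?_ ?_ ?_
    · intro a _; exact Finset.mem_univ _
    · intro a _; exact Finset.mem_filter.mpr ⟨Finset.mem_univ _, a.2⟩
    · intro a _; rfl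
    · intro a _; rfl
    · intro a _; rfl
  have h2 : ((Finset.univ : Finset Γ).filter (fun g => g.1 ∈ C)).card = Fintype.card C := by
    rw [← Finset.card_univ]
    refine Finset.card_bij' (fun g hg => (⟨g.1, (Finset.mem_filter.mp hg).2⟩ : C))
      (fun g _ => (⟨g.1, hC g.2⟩ : Γ)) ?_ ?_ ?_ ?_
    · intro a _; exact Finset.mem_univ _
    · intro a _; exact Finset.mem_filter.mpr ⟨Finset.mem_univ _, a.2⟩
    · intro a _; rfl
    · intro a _; rfl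
  rw [h1]
  congr 1
  rw [Finset.sum_congr rfl (g := fun _ => τ₀)
    (fun g hg => h g.1 g.2 (Finset.mem_filter.mp hg).2), Finset.sum_const]
  congr 1
  have h3 := Finset.card_filter_add_card_filter_not (s := (Finset.univ : Finset Γ))
    (fun g => g.1 ∈ C)
  rw [h2, Finset.card_univ] at h3
  omega

theorem free_mono {Γ C : Subgroup (Matrix.orthogonalGroup (Fin n) ℝ)} (h : FreeOn Γ) (hC : C ≤ Γ) : FreeOn C :=
  fun g hg => h g (hC hg)

/-- Matrices with square `-1` have the same contribution. -/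
theorem tau_sq_neg (Γ₁ Γ₂ : Subgroup (Matrix.orthogonalGroup (Fin n) ℝ)) [Finite Γ₁] [Finite Γ₂] {g g' : (Matrix.orthogonalGroup (Fin n) ℝ)} (hg : g ∈ Γ₁)
    (hg' : g' ∈ Γ₂) (h : g.1 * g.1 = -1) (h' : g'.1 * g'.1 = -1) :
    tau (cx g.1) = tau (cx g'.1) := by
  have tr : ∀ (g : (Matrix.orthogonalGroup (Fin n) ℝ)), g.1 * g.1 = -1 → ∀ a : ℤ, (g ^ a).1.trace =
      if a % 4 = 0 then (n : ℝ) else if a % 4 = 2 then -(n : ℝ) else 0 := by
    intro g h a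
    have h2 : (g ^ 2 : (Matrix.orthogonalGroup (Fin n) ℝ)).1 = -1 := by rw [pow_two]; exact h
    have h4 : g ^ (4 : ℤ) = 1 := by
      apply Subtype.ext
      have : (g ^ (4 : ℤ) : (Matrix.orthogonalGroup (Fin n) ℝ)).1 = (g ^ 2 : (Matrix.orthogonalGroup (Fin n) ℝ)).1 * (g ^ 2 : (Matrix.orthogonalGroup (Fin n) ℝ)).1 := by
        have e : g ^ (4 : ℤ) = g ^ 2 * g ^ 2 := by
          rw [← pow_add]; rfl
        rw [e]; rfl
      rw [this, h2]
      simp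
    have hmod : g ^ a = g ^ (a % 4) := by
      conv_lhs => rw [← Int.emod_add_mul_ediv a 4, zpow_add, zpow_mul, h4, one_zpow, mul_one]
    have hlt : a % 4 < 4 := Int.emod_lt_of_pos a (by norm_num)
    have hge : 0 ≤ a % 4 := Int.emod_nonneg a (by norm_num)
    rw [hmod]
    generalize a % 4 = r at *
    interval_cases r
    · rw [zpow_zero]
      have : (1 : (Matrix.orthogonalGroup (Fin n) ℝ)).1.trace = (n : ℝ) := by
        change (1 : Matrix (Fin n) (Fin n) ℝ).trace = n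
        rw [Matrix.trace_one, Fintype.card_fin]
      simp [this]
    · rw [zpow_one]
      simp [trace_of_sq_neg h]
    · have : (g ^ (2 : ℤ) : (Matrix.orthogonalGroup (Fin n) ℝ)).1 = -1 := by
        have e : g ^ (2 : ℤ) = g ^ 2 := rfl
        rw [e, h2]
      rw [this, Matrix.trace_neg, Matrix.trace_one, Fintype.card_fin]
      simp
    · have e : g ^ (3 : ℤ) = g⁻¹ := by
        have : g ^ (3 : ℤ) = g ^ (4 : ℤ) * g⁻¹ := by
          rw [← zpow_sub_one]; rfl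
        rw [this, h4, one_mul]
      rw [e, trace_inv, trace_of_sq_neg h]
      simp
  have t₁ : ∀ a : ℤ, (g ^ a).1.trace = (g' ^ a).1.trace := by
    intro a
    rw [tr g h a, tr g' h' a]
  obtain ⟨A, hA, _⟩ := simul_conj Γ₁ Γ₂ (c := 1) (b := 0) hg Γ₁.one_mem hg' Γ₂.one_mem
    (by rw [pow_one]; group) (by simp) (by rw [pow_one]; group) (by simp) t₁
    (by intro a; rw [mul_one, mul_one]; exact t₁ a)
  exact tau_conj hA

theorem matrix_neg_of_order_two {Γ : Subgroup (Matrix.orthogonalGroup (Fin n) ℝ)} (hΓ : FreeOn Γ) {g : Γ} (hg : orderOf g = 2) :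
    g.1.1 = -1 := by
  apply two_of_free hΓ g.2
  · have h2 : g ^ 2 = 1 := by rw [← hg]; exact pow_orderOf_eq_one g
    rw [pow_two] at h2
    exact congrArg Subtype.val h2
  · intro h2
    have h3 : g = 1 := Subtype.ext h2
    rw [h3, orderOf_one] at hg
    omega

theorem rigid_dic {Γ₁ Γ₂ : Subgroup (Matrix.orthogonalGroup (Fin n) ℝ)} [Finite Γ₁] [Finite Γ₂] (h₁ : FreeOn Γ₁)
    (h₂ : FreeOn Γ₂) (hh : hilb Γ₁ = hilb Γ₂)
    (hmin : ∀ C₁ C₂ : Subgroup (Matrix.orthogonalGroup (Fin n) ℝ), Finite C₁ → Finite C₂ → FreeOn C₁ → FreeOn C₂ →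
      hilb C₁ = hilb C₂ → Nat.card C₁ < Nat.card Γ₁ → Conj C₁ C₂)
    {k : ℕ} (hk : 0 < k) (T₁ : T2 Γ₁ (2 * k) (2 * k - 1) k) (T₂ : T2 Γ₂ (2 * k) (2 * k - 1) k) :
    Conj Γ₁ Γ₂ := by
  classical
  have : Fintype Γ₁ := Fintype.ofFinite _
  have : Fintype Γ₂ := Fintype.ofFinite _
  obtain ⟨w₁, y₁, hw₁, hG₁, hy₁, c₁, b₁⟩ := T₁
  obtain ⟨w₂, y₂, hw₂, hG₂, hy₂, c₂, b₂⟩ := T₂
  have hm0 : 0 < 2 * k := by omega
  -- squares outside the cyclic subgroup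
  have sqn : ∀ (Γ : Subgroup (Matrix.orthogonalGroup (Fin n) ℝ)) (hΓ : FreeOn Γ) (w y : Γ), orderOf w = 2 * k →
      y * w * y⁻¹ = w ^ (2 * k - 1) → y * y = w ^ k → ∀ a : ℤ,
      (w.1 ^ a * y.1).1 * (w.1 ^ a * y.1).1 = -1 := by
    intro Γ hΓ w y hw hc hb a
    have h1 := sq_int hc hb a
    have h2 : w ^ (a + ((2 * k - 1 : ℕ) : ℤ) * a + k) = w ^ k := by
      have e : (a + ((2 * k - 1 : ℕ) : ℤ) * a + k) = ((2 * k : ℕ) : ℤ) * a + (k : ℤ) := by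
        push_cast [Nat.cast_sub (show 1 ≤ 2 * k by omega)]
        ring
      rw [e, zpow_add, zpow_mul, zpow_natCast, ← hw, pow_orderOf_eq_one, one_zpow, one_mul,
        zpow_natCast]
    rw [h2] at h1
    have h3 : orderOf (w ^ k) = 2 := by
      rw [orderOf_pow' w hk.ne', hw, Nat.gcd_eq_right (Dvd.intro_left 2 rfl)]
      exact Nat.mul_div_cancel _ hk
    have h4 := matrix_neg_of_order_two hΓ h3
    rw [← h1] at h4
    exact h4
  -- contributions outside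
  have out : ∀ (Γ : Subgroup (Matrix.orthogonalGroup (Fin n) ℝ)) [Finite Γ] (hΓ : FreeOn Γ) (w y : Γ), orderOf w = 2 * k →
      Nat.card Γ = 2 * (2 * k) → y ∉ Subgroup.zpowers w →
      y * w * y⁻¹ = w ^ (2 * k - 1) → y * y = w ^ k → ∀ g ∈ Γ, g ∉ Subgroup.zpowers w.1 →
      g.1 * g.1 = -1 := by
    intro Γ _ hΓ w y hw hG hy hc hb g hg hgC
    obtain ⟨a, ha | ha⟩ := form_of_index_two hm0 hw hG hy ⟨g, hg⟩
    · exfalso
      apply hgC
      have : g = w.1 ^ a := congrArg Subtype.val ha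
      rw [this]
      exact Subgroup.zpow_mem _ (Subgroup.mem_zpowers _) _
    · have h5 : g = w.1 ^ a * y.1 := congrArg Subtype.val ha
      rw [h5]
      exact sqn Γ hΓ w y hw hc hb a
  set C₁ : Subgroup (Matrix.orthogonalGroup (Fin n) ℝ) := Subgroup.zpowers w₁.1 with hC₁
  set C₂ : Subgroup (Matrix.orthogonalGroup (Fin n) ℝ) := Subgroup.zpowers w₂.1 with hC₂
  have le₁ : C₁ ≤ Γ₁ := by rw [hC₁, Subgroup.zpowers_le]; exact w₁.2
  have le₂ : C₂ ≤ Γ₂ := by rw [hC₂, Subgroup.zpowers_le]; exact w₂.2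
  have card₁ : Nat.card C₁ = 2 * k := by rw [hC₁, Nat.card_zpowers, orderOf_mem, hw₁]
  have card₂ : Nat.card C₂ = 2 * k := by rw [hC₂, Nat.card_zpowers, orderOf_mem, hw₂]
  have : Finite C₁ := Finite.of_injective _ (Subgroup.inclusion_injective le₁)
  have : Finite C₂ := Finite.of_injective _ (Subgroup.inclusion_injective le₂)
  have : Fintype C₁ := Fintype.ofFinite _
  have : Fintype C₂ := Fintype.ofFinite _
  have hy₁sq := sqn Γ₁ h₁ w₁ y₁ hw₁ c₁ b₁ 0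
  set τ₀ := tau (cx (w₁.1 ^ (0 : ℤ) * y₁.1).1) with hτ₀
  have s₁ := sum_split Γ₁ C₁ le₁ (fun g => tau (cx g.1)) τ₀ (by
    intro g hg hgC
    exact tau_sq_neg Γ₁ Γ₁ hg (Γ₁.mul_mem (Γ₁.zpow_mem w₁.2 _) y₁.2)
      (out Γ₁ h₁ w₁ y₁ hw₁ hG₁ hy₁ c₁ b₁ g hg hgC) hy₁sq)
  have s₂ := sum_split Γ₂ C₂ le₂ (fun g => tau (cx g.1)) τ₀ (by
    intro g hg hgC
    exact tau_sq_neg Γ₂ Γ₁ hg (Γ₁.mul_mem (Γ₁.zpow_mem w₁.2 _) y₁.2)
      (out Γ₂ h₂ w₂ y₂ hw₂ hG₂ hy₂ c₂ b₂ g hg hgC) hy₁sq)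
  have hfc₁ : Fintype.card Γ₁ = 2 * (2 * k) := by rw [← Nat.card_eq_fintype_card, hG₁]
  have hfc₂ : Fintype.card Γ₂ = 2 * (2 * k) := by rw [← Nat.card_eq_fintype_card, hG₂]
  have hfd₁ : Fintype.card C₁ = 2 * k := by rw [← Nat.card_eq_fintype_card, card₁]
  have hfd₂ : Fintype.card C₂ = 2 * k := by rw [← Nat.card_eq_fintype_card, card₂]
  have hhC : hilb C₁ = hilb C₂ := by
    have m₁ := molien_series Γ₁
    have m₂ := molien_series Γ₂
    have m₃ := molien_series C₁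
    have m₄ := molien_series C₂
    rw [s₁, ← m₃, hfc₁, hfd₁] at m₁
    rw [s₂, ← m₄, hfc₂, hfd₂, ← hh, m₁] at m₂
    have h3 := add_right_cancel m₂
    have hc0 : (PowerSeries.C ((2 * k : ℕ) : ℂ)) ≠ (0 : PowerSeries ℂ) := by
      intro h4
      have h5 := congrArg PowerSeries.constantCoeff h4
      rw [PowerSeries.constantCoeff_C, map_zero] at h5
      have h6 : 2 * k = 0 := by exact_mod_cast h5
      omega
    exact mul_left_cancel₀ hc0 h3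
  obtain ⟨h, hconj⟩ := hmin C₁ C₂ inferInstance inferInstance (free_mono h₁ le₁)
    (free_mono h₂ le₂) hhC (by rw [card₁, hG₁]; omega)
  -- transport the generator
  set w' : (Matrix.orthogonalGroup (Fin n) ℝ) := h * w₁.1 * h⁻¹ with hw'
  have hw'C : w' ∈ C₂ := (hconj w₁.1).mp (Subgroup.mem_zpowers _)
  obtain ⟨e, he⟩ := Subgroup.mem_zpowers_iff.mp hw'C
  have hneg : ∀ (Γ : Subgroup (Matrix.orthogonalGroup (Fin n) ℝ)) (hΓ : FreeOn Γ) (w : Γ), orderOf w = 2 * k →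
      (w.1 ^ k).1 = -1 := by
    intro Γ hΓ w hw
    have h3 : orderOf (w ^ k) = 2 := by
      rw [orderOf_pow' w hk.ne', hw, Nat.gcd_eq_right (Dvd.intro_left 2 rfl)]
      exact Nat.mul_div_cancel _ hk
    exact matrix_neg_of_order_two hΓ h3
  have c₂' : y₂.1 * w' * y₂.1⁻¹ = w' ^ (2 * k - 1) := by
    have h3 : y₂.1 * w₂.1 * y₂.1⁻¹ = w₂.1 ^ (2 * k - 1) := congrArg Subtype.val c₂
    rw [← he, ← conj_zpow, h3, ← zpow_natCast, ← zpow_natCast, ← zpow_mul, ← zpow_mul, mul_comm]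
  have b₂' : y₂.1 * y₂.1 = w' ^ k := by
    have h3 : y₂.1 * y₂.1 = w₂.1 ^ k := congrArg Subtype.val b₂
    rw [h3]
    apply Subtype.ext
    rw [hneg Γ₂ h₂ w₂ hw₂, hw', conj_pow]
    have h4 : (h * w₁.1 ^ k * h⁻¹).1 = h.1 * (w₁.1 ^ k).1 * (h⁻¹).1 := rfl
    have h5 : h.1 * (h⁻¹).1 = 1 := congrArg Subtype.val (mul_inv_cancel h)
    rw [h4, hneg Γ₁ h₁ w₁ hw₁, Matrix.mul_neg, Matrix.mul_one, Matrix.neg_mul, h5]
  have t₁ : ∀ a : ℤ, (w₁.1 ^ a).1.trace = (w' ^ a).1.trace := by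
    intro a
    rw [hw', conj_zpow, trace_conj']
  have sq' : ∀ a : ℤ, (w' ^ a * y₂.1).1 * (w' ^ a * y₂.1).1 = -1 := by
    intro a
    rw [← he, ← zpow_mul]
    exact sqn Γ₂ h₂ w₂ y₂ hw₂ c₂ b₂ _
  obtain ⟨A, hA1, hA2⟩ := simul_conj Γ₁ Γ₂ (c := 2 * k - 1) (b := k) w₁.2 y₁.2 (le₂ hw'C) y₂.2
    (congrArg Subtype.val c₁) (congrArg Subtype.val b₁) c₂' b₂' t₁ (by
      intro a
      rw [trace_of_sq_neg (sqn Γ₁ h₁ w₁ y₁ hw₁ c₁ b₁ a), trace_of_sq_neg (sq' a)])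
  apply conj_of_subset A _ (by rw [hG₁, hG₂])
  intro g hg
  have e1 : A * w₁.1 * A⁻¹ = w' := by rw [hA1]; group
  have e2 : A * y₁.1 * A⁻¹ = y₂.1 := by rw [hA2]; group
  obtain ⟨a, ha | ha⟩ := form_of_index_two hm0 hw₁ hG₁ hy₁ ⟨g, hg⟩
  · have h5 : g = w₁.1 ^ a := congrArg Subtype.val ha
    rw [h5, ← conj_zpow, e1]
    exact Γ₂.zpow_mem (le₂ hw'C) _
  · have h5 : g = w₁.1 ^ a * y₁.1 := congrArg Subtype.val ha
    have h6 : A * g * A⁻¹ = (A * w₁.1 * A⁻¹) ^ a * (A * y₁.1 * A⁻¹) := by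
      rw [h5, conj_zpow]; group
    rw [h6, e1, e2]
    exact Γ₂.mul_mem (Γ₂.zpow_mem (le₂ hw'C) _) y₂.2

end Pool.Agent.Helper477.Sph
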