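import Pool.Agent.Helper477.Sph.Rig2

set_option autoImplicit false

/-! # Rigidity in order 24 -/

namespace Pool.Agent.Helper477.Sph

open scoped Matrix

variable {n : ℕ}


theorem trace_neg_of_mul {g h z : (Matrix.orthogonalGroup (Fin n) ℝ)} (hz : z.1 = -1) (hgh : g = h * z) :
    g.1.trace = - h.1.trace := by
  have : g.1 = h.1 * z.1 := congrArg Subtype.val hgh
  rw [this, hz, Matrix.mul_neg, Matrix.mul_one, Matrix.trace_neg]

/-- Traces of the powers of an element of order 12 with trace zero. -/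
theorem trace12 {Γ : Subgroup (Matrix.orthogonalGroup (Fin n) ℝ)} (hΓ : FreeOn Γ) {w : Γ} (hw : orderOf w = 12)
    (h0 : w.1.1.trace = 0) (a : ℤ) : (w.1 ^ a).1.trace =
      if a % 12 = 0 then (n : ℝ) else if a % 12 = 6 then -(n : ℝ) else
      if a % 12 = 2 ∨ a % 12 = 10 then (n : ℝ) / 2 else
      if a % 12 = 4 ∨ a % 12 = 8 then -(n : ℝ) / 2 else 0 := by
  have hw12 : w.1 ^ (12 : ℤ) = 1 := by
    have h1 : w ^ 12 = 1 := by rw [← hw]; exact pow_orderOf_eq_one w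
    have h2 : w.1 ^ (12 : ℤ) = w.1 ^ 12 := rfl
    rw [h2]
    exact congrArg Subtype.val h1
  have hz : (w.1 ^ (6 : ℤ)).1 = -1 := by
    have h1 : orderOf (w ^ 6) = 2 := by
      rw [orderOf_pow' w (by norm_num), hw]
      norm_num
    exact matrix_neg_of_order_two hΓ h1
  have h4 : 1 + (w.1 ^ (4 : ℤ)).1 + (w.1 ^ (8 : ℤ)).1 = 0 := by
    have h1 : w ^ 4 ≠ 1 := by
      intro h2
      have := orderOf_dvd_of_pow_eq_one h2
      rw [hw] at this
      omega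
    have h3 := norm_zero hΓ (w ^ 4 : Γ).2 (fun h => h1 (Subtype.ext h)) 3
      (congrArg Subtype.val (show (w ^ 4) ^ 3 = 1 by
        rw [← pow_mul]
        have := pow_orderOf_eq_one w
        rwa [hw] at this))
    rw [Finset.sum_range_succ, Finset.sum_range_succ, Finset.sum_range_one, pow_zero,
      pow_one] at h3
    have e1 : (w ^ 4 : Γ).1.1 = (w.1 ^ (4 : ℤ)).1 := rfl
    have e2 : (w ^ 4 : Γ).1.1 ^ 2 = (w.1 ^ (8 : ℤ)).1 := by
      have : (w ^ 4) ^ 2 = w ^ 8 := by rw [← pow_mul]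
      exact congrArg (fun g : Γ => g.1.1) this
    rw [e2, e1] at h3
    exact h3
  have t8 : (w.1 ^ (8 : ℤ)).1.trace = (w.1 ^ (4 : ℤ)).1.trace := by
    have h1 : w.1 ^ (8 : ℤ) = (w.1 ^ (4 : ℤ))⁻¹ := by
      rw [eq_inv_iff_mul_eq_one, ← zpow_add]
      exact hw12
    rw [h1, trace_inv]
  have t4 : (w.1 ^ (4 : ℤ)).1.trace = -(n : ℝ) / 2 := by
    have h1 := congrArg Matrix.trace h4
    rw [Matrix.trace_add, Matrix.trace_add, Matrix.trace_one, Fintype.card_fin,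
      Matrix.trace_zero, t8] at h1
    linarith
  have neg6 : ∀ k : ℤ, (w.1 ^ (k + 6)).1.trace = - (w.1 ^ k).1.trace := by
    intro k
    exact trace_neg_of_mul hz (by rw [zpow_add])
  have inv12 : ∀ k : ℤ, (w.1 ^ (12 - k)).1.trace = (w.1 ^ k).1.trace := by
    intro k
    rw [zpow_sub, hw12, one_mul, trace_inv]
  have t1 : (w.1 ^ (1 : ℤ)).1.trace = 0 := by rw [zpow_one]; exact h0
  have t0 : (w.1 ^ (0 : ℤ)).1.trace = (n : ℝ) := by
    rw [zpow_zero]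
    change (1 : Matrix (Fin n) (Fin n) ℝ).trace = n
    rw [Matrix.trace_one, Fintype.card_fin]
  have hmod : w.1 ^ a = w.1 ^ (a % 12) := by
    conv_lhs => rw [← Int.emod_add_mul_ediv a 12, zpow_add, zpow_mul, hw12, one_zpow, mul_one]
  have hlt : a % 12 < 12 := Int.emod_lt_of_pos a (by norm_num)
  have hge : 0 ≤ a % 12 := Int.emod_nonneg a (by norm_num)
  rw [hmod]
  generalize a % 12 = r at *
  obtain ⟨T, hT⟩ : ∃ T : ℤ → ℝ, ∀ k : ℤ, (w.1 ^ k).1.trace = T k := ⟨_, fun _ => rfl⟩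
  simp only [hT] at t8 t4 neg6 inv12 t1 t0 ⊢
  have e6 := neg6 0
  have e7 := neg6 1
  have e8 := neg6 2
  have e9 := neg6 3
  have e10 := neg6 4
  have e11 := neg6 5
  have i11 := inv12 1
  have i9 := inv12 3
  norm_num at e6 e7 e8 e9 e10 e11 i11 i9
  interval_cases r
  · norm_num; linarith
  · norm_num; linarith
  · norm_num; linarith
  · norm_num; linarith
  · norm_num; linarith
  · norm_num; linarith
  · norm_num; linarith
  · norm_num; linarith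
  · norm_num; linarith
  · norm_num; linarith
  · norm_num; linarith
  · norm_num; linarith

/-- Conjugacy from a simultaneous conjugation of the generators. -/
theorem conj_of_gen {Γ₁ Γ₂ : Subgroup (Matrix.orthogonalGroup (Fin n) ℝ)} [Finite Γ₁] [Finite Γ₂] {w₁ y₁ : Γ₁} {w₂ y₂ : Γ₂}
    {m : ℕ} (hm0 : 0 < m) (hw₁ : orderOf w₁ = m) (hG₁ : Nat.card Γ₁ = 2 * m)
    (hG₂ : Nat.card Γ₂ = 2 * m) (hy₁ : y₁ ∉ Subgroup.zpowers w₁) (A : (Matrix.orthogonalGroup (Fin n) ℝ))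
    (hA1 : A * w₁.1 = w₂.1 * A) (hA2 : A * y₁.1 = y₂.1 * A) : Conj Γ₁ Γ₂ := by
  apply conj_of_subset A _ (by rw [hG₁, hG₂])
  intro g hg
  have e1 : A * w₁.1 * A⁻¹ = w₂.1 := by rw [hA1]; group
  have e2 : A * y₁.1 * A⁻¹ = y₂.1 := by rw [hA2]; group
  obtain ⟨a, ha | ha⟩ := form_of_index_two hm0 hw₁ hG₁ hy₁ ⟨g, hg⟩
  · have h5 : g = w₁.1 ^ a := congrArg Subtype.val ha
    rw [h5, ← conj_zpow, e1]
    exact Γ₂.zpow_mem w₂.2 _
  · have h5 : g = w₁.1 ^ a * y₁.1 := congrArg Subtype.val ha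
    have h6 : A * g * A⁻¹ = (A * w₁.1 * A⁻¹) ^ a * (A * y₁.1 * A⁻¹) := by
      rw [h5, conj_zpow]; group
    rw [h6, e1, e2]
    exact Γ₂.mul_mem (Γ₂.zpow_mem w₂.2 _) y₂.2

theorem neg6_mat {Γ : Subgroup (Matrix.orthogonalGroup (Fin n) ℝ)} (hΓ : FreeOn Γ) {w : Γ} (hw : orderOf w = 12) :
    (w.1 ^ 6).1 = -1 := by
  have h1 : orderOf (w ^ 6) = 2 := by
    rw [orderOf_pow' w (by norm_num), hw]
    norm_num
  exact matrix_neg_of_order_two hΓ h1

theorem rigid_7_6 {Γ₁ Γ₂ : Subgroup (Matrix.orthogonalGroup (Fin n) ℝ)} [Finite Γ₁] [Finite Γ₂] (h₁ : FreeOn Γ₁)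
    (h₂ : FreeOn Γ₂) (T₁ : T2 Γ₁ 12 7 6) (T₂ : T2 Γ₂ 12 7 6) : Conj Γ₁ Γ₂ := by
  obtain ⟨w₁, y₁, hw₁, hG₁, hy₁, c₁, b₁⟩ := T₁
  obtain ⟨w₂, y₂, hw₂, hG₂, hy₂, c₂, b₂⟩ := T₂
  have key : ∀ (Γ : Subgroup (Matrix.orthogonalGroup (Fin n) ℝ)) (hΓ : FreeOn Γ) (w y : Γ), orderOf w = 12 →
      y * w * y⁻¹ = w ^ 7 → w.1.1.trace = 0 ∧ ∀ a : ℤ, (w.1 ^ a * y.1).1.trace = 0 := by
    intro Γ hΓ w y hw hc
    have hz := neg6_mat hΓ hw
    have hc' : y.1 * w.1 * y.1⁻¹ = w.1 ^ 7 := congrArg Subtype.val hc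
    constructor
    · have e1 := trace_conj' y.1 w.1
      rw [hc'] at e1
      have e2 := trace_neg_of_mul (g := w.1 ^ 7) (h := w.1) hz (by rw [← pow_succ'])
      linarith
    · intro a
      have e1 := trace_conj' w.1 (w.1 ^ a * y.1)
      have e3 : w.1 * (w.1 ^ a * y.1) * w.1⁻¹ = (w.1 ^ (a - 12) * y.1) * (w.1 ^ 6) := by
        have e4 : y.1 * w.1⁻¹ = w.1 ^ (-7 : ℤ) * y.1 := by
          have := mul_zpow_conj hc' (-1)
          rw [zpow_neg_one] at this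
          rw [this]; norm_num
        have e5 : y.1 * w.1 ^ 6 = w.1 ^ (42 : ℤ) * y.1 := by
          have h6 := mul_zpow_conj hc' ((6 : ℕ) : ℤ)
          rw [show (((7 : ℕ) : ℤ) * ((6 : ℕ) : ℤ)) = 42 by norm_num, zpow_natCast] at h6
          exact h6
        have h12 : w.1 ^ (12 : ℤ) = 1 := by
          have h1 : w ^ 12 = 1 := by rw [← hw]; exact pow_orderOf_eq_one w
          exact congrArg Subtype.val h1
        calc w.1 * (w.1 ^ a * y.1) * w.1⁻¹ = w.1 ^ (1 + a) * (y.1 * w.1⁻¹) := by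
              rw [zpow_add, zpow_one]; simp only [mul_assoc]
          _ = w.1 ^ (1 + a) * (w.1 ^ (-7 : ℤ) * y.1) := by rw [e4]
          _ = w.1 ^ (a - 6) * y.1 := by rw [← mul_assoc, ← zpow_add]; congr 2; ring
          _ = w.1 ^ (a - 6) * (w.1 ^ (12 : ℤ)) ^ (3 : ℤ) * y.1 := by rw [h12, one_zpow, mul_one]
          _ = w.1 ^ (a - 12) * (w.1 ^ (42 : ℤ) * y.1) := by
              rw [← zpow_mul, ← zpow_add, ← mul_assoc, ← zpow_add]; congr 2; ring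
          _ = _ := by rw [← e5, mul_assoc]
      have e6 : w.1 ^ (a - 12) = w.1 ^ a := by
        have h12 : w.1 ^ (12 : ℤ) = 1 := by
          have h1 : w ^ 12 = 1 := by rw [← hw]; exact pow_orderOf_eq_one w
          exact congrArg Subtype.val h1
        rw [zpow_sub, h12, inv_one, mul_one]
      rw [e3, e6] at e1
      have e2 := trace_neg_of_mul (g := w.1 ^ a * y.1 * w.1 ^ 6) (h := w.1 ^ a * y.1) hz rfl
      linarith
  obtain ⟨k1, k2⟩ := key Γ₁ h₁ w₁ y₁ hw₁ c₁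
  obtain ⟨k3, k4⟩ := key Γ₂ h₂ w₂ y₂ hw₂ c₂
  obtain ⟨A, hA1, hA2⟩ := simul_conj Γ₁ Γ₂ (c := 7) (b := 6) w₁.2 y₁.2 w₂.2 y₂.2
    (congrArg Subtype.val c₁) (congrArg Subtype.val b₁) (congrArg Subtype.val c₂)
    (congrArg Subtype.val b₂)
    (by intro a; rw [trace12 h₁ hw₁ k1, trace12 h₂ hw₂ k3])
    (by intro a; rw [k2, k4])
  exact conj_of_gen (by norm_num) hw₁ hG₁ hG₂ hy₁ A hA1 hA2

theorem rigid_5_9 {Γ₁ Γ₂ : Subgroup (Matrix.orthogonalGroup (Fin n) ℝ)} [Finite Γ₁] [Finite Γ₂] (h₁ : FreeOn Γ₁)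
    (h₂ : FreeOn Γ₂) (T₁ : T2 Γ₁ 12 5 9) (T₂ : T2 Γ₂ 12 5 9) : Conj Γ₁ Γ₂ := by
  obtain ⟨w₁, y₁, hw₁, hG₁, hy₁, c₁, b₁⟩ := T₁
  obtain ⟨w₂, y₂, hw₂, hG₂, hy₂, c₂, b₂⟩ := T₂
  have key : ∀ (Γ : Subgroup (Matrix.orthogonalGroup (Fin n) ℝ)) (hΓ : FreeOn Γ) (w y : Γ), orderOf w = 12 →
      y * w * y⁻¹ = w ^ 5 → w.1.1.trace = 0 ∧ ∀ a : ℤ, (w.1 ^ a * y.1).1.trace = 0 := by
    intro Γ hΓ w y hw hc
    have hz := neg6_mat hΓ hw
    have hc' : y.1 * w.1 * y.1⁻¹ = w.1 ^ 5 := congrArg Subtype.val hc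
    have h12 : w.1 ^ (12 : ℤ) = 1 := by
      have h1 : w ^ 12 = 1 := by rw [← hw]; exact pow_orderOf_eq_one w
      exact congrArg Subtype.val h1
    constructor
    · have e1 := trace_conj' y.1 w.1
      rw [hc'] at e1
      have e2 := trace_neg_of_mul (g := w.1 ^ 5) (h := w.1⁻¹) hz (by
        rw [pow_succ' w.1 5, inv_mul_cancel_left])
      rw [trace_inv] at e2
      linarith
    · have shift : ∀ a : ℤ, (w.1 ^ (a - 4) * y.1).1.trace = (w.1 ^ a * y.1).1.trace := by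
        intro a
        rw [← trace_conj' w.1 (w.1 ^ a * y.1)]
        congr 2
        have e4 : y.1 * w.1⁻¹ = w.1 ^ (-5 : ℤ) * y.1 := by
          have := mul_zpow_conj hc' (-1)
          rw [zpow_neg_one] at this
          rw [this]; norm_num
        symm
        calc w.1 * (w.1 ^ a * y.1) * w.1⁻¹ = w.1 ^ (1 + a) * (y.1 * w.1⁻¹) := by
              rw [zpow_add, zpow_one]; simp only [mul_assoc]
          _ = w.1 ^ (1 + a) * (w.1 ^ (-5 : ℤ) * y.1) := by rw [e4]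
          _ = w.1 ^ (a - 4) * y.1 := by rw [← mul_assoc, ← zpow_add]; congr 2; ring
      intro a
      have h4 : (1 : Matrix (Fin n) (Fin n) ℝ) + (w.1 ^ (-4 : ℤ)).1 + (w.1 ^ (-8 : ℤ)).1 = 0 := by
        have h1 : (w ^ 4)⁻¹ ≠ 1 := by
          intro h2
          rw [inv_eq_one] at h2
          have := orderOf_dvd_of_pow_eq_one h2
          rw [hw] at this
          omega
        have h3 := norm_zero hΓ ((w ^ 4)⁻¹ : Γ).2 (fun h => h1 (Subtype.ext h)) 3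
          (congrArg Subtype.val (show ((w ^ 4)⁻¹) ^ 3 = 1 by
            rw [inv_pow, ← pow_mul, inv_eq_one]
            have := pow_orderOf_eq_one w
            rwa [hw] at this))
        rw [Finset.sum_range_succ, Finset.sum_range_succ, Finset.sum_range_one, pow_zero,
          pow_one] at h3
        have e1 : ((w ^ 4)⁻¹ : Γ).1.1 = (w.1 ^ (-4 : ℤ)).1 := rfl
        have e2 : ((w ^ 4)⁻¹ : Γ).1.1 ^ 2 = (w.1 ^ (-8 : ℤ)).1 := by
          have e5 : ((w ^ 4)⁻¹) ^ 2 = w ^ (-8 : ℤ) := by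
            rw [inv_pow, ← pow_mul]; rfl
          exact congrArg (fun g : Γ => g.1.1) e5
        rw [e2, e1] at h3
        exact h3
      have e1 := shift a
      have e2 := shift (a - 4)
      have e3 : (w.1 ^ a * y.1).1.trace + (w.1 ^ (a - 4) * y.1).1.trace +
          (w.1 ^ (a - 4 - 4) * y.1).1.trace = 0 := by
        have e4 : (w.1 ^ (a - 4) * y.1).1 = (w.1 ^ a).1 * (w.1 ^ (-4 : ℤ)).1 * y.1.1 := by
          rw [show a - 4 = a + (-4) by ring, zpow_add]; rfl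
        have e5 : (w.1 ^ (a - 4 - 4) * y.1).1 = (w.1 ^ a).1 * (w.1 ^ (-8 : ℤ)).1 * y.1.1 := by
          rw [show a - 4 - 4 = a + (-8) by ring, zpow_add]; rfl
        have e6 : (w.1 ^ a * y.1).1 = (w.1 ^ a).1 * 1 * y.1.1 := by
          rw [Matrix.mul_one]; rfl
        rw [← Matrix.trace_add, ← Matrix.trace_add, e4, e5, e6, ← Matrix.add_mul,
          ← Matrix.add_mul, ← Matrix.mul_add, ← Matrix.mul_add, h4, Matrix.mul_zero,
          Matrix.zero_mul, Matrix.trace_zero]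
      linarith
  obtain ⟨k1, k2⟩ := key Γ₁ h₁ w₁ y₁ hw₁ c₁
  obtain ⟨k3, k4⟩ := key Γ₂ h₂ w₂ y₂ hw₂ c₂
  obtain ⟨A, hA1, hA2⟩ := simul_conj Γ₁ Γ₂ (c := 5) (b := 9) w₁.2 y₁.2 w₂.2 y₂.2
    (congrArg Subtype.val c₁) (congrArg Subtype.val b₁) (congrArg Subtype.val c₂)
    (congrArg Subtype.val b₂)
    (by intro a; rw [trace12 h₁ hw₁ k1, trace12 h₂ hw₂ k3])
    (by intro a; rw [k2, k4])
  exact conj_of_gen (by norm_num) hw₁ hG₁ hG₂ hy₁ A hA1 hA2

end Pool.Agent.Helper477.Sph
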