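import Pool.Agent.Helper477.Sph.Rig3

set_option autoImplicit false

/-! # Rigidity: the binary tetrahedral case and the conclusion -/

namespace Pool.Agent.Helper477.Sph

open scoped Matrix

variable {n : ℕ}


theorem trace4 {g : (Matrix.orthogonalGroup (Fin n) ℝ)} (h : g.1 * g.1 = -1) (a : ℤ) : (g ^ a).1.trace =
      if a % 4 = 0 then (n : ℝ) else if a % 4 = 2 then -(n : ℝ) else 0 := by
  have h2 : (g ^ 2 : (Matrix.orthogonalGroup (Fin n) ℝ)).1 = -1 := by rw [pow_two]; exact h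
  have h4 : g ^ (4 : ℤ) = 1 := by
    apply Subtype.ext
    have : (g ^ (4 : ℤ) : (Matrix.orthogonalGroup (Fin n) ℝ)).1 = (g ^ 2 : (Matrix.orthogonalGroup (Fin n) ℝ)).1 * (g ^ 2 : (Matrix.orthogonalGroup (Fin n) ℝ)).1 := by
      have e : g ^ (4 : ℤ) = g ^ 2 * g ^ 2 := by
        rw [← pow_add]; rfl
      rw [e]; rfl
    rw [this, h2]
    simp
  have hmod : g ^ a = g ^ (a % 4) := by
    conv_lhs => rw [← Int.emod_add_mul_ediv a 4, zpow_add, zpow_mul, h4, one_zpow, mul_one]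
  have hlt : a % 4 < 4 := Int.emod_lt_of_pos a (by norm_num)
  have hge : 0 ≤ a % 4 := Int.emod_nonneg a (by norm_num)
  rw [hmod]
  generalize a % 4 = r at *
  interval_cases r
  · rw [zpow_zero]
    have : (1 : (Matrix.orthogonalGroup (Fin n) ℝ)).1.trace = (n : ℝ) := by
      change (1 : Matrix (Fin n) (Fin n) ℝ).trace = n
      rw [Matrix.trace_one, Fintype.card_fin]
    simp [this]
  · rw [zpow_one]
    simp [trace_of_sq_neg h]
  · have : (g ^ (2 : ℤ) : (Matrix.orthogonalGroup (Fin n) ℝ)).1 = -1 := by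
      have e : g ^ (2 : ℤ) = g ^ 2 := rfl
      rw [e, h2]
    rw [this, Matrix.trace_neg, Matrix.trace_one, Fintype.card_fin]
    simp
  · have e : g ^ (3 : ℤ) = g⁻¹ := by
      have : g ^ (3 : ℤ) = g ^ (4 : ℤ) * g⁻¹ := by
        rw [← zpow_sub_one]; rfl
      rw [this, h4, one_mul]
    rw [e, trace_inv, trace_of_sq_neg h]
    simp

/-- In the binary tetrahedral group the element of order 3 is determined by the quaternions. -/
theorem tetra_formula {R : Type*} [Ring R] [Algebra ℝ R] {X I J : R} (hII : I * I = -1)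
    (hJJ : J * J = -1) (hJI : J * I = -(I * J)) (hXI : X * I = J * X) (hXJ : X * J = I * J * X)
    (hX : 1 + X + X * X = 0) : (2 : ℝ) • X = -(1 + I + J + I * J) := by
  have hIK : I * (I * J) = -J := by rw [← mul_assoc, hII, neg_one_mul]
  have hKI : I * J * I = J := by rw [mul_assoc, hJI, mul_neg, hIK, neg_neg]
  have hKJ : I * J * J = -I := by rw [mul_assoc, hJJ, mul_neg, mul_one]
  have hJK : J * (I * J) = I := by rw [← mul_assoc, hJI, neg_mul, hKJ, neg_neg]
  have hKK : I * J * (I * J) = -1 := by rw [mul_assoc, hJK, hII]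
  have hXK : X * (I * J) = I * X := by
    rw [← mul_assoc, hXI, mul_assoc, hXJ, ← mul_assoc, hJK]
  have hXX : X * X = -1 - X := by
    have := eq_neg_of_add_eq_zero_right hX
    rw [this]; abel
  have z1 : I * (1 + X + X * X) * I = 0 := by rw [hX, mul_zero, zero_mul]
  have z2 : J * (1 + X + X * X) * J = 0 := by rw [hX, mul_zero, zero_mul]
  have z3 : I * J * (1 + X + X * X) * (I * J) = 0 := by rw [hX, mul_zero, zero_mul]
  have e1 : I * (1 + X + X * X) * I = -1 + I * J * X - J * (X * X) := by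
    have a1 : I * X * I = I * J * X := by rw [mul_assoc, hXI, ← mul_assoc]
    have a2 : I * (X * X) * I = -(J * (X * X)) := by
      calc I * (X * X) * I = I * (X * (X * I)) := by simp only [mul_assoc]
        _ = I * (X * J * X) := by rw [hXI, mul_assoc X J X]
        _ = I * (I * J * X * X) := by rw [hXJ]
        _ = (I * (I * J)) * (X * X) := by simp only [mul_assoc]
        _ = _ := by rw [hIK, neg_mul]
    rw [mul_add, mul_add, add_mul, add_mul, mul_one, hII, a1, a2]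
    abel
  have e2 : J * (1 + X + X * X) * J = -1 + I * X - I * J * (X * X) := by
    have a1 : J * X * J = I * X := by rw [mul_assoc, hXJ, ← mul_assoc, hJK]
    have a2 : J * (X * X) * J = -(I * J * (X * X)) := by
      calc J * (X * X) * J = J * (X * (X * J)) := by simp only [mul_assoc]
        _ = J * (X * (I * J) * X) := by rw [hXJ, mul_assoc X (I * J) X]
        _ = J * (I * X * X) := by rw [hXK]
        _ = (J * I) * (X * X) := by simp only [mul_assoc]
        _ = _ := by rw [hJI, neg_mul]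
    rw [mul_add, mul_add, add_mul, add_mul, mul_one, hJJ, a1, a2]
    abel
  have e3 : I * J * (1 + X + X * X) * (I * J) = -1 + J * X - I * (X * X) := by
    have a1 : I * J * X * (I * J) = J * X := by
      rw [mul_assoc (I * J), hXK, ← mul_assoc, hKI]
    have a2 : I * J * (X * X) * (I * J) = -(I * (X * X)) := by
      calc I * J * (X * X) * (I * J) = I * J * (X * (X * (I * J))) := by simp only [mul_assoc]
        _ = I * J * (X * I * X) := by rw [hXK, mul_assoc X I X]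
        _ = I * J * (J * X * X) := by rw [hXI]
        _ = (I * J * J) * (X * X) := by simp only [mul_assoc]
        _ = _ := by rw [hKJ, neg_mul]
    rw [mul_add, mul_add, add_mul, add_mul, mul_one, hKK, a1, a2]
    abel
  set v := I + J + I * J with hv
  have hvv : v * v = -(3 : ℝ) • (1 : R) := by
    rw [hv, mul_add, mul_add, add_mul, add_mul, add_mul, add_mul, add_mul, add_mul, hII, hJJ,
      hJI, hIK, hJK, hKI, hKJ, hKK]
    have : (-(3 : ℝ) • (1 : R)) = -1 + -1 + -1 := by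
      rw [show (-(3 : ℝ)) = -1 + -1 + -1 by norm_num, add_smul, add_smul, neg_one_smul]
    rw [this]
    abel
  have hs : (2 : ℝ) • (v * X) = (3 : ℝ) • (1 : R) - v := by
    have h1 : (1 + X + X * X) - I * (1 + X + X * X) * I - J * (1 + X + X * X) * J
        - I * J * (1 + X + X * X) * (I * J) = 0 := by
      rw [z1, z2, z3, hX]; simp
    rw [e1, e2, e3, hXX] at h1
    have h2 : (3 : ℝ) • (1 : R) - v - (2 : ℝ) • (v * X) = 0 := by
      rw [← h1, hv, show (3 : ℝ) = 1 + 1 + 1 by norm_num, show (2 : ℝ) = 1 + 1 by norm_num]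
      simp only [add_smul, one_smul, add_mul, mul_add, mul_sub, mul_neg, mul_one]
      abel
    exact (sub_eq_zero.mp h2).symm
  have h3 : v * ((2 : ℝ) • (v * X)) = v * ((3 : ℝ) • (1 : R) - v) := by rw [hs]
  rw [mul_smul_comm, ← mul_assoc, hvv, mul_sub, hvv, mul_smul_comm, mul_one, smul_mul_assoc,
    one_mul, smul_smul] at h3
  have h4 : (2 : ℝ) • X = (-(1 : ℝ) / 3) • ((2 * -3 : ℝ) • X) := by
    rw [smul_smul]; norm_num
  rw [h4, h3, smul_sub, smul_smul, smul_smul]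
  norm_num
  rw [hv]
  abel

theorem rigid_sl {Γ₁ Γ₂ : Subgroup (Matrix.orthogonalGroup (Fin n) ℝ)} [Finite Γ₁] [Finite Γ₂] (h₁ : FreeOn Γ₁)
    (h₂ : FreeOn Γ₂) (T₁ : SL Γ₁) (T₂ : SL Γ₂) : Conj Γ₁ Γ₂ := by
  obtain ⟨x₁, i₁, j₁, z₁, x₁3, zz₁, zn₁, zo₁, ii₁, jj₁, ji₁, xi₁, xj₁, cl₁, hG₁⟩ := T₁
  obtain ⟨x₂, i₂, j₂, z₂, x₂3, zz₂, zn₂, zo₂, ii₂, jj₂, ji₂, xi₂, xj₂, cl₂, hG₂⟩ := T₂
  have key : ∀ (Γ : Subgroup (Matrix.orthogonalGroup (Fin n) ℝ)) (hΓ : FreeOn Γ) (x i j z : Γ), x ^ 3 = 1 → z * z = 1 →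
      z ≠ 1 → orderOf z = 2 →
      i * i = z → j * j = z → j * i = i * j * z → x * i * x⁻¹ = j → x * j * x⁻¹ = i * j →
      (2 : ℝ) • x.1.1 = -(1 + i.1.1 + j.1.1 + i.1.1 * j.1.1) ∧ i.1.1 * i.1.1 = -1 ∧
      j.1 * i.1 * j.1⁻¹ = i.1 ^ 3 ∧ j.1 * j.1 = i.1 ^ 2 ∧
      ∀ a : ℤ, (i.1 ^ a * j.1).1.trace = 0 := by
    intro Γ hΓ x i j z hx hzz hz1 hz hi hj hji hxi hxj
    have hzm := matrix_neg_of_order_two hΓ hz
    have hII : i.1.1 * i.1.1 = -1 := by
      rw [← hzm]; exact congrArg (fun g : Γ => g.1.1) hi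
    have hJJ : j.1.1 * j.1.1 = -1 := by
      rw [← hzm]; exact congrArg (fun g : Γ => g.1.1) hj
    have hJI : j.1.1 * i.1.1 = -(i.1.1 * j.1.1) := by
      have h1 : j.1.1 * i.1.1 = i.1.1 * j.1.1 * z.1.1 := congrArg (fun g : Γ => g.1.1) hji
      rw [h1, hzm, mul_neg, mul_one]
    have hXI : x.1.1 * i.1.1 = j.1.1 * x.1.1 := by
      have h1 : x * i = j * x := by rw [← hxi]; group
      exact congrArg (fun g : Γ => g.1.1) h1
    have hXJ : x.1.1 * j.1.1 = i.1.1 * j.1.1 * x.1.1 := by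
      have h1 : x * j = i * j * x := by rw [← hxj]; group
      exact congrArg (fun g : Γ => g.1.1) h1
    have hx1 : x ≠ 1 := by
      rintro rfl
      rw [one_mul, inv_one, mul_one] at hxi
      rw [← hxi, hi, hzz] at hji
      exact hz1 hji
    have hX : 1 + x.1.1 + x.1.1 * x.1.1 = 0 := by
      have h3 := norm_zero hΓ x.2 (fun h => hx1 (Subtype.ext h)) 3 (congrArg Subtype.val hx)
      rw [Finset.sum_range_succ, Finset.sum_range_succ, Finset.sum_range_one, pow_zero,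
        pow_one, pow_two] at h3
      exact h3
    refine ⟨tetra_formula hII hJJ hJI hXI hXJ hX, hII, ?_, ?_, ?_⟩
    · apply Subtype.ext
      have h1 : (j.1 * i.1 * j.1⁻¹).1 = j.1.1 * i.1.1 * (j.1⁻¹).1 := rfl
      have h2 : (i.1 ^ 3).1 = i.1.1 * i.1.1 * i.1.1 := by
        rw [pow_succ, pow_two]; rfl
      have h3 : j.1.1 * (j.1⁻¹).1 = 1 := congrArg Subtype.val (mul_inv_cancel j.1)
      rw [h1, h2, hJI, hII, neg_mul, mul_assoc, h3, mul_one, neg_one_mul]
    · apply Subtype.ext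
      have h2 : (i.1 ^ 2).1 = i.1.1 * i.1.1 := by
        rw [pow_two]; rfl
      rw [h2, hII]
      exact hJJ
    · intro a
      apply trace_of_sq_neg
      have hc : j * i * j⁻¹ = i ^ 3 := by
        apply Subtype.ext
        apply Subtype.ext
        have h1 : (j.1 * i.1 * j.1⁻¹).1 = j.1.1 * i.1.1 * (j.1⁻¹).1 := rfl
        have h2 : (i.1 ^ 3).1 = i.1.1 * i.1.1 * i.1.1 := by
          rw [pow_succ, pow_two]; rfl
        have h3 : j.1.1 * (j.1⁻¹).1 = 1 := congrArg Subtype.val (mul_inv_cancel j.1)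
        change (j.1 * i.1 * j.1⁻¹).1 = (i.1 ^ 3).1
        rw [h1, h2, hJI, hII, neg_mul, mul_assoc, h3, mul_one, neg_one_mul]
      have hb : j * j = i ^ 2 := by rw [pow_two, hi, hj]
      have h1 := sq_int hc hb a
      have h4 : i ^ (4 : ℤ) = 1 := by
        have : i ^ (4 : ℤ) = (i * i) * (i * i) := by
          have e : i ^ (4 : ℤ) = i ^ 4 := rfl
          rw [e]; simp only [pow_succ, pow_zero, one_mul, mul_assoc]
        rw [this, hi, hzz]
      have h2 : i ^ (a + ((3 : ℕ) : ℤ) * a + ((2 : ℕ) : ℤ)) = z := by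
        have e : (a + ((3 : ℕ) : ℤ) * a + ((2 : ℕ) : ℤ)) = 4 * a + ((2 : ℕ) : ℤ) := by
          push_cast; ring
        rw [e, zpow_add, zpow_mul, h4, one_zpow, one_mul, zpow_natCast, pow_two, hi]
      rw [h2] at h1
      have h5 : (i.1 ^ a * j.1).1 * (i.1 ^ a * j.1).1 = z.1.1 :=
        congrArg (fun g : Γ => g.1.1) h1
      rw [h5, hzm]
  obtain ⟨f₁, q₁, r₁, s₁, t₁⟩ := key Γ₁ h₁ x₁ i₁ j₁ z₁ x₁3 zz₁ zn₁ zo₁ ii₁ jj₁ ji₁ xi₁ xj₁
  obtain ⟨f₂, q₂, r₂, s₂, t₂⟩ := key Γ₂ h₂ x₂ i₂ j₂ z₂ x₂3 zz₂ zn₂ zo₂ ii₂ jj₂ ji₂ xi₂ xj₂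
  obtain ⟨A, hA1, hA2⟩ := simul_conj Γ₁ Γ₂ (c := 3) (b := 2) i₁.2 j₁.2 i₂.2 j₂.2 r₁ s₁ r₂ s₂
    (by intro a; rw [trace4 q₁, trace4 q₂]) (by intro a; rw [t₁, t₂])
  have m1 : A.1 * i₁.1.1 = i₂.1.1 * A.1 := congrArg Subtype.val hA1
  have m2 : A.1 * j₁.1.1 = j₂.1.1 * A.1 := congrArg Subtype.val hA2
  have hA3 : A * x₁.1 = x₂.1 * A := by
    apply Subtype.ext
    change A.1 * x₁.1.1 = x₂.1.1 * A.1
    have h3 : (2 : ℝ) • (A.1 * x₁.1.1) = (2 : ℝ) • (x₂.1.1 * A.1) := by
      rw [← mul_smul_comm, ← smul_mul_assoc, f₁, f₂, mul_neg, neg_mul, mul_add, mul_add, mul_add,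
        add_mul, add_mul, add_mul, mul_one, one_mul, m1, m2, ← mul_assoc, m1, mul_assoc, m2,
        ← mul_assoc]
    exact smul_right_injective _ (by norm_num : (2 : ℝ) ≠ 0) h3
  apply conj_of_subset A _ (by rw [hG₁, hG₂])
  have hle : Subgroup.closure ({x₁, i₁, j₁} : Set Γ₁) ≤
      Γ₂.comap ((MulAut.conj A).toMonoidHom.comp Γ₁.subtype) := by
    rw [Subgroup.closure_le]
    have e1 : A * i₁.1 * A⁻¹ = i₂.1 := by rw [hA1]; group
    have e2 : A * j₁.1 * A⁻¹ = j₂.1 := by rw [hA2]; group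
    have e3 : A * x₁.1 * A⁻¹ = x₂.1 := by rw [hA3]; group
    rintro g (rfl | rfl | rfl)
    · change A * g.1 * A⁻¹ ∈ Γ₂
      rw [e3]; exact x₂.2
    · change A * g.1 * A⁻¹ ∈ Γ₂
      rw [e1]; exact i₂.2
    · change A * g.1 * A⁻¹ ∈ Γ₂
      rw [e2]; exact j₂.2
  intro g hg
  rw [cl₁] at hle
  exact hle (Subgroup.mem_top (⟨g, hg⟩ : Γ₁))

open Classical in
theorem order_transfer {Γ₁ Γ₂ : Subgroup (Matrix.orthogonalGroup (Fin n) ℝ)} [Finite Γ₁] [Finite Γ₂] (h₁ : FreeOn Γ₁)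
    (h₂ : FreeOn Γ₂) (hn : 0 < n) (hh : hilb Γ₁ = hilb Γ₂) (d : ℕ) (hd : 0 < d) :
    Nat.card {g : Γ₁ // orderOf g = d} = Nat.card {g : Γ₂ // orderOf g = d} := by
  have : Fintype Γ₁ := Fintype.ofFinite _
  have : Fintype Γ₂ := Fintype.ofFinite _
  have h := card_order_eq h₁ h₂ hn hh d hd
  rw [Nat.card_eq_fintype_card, Nat.card_eq_fintype_card, Fintype.card_subtype,
    Fintype.card_subtype]
  exact h

theorem exists_order {Γ₁ Γ₂ : Subgroup (Matrix.orthogonalGroup (Fin n) ℝ)} [Finite Γ₁] [Finite Γ₂] (h₁ : FreeOn Γ₁)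
    (h₂ : FreeOn Γ₂) (hn : 0 < n) (hh : hilb Γ₁ = hilb Γ₂) (d : ℕ) (hd : 0 < d)
    (h : ∃ g : Γ₁, orderOf g = d) : ∃ g : Γ₂, orderOf g = d := by
  obtain ⟨g, hg⟩ := h
  have h3 := order_transfer h₁ h₂ hn hh d hd
  have h4 : 0 < Nat.card {g : Γ₁ // orderOf g = d} := by
    have : Nonempty {g : Γ₁ // orderOf g = d} := ⟨⟨g, hg⟩⟩
    exact Nat.card_pos
  rw [h3] at h4
  have h5 := (Nat.card_pos_iff.mp h4).1
  exact ⟨h5.some.1, h5.some.2⟩

/-- Counting the elements of order four in a group of order 24 with an element of order 12. -/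
theorem count4 {G : Type*} [Group G] [Finite G] (h : FPF G) {c b : ℕ} (T : T2 G 12 c b) :
    Nat.card {g : G // orderOf g = 4} = Nat.card {t : ZMod 12 × Bool //
      (if t.2 then t.1 + c * t.1 + b else 2 * t.1) = 6} := by
  classical
  obtain ⟨w, y, hw, hG, hy, hc, hb⟩ := T
  have hw6 : orderOf (w ^ 6) = 2 := by
    rw [orderOf_pow' w (by norm_num), hw]
    norm_num
  let f : ZMod 12 × Bool → G := fun t => w ^ t.1.val * (if t.2 then y else 1)
  have hnot : ∀ a b : ZMod 12, w ^ a.val * y ≠ w ^ b.val := by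
    intro a b hab
    apply hy
    have : y = (w ^ a.val)⁻¹ * w ^ b.val := by rw [← hab]; group
    rw [this]
    exact Subgroup.mul_mem _ (Subgroup.inv_mem _ (Subgroup.pow_mem _ (Subgroup.mem_zpowers w) _))
      (Subgroup.pow_mem _ (Subgroup.mem_zpowers w) _)
  have hinj : Function.Injective f := by
    rintro ⟨a, e⟩ ⟨a', e'⟩ hff
    have hval : ∀ a b : ZMod 12, w ^ a.val = w ^ b.val → a = b := by
      intro a b hab
      rw [pow_eq_pow_iff_zmod hw, ZMod.natCast_zmod_val, ZMod.natCast_zmod_val] at hab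
      exact hab
    rcases e with _ | _ <;> rcases e' with _ | _ <;> simp only [f, Bool.false_eq_true, if_false,
      if_true, mul_one] at hff
    · rw [hval _ _ hff]
    · exact absurd hff.symm (hnot _ _)
    · exact absurd hff (hnot _ _)
    · rw [hval _ _ (mul_right_cancel hff)]
  have hbij : Function.Bijective f := by
    apply hinj.bijective_of_nat_card_le
    rw [hG, Nat.card_prod, Nat.card_zmod]
    simp
  have hsq : ∀ t : ZMod 12 × Bool, f t * f t = w ^ 6 ↔
      (if t.2 then t.1 + c * t.1 + b else 2 * t.1) = 6 := by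
    rintro ⟨a, e⟩
    rcases e with _ | _
    · simp only [f, Bool.false_eq_true, if_false, mul_one]
      rw [← pow_add, pow_eq_pow_iff_zmod hw]
      push_cast
      rw [ZMod.natCast_zmod_val, two_mul]
    · simp only [f, if_true]
      rw [sq_formula hc hb, pow_eq_pow_iff_zmod hw]
      push_cast
      rw [ZMod.natCast_zmod_val]
  have h4 : ∀ g : G, orderOf g = 4 ↔ g * g = w ^ 6 := by
    intro g
    constructor
    · exact h.sq_eq_z hw6
    · intro hg
      have h66 : w ^ 6 * w ^ 6 = 1 := by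
        rw [← pow_two]
        have := pow_orderOf_eq_one (w ^ 6)
        rwa [hw6] at this
      have : Fact (Nat.Prime 2) := ⟨Nat.prime_two⟩
      have h5 : orderOf g = 2 ^ (1 + 1) := by
        apply orderOf_eq_prime_pow
        · rw [pow_one, pow_two, hg]
          intro h6
          rw [h6, orderOf_one] at hw6
          omega
        · rw [show 2 ^ (1 + 1) = 2 * 2 from rfl, pow_mul, pow_two g, hg, pow_two, h66]
      exact h5
  refine (Nat.card_congr ?_).symm
  exact {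
    toFun := fun t => ⟨f t.1, (h4 _).mpr ((hsq _).mpr t.2)⟩
    invFun := fun g => ⟨(Equiv.ofBijective f hbij).symm g.1, by
      rw [← hsq, ← h4]
      have : f ((Equiv.ofBijective f hbij).symm g.1) = g.1 :=
        (Equiv.ofBijective f hbij).apply_symm_apply g.1
      rw [this]
      exact g.2⟩
    left_inv := fun t => Subtype.ext ((Equiv.ofBijective f hbij).symm_apply_apply t.1)
    right_inv := fun g => Subtype.ext ((Equiv.ofBijective f hbij).apply_symm_apply g.1) }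

theorem c11 : Fintype.card {t : ZMod 12 × Bool //
      (if t.2 then t.1 + 11 * t.1 + 6 else 2 * t.1) = 6} = 14 := by decide

theorem c7 : Fintype.card {t : ZMod 12 × Bool //
      (if t.2 then t.1 + 7 * t.1 + 6 else 2 * t.1) = 6} = 6 := by decide

theorem pow12_of {G : Type*} [Group G] [Finite G] {c : ℕ} (hc : Even (1 + c))
    (T : T2 G 12 c 6) (g : G) : orderOf g ≠ 8 := by
  obtain ⟨w, y, hw, hG, hy, hcc, hb⟩ := T
  have hw12 : w ^ 12 = 1 := by rw [← hw]; exact pow_orderOf_eq_one w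
  have h12 : g ^ 12 = 1 := by
    obtain ⟨a, ha | ha⟩ := form_of_index_two (by norm_num) hw hG hy g
    · rw [ha, ← zpow_natCast, ← zpow_mul, mul_comm, zpow_mul, zpow_natCast, hw12, one_zpow]
    · obtain ⟨d, hd⟩ := hc
      have h1 := sq_int hcc hb a
      rw [← ha] at h1
      have h2 : g ^ 12 = (g * g) ^ 6 := by
        rw [← pow_two, ← pow_mul]
      rw [h2, h1, ← zpow_natCast, ← zpow_mul]
      have e : (a + (c : ℤ) * a + ((6 : ℕ) : ℤ)) * ((6 : ℕ) : ℤ) =
          ((12 : ℕ) : ℤ) * ((d : ℤ) * a + 3) := by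
        have h3 : (1 : ℤ) + c = d + d := by exact_mod_cast hd
        have h4 : (c : ℤ) = d + d - 1 := by linarith
        rw [h4]; push_cast; ring
      rw [e, zpow_mul, zpow_natCast, hw12, one_zpow]
  intro h8
  have h1 := orderOf_dvd_of_pow_eq_one h12
  rw [h8] at h1
  omega

theorem order8_of {G : Type*} [Group G] (T : T2 G 12 5 9) : ∃ g : G, orderOf g = 8 := by
  obtain ⟨w, y, hw, hG, hy, hcc, hb⟩ := T
  have hw12 : w ^ 12 = 1 := by rw [← hw]; exact pow_orderOf_eq_one w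
  have : Fact (Nat.Prime 2) := ⟨Nat.prime_two⟩
  refine ⟨y, ?_⟩
  have h5 : orderOf y = 2 ^ (2 + 1) := by
    apply orderOf_eq_prime_pow
    · have h1 : y ^ 2 ^ 2 = w ^ 18 := by
        rw [show 2 ^ 2 = 2 * 2 from rfl, pow_mul, pow_two y, hb, ← pow_mul]
      rw [h1]
      intro h6
      have := orderOf_dvd_of_pow_eq_one h6
      rw [hw] at this
      omega
    · have h1 : y ^ 2 ^ (2 + 1) = w ^ 36 := by
        rw [show 2 ^ (2 + 1) = 2 * 4 from rfl, pow_mul, pow_two y, hb, ← pow_mul]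
      rw [h1, show 36 = 12 * 3 from rfl, pow_mul, hw12, one_pow]
  exact h5

theorem order12_of {G : Type*} [Group G] {c b : ℕ} (T : T2 G 12 c b) :
    ∃ g : G, orderOf g = 12 := by
  obtain ⟨w, y, hw, _⟩ := T
  exact ⟨w, hw⟩

theorem T2_card {G : Type*} [Group G] {m c b : ℕ} (T : T2 G m c b) : Nat.card G = 2 * m := by
  obtain ⟨w, y, hw, hG, _⟩ := T
  exact hG

theorem SL_card {G : Type*} [Group G] (T : SL G) : Nat.card G = 24 := by
  obtain ⟨x, i, j, z, _, _, _, _, _, _, _, _, _, _, hG⟩ := T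
  exact hG

/-- **Rigidity.** Below order 29 a minimal isospectral pair with a non-cyclic member is
isometric. -/
theorem rigid {Γ₁ Γ₂ : Subgroup (Matrix.orthogonalGroup (Fin n) ℝ)} [Finite Γ₁] [Finite Γ₂] (h₁ : FreeOn Γ₁)
    (h₂ : FreeOn Γ₂) (hn : 0 < n) (hh : hilb Γ₁ = hilb Γ₂) (hle : Nat.card Γ₁ ≤ 28)
    (hmin : ∀ C₁ C₂ : Subgroup (Matrix.orthogonalGroup (Fin n) ℝ), Finite C₁ → Finite C₂ → FreeOn C₁ → FreeOn C₂ →
      hilb C₁ = hilb C₂ → Nat.card C₁ < Nat.card Γ₁ → Conj C₁ C₂)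
    (hnc : ¬ (IsCyclic Γ₁ ∧ IsCyclic Γ₂)) : Conj Γ₁ Γ₂ := by
  classical
  have hcard : Nat.card Γ₁ = Nat.card Γ₂ := by
    have : Fintype Γ₁ := Fintype.ofFinite _
    have : Fintype Γ₂ := Fintype.ofFinite _
    rw [Nat.card_eq_fintype_card, Nat.card_eq_fintype_card]
    exact (sep h₁ h₂ hn hh).1
  have cyc : ∀ {Γ Γ' : Subgroup (Matrix.orthogonalGroup (Fin n) ℝ)} [Finite Γ] [Finite Γ'], FreeOn Γ → FreeOn Γ' →
      hilb Γ = hilb Γ' → Nat.card Γ = Nat.card Γ' → IsCyclic Γ → IsCyclic Γ' := by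
    intro Γ Γ' _ _ hΓ hΓ' hh' hc' hcyc
    obtain ⟨g, hg⟩ := hcyc.exists_ofOrder_eq_natCard
    obtain ⟨g', hg'⟩ := exists_order hΓ hΓ' hn hh' (Nat.card Γ) Nat.card_pos ⟨g, hg⟩
    exact cyclic_of_order g' hg' hc'.symm
  have n₁ : ¬ IsCyclic Γ₁ := fun h => hnc ⟨h, cyc h₁ h₂ hh hcard h⟩
  have n₂ : ¬ IsCyclic Γ₂ := fun h => hnc ⟨cyc h₂ h₁ hh.symm hcard.symm h, h⟩
  have p₁ := fpf h₁ hn
  have p₂ := fpf h₂ hn
  have k₁ := p₁.classify n₁ hle
  have k₂ := p₂.classify n₂ (hcard ▸ hle)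
  -- mismatches in order 24
  have x12 := exists_order h₁ h₂ hn hh 12 (by norm_num)
  have x12' := exists_order h₂ h₁ hn hh.symm 12 (by norm_num)
  have x8 := exists_order h₁ h₂ hn hh 8 (by norm_num)
  have x8' := exists_order h₂ h₁ hn hh.symm 8 (by norm_num)
  have x4 := order_transfer h₁ h₂ hn hh 4 (by norm_num)
  rcases k₁ with T | T | T | T | T | T | T | T | ⟨T, T'⟩ <;>
    rcases k₂ with S | S | S | S | S | S | S | S | ⟨S, S'⟩ <;>
    try (exfalso; have a1 := T2_card T; have a2 := T2_card S; omega)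
  all_goals try (exfalso; have a1 := T2_card T; have a2 := SL_card S; omega)
  all_goals try (exfalso; have a1 := SL_card T; have a2 := T2_card S; omega)
  · exact rigid_dic h₁ h₂ hh hmin (k := 2) (by norm_num) T S
  · exact rigid_dic h₁ h₂ hh hmin (k := 3) (by norm_num) T S
  · exact rigid_dic h₁ h₂ hh hmin (k := 4) (by norm_num) T S
  · exact rigid_dic h₁ h₂ hh hmin (k := 5) (by norm_num) T S
  · exact rigid_dic h₁ h₂ hh hmin (k := 7) (by norm_num) T S
  · exact rigid_dic h₁ h₂ hh hmin (k := 6) (by norm_num) T S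
  · exfalso
    rw [count4 p₁ T, count4 p₂ S, Nat.card_eq_fintype_card, Nat.card_eq_fintype_card] at x4
    have e1 := c11
    have e2 := c7
    push_cast at x4
    rw [e1, e2] at x4
    omega
  · exfalso
    obtain ⟨g, hg⟩ := x8' (order8_of S)
    exact pow12_of (by decide) T g hg
  · exfalso
    obtain ⟨g, hg⟩ := x12 (order12_of T)
    exact S' g hg
  · exfalso
    rw [count4 p₁ T, count4 p₂ S, Nat.card_eq_fintype_card, Nat.card_eq_fintype_card] at x4
    have e1 := c11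
    have e2 := c7
    push_cast at x4
    rw [e1, e2] at x4
    omega
  · exact rigid_7_6 h₁ h₂ T S
  · exfalso
    obtain ⟨g, hg⟩ := x8' (order8_of S)
    exact pow12_of (by decide) T g hg
  · exfalso
    obtain ⟨g, hg⟩ := x12 (order12_of T)
    exact S' g hg
  · exfalso
    obtain ⟨g, hg⟩ := x8 (order8_of T)
    exact pow12_of (by decide) S g hg
  · exfalso
    obtain ⟨g, hg⟩ := x8 (order8_of T)
    exact pow12_of (by decide) S g hg
  · exact rigid_5_9 h₁ h₂ T S
  · exfalso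
    obtain ⟨g, hg⟩ := x12 (order12_of T)
    exact S' g hg
  · exfalso
    obtain ⟨g, hg⟩ := x12' (order12_of S)
    exact T' g hg
  · exfalso
    obtain ⟨g, hg⟩ := x12' (order12_of S)
    exact T' g hg
  · exfalso
    obtain ⟨g, hg⟩ := x12' (order12_of S)
    exact T' g hg
  · exact rigid_sl h₁ h₂ T S

end Pool.Agent.Helper477.Sph
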